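import Mathlib

/-!
# MP_424f45_al: the arithmetic of uniformity
-/

set_option autoImplicit false

namespace Pool.Agent.Lib.MP_424f45_al

open Polynomial

/-- the coefficients solve a triangular recursion -/
theorem ari_rec (P Q : Polynomial (Polynomial ℚ)) (k0 : ℕ) (hk0 : ∀ k < k0, Q.coeff k = 0)
    (m : ℕ) : ∃ U : ℚ[X], ∀ (q : ℚ) (a : ℕ → ℕ),
      (↑(Q.map (evalRingHom q)) : PowerSeries ℚ) * PowerSeries.mk (fun k => ((a k : ℕ) : ℚ)) =
        (↑(P.map (evalRingHom q)) : PowerSeries ℚ) →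
      ((Q.coeff k0) ^ (m + 1)).eval q * (a m : ℚ) = U.eval q := by
  induction m using Nat.strong_induction_on with
  | _ m ih =>
    choose! U hU using ih
    refine ⟨(Q.coeff k0) ^ m * P.coeff (k0 + m) -
      ∑ j ∈ Finset.range m, Q.coeff (k0 + m - j) * (Q.coeff k0) ^ (m - 1 - j) * U j, ?_⟩
    intro q a h
    have h1 := congrArg (PowerSeries.coeff (k0 + m)) h
    rw [PowerSeries.coeff_mul, Polynomial.coeff_coe, Polynomial.coeff_map] at h1
    rw [Finset.Nat.sum_antidiagonal_eq_sum_range_succ_mk] at h1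
    simp only [Polynomial.coeff_coe, Polynomial.coeff_map, PowerSeries.coeff_mk] at h1
    -- reflect the sum
    rw [← Finset.sum_range_reflect] at h1
    have h2 : ∑ j ∈ Finset.range (k0 + m + 1),
        (evalRingHom q) (Q.coeff (k0 + m + 1 - 1 - j)) * (a (k0 + m - (k0 + m + 1 - 1 - j)) : ℚ) =
        ∑ j ∈ Finset.range (m + 1), (evalRingHom q) (Q.coeff (k0 + m - j)) * (a j : ℚ) := by
      symm
      refine Finset.sum_subset_zero_on_sdiff (Finset.range_subset_range.mpr (by omega)) ?_ ?_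
      · intro j hj
        rw [Finset.mem_sdiff, Finset.mem_range, Finset.mem_range] at hj
        rw [hk0 (k0 + m + 1 - 1 - j) (by omega), map_zero, zero_mul]
      · intro j hj
        rw [Finset.mem_range] at hj
        have e1 : k0 + m + 1 - 1 - j = k0 + m - j := by omega
        have e2 : k0 + m - (k0 + m - j) = j := by omega
        rw [e1, e2]
    rw [h2, Finset.sum_range_succ] at h1
    have e3 : k0 + m - m = k0 := by omega
    rw [e3] at h1
    simp only [coe_evalRingHom] at h1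
    rw [eval_sub, eval_mul, eval_finsetSum, ← h1, eval_pow, eval_pow]
    have h4 : ∀ j ∈ Finset.range m, eval q (Q.coeff (k0 + m - j) * (Q.coeff k0) ^ (m - 1 - j) * U j) =
        eval q (Q.coeff k0) ^ m * (eval q (Q.coeff (k0 + m - j)) * (a j : ℚ)) := by
      intro j hj
      rw [Finset.mem_range] at hj
      rw [eval_mul, eval_mul, ← hU j hj q a h, eval_pow, eval_pow]
      have e4 : eval q (Q.coeff k0) ^ m =
          eval q (Q.coeff k0) ^ (m - 1 - j) * eval q (Q.coeff k0) ^ (j + 1) := by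
        rw [← pow_add]
        congr 1
        omega
      rw [e4]
      ring
    rw [Finset.sum_congr rfl h4, ← Finset.mul_sum]
    ring

/-- a rational polynomial times a positive integer is integral -/
theorem ari_int (w : ℚ[X]) : ∃ (M : ℕ) (W : ℤ[X]), M ≠ 0 ∧
    W.map (Int.castRingHom ℚ) = C (M : ℚ) * w := by
  obtain ⟨b, hb1, hb2⟩ := IsLocalization.integerNormalization_spec (nonZeroDivisors ℤ) w
  have hb : b ≠ 0 := nonZeroDivisors.ne_zero hb1
  refine ⟨b.natAbs, C (Int.sign b) * IsLocalization.integerNormalization (nonZeroDivisors ℤ) w,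
    Int.natAbs_ne_zero.mpr hb, ?_⟩
  have h1 : (IsLocalization.integerNormalization (nonZeroDivisors ℤ) w).map
      (Int.castRingHom ℚ) = C (b : ℚ) * w := by
    have h2 := hb2
    rw [show (algebraMap ℤ ℚ) = Int.castRingHom ℚ from rfl] at h2
    rw [h2, zsmul_eq_mul]
    simp
  rw [Polynomial.map_mul, h1, map_C, ← mul_assoc, ← C_mul]
  congr 2
  have h3 : (b.natAbs : ℤ) = Int.sign b * b := by
    rw [Int.sign_mul_self]
  have h4 : ((b.natAbs : ℤ) : ℚ) = ((Int.sign b * b : ℤ) : ℚ) := by rw [h3]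
  push_cast at h4
  simp only [eq_intCast]
  rw [← h4]
  simp

theorem exists_prime_class (e N : ℕ) : ∃ p > N, p.Prime ∧ p ≡ 1 [MOD 5 ^ (e + 1)] ∧ p % 3 = 2 ∧
    p % 5 = 1 := by
  have hco : Nat.Coprime (5 ^ (e + 1)) 3 := Nat.Coprime.pow_left _ (by norm_num)
  obtain ⟨r, hr1, hr2⟩ := Nat.chineseRemainder hco 1 2
  have h5 : r.Coprime (5 ^ (e + 1)) := by
    have := hr1.gcd_eq
    rw [Nat.Coprime, this]
    simp
  have h3 : r.Coprime 3 := by
    have := hr2.gcd_eq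
    rw [Nat.Coprime, this]
    norm_num
  obtain ⟨p, hp1, hp2, hp3⟩ := Nat.forall_exists_prime_gt_and_modEq N
    (q := 5 ^ (e + 1) * 3) (a := r) (by positivity) (Nat.Coprime.mul_right h5 h3)
  have h6 : p ≡ 1 [MOD 5 ^ (e + 1)] := (hp3.of_mul_right 3).trans hr1
  refine ⟨p, hp1, hp2, h6, ?_, ?_⟩
  · exact (hp3.of_mul_left (5 ^ (e + 1))).trans hr2
  · have : p ≡ 1 [MOD 5] := h6.of_dvd (dvd_pow_self 5 (by omega))
    exact this

theorem arith (P Q : Polynomial (Polynomial ℚ)) (S : Finset ℕ) (n : ℕ)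
    (h : ∀ p : ℕ, p.Prime → p ∉ S → p % 3 = 2 → p % 5 = 1 → ∃ a b : ℕ → ℕ,
      (Q.map (evalRingHom ((p : ℕ) : ℚ)) ≠ 0 ∧
        (↑(Q.map (evalRingHom ((p : ℕ) : ℚ))) : PowerSeries ℚ) *
          PowerSeries.mk (fun k => ((a k : ℕ) : ℚ)) =
          (↑(P.map (evalRingHom ((p : ℕ) : ℚ))) : PowerSeries ℚ)) ∧
      (Q.map (evalRingHom ((p ^ 2 : ℕ) : ℚ)) ≠ 0 ∧
        (↑(Q.map (evalRingHom ((p ^ 2 : ℕ) : ℚ))) : PowerSeries ℚ) *
          PowerSeries.mk (fun k => ((b k : ℕ) : ℚ)) =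
          (↑(P.map (evalRingHom ((p ^ 2 : ℕ) : ℚ))) : PowerSeries ℚ)) ∧
      ¬ a n ≡ b n [MOD 5]) : False := by
  -- `Q` is nonzero
  have hQ : Q ≠ 0 := by
    rintro rfl
    obtain ⟨p, hp1, hp2, -, hp3, hp4⟩ := exists_prime_class 0 (S.sup id)
    have hpS : p ∉ S := by
      intro hp
      have : p ≤ S.sup id := Finset.le_sup (f := id) hp
      omega
    obtain ⟨a, b, ⟨h1, -⟩, -⟩ := h p hp2 hpS hp3 hp4
    simp at h1
  set k0 := Q.natTrailingDegree with hk0
  have hc : Q.coeff k0 ≠ 0 := by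
    rw [hk0]
    exact Polynomial.trailingCoeff_nonzero_iff_nonzero.mpr hQ
  obtain ⟨U, hU⟩ := ari_rec P Q k0 (fun k hk => Polynomial.coeff_eq_zero_of_lt_natTrailingDegree hk) n
  set D := (Q.coeff k0) ^ (n + 1) with hD
  have hD0 : D ≠ 0 := pow_ne_zero _ hc
  set w := U / D with hw
  set R := U % D with hR
  have hUD : U = D * w + R := (EuclideanDomain.div_add_mod U D).symm
  have hdeg : R.degree < D.degree := EuclideanDomain.mod_lt U hD0
  obtain ⟨M, W, hM, hW⟩ := ari_int w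
  have hWe : ∀ x : ℕ, ((W.eval (x : ℤ) : ℤ) : ℚ) = M * w.eval (x : ℚ) := by
    intro x
    have h1 := congrArg (Polynomial.eval (x : ℚ)) hW
    rw [eval_mul, eval_C] at h1
    rw [← h1, Polynomial.eval_map]
    have h2 := Polynomial.eval₂_at_intCast (p := W) (Int.castRingHom ℚ) (x : ℤ)
    simp only [Int.cast_natCast, eq_intCast] at h2
    exact h2.symm
  -- the remainder vanishes
  have hlim := Polynomial.div_tendsto_atTop_zero_of_degree_lt R D hdeg
  have hev : ∀ᶠ x : ℚ in Filter.atTop, |(M : ℚ) * (eval x R / eval x D)| < 1 := by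
    have h1 := hlim.const_mul (M : ℚ)
    rw [mul_zero] at h1
    have h2 := h1.abs
    rw [abs_zero] at h2
    exact h2.eventually (gt_mem_nhds one_pos)
  have hev2 : ∀ᶠ x : ℚ in Filter.atTop, eval x D ≠ 0 := by
    have h1 : {x | IsRoot D x}.Finite := by
      by_contra hinf
      exact hD0 (Polynomial.eq_zero_of_infinite_isRoot D hinf)
    obtain ⟨B, hB⟩ := h1.bddAbove
    filter_upwards [Filter.eventually_gt_atTop B] with x hx h0
    exact absurd (hB (show x ∈ {x | IsRoot D x} from h0)) (not_le.mpr hx)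
  obtain ⟨X0, hX0⟩ := Filter.eventually_atTop.mp (hev.and hev2)
  obtain ⟨N0, hN0⟩ := exists_nat_ge X0
  -- all good primes
  have hS : ∀ p : ℕ, p > S.sup id → p ∉ S := by
    intro p hp hpS
    have : p ≤ S.sup id := Finset.le_sup (f := id) hpS
    omega
  have hroot : ∀ p : ℕ, p > max N0 (S.sup id) → p.Prime → p % 3 = 2 → p % 5 = 1 →
      eval (p : ℚ) R = 0 := by
    intro p hp1 hp2 hp3 hp4
    obtain ⟨a, b, ⟨-, h1⟩, -⟩ := h p hp2 (hS p (lt_of_le_of_lt (le_max_right _ _) hp1)) hp3 hp4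
    have h2 := hU (p : ℚ) a h1
    have hpX : X0 ≤ (p : ℚ) := le_trans hN0 (by
      exact_mod_cast (le_of_lt (lt_of_le_of_lt (le_max_left _ _) hp1)))
    obtain ⟨h3, h4⟩ := hX0 (p : ℚ) hpX
    rw [hUD, eval_add, eval_mul] at h2
    have h5 : (M : ℚ) * (eval (p : ℚ) R / eval (p : ℚ) D) =
        (((M : ℤ) * (a n : ℤ) - W.eval (p : ℤ) : ℤ) : ℚ) := by
      have h6 : eval (p : ℚ) R / eval (p : ℚ) D = (a n : ℚ) - eval (p : ℚ) w := by
        rw [div_eq_iff h4]
        linear_combination (-1 : ℚ) * h2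
      rw [Int.cast_sub, hWe p, h6]
      push_cast
      ring
    rw [h5, ← Int.cast_abs] at h3
    have h6 : |(M : ℤ) * (a n : ℤ) - W.eval (p : ℤ)| < 1 := by exact_mod_cast h3
    have h7 : (M : ℤ) * (a n : ℤ) - W.eval (p : ℤ) = 0 := Int.abs_lt_one_iff.mp h6
    rw [h7, Int.cast_zero, mul_eq_zero, div_eq_zero_iff] at h5
    rcases h5 with h5 | h5 | h5
    · exact absurd (by exact_mod_cast h5) hM
    · exact h5
    · exact absurd h5 h4
  have hR0 : R = 0 := by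
    apply Polynomial.eq_zero_of_infinite_isRoot
    have h1 : Set.Infinite {p : ℕ | p > max N0 (S.sup id) ∧ p.Prime ∧ p % 3 = 2 ∧ p % 5 = 1} := by
      rw [Set.infinite_iff_exists_gt]
      intro N
      obtain ⟨p, hp1, hp2, -, hp3, hp4⟩ := exists_prime_class 0 (max N (max N0 (S.sup id)))
      exact ⟨p, ⟨lt_of_le_of_lt (le_max_right _ _) hp1, hp2, hp3, hp4⟩,
        lt_of_le_of_lt (le_max_left _ _) hp1⟩
    refine Set.Infinite.mono ?_ (h1.image (f := fun p : ℕ => (p : ℚ)) Nat.cast_injective.injOn)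
    rintro _ ⟨p, ⟨hp1, hp2, hp3, hp4⟩, rfl⟩
    exact hroot p hp1 hp2 hp3 hp4
  rw [hR0, add_zero] at hUD
  -- the congruence
  obtain ⟨M', hM', hMe⟩ : ∃ M' : ℕ, ¬ 5 ∣ M' ∧ M = 5 ^ (M.factorization 5) * M' :=
    ⟨M / 5 ^ (M.factorization 5), Nat.not_dvd_ordCompl (by norm_num) hM,
      (Nat.ordProj_mul_ordCompl_eq_self M 5).symm⟩
  set e := M.factorization 5 with he
  obtain ⟨p, hp1, hp2, hp5, hp3, hp4⟩ := exists_prime_class e (max N0 (S.sup id))
  obtain ⟨a, b, ⟨-, h1⟩, ⟨-, h2⟩, h3⟩ := h p hp2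
    (hS p (lt_of_le_of_lt (le_max_right _ _) hp1)) hp3 hp4
  apply h3
  have hpX : X0 ≤ (p : ℚ) := le_trans hN0 (by
    exact_mod_cast (le_of_lt (lt_of_le_of_lt (le_max_left _ _) hp1)))
  have hp2X : X0 ≤ ((p ^ 2 : ℕ) : ℚ) := le_trans hpX (by
    exact_mod_cast Nat.le_self_pow two_ne_zero p)
  have key : ∀ (q : ℕ) (c : ℕ → ℕ), X0 ≤ (q : ℚ) →
      (↑(Q.map (evalRingHom ((q : ℕ) : ℚ))) : PowerSeries ℚ) *
          PowerSeries.mk (fun k => ((c k : ℕ) : ℚ)) =
          (↑(P.map (evalRingHom ((q : ℕ) : ℚ))) : PowerSeries ℚ) →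
      (M : ℤ) * (c n : ℤ) = W.eval (q : ℤ) := by
    intro q c hq hc
    have h4 := hU (q : ℚ) c hc
    rw [hUD, eval_mul] at h4
    have h5 := mul_left_cancel₀ (hX0 (q : ℚ) hq).2 h4
    have h6 : (((M : ℤ) * (c n : ℤ) : ℤ) : ℚ) = ((W.eval (q : ℤ) : ℤ) : ℚ) := by
      rw [hWe q, ← h5]
      push_cast
      ring
    exact_mod_cast h6
  have ha := key p a hpX h1
  have hb := key (p ^ 2) b hp2X h2
  have h7 : ((p ^ 2 : ℕ) : ℤ) ≡ (p : ℤ) [ZMOD (5 ^ (e + 1) : ℕ)] := by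
    rw [Int.natCast_modEq_iff]
    have := hp5.pow 2
    rw [one_pow] at this
    exact this.trans hp5.symm
  have h8 : W.eval ((p ^ 2 : ℕ) : ℤ) ≡ W.eval (p : ℤ) [ZMOD (5 ^ (e + 1) : ℕ)] := by
    rw [Int.modEq_iff_dvd] at h7 ⊢
    exact h7.trans (Polynomial.sub_dvd_eval_sub _ _ W)
  rw [← ha, ← hb] at h8
  rw [Int.modEq_iff_dvd, ← mul_sub, hMe] at h8
  push_cast at h8
  rw [pow_succ, mul_assoc] at h8
  have h9 : (5 : ℤ) ∣ (M' : ℤ) * ((a n : ℤ) - (b n : ℤ)) :=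
    Int.dvd_of_mul_dvd_mul_left (by positivity) h8
  have h10 : IsCoprime (5 : ℤ) (M' : ℤ) := by
    rw [Int.isCoprime_iff_gcd_eq_one]
    have h11 : Nat.Coprime 5 M' := (Nat.Prime.coprime_iff_not_dvd (by norm_num)).mpr hM'
    exact_mod_cast h11
  have h12 : (5 : ℤ) ∣ (a n : ℤ) - (b n : ℤ) := h10.dvd_of_dvd_mul_left h9
  have h13 : (b n : ℤ) ≡ (a n : ℤ) [ZMOD (5 : ℕ)] := by
    rw [Int.modEq_iff_dvd]
    exact_mod_cast h12
  exact (Int.natCast_modEq_iff.mp h13).symm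

end Pool.Agent.Lib.MP_424f45_al
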