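import Pool.Agent.Lib.MP_424f45_al.Defs

/-!
# MP_424f45_al: orbits of contents under the shift
-/

set_option autoImplicit false

namespace Pool.Agent.Lib.MP_424f45_al

/-- contents pulled back along the shift of letters -/
def shc (χ : Fin 6 → ZMod 5) : Fin 6 → ZMod 5 := fun x => χ (sh x)

theorem sh5 (x : Fin 6) : sh (sh (sh (sh (sh x)))) = x := by
  revert x; decide

theorem shc5 (χ : Fin 6 → ZMod 5) : shc (shc (shc (shc (shc χ)))) = χ := by
  funext x
  simp only [shc, sh5]

theorem shc_iter5 (χ : Fin 6 → ZMod 5) : shc^[5] χ = χ := shc5 χ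

theorem dg_shc (χ : Fin 6 → ZMod 5) : dg (shc χ) = dg χ := by
  simp only [dg, shc, Fin.sum_univ_six]
  simp only [sh, Matrix.cons_val_zero, Matrix.cons_val_one, Matrix.cons_val]
  ring

theorem dg_iter (k : ℕ) (χ : Fin 6 → ZMod 5) : dg (shc^[k] χ) = dg χ := by
  induction k generalizing χ with
  | zero => rfl
  | succ k ih => rw [Function.iterate_succ_apply, ih, dg_shc]

/-- if a proper iterate fixes a point then the point is fixed -/
theorem iter_fixed {X : Type*} (g : X → X) (h5 : ∀ x, g^[5] x = x) (d : ℕ) (h0 : 0 < d) (hd : d < 5)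
    (x : X) (h : g^[d] x = x) : g x = x := by
  have h5' : g (g (g (g (g x)))) = x := h5 x
  interval_cases d
  · exact h
  · have h' : g (g x) = x := h
    rw [h', h'] at h5'
    exact h5'
  · have h' : g (g (g x)) = x := h
    have h2 : g (g x) = x := by rw [h'] at h5'; exact h5'
    rw [h2] at h'
    exact h'
  · have h' : g (g (g (g x))) = x := h
    rw [h'] at h5'
    exact h5'

/-- sums over orbits -/
theorem orb_sum {X ι : Type*} [Fintype X] [Fintype ι] [DecidableEq X]
    (g : X → X) (h5 : ∀ x, g^[5] x = x) (f : X → ℕ) (hf : ∀ x, f (g x) = f x) (r : ι → X)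
    (h1 : ∀ i, g (r i) ≠ r i) (h2 : ∀ i i', i ≠ i' → ∀ k, g^[k] (r i) ≠ r i') :
    5 * ∑ i, f (r i) ≤ ∑ x, f x := by
  have hfk : ∀ k x, f (g^[k] x) = f x := by
    intro k
    induction k with
    | zero => intro x; rfl
    | succ k ih => intro x; rw [Function.iterate_succ_apply, ih, hf]
  have hper : ∀ a b : ℕ, ∀ x, g^[a + 5 * b] x = g^[a] x := by
    intro a b
    induction b with
    | zero => intro x; rfl
    | succ b ih =>
      intro x
      rw [show a + 5 * (b + 1) = (a + 5 * b) + 5 by ring, Function.iterate_add_apply, h5, ih]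
  have hinj : Function.Injective (fun p : ι × Fin 5 => g^[(p.2 : ℕ)] (r p.1)) := by
    rintro ⟨i, a⟩ ⟨i', b⟩ hab
    simp only at hab
    have hii : i = i' := by
      by_contra hne
      refine h2 i i' hne (a + (5 - b)) ?_
      have e : g^[(5 - b : ℕ)] (g^[(b : ℕ)] (r i')) = r i' := by
        rw [← Function.iterate_add_apply, show (5 - (b : ℕ)) + b = 5 by omega, h5]
      rw [← hab, ← Function.iterate_add_apply] at e
      rw [← e]
      congr 1
      rw [add_comm]
    subst hii
    congr 1
    by_contra hne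
    have hne' : (a : ℕ) ≠ b := fun h => hne (Fin.ext h)
    rcases lt_or_gt_of_ne hne' with h | h
    · apply h1 i
      refine iter_fixed g h5 (b - a) (by omega) (by omega) (r i) ?_
      have e : g^[(5 - a : ℕ)] (g^[(b : ℕ)] (r i)) = r i := by
        rw [← hab, ← Function.iterate_add_apply, show (5 - (a : ℕ)) + a = 5 by omega, h5]
      rw [← Function.iterate_add_apply] at e
      rw [show (5 - (a : ℕ)) + b = (b - a) + 5 * 1 by omega, hper] at e
      exact e
    · apply h1 i
      refine iter_fixed g h5 (a - b) (by omega) (by omega) (r i) ?_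
      have e : g^[(5 - b : ℕ)] (g^[(a : ℕ)] (r i)) = r i := by
        rw [hab, ← Function.iterate_add_apply, show (5 - (b : ℕ)) + b = 5 by omega, h5]
      rw [← Function.iterate_add_apply] at e
      rw [show (5 - (b : ℕ)) + a = (a - b) + 5 * 1 by omega, hper] at e
      exact e
  calc 5 * ∑ i, f (r i) = ∑ p : ι × Fin 5, f (g^[(p.2 : ℕ)] (r p.1)) := by
        simp only [hfk]
        rw [Fintype.sum_prod_type]
        simp [Finset.mul_sum]
    _ = ∑ x ∈ Finset.univ.map ⟨_, hinj⟩, f x := by
        rw [Finset.sum_map]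
        rfl
    _ ≤ ∑ x, f x := Finset.sum_le_sum_of_subset (Finset.subset_univ _)

end Pool.Agent.Lib.MP_424f45_al
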