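import Pool.Agent.Lib.MP_424f45_al.CW
import Pool.Agent.Lib.MP_424f45_al.Orb

/-!
# MP_424f45_al: eigenspace decompositions, part 1
-/

set_option autoImplicit false

namespace Pool.Agent.Lib.MP_424f45_al

theorem sh_surjective : Function.Surjective sh := by decide

theorem ct_cons (k : Fin 6) (w : List (Fin 6)) : ct (k :: w) = ct [k] + ct w := by
  funext x
  simp only [ct, Pi.add_apply]
  rw [← List.singleton_append, List.count_append, Nat.cast_add]

theorem ct_swap (j k : Fin 6) (w : List (Fin 6)) : ct (j :: k :: w) = ct (k :: j :: w) := by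
  rw [ct_cons j (k :: w), ct_cons k w, ct_cons k (j :: w), ct_cons j w]
  abel

namespace Sys

variable {O L : Type} [CommRing O] [LieRing L] [LieAlgebra O L] (S : Sys O L)

theorem pow_val_add (a b : ZMod 5) : S.ζ ^ (a + b).val = S.ζ ^ a.val * S.ζ ^ b.val := by
  rw [ZMod.val_add, ← pow_add]
  conv_rhs => rw [← Nat.div_add_mod (a.val + b.val) 5, pow_add, pow_mul, S.hζ, one_pow, one_mul]

theorem e_mem_Lx (x : Fin 6) : S.e x ∈ S.Lx (ct [x]) := by
  intro y
  rw [S.τ_e]
  by_cases h : x = y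
  · subst h
    have h1 : ct [x] x = 1 := by simp [ct]
    rw [if_pos rfl, h1]
    have h2 : (1 : ZMod 5).val = 1 := by decide
    rw [h2, pow_one]
  · have h1 : ct [x] y = 0 := by simp [ct, h]
    rw [if_neg h, h1, ZMod.val_zero, pow_zero, one_smul]

theorem lie_mem_Lx {χ χ' : Fin 6 → ZMod 5} {u v : L} (hu : u ∈ S.Lx χ) (hv : v ∈ S.Lx χ') :
    ⁅u, v⁆ ∈ S.Lx (χ + χ') := by
  intro x
  rw [LieHom.map_lie, hu x, hv x, smul_lie, lie_smul, smul_smul, Pi.add_apply, S.pow_val_add]

theorem br_mem_Lx (w : List (Fin 6)) (j : Fin 6) : br S.e w j ∈ S.Lx (ct (j :: w)) := by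
  induction w with
  | nil => exact S.e_mem_Lx j
  | cons k w ih =>
    rw [ct_swap, ct_cons, br_cons]
    exact S.lie_mem_Lx (S.e_mem_Lx k) ih

/-- linear maps which agree on brackets are equal -/
theorem lin_ext {f g : L →ₗ[O] L} (h : ∀ w j, f (br S.e w j) = g (br S.e w j)) : f = g := by
  refine LinearMap.ext_on S.span ?_
  rintro _ ⟨w, j, -, rfl⟩
  exact h w j

/-- Lie homomorphisms which agree on the generators are equal -/
theorem hom_ext {f g : L →ₗ⁅O⁆ L} (h : ∀ x, f (S.e x) = g (S.e x)) (u : L) : f u = g u := by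
  have h1 : (f : L →ₗ[O] L) = (g : L →ₗ[O] L) := by
    refine S.lin_ext fun w j => ?_
    change f (br S.e w j) = g (br S.e w j)
    induction w with
    | nil => exact h j
    | cons k w ih => rw [br_cons, LieHom.map_lie, LieHom.map_lie, h, ih]
  exact LinearMap.congr_fun h1 u

theorem tau5 (x : Fin 6) (u : L) : (S.τ x)^[5] u = u := by
  have h := S.hom_ext (f := (S.τ x).comp ((S.τ x).comp ((S.τ x).comp ((S.τ x).comp (S.τ x)))))
    (g := LieHom.id) (fun y => by
      simp only [LieHom.comp_apply, S.τ_e, LieHom.id_apply]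
      by_cases h : y = x
      · subst h
        simp only [if_true, map_smul, S.τ_e, smul_smul]
        have h2 : S.ζ * S.ζ * S.ζ * S.ζ * S.ζ = S.ζ ^ 5 := by ring
        rw [h2, S.hζ, one_smul]
      · simp [h, S.τ_e]) u
  exact h

theorem s5 (u : L) : (S.s)^[5] u = u := by
  have h := S.hom_ext (f := S.s.comp (S.s.comp (S.s.comp (S.s.comp S.s))))
    (g := LieHom.id) (fun y => by
      simp only [LieHom.comp_apply, S.s_e, LieHom.id_apply, sh5]) u
  exact h

theorem tau_comm (x y : Fin 6) (u : L) : S.τ x (S.τ y u) = S.τ y (S.τ x u) := by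
  refine S.hom_ext (f := (S.τ x).comp (S.τ y)) (g := (S.τ y).comp (S.τ x)) (fun z => ?_) u
  simp only [LieHom.comp_apply, S.τ_e]
  by_cases h1 : z = x
  · by_cases h2 : z = y
    · rw [← h1, ← h2]
    · rw [if_neg h2, if_pos h1, map_smul, S.τ_e, S.τ_e, if_neg h2, if_pos h1]
  · by_cases h2 : z = y
    · rw [if_pos h2, if_neg h1, map_smul, S.τ_e, S.τ_e, if_neg h1, if_pos h2]
    · rw [if_neg h2, if_neg h1, S.τ_e, S.τ_e, if_neg h1, if_neg h2]

theorem s_tau (x : Fin 6) (u : L) : S.s (S.τ x u) = S.τ (sh x) (S.s u) := by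
  refine S.hom_ext (f := S.s.comp (S.τ x)) (g := (S.τ (sh x)).comp S.s) (fun z => ?_) u
  simp only [LieHom.comp_apply, S.τ_e, S.s_e]
  by_cases h1 : z = x
  · subst h1
    simp [S.s_e]
  · rw [if_neg h1, if_neg (fun h => h1 (sh_injective h)), S.s_e]

/-- the shift moves contents -/
theorem s_Lx (χ : Fin 6 → ZMod 5) (u : L) (hu : u ∈ S.Lx (fun x => χ (sh x))) :
    S.s u ∈ S.Lx χ := by
  intro y
  obtain ⟨x, rfl⟩ := sh_surjective y
  rw [← S.s_tau, hu x, map_smul]

/-! ### the projectors -/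

/-- the Lagrange polynomial -/
noncomputable def lag (c : ZMod 5) : Polynomial O :=
  ∏ c' ∈ Finset.univ.erase c, Polynomial.C (Ring.inverse (S.ζ ^ c.val - S.ζ ^ c'.val)) *
    (Polynomial.X - Polynomial.C (S.ζ ^ c'.val))

theorem isUnit_diff {c c' : ZMod 5} (h : c ≠ c') : IsUnit (S.ζ ^ c.val - S.ζ ^ c'.val) := by
  have h1 : S.ζ ^ c.val = S.ζ ^ (c - c').val * S.ζ ^ c'.val := by
    rw [← S.pow_val_add, sub_add_cancel]
  have h2 : S.ζ ^ c.val - S.ζ ^ c'.val = (S.ζ ^ (c - c').val - 1) * S.ζ ^ c'.val := by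
    rw [h1]
    ring
  rw [h2]
  refine IsUnit.mul (S.hu _ ?_) (IsUnit.pow _ (IsUnit.of_pow_eq_one S.hζ (by norm_num)))
  intro h3
  have h4 : (c - c').val = 0 := Nat.eq_zero_of_dvd_of_lt h3 (ZMod.val_lt _)
  exact h (sub_eq_zero.mp ((ZMod.val_eq_zero _).mp h4))

theorem lag_eval (c b : ZMod 5) : (S.lag c).eval (S.ζ ^ b.val) = if b = c then 1 else 0 := by
  rw [lag, Polynomial.eval_prod]
  split_ifs with h
  · subst h
    refine Finset.prod_eq_one fun c' hc' => ?_
    simp only [Polynomial.eval_mul, Polynomial.eval_C, Polynomial.eval_sub, Polynomial.eval_X]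
    exact Ring.inverse_mul_cancel _ (S.isUnit_diff (Finset.ne_of_mem_erase hc').symm)
  · refine Finset.prod_eq_zero (Finset.mem_erase.mpr ⟨h, Finset.mem_univ b⟩) ?_
    simp

theorem aeval_eig {T : Module.End O L} {u : L} {a : O} (h : T u = a • u) (q : Polynomial O) :
    Polynomial.aeval T q u = q.eval a • u := by
  induction q using Polynomial.induction_on' with
  | add p q hp hq => rw [map_add, LinearMap.add_apply, hp, hq, Polynomial.eval_add, add_smul]
  | monomial n b =>
    rw [Polynomial.aeval_monomial, Polynomial.eval_monomial, Module.End.mul_apply,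
      Module.algebraMap_end_apply]
    have h1 : ∀ n : ℕ, (T ^ n) u = a ^ n • u := by
      intro n
      induction n with
      | zero => simp
      | succ n ih => rw [pow_succ, Module.End.mul_apply, h, map_smul, ih, smul_smul, pow_succ',]
    rw [h1, smul_smul]

theorem aeval_stab {T : Module.End O L} {W : Submodule O L} (h : ∀ u ∈ W, T u ∈ W)
    (q : Polynomial O) {u : L} (hu : u ∈ W) : Polynomial.aeval T q u ∈ W := by
  induction q using Polynomial.induction_on' with
  | add p q hp hq =>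
    rw [map_add, LinearMap.add_apply]
    exact W.add_mem hp hq
  | monomial n b =>
    rw [Polynomial.aeval_monomial, Module.End.mul_apply, Module.algebraMap_end_apply]
    refine W.smul_mem _ ?_
    have h1 : ∀ n : ℕ, (T ^ n) u ∈ W := by
      intro n
      induction n with
      | zero => simpa using hu
      | succ n ih =>
        rw [pow_succ', Module.End.mul_apply]
        exact h _ ih
    exact h1 n

/-- projector on the `ζ ^ c` eigenspace of `τ x` -/
noncomputable def E1 (x : Fin 6) (c : ZMod 5) : Module.End O L :=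
  Polynomial.aeval ((S.τ x : L →ₗ[O] L) : Module.End O L) (S.lag c)

theorem E1_apply {χ : Fin 6 → ZMod 5} {u : L} (hu : u ∈ S.Lx χ) (x : Fin 6) (c : ZMod 5) :
    S.E1 x c u = (if χ x = c then (1 : O) else 0) • u := by
  rw [E1, aeval_eig (a := S.ζ ^ (χ x).val) (hu x), lag_eval]

/-- the projector on the component of content `χ` -/
noncomputable def PP (χ : Fin 6 → ZMod 5) : Module.End O L :=
  ((List.finRange 6).map fun x => S.E1 x (χ x)).prod

theorem PP_apply {χ' : Fin 6 → ZMod 5} {u : L} (hu : u ∈ S.Lx χ') (χ : Fin 6 → ZMod 5) :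
    S.PP χ u = (if χ' = χ then (1 : O) else 0) • u := by
  have h : ∀ l : List (Fin 6), ((l.map fun x => S.E1 x (χ x)).prod : Module.End O L) u =
      (l.map fun x => if χ' x = χ x then (1 : O) else 0).prod • u := by
    intro l
    induction l with
    | nil => simp
    | cons x l ih =>
      rw [List.map_cons, List.prod_cons, Module.End.mul_apply, ih, map_smul, S.E1_apply hu,
        List.map_cons, List.prod_cons, smul_smul, mul_comm]
  rw [PP, h]
  congr 1
  split_ifs with h1
  · subst h1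
    simp
  · refine List.prod_eq_zero ?_
    rw [List.mem_map]
    by_contra h2
    refine h1 (funext fun x => ?_)
    by_contra h3
    exact h2 ⟨x, List.mem_finRange x, if_neg h3⟩

theorem exists_proj : ∃ P : (Fin 6 → ZMod 5) → (L →ₗ[O] L),
    (∀ χ u, P χ u ∈ S.Lx χ) ∧ (∀ u, ∑ χ, P χ u = u) ∧ (∀ χ, ∀ u ∈ S.Lx χ, P χ u = u) ∧
    (∀ χ χ', χ ≠ χ' → ∀ u ∈ S.Lx χ', P χ u = 0) ∧
    (∀ W : Submodule O L, (∀ x, ∀ u ∈ W, S.τ x u ∈ W) → ∀ χ, ∀ u ∈ W, P χ u ∈ W) := by
  refine ⟨S.PP, fun χ u => ?_, fun u => ?_, fun χ u hu => ?_, fun χ χ' h u hu => ?_,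
    fun W hW χ u hu => ?_⟩
  · have hu : u ∈ (⊤ : Submodule O L) := trivial
    rw [← S.span] at hu
    induction hu using Submodule.span_induction with
    | mem v hv =>
      obtain ⟨w, j, -, rfl⟩ := hv
      rw [S.PP_apply (S.br_mem_Lx w j)]
      split_ifs with h
      · rw [one_smul, ← h]
        exact S.br_mem_Lx w j
      · rw [zero_smul]
        exact (S.Lx χ).zero_mem
    | zero =>
      rw [map_zero]
      exact (S.Lx χ).zero_mem
    | add a b _ _ ha hb =>
      rw [map_add]
      exact (S.Lx χ).add_mem ha hb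
    | smul a b _ hb =>
      rw [map_smul]
      exact (S.Lx χ).smul_mem a hb
  · have h : (∑ χ, S.PP χ : L →ₗ[O] L) = LinearMap.id := by
      refine S.lin_ext fun w j => ?_
      rw [LinearMap.sum_apply]
      simp only [S.PP_apply (S.br_mem_Lx w j), ite_smul, one_smul, zero_smul, Finset.sum_ite_eq,
        Finset.mem_univ, if_true, LinearMap.id_apply]
    have h2 := LinearMap.congr_fun h u
    rw [LinearMap.sum_apply] at h2
    exact h2
  · rw [S.PP_apply hu, if_pos rfl, one_smul]
  · rw [S.PP_apply hu, if_neg (Ne.symm h), zero_smul]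
  · have h : ∀ l : List (Fin 6), ((l.map fun x => S.E1 x (χ x)).prod : Module.End O L) u ∈ W := by
      intro l
      induction l with
      | nil => simpa using hu
      | cons x l ih =>
        rw [List.map_cons, List.prod_cons, Module.End.mul_apply]
        exact aeval_stab (hW x) _ ih
    exact h _

noncomputable def P (χ : Fin 6 → ZMod 5) : L →ₗ[O] L := S.exists_proj.choose χ

theorem P_mem (χ : Fin 6 → ZMod 5) (u : L) : S.P χ u ∈ S.Lx χ := S.exists_proj.choose_spec.1 χ u

theorem P_sum (u : L) : ∑ χ, S.P χ u = u := S.exists_proj.choose_spec.2.1 u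

theorem P_same (χ : Fin 6 → ZMod 5) (u : L) (hu : u ∈ S.Lx χ) : S.P χ u = u :=
  S.exists_proj.choose_spec.2.2.1 χ u hu

theorem P_ne (χ χ' : Fin 6 → ZMod 5) (h : χ ≠ χ') (u : L) (hu : u ∈ S.Lx χ') : S.P χ u = 0 :=
  S.exists_proj.choose_spec.2.2.2.1 χ χ' h u hu

theorem P_stab (W : Submodule O L) (hW : ∀ x, ∀ u ∈ W, S.τ x u ∈ W) (χ : Fin 6 → ZMod 5)
    (u : L) (hu : u ∈ W) : S.P χ u ∈ W :=
  S.exists_proj.choose_spec.2.2.2.2 W hW χ u hu

/-- stable submodules contain the components of their elements -/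
theorem mem_of_sum_mem (W : Submodule O L) (hW : ∀ x, ∀ u ∈ W, S.τ x u ∈ W)
    (u : (Fin 6 → ZMod 5) → L) (hu : ∀ χ, u χ ∈ S.Lx χ) (h : ∑ χ, u χ ∈ W) (χ : Fin 6 → ZMod 5) :
    u χ ∈ W := by
  have h1 := S.P_stab W hW χ _ h
  rw [map_sum, Finset.sum_eq_single χ] at h1
  · rwa [S.P_same χ _ (hu χ)] at h1
  · intro χ' _ h2
    exact S.P_ne χ χ' (Ne.symm h2) _ (hu χ')
  · intro h2
    exact absurd (Finset.mem_univ χ) h2

end Sys

end Pool.Agent.Lib.MP_424f45_al
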