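import Pool.Agent.Lib.MP_424f45_al.Defs
import Pool.Agent.Lib.MP_424f45_al.Eig1

/-!
# MP_424f45_al: module EIG2 (helper91): contents, degrees, indices, small components
-/

set_option autoImplicit false

namespace Pool.Agent.Lib.MP_424f45_al

theorem sum_count6 (w : List (Fin 6)) : ∑ x : Fin 6, w.count x = w.length := by
  induction w with
  | nil => simp
  | cons a w ih =>
    simp only [List.count_cons, List.length_cons]
    rw [Finset.sum_add_distrib, ih]
    simp

theorem ct_val (w : List (Fin 6)) (h : w.length ≤ 4) (x : Fin 6) :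
    (ct w x).val = w.count x := by
  unfold ct
  rw [ZMod.val_natCast_of_lt]
  exact lt_of_le_of_lt (List.count_le_length.trans h) (by norm_num)

theorem dg_ct (w : List (Fin 6)) (h : w.length ≤ 4) : dg (ct w) = w.length := by
  unfold dg
  rw [← sum_count6 w]
  exact Finset.sum_congr rfl fun x _ => ct_val w h x

theorem perm_of_ct {w w' : List (Fin 6)} (h : w.length ≤ 4) (h' : w'.length ≤ 4)
    (e : ct w = ct w') : w.Perm w' := by
  rw [List.perm_iff_count]
  intro x
  rw [← ct_val w h x, ← ct_val w' h' x, e]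

theorem perm2 {a b x y : Fin 6} (h : [a, b].Perm [x, y]) : (a = x ∧ b = y) ∨ (a = y ∧ b = x) := by
  have ha : a ∈ [x, y] := h.subset (by simp)
  simp only [List.mem_cons, List.not_mem_nil, or_false] at ha
  rcases ha with rfl | rfl
  · left
    refine ⟨rfl, ?_⟩
    have := (List.perm_cons a).1 h
    simpa using this
  · right
    refine ⟨rfl, ?_⟩
    have h1 : [a, b].Perm [a, x] := h.trans (List.Perm.swap _ _ _)
    have := (List.perm_cons a).1 h1
    simpa using this

theorem perm3 {a b c x y z : Fin 6} (h : [a, b, c].Perm [x, y, z]) :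
    (a = x ∧ b = y ∧ c = z) ∨ (a = x ∧ b = z ∧ c = y) ∨ (a = y ∧ b = x ∧ c = z) ∨
    (a = y ∧ b = z ∧ c = x) ∨ (a = z ∧ b = x ∧ c = y) ∨ (a = z ∧ b = y ∧ c = x) := by
  have ha : a ∈ [x, y, z] := h.subset (by simp)
  simp only [List.mem_cons, List.not_mem_nil, or_false] at ha
  rcases ha with rfl | rfl | rfl
  · rcases perm2 ((List.perm_cons a).1 h) with h1 | h1
    · left; exact ⟨rfl, h1⟩
    · right; left; exact ⟨rfl, h1⟩
  · have h1 : [a, b, c].Perm [a, x, z] := h.trans (List.Perm.swap _ _ _)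
    rcases perm2 ((List.perm_cons a).1 h1) with h2 | h2
    · right; right; left; exact ⟨rfl, h2⟩
    · right; right; right; left; exact ⟨rfl, h2⟩
  · have h1 : [a, b, c].Perm [a, x, y] := h.trans
      ((List.Perm.cons x (List.Perm.swap _ _ _)).trans (List.Perm.swap _ _ _))
    rcases perm2 ((List.perm_cons a).1 h1) with h2 | h2
    · right; right; right; right; left; exact ⟨rfl, h2⟩
    · right; right; right; right; right; exact ⟨rfl, h2⟩

namespace Sys

variable {O L : Type} [CommRing O] [LieRing L] [LieAlgebra O L] (S : Sys O L)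

theorem Lx_eq_span (χ : Fin 6 → ZMod 5) : S.Lx χ =
    Submodule.span O {y : L | ∃ (w : List (Fin 6)) (j : Fin 6), w.length ≤ 3 ∧
      ct (j :: w) = χ ∧ y = br S.e w j} := by
  apply le_antisymm
  · intro u hu
    rw [← S.P_same χ u hu]
    have h : ∀ v ∈ Submodule.span O {y : L | ∃ (w : List (Fin 6)) (j : Fin 6),
        w.length ≤ 3 ∧ y = br S.e w j}, S.P χ v ∈
        Submodule.span O {y : L | ∃ (w : List (Fin 6)) (j : Fin 6), w.length ≤ 3 ∧
          ct (j :: w) = χ ∧ y = br S.e w j} := by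
      intro v hv
      induction hv using Submodule.span_induction with
      | mem y hy =>
        obtain ⟨w, j, hw, rfl⟩ := hy
        by_cases hc : ct (j :: w) = χ
        · rw [S.P_same χ _ (hc ▸ S.br_mem_Lx w j)]
          exact Submodule.subset_span ⟨w, j, hw, hc, rfl⟩
        · rw [S.P_ne χ _ (Ne.symm hc) _ (S.br_mem_Lx w j)]
          exact Submodule.zero_mem _
      | zero => rw [map_zero]; exact Submodule.zero_mem _
      | add a b _ _ ha hb => rw [map_add]; exact Submodule.add_mem _ ha hb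
      | smul c a _ ha => rw [map_smul]; exact Submodule.smul_mem _ _ ha
    exact h u (by rw [S.span]; trivial)
  · rw [Submodule.span_le]
    rintro y ⟨w, j, _, hc, rfl⟩
    exact hc ▸ S.br_mem_Lx w j

theorem Lx_le_V (χ : Fin 6 → ZMod 5) (i : ℕ) (h : dg χ = i + 1) : S.Lx χ ≤ S.V i := by
  rw [S.Lx_eq_span, Submodule.span_le]
  rintro y ⟨w, j, hw, hc, rfl⟩
  have h1 := dg_ct (j :: w) (by simp only [List.length_cons]; omega)
  rw [hc, h, List.length_cons] at h1
  exact Submodule.subset_span ⟨j, w, by omega, rfl⟩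

/-- a component of content not of degree 1, .., 4 is zero -/
theorem Lx_bot (χ : Fin 6 → ZMod 5) (h : dg χ = 0 ∨ 5 ≤ dg χ) : S.Lx χ = ⊥ := by
  rw [S.Lx_eq_span, Submodule.span_eq_bot]
  rintro y ⟨w, j, hw, hc, rfl⟩
  have h1 := dg_ct (j :: w) (by simp only [List.length_cons]; omega)
  rw [hc, List.length_cons] at h1
  omega

/-- components of an element of `V i` -/
theorem P_V (i : ℕ) (u : L) (hu : u ∈ S.V i) (χ : Fin 6 → ZMod 5) (h : dg χ ≠ i + 1) :
    S.P χ u = 0 := by
  unfold V at hu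
  induction hu using Submodule.span_induction with
  | mem y hy =>
    obtain ⟨j, w, hw, rfl⟩ := hy
    change S.P χ (br S.e w j) = 0
    by_cases hi : 4 ≤ w.length
    · rw [S.nil w j hi, map_zero]
    · apply S.P_ne χ (ct (j :: w)) _ _ (S.br_mem_Lx w j)
      rintro rfl
      apply h
      rw [dg_ct (j :: w) (by simp only [List.length_cons]; omega), List.length_cons, hw]
  | zero => rw [map_zero]
  | add a b _ _ ha hb => rw [map_add, ha, hb, add_zero]
  | smul c a _ ha => rw [map_smul, ha, smul_zero]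

theorem V_bot (i : ℕ) (h : 4 ≤ i) : S.V i = ⊥ := by
  unfold V
  rw [Submodule.span_eq_bot]
  rintro y ⟨j, w, hw, rfl⟩
  exact S.nil w j (hw ▸ h)

theorem br_mem_V (w : List (Fin 6)) (j : Fin 6) : br S.e w j ∈ S.V w.length :=
  Submodule.subset_span ⟨j, w, rfl, rfl⟩

theorem V_tau (i : ℕ) (x : Fin 6) (u : L) (hu : u ∈ S.V i) : S.τ x u ∈ S.V i := by
  have h : S.V i ≤ (S.V i).comap (S.τ x : L →ₗ[O] L) := by
    conv_lhs => unfold V
    rw [Submodule.span_le]
    rintro y ⟨j, w, hw, rfl⟩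
    change S.τ x (br S.e w j) ∈ S.V i
    rw [S.br_mem_Lx w j x]
    exact Submodule.smul_mem _ _ (hw ▸ S.br_mem_V w j)
  exact h hu

theorem s_br (w : List (Fin 6)) (j : Fin 6) :
    S.s (br S.e w j) = br S.e (w.map sh) (sh j) := by
  induction w with
  | nil => exact S.s_e j
  | cons a w ih =>
    change S.s ⁅S.e a, br S.e w j⁆ = ⁅S.e (sh a), br S.e (w.map sh) (sh j)⁆
    rw [LieHom.map_lie, S.s_e, ih]

theorem V_s (i : ℕ) (u : L) (hu : u ∈ S.V i) : S.s u ∈ S.V i := by
  have h : S.V i ≤ (S.V i).comap (S.s : L →ₗ[O] L) := by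
    conv_lhs => unfold V
    rw [Submodule.span_le]
    rintro y ⟨j, w, hw, rfl⟩
    change S.s (br S.e w j) ∈ S.V i
    rw [S.s_br]
    have := S.br_mem_V (w.map sh) (sh j)
    rwa [List.length_map, hw] at this
  exact h hu

theorem V_clo (i : ℕ) (x : Fin 6) (u : L) (hu : u ∈ S.V i) : ⁅S.e x, u⁆ ∈ S.V (i + 1) := by
  have h : S.V i ≤ (S.V (i + 1)).comap (LieAlgebra.ad O L (S.e x)) := by
    conv_lhs => unfold V
    rw [Submodule.span_le]
    rintro y ⟨j, w, hw, rfl⟩
    change br S.e (x :: w) j ∈ S.V (i + 1)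
    have := S.br_mem_V (x :: w) j
    rwa [List.length_cons, hw] at this
  exact h hu

theorem V_succ (i : ℕ) : S.V (i + 1) = ⨆ x, (S.V i).map (LieAlgebra.ad O L (S.e x)) := by
  apply le_antisymm
  · conv_lhs => unfold V
    rw [Submodule.span_le]
    rintro y ⟨j, w, hw, rfl⟩
    rcases w with _ | ⟨x, w⟩
    · simp at hw
    · have h1 : (S.V i).map (LieAlgebra.ad O L (S.e x)) ≤
          ⨆ x, (S.V i).map (LieAlgebra.ad O L (S.e x)) :=
        le_iSup (fun x => (S.V i).map (LieAlgebra.ad O L (S.e x))) x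
      apply h1
      refine ⟨br S.e w j, ?_, rfl⟩
      have : w.length = i := by simpa using hw
      exact this ▸ S.br_mem_V w j
  · apply iSup_le
    intro x
    rw [Submodule.map_le_iff_le_comap]
    intro u hu
    exact S.V_clo i x u hu

/-- the projector on the component of degree `i + 1` -/
noncomputable def D (i : ℕ) : L →ₗ[O] L := ∑ χ with dg χ = i + 1, S.P χ

theorem D_apply (i : ℕ) (u : L) : S.D i u = ∑ χ with dg χ = i + 1, S.P χ u := by
  unfold D
  rw [LinearMap.sum_apply]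

theorem D_mem (i : ℕ) (u : L) : S.D i u ∈ S.V i := by
  rw [D_apply]
  apply Submodule.sum_mem
  intro χ hχ
  exact S.Lx_le_V χ i (Finset.mem_filter.1 hχ).2 (S.P_mem χ u)

theorem P_zero_of_dg (χ : Fin 6 → ZMod 5) (h : dg χ = 0 ∨ 5 ≤ dg χ) (u : L) : S.P χ u = 0 := by
  have := S.P_mem χ u
  rw [S.Lx_bot χ h] at this
  exact this

theorem D_sum (u : L) : S.D 0 u + S.D 1 u + S.D 2 u + S.D 3 u = u := by
  conv_rhs => rw [← S.P_sum u]
  simp only [D_apply, Finset.sum_filter]
  rw [← Finset.sum_add_distrib, ← Finset.sum_add_distrib, ← Finset.sum_add_distrib]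
  apply Finset.sum_congr rfl
  intro χ _
  by_cases h0 : dg χ = 0 ∨ 5 ≤ dg χ
  · rw [S.P_zero_of_dg χ h0]; simp
  · have h1 : dg χ = 1 ∨ dg χ = 2 ∨ dg χ = 3 ∨ dg χ = 4 := by omega
    rcases h1 with h | h | h | h <;> simp [h]

theorem D_same (i : ℕ) (u : L) (hu : u ∈ S.V i) : S.D i u = u := by
  conv_rhs => rw [← S.P_sum u]
  rw [D_apply, Finset.sum_filter]
  apply Finset.sum_congr rfl
  intro χ _
  split_ifs with h
  · rfl
  · rw [S.P_V i u hu χ h]

theorem D_ne (i k : ℕ) (h : i ≠ k) (u : L) (hu : u ∈ S.V k) : S.D i u = 0 := by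
  rw [D_apply]
  apply Finset.sum_eq_zero
  intro χ hχ
  apply S.P_V k u hu χ
  have := (Finset.mem_filter.1 hχ).2
  omega

theorem D_stab (W : Submodule O L) (hW : ∀ x, ∀ u ∈ W, S.τ x u ∈ W) (i : ℕ)
    (u : L) (hu : u ∈ W) : S.D i u ∈ W := by
  rw [D_apply]
  apply Submodule.sum_mem
  intro χ _
  exact S.P_stab W hW χ u hu

end Sys

/-- the index of a submodule compatible with a finite decomposition -/
theorem card_quot_of_decomp {O L : Type} [CommRing O] [AddCommGroup L] [Module O L]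
    {κ : Type} [Fintype κ] [DecidableEq κ] (B : κ → Submodule O L) (Q : κ → (L →ₗ[O] L))
    (h1 : ∀ k u, Q k u ∈ B k) (h2 : ∀ u, ∑ k, Q k u = u) (h3 : ∀ k, ∀ u ∈ B k, Q k u = u)
    (h4 : ∀ k k', k ≠ k' → ∀ u ∈ B k', Q k u = 0) (I : Submodule O L)
    (hI : ∀ k, ∀ u ∈ I, Q k u ∈ I) :
    Nat.card (L ⧸ I) = ∏ k, ix (I ⊓ B k) (B k) := by
  let Φ : L →ₗ[O] (∀ k, B k ⧸ (I ⊓ B k).submoduleOf (B k)) :=
    LinearMap.pi fun k => ((I ⊓ B k).submoduleOf (B k)).mkQ ∘ₗ
      (Q k).codRestrict (B k) (fun u => h1 k u)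
  have hΦ : ∀ u k, Φ u k = ((I ⊓ B k).submoduleOf (B k)).mkQ ⟨Q k u, h1 k u⟩ := fun u k => rfl
  have hker : LinearMap.ker Φ = I := by
    ext u
    rw [LinearMap.mem_ker]
    constructor
    · intro h
      rw [← h2 u]
      apply Submodule.sum_mem
      intro k _
      have h5 : Φ u k = 0 := by rw [h]; rfl
      rw [hΦ, Submodule.mkQ_apply, Submodule.Quotient.mk_eq_zero] at h5
      exact h5.1
    · intro h
      funext k
      rw [hΦ, Submodule.mkQ_apply]
      change _ = (0 : B k ⧸ (I ⊓ B k).submoduleOf (B k))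
      rw [Submodule.Quotient.mk_eq_zero]
      exact ⟨hI k u h, h1 k u⟩
  have hsurj : Function.Surjective Φ := by
    intro v
    have hv : ∀ k, ∃ b : B k, ((I ⊓ B k).submoduleOf (B k)).mkQ b = v k := fun k =>
      Submodule.mkQ_surjective _ (v k)
    choose b hb using hv
    refine ⟨∑ k, (b k : L), ?_⟩
    funext k
    rw [hΦ, ← hb k]
    congr 1
    apply Subtype.ext
    change Q k (∑ k, (b k : L)) = b k
    rw [map_sum, Finset.sum_eq_single k]
    · exact h3 k _ (b k).2
    · intro k' _ hk'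
      exact h4 k k' (Ne.symm hk') _ (b k').2
    · intro h; exact absurd (Finset.mem_univ k) h
  have e1 : (L ⧸ I) ≃ (L ⧸ LinearMap.ker Φ) := (Submodule.quotEquivOfEq _ _ hker.symm).toEquiv
  have e2 : (L ⧸ LinearMap.ker Φ) ≃ (∀ k, B k ⧸ (I ⊓ B k).submoduleOf (B k)) :=
    (Φ.quotKerEquivOfSurjective hsurj).toEquiv
  rw [Nat.card_congr (e1.trans e2), Nat.card_pi]
  rfl

namespace Sys

variable {O L : Type} [CommRing O] [LieRing L] [LieAlgebra O L] (S : Sys O L)

/-- index of a submodule stable under the torus, by contents -/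
theorem card_quot_Lx (I : Submodule O L) (hI : ∀ x, ∀ u ∈ I, S.τ x u ∈ I) :
    Nat.card (L ⧸ I) = ∏ χ : Fin 6 → ZMod 5, ix (I ⊓ S.Lx χ) (S.Lx χ) := by
  have h := card_quot_of_decomp (κ := Fin 6 → ZMod 5) (fun χ => S.Lx χ) (fun χ => S.P χ)
    (fun χ u => S.P_mem χ u) (fun u => S.P_sum u) (fun χ u hu => S.P_same χ u hu)
    (fun χ χ' h u hu => S.P_ne χ χ' h u hu) I (fun χ u hu => S.P_stab I hI χ u hu)
  exact h

/-- index of a graded submodule, by degrees -/
theorem card_quot_V (I : Submodule O L) (hI : ∀ i : ℕ, ∀ u ∈ I, S.D i u ∈ I) :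
    Nat.card (L ⧸ I) = ix (I ⊓ S.V 0) (S.V 0) * ix (I ⊓ S.V 1) (S.V 1) * ix (I ⊓ S.V 2) (S.V 2) *
      ix (I ⊓ S.V 3) (S.V 3) := by
  have hne : ∀ i k : Fin 4, i ≠ k → ∀ u ∈ S.V (k : ℕ), S.D (i : ℕ) u = 0 := by
    intro i k hik u hu
    have hik' : (i : ℕ) ≠ (k : ℕ) := fun h => hik (Fin.ext h)
    exact S.D_ne i k hik' u hu
  have hsum : ∀ u, ∑ i : Fin 4, S.D (i : ℕ) u = u := by
    intro u
    rw [Fin.sum_univ_four, show ((0 : Fin 4) : ℕ) = 0 from rfl, show ((1 : Fin 4) : ℕ) = 1 from rfl,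
      show ((2 : Fin 4) : ℕ) = 2 from rfl, show ((3 : Fin 4) : ℕ) = 3 from rfl]
    exact S.D_sum u
  have h := card_quot_of_decomp (κ := Fin 4) (fun i => S.V (i : ℕ)) (fun i => S.D (i : ℕ))
    (fun i u => S.D_mem i u) hsum (fun i u hu => S.D_same i u hu) hne I
    (fun i u hu => hI i u hu)
  rw [h, Fin.prod_univ_four, show ((0 : Fin 4) : ℕ) = 0 from rfl,
    show ((1 : Fin 4) : ℕ) = 1 from rfl, show ((2 : Fin 4) : ℕ) = 2 from rfl,
    show ((3 : Fin 4) : ℕ) = 3 from rfl]

/-! small components -/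

theorem Lx_one (x : Fin 6) : S.Lx (ct [x]) = Submodule.span O {S.e x} := by
  apply le_antisymm
  · rw [S.Lx_eq_span, Submodule.span_le]
    rintro y ⟨w, j, hw, hc, rfl⟩
    have hp := perm_of_ct (by simp only [List.length_cons]; omega) (by simp) hc
    rw [List.perm_singleton] at hp
    rw [List.cons.injEq] at hp
    obtain ⟨rfl, rfl⟩ := hp
    exact Submodule.subset_span rfl
  · rw [Submodule.span_le, Set.singleton_subset_iff]
    exact S.br_mem_Lx [] x

theorem Lx_two (x y : Fin 6) : S.Lx (ct [x, y]) = Submodule.span O {⁅S.e x, S.e y⁆} := by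
  apply le_antisymm
  · rw [S.Lx_eq_span, Submodule.span_le]
    rintro u ⟨w, j, hw, hc, rfl⟩
    have hp := perm_of_ct (by simp only [List.length_cons]; omega) (by simp) hc
    have hl := hp.length_eq
    simp only [List.length_cons, List.length_nil] at hl
    obtain ⟨a, rfl⟩ := List.length_eq_one_iff.1 (show w.length = 1 by omega)
    have hm : ⁅S.e x, S.e y⁆ ∈ Submodule.span O {⁅S.e x, S.e y⁆} := Submodule.subset_span rfl
    change ⁅S.e a, S.e j⁆ ∈ _
    rcases perm2 hp with ⟨rfl, rfl⟩ | ⟨rfl, rfl⟩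
    · rw [← lie_skew (S.e a) (S.e j)]
      exact Submodule.neg_mem _ hm
    · exact hm
  · rw [Submodule.span_le, Set.singleton_subset_iff]
    have := S.br_mem_Lx [x] y
    have e : ct [y, x] = ct [x, y] := by
      funext z; unfold ct; rw [(List.Perm.swap x y []).count_eq z]
    rw [e] at this
    exact this

theorem ct_perm {w w' : List (Fin 6)} (h : w.Perm w') : ct w = ct w' := by
  funext z; unfold ct; rw [h.count_eq z]

theorem three_mem (w : List (Fin 6)) (j x y z : Fin 6) (hw : w.length ≤ 3)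
    (hc : ct (j :: w) = ct [x, y, z]) (W : Submodule O L)
    (h1 : ⁅S.e z, ⁅S.e x, S.e y⁆⁆ ∈ W) (h2 : ⁅S.e x, ⁅S.e y, S.e z⁆⁆ ∈ W) :
    br S.e w j ∈ W := by
  have h3 : ⁅S.e y, ⁅S.e z, S.e x⁆⁆ ∈ W := by
    have hj := lie_jacobi (S.e x) (S.e y) (S.e z)
    have : ⁅S.e y, ⁅S.e z, S.e x⁆⁆ = -⁅S.e x, ⁅S.e y, S.e z⁆⁆ - ⁅S.e z, ⁅S.e x, S.e y⁆⁆ := by
      rw [eq_sub_iff_add_eq, eq_neg_iff_add_eq_zero, ← hj]; abel
    rw [this]
    exact Submodule.sub_mem _ (Submodule.neg_mem _ h2) h1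
  have hp := perm_of_ct (by simp only [List.length_cons]; omega) (by simp) hc
  have hl := hp.length_eq
  simp only [List.length_cons, List.length_nil] at hl
  obtain ⟨a, b, rfl⟩ := List.length_eq_two.1 (show w.length = 2 by omega)
  have hsk : ∀ p q r : L, ⁅p, ⁅q, r⁆⁆ ∈ W → ⁅p, ⁅r, q⁆⁆ ∈ W := by
    intro p q r h
    rw [← lie_skew r q, lie_neg]
    exact Submodule.neg_mem _ h
  change ⁅S.e a, ⁅S.e b, S.e j⁆⁆ ∈ W
  rcases perm3 hp with ⟨rfl, rfl, rfl⟩ | ⟨rfl, rfl, rfl⟩ | ⟨rfl, rfl, rfl⟩ | ⟨rfl, rfl, rfl⟩ |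
    ⟨rfl, rfl, rfl⟩ | ⟨rfl, rfl, rfl⟩
  · exact h3
  · exact hsk _ _ _ h1
  · exact hsk _ _ _ h2
  · exact h1
  · exact h2
  · exact hsk _ _ _ h3

theorem Lx_three (x y z : Fin 6) : S.Lx (ct [x, y, z]) =
    Submodule.span O {⁅S.e z, ⁅S.e x, S.e y⁆⁆, ⁅S.e x, ⁅S.e y, S.e z⁆⁆} := by
  apply le_antisymm
  · rw [S.Lx_eq_span, Submodule.span_le]
    rintro u ⟨w, j, hw, hc, rfl⟩
    exact S.three_mem w j x y z hw hc _ (Submodule.subset_span (by simp))
      (Submodule.subset_span (by simp))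
  · rw [Submodule.span_le]
    rintro u (rfl | rfl)
    · have h := S.br_mem_Lx [z, x] y
      have hp : [y, z, x].Perm [x, y, z] := by
        have := List.perm_append_comm (l₁ := [y, z]) (l₂ := [x])
        simpa using this
      rw [ct_perm hp] at h
      exact h
    · have h := S.br_mem_Lx [x, y] z
      have hp : [z, x, y].Perm [x, y, z] := by
        have := List.perm_append_comm (l₁ := [z]) (l₂ := [x, y])
        simpa using this
      rw [ct_perm hp] at h
      exact h

theorem Lx_three_two (x y : Fin 6) :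
    S.Lx (ct [x, x, y]) = Submodule.span O {⁅S.e x, ⁅S.e x, S.e y⁆⁆} := by
  rw [S.Lx_three, lie_self, lie_zero, Submodule.span_insert_zero]

/-- contents fixed by the shift -/
theorem Lx_fixed (χ : Fin 6 → ZMod 5) (h : (fun x => χ (sh x)) = χ) (h' : χ ≠ ct [5]) :
    S.Lx χ = ⊥ := by
  have e0 : χ 1 = χ 0 := congrFun h 0
  have e1 : χ 2 = χ 1 := congrFun h 1
  have e2 : χ 3 = χ 2 := congrFun h 2
  have e3 : χ 4 = χ 3 := congrFun h 3
  have hdg : dg χ = 5 * (χ 0).val + (χ 5).val := by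
    unfold dg
    rw [Fin.sum_univ_six, e3, e2, e1, e0]
    ring
  by_cases hc : χ 0 = 0
  · rw [hc, ZMod.val_zero, mul_zero, zero_add] at hdg
    have hz : ∀ x : Fin 6, x ≠ 5 → χ x = 0 := by
      intro x hx
      fin_cases x
      · exact hc
      · exact e0.trans hc
      · exact e1.trans (e0.trans hc)
      · exact e2.trans (e1.trans (e0.trans hc))
      · exact e3.trans (e2.trans (e1.trans (e0.trans hc)))
      · exact absurd rfl hx
    by_cases h0 : (χ 5).val = 0
    · exact S.Lx_bot χ (Or.inl (by omega))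
    · rw [S.Lx_eq_span, Submodule.span_eq_bot]
      rintro y ⟨w, j, hw, hct, rfl⟩
      have hall : ∀ a ∈ j :: w, a = 5 := by
        intro a ha
        by_contra hne
        have h1 := ct_val (j :: w) (by simp only [List.length_cons]; omega) a
        rw [hct, hz a hne, ZMod.val_zero] at h1
        exact absurd (List.count_pos_iff.2 ha) (by omega)
      have hj : j = 5 := hall j (by simp)
      have hwn : w ≠ [] := by
        rintro rfl
        rw [hj] at hct
        exact h' hct.symm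
      have key : ∀ v : List (Fin 6), (∀ a ∈ v, a = 5) → v ≠ [] → br S.e v 5 = 0 := by
        intro v
        induction v with
        | nil => intro _ hn; exact absurd rfl hn
        | cons a v ih =>
          intro hv _
          have ha : a = 5 := hv a (by simp)
          subst ha
          change ⁅S.e 5, br S.e v 5⁆ = 0
          by_cases hv0 : v = []
          · subst hv0
            exact lie_self _
          · rw [ih (fun b hb => hv b (by simp [hb])) hv0, lie_zero]
      rw [hj]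
      exact key w (fun a ha => hall a (by simp [ha])) hwn
  · have : 0 < (χ 0).val := Nat.pos_of_ne_zero (fun h0 => hc ((ZMod.val_eq_zero _).1 h0))
    exact S.Lx_bot χ (Or.inr (by omega))

end Sys

end Pool.Agent.Lib.MP_424f45_al
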