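import Pool.Agent.Lib.MP_424f45_al.Defs

/-!
# Base change of submodules along the quadratic extension: basic facts
-/

set_option autoImplicit false

namespace Pool.Agent.Lib.MP_424f45_al

namespace Ext

variable {O L O' L' : Type} [CommRing O] [LieRing L] [LieAlgebra O L]
    [CommRing O'] [LieRing L'] [LieAlgebra O' L'] [Algebra O O'] {S : Sys O L}
    {S' : Sys O' L'} (E : Ext S S')

theorem ext_inj {x y x' y' : L} (h : E.j x + E.ω • E.j y = E.j x' + E.ω • E.j y') :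
    x = x' ∧ y = y' := by
  have h1 : E.j (x - x') + E.ω • E.j (y - y') = 0 := by
    rw [map_sub, map_sub, smul_sub, sub_add_sub_comm, h, sub_self]
  have h2 := E.inj _ _ h1
  exact ⟨sub_eq_zero.mp h2.1, sub_eq_zero.mp h2.2⟩

theorem w2 : E.ω * E.ω = -1 - E.ω := by
  have := E.hω
  linear_combination this

/-- multiplication in coordinates -/
theorem smul_coord (p q : O) (x y : L) :
    (algebraMap O O' p + E.ω * algebraMap O O' q) • (E.j x + E.ω • E.j y) =
      E.j (p • x - q • y) + E.ω • E.j (p • y + q • x - q • y) := by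
  rw [map_sub, map_sub, map_add, E.j_smul, E.j_smul, E.j_smul, E.j_smul]
  have h := E.w2
  match_scalars
  · ring
  · linear_combination (algebraMap O O' q) * h

theorem mem_bc {W : Submodule O L} {u : L'} :
    u ∈ E.bc W ↔ ∃ x ∈ W, ∃ y ∈ W, u = E.j x + E.ω • E.j y := by
  constructor
  · intro hu
    induction hu using Submodule.span_induction with
    | mem u hu =>
      obtain ⟨x, hx, rfl⟩ := hu
      exact ⟨x, hx, 0, W.zero_mem, by simp⟩
    | zero => exact ⟨0, W.zero_mem, 0, W.zero_mem, by simp⟩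
    | add a b _ _ ha hb =>
      obtain ⟨x, hx, y, hy, rfl⟩ := ha
      obtain ⟨x', hx', y', hy', rfl⟩ := hb
      exact ⟨x + x', W.add_mem hx hx', y + y', W.add_mem hy hy', by
        rw [map_add, map_add, smul_add]; abel⟩
    | smul a u _ hu =>
      obtain ⟨x, hx, y, hy, rfl⟩ := hu
      obtain ⟨p, q, rfl⟩ := E.basis a
      exact ⟨_, W.sub_mem (W.smul_mem p hx) (W.smul_mem q hy), _,
        W.sub_mem (W.add_mem (W.smul_mem p hy) (W.smul_mem q hx)) (W.smul_mem q hy),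
        E.smul_coord p q x y⟩
  · rintro ⟨x, hx, y, hy, rfl⟩
    exact (E.bc W).add_mem (Submodule.subset_span ⟨x, hx, rfl⟩)
      ((E.bc W).smul_mem _ (Submodule.subset_span ⟨y, hy, rfl⟩))

theorem mem_bc_iff {W : Submodule O L} {x y : L} :
    E.j x + E.ω • E.j y ∈ E.bc W ↔ x ∈ W ∧ y ∈ W := by
  rw [E.mem_bc]
  constructor
  · rintro ⟨x', hx', y', hy', h⟩
    obtain ⟨rfl, rfl⟩ := E.ext_inj h
    exact ⟨hx', hy'⟩
  · rintro ⟨hx, hy⟩
    exact ⟨x, hx, y, hy, rfl⟩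

theorem j_mem_bc {W : Submodule O L} {x : L} : E.j x ∈ E.bc W ↔ x ∈ W := by
  have := E.mem_bc_iff (W := W) (x := x) (y := 0)
  simpa using this

theorem bc_mono {A B : Submodule O L} (h : A ≤ B) : E.bc A ≤ E.bc B := by
  intro u hu
  obtain ⟨x, hx, y, hy, rfl⟩ := E.mem_bc.mp hu
  exact E.mem_bc_iff.mpr ⟨h hx, h hy⟩

theorem bc_le_iff {A B : Submodule O L} : E.bc A ≤ E.bc B ↔ A ≤ B :=
  ⟨fun h x hx => E.j_mem_bc.mp (h (E.j_mem_bc.mpr hx)), E.bc_mono⟩

theorem mem_cm {W : Submodule O' L'} {x : L} : x ∈ E.cm W ↔ E.j x ∈ W := Iff.rfl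

theorem cm_bc (W : Submodule O L) : E.cm (E.bc W) = W := by
  ext x
  rw [E.mem_cm, E.j_mem_bc]

theorem bc_cm_le (W : Submodule O' L') : E.bc (E.cm W) ≤ W := by
  intro u hu
  obtain ⟨x, hx, y, hy, rfl⟩ := E.mem_bc.mp hu
  exact W.add_mem hx (W.smul_mem _ hy)

theorem rat_bc (W : Submodule O L) : E.Rat (E.bc W) := by
  intro x y h
  exact E.j_mem_bc.mpr (E.mem_bc_iff.mp h).1

/-- both coordinates of an element of a rational submodule belong to it -/
theorem Rat.both {E : Ext S S'} {W : Submodule O' L'} (h : E.Rat W) {x y : L}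
    (hu : E.j x + E.ω • E.j y ∈ W) : E.j x ∈ W ∧ E.j y ∈ W := by
  refine ⟨h x y hu, ?_⟩
  have h1 : E.ω • (E.j x + E.ω • E.j y) = E.j (-y) + E.ω • E.j (x - y) := by
    have := E.smul_coord 0 1 x y
    simpa using this
  have h2 : E.j (-y) ∈ W := h _ _ (h1 ▸ W.smul_mem E.ω hu)
  rw [map_neg] at h2
  simpa using W.neg_mem h2

theorem rat_iff (W : Submodule O' L') : E.Rat W ↔ E.bc (E.cm W) = W := by
  constructor
  · intro h
    refine le_antisymm (E.bc_cm_le W) ?_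
    intro u hu
    obtain ⟨x, y, rfl⟩ := E.gen u
    have := h.both hu
    exact E.mem_bc_iff.mpr ⟨this.1, this.2⟩
  · intro h
    rw [← h]
    exact E.rat_bc _

theorem rat_inf {W W' : Submodule O' L'} (h : E.Rat W) (h' : E.Rat W') : E.Rat (W ⊓ W') :=
  fun x y hu => ⟨h x y hu.1, h' x y hu.2⟩

theorem bc_sup (A B : Submodule O L) : E.bc (A ⊔ B) = E.bc A ⊔ E.bc B := by
  refine le_antisymm ?_ (sup_le (E.bc_mono le_sup_left) (E.bc_mono le_sup_right))
  intro u hu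
  obtain ⟨x, hx, y, hy, rfl⟩ := E.mem_bc.mp hu
  obtain ⟨a, ha, b, hb, rfl⟩ := Submodule.mem_sup.mp hx
  obtain ⟨a', ha', b', hb', rfl⟩ := Submodule.mem_sup.mp hy
  refine Submodule.mem_sup.mpr ⟨E.j a + E.ω • E.j a', E.mem_bc_iff.mpr ⟨ha, ha'⟩,
    E.j b + E.ω • E.j b', E.mem_bc_iff.mpr ⟨hb, hb'⟩, ?_⟩
  rw [map_add, map_add, smul_add]
  abel

theorem bc_bot : E.bc (⊥ : Submodule O L) = ⊥ := by
  rw [eq_bot_iff]
  intro u hu
  obtain ⟨x, hx, y, hy, rfl⟩ := E.mem_bc.mp hu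
  rw [Submodule.mem_bot] at hx hy
  simp [hx, hy]

theorem bc_iSup {ι : Sort*} (A : ι → Submodule O L) : E.bc (⨆ i, A i) = ⨆ i, E.bc (A i) := by
  refine le_antisymm ?_ (iSup_le fun i => E.bc_mono (le_iSup A i))
  intro u hu
  obtain ⟨x, hx, y, hy, rfl⟩ := E.mem_bc.mp hu
  have key : ∀ x ∈ ⨆ i, A i, E.j x ∈ ⨆ i, E.bc (A i) := by
    intro x hx
    induction hx using Submodule.iSup_induction' with
    | mem i _x hx => exact Submodule.mem_iSup_of_mem i (E.j_mem_bc.mpr hx)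
    | zero => simp
    | add a b _ _ ha hb => rw [map_add]; exact Submodule.add_mem _ ha hb
  exact Submodule.add_mem _ (key x hx) (Submodule.smul_mem _ _ (key y hy))

/-! the operators commute with `j` -/

theorem j_hom (f : L →ₗ⁅O⁆ L) (f' : L' →ₗ⁅O'⁆ L')
    (h : ∀ x, f' (S'.e x) = E.j (f (S.e x))) (u : L) : f' (E.j u) = E.j (f u) := by
  have hbr : ∀ (w : List (Fin 6)) (k : Fin 6), f' (E.j (br S.e w k)) = E.j (f (br S.e w k)) := by
    intro w k
    induction w with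
    | nil => simp only [br, List.foldr_nil, E.j_e, h]
    | cons a w ih =>
      have h1 : br S.e (a :: w) k = ⁅S.e a, br S.e w k⁆ := rfl
      rw [h1, E.j_br, LieHom.map_lie, LieHom.map_lie, E.j_br, ih, E.j_e, h]
  have hu : u ∈ Submodule.span O {y : L | ∃ (w : List (Fin 6)) (j : Fin 6), w.length ≤ 3 ∧
      y = br S.e w j} := by rw [S.span]; trivial
  induction hu using Submodule.span_induction with
  | mem u hu =>
    obtain ⟨w, k, -, rfl⟩ := hu
    exact hbr w k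
  | zero => simp
  | add a b _ _ ha hb => rw [map_add, map_add, ha, hb, map_add, map_add]
  | smul a u _ hu =>
    rw [E.j_smul, map_smul, hu, map_smul, E.j_smul]

theorem j_tau (x : Fin 6) (u : L) : S'.τ x (E.j u) = E.j (S.τ x u) := by
  apply E.j_hom
  intro y
  rw [S'.τ_e, S.τ_e, E.hζ]
  split_ifs
  · rw [E.j_smul, E.j_e]
  · rw [E.j_e]

theorem j_s (u : L) : S'.s (E.j u) = E.j (S.s u) := by
  apply E.j_hom
  intro y
  rw [S'.s_e, S.s_e, E.j_e]

theorem tau_coord (x : Fin 6) (u v : L) : S'.τ x (E.j u + E.ω • E.j v) =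
    E.j (S.τ x u) + E.ω • E.j (S.τ x v) := by
  rw [map_add, map_smul, E.j_tau, E.j_tau]

theorem s_coord (u v : L) : S'.s (E.j u + E.ω • E.j v) =
    E.j (S.s u) + E.ω • E.j (S.s v) := by
  rw [map_add, map_smul, E.j_s, E.j_s]

theorem lie_coord (x : Fin 6) (u v : L) : ⁅S'.e x, E.j u + E.ω • E.j v⁆ =
    E.j ⁅S.e x, u⁆ + E.ω • E.j ⁅S.e x, v⁆ := by
  rw [lie_add, lie_smul, ← E.j_e, E.j_br, E.j_br]

theorem stab_bc {W : Submodule O L} (h : S.Stab W) : S'.Stab (E.bc W) := by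
  constructor
  · intro x u hu
    obtain ⟨a, ha, b, hb, rfl⟩ := E.mem_bc.mp hu
    rw [E.tau_coord]
    exact E.mem_bc_iff.mpr ⟨h.1 x _ ha, h.1 x _ hb⟩
  · intro u hu
    obtain ⟨a, ha, b, hb, rfl⟩ := E.mem_bc.mp hu
    rw [E.s_coord]
    exact E.mem_bc_iff.mpr ⟨h.2 _ ha, h.2 _ hb⟩

theorem stab_cm {W : Submodule O' L'} (h : S'.Stab W) : S.Stab (E.cm W) := by
  constructor
  · intro x u hu
    rw [E.mem_cm, ← E.j_tau]
    exact h.1 x _ hu
  · intro u hu
    rw [E.mem_cm, ← E.j_s]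
    exact h.2 _ hu

theorem clo_bc {A B : Submodule O L} : S'.Clo (E.bc A) (E.bc B) ↔ S.Clo A B := by
  constructor
  · intro h x u hu
    have := h x (E.j u) (E.j_mem_bc.mpr hu)
    rw [← E.j_e, ← E.j_br] at this
    exact E.j_mem_bc.mp this
  · intro h x u hu
    obtain ⟨a, ha, b, hb, rfl⟩ := E.mem_bc.mp hu
    rw [E.lie_coord]
    exact E.mem_bc_iff.mpr ⟨h x _ ha, h x _ hb⟩

end Ext

end Pool.Agent.Lib.MP_424f45_al
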