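import Pool.Agent.Lib.MP_424f45_al.Eig2
import Pool.Agent.Lib.MP_424f45_al.GLB

/-!
# MP_424f45_al: nonrational submodules of degree at most 3
-/

set_option autoImplicit false
set_option linter.unusedSectionVars false

namespace Pool.Agent.Lib.MP_424f45_al

section

variable {O L O' L' : Type} [CommRing O] [IsDomain O] [IsDiscreteValuationRing O]
  [CommRing O'] [IsDomain O'] [IsDiscreteValuationRing O'] [Algebra O O']
  [LieRing L] [LieAlgebra O L] [LieRing L'] [LieAlgebra O' L']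
  {S : Sys O L} {S' : Sys O' L'} (E : Ext S S')

theorem Ext.j_Lx (χ : Fin 6 → ZMod 5) (u : L) (hu : u ∈ S.Lx χ) : E.j u ∈ S'.Lx χ := by
  intro x
  rw [E.j_tau, hu x, E.j_smul, E.hζ, map_pow]

theorem Ext.j_P (χ : Fin 6 → ZMod 5) (u : L) : S'.P χ (E.j u) = E.j (S.P χ u) := by
  conv_lhs => rw [← S.P_sum u]
  rw [map_sum, map_sum, Finset.sum_eq_single χ]
  · exact S'.P_same χ _ (E.j_Lx χ _ (S.P_mem χ u))
  · intro χ' _ hne
    exact S'.P_ne χ χ' (fun h => hne h.symm) _ (E.j_Lx χ' _ (S.P_mem χ' u))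
  · intro h
    exact absurd (Finset.mem_univ _) h

/-- a stable submodule is rational if all its components are -/
theorem rat_of_comp (W : Submodule O' L') (hW : ∀ x, ∀ u ∈ W, S'.τ x u ∈ W)
    (h : ∀ χ, E.Rat (W ⊓ S'.Lx χ)) : E.Rat W := by
  intro x y hxy
  have h1 : ∀ χ, E.j (S.P χ x) ∈ W := by
    intro χ
    have h2 : S'.P χ (E.j x + E.ω • E.j y) ∈ W ⊓ S'.Lx χ :=
      ⟨S'.P_stab W hW χ _ hxy, S'.P_mem χ _⟩
    rw [map_add, map_smul, E.j_P, E.j_P] at h2
    exact (h χ _ _ h2).1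
  rw [← S.P_sum x, map_sum]
  exact W.sum_mem fun χ _ => h1 χ

include E in
theorem Ext.dvd_coord' (c x y : O)
    (h : algebraMap O O' c ∣ algebraMap O O' x + E.ω * algebraMap O O' y) : c ∣ x := by
  obtain ⟨a, ha⟩ := h
  obtain ⟨p, q, rfl⟩ := E.basis a
  have h0 : algebraMap O O' (x - c * p) + E.ω * algebraMap O O' (y - c * q) = 0 := by
    simp only [map_sub, map_mul]
    linear_combination ha
  obtain ⟨h1, h2⟩ := E.indep _ _ h0
  exact ⟨p, by linear_combination h1⟩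

include E in
/-- a multiple of a vector in a submodule: rational part of the coefficient -/
theorem real_part_mem (ϖ : O) (hϖ' : Irreducible (algebraMap O O' ϖ)) (W : Submodule O' L')
    (v : L') (p q : O) (h : (algebraMap O O' p + E.ω * algebraMap O O' q) • v ∈ W) :
    algebraMap O O' p • v ∈ W := by
  by_cases ha : algebraMap O O' p + E.ω * algebraMap O O' q = 0
  · obtain ⟨h1, -⟩ := E.indep _ _ ha
    rw [h1, map_zero, zero_smul]
    exact W.zero_mem
  · obtain ⟨k, hk⟩ := IsDiscreteValuationRing.associated_pow_irreducible ha hϖ'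
    obtain ⟨w, hw⟩ := hk
    have h1 : (algebraMap O O' ϖ) ^ k • v ∈ W := by
      rw [← hw, mul_comm, mul_smul]
      exact W.smul_mem _ h
    have h2 : algebraMap O O' (ϖ ^ k) ∣ algebraMap O O' p + E.ω * algebraMap O O' q := by
      rw [map_pow, ← hw]
      exact ⟨↑w⁻¹, by rw [mul_assoc, Units.mul_inv, mul_one]⟩
    obtain ⟨m, hm⟩ := E.dvd_coord' _ _ _ h2
    rw [hm, map_mul, map_pow, mul_comm, mul_smul]
    exact W.smul_mem _ h1

/-- cyclic components are rational -/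
theorem rat_cyclic (ϖ : O) (hϖ' : Irreducible (algebraMap O O' ϖ)) (W : Submodule O' L')
    (χ : Fin 6 → ZMod 5) (v : L) (hχ : S'.Lx χ = Submodule.span O' {E.j v}) :
    E.Rat (W ⊓ S'.Lx χ) := by
  rintro x y ⟨h1, h2⟩
  rw [hχ] at h2
  obtain ⟨a, ha⟩ := Submodule.mem_span_singleton.mp h2
  obtain ⟨p, q, rfl⟩ := E.basis a
  have hx : x = p • v := by
    have h3 : E.j (x - p • v) + E.ω • E.j (y - q • v) = 0 := by
      have h5 : E.j x + E.ω • E.j y -
          (algebraMap O O' p + E.ω * algebraMap O O' q) • E.j v = 0 := by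
        rw [ha, sub_self]
      rw [← h5]
      simp only [map_sub, E.j_smul, smul_sub, smul_smul, add_smul]
      abel
    exact sub_eq_zero.mp (E.inj _ _ h3).1
  have h4 : algebraMap O O' p • E.j v ∈ W := by
    apply real_part_mem E ϖ hϖ' W (E.j v) p q
    rw [ha]
    exact h1
  rw [hx, E.j_smul]
  refine ⟨h4, ?_⟩
  rw [hχ]
  exact Submodule.smul_mem _ _ (Submodule.mem_span_singleton_self _)

/-- components spanned by two vectors, one of them in the submodule -/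
theorem rat_pair (ϖ : O) (hϖ' : Irreducible (algebraMap O O' ϖ)) (W : Submodule O' L')
    (χ : Fin 6 → ZMod 5) (v w : L) (hχ : S'.Lx χ = Submodule.span O' {E.j v, E.j w})
    (hv : E.j v ∈ W) : E.Rat (W ⊓ S'.Lx χ) := by
  rintro x y ⟨h1, h2⟩
  rw [hχ] at h2
  obtain ⟨a, b, hab⟩ := Submodule.mem_span_pair.mp h2
  obtain ⟨p, q, rfl⟩ := E.basis a
  obtain ⟨p', q', rfl⟩ := E.basis b
  have hx : x = p • v + p' • w := by
    have h3 : E.j (x - (p • v + p' • w)) + E.ω • E.j (y - (q • v + q' • w)) = 0 := by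
      have h5 : E.j x + E.ω • E.j y -
          ((algebraMap O O' p + E.ω * algebraMap O O' q) • E.j v +
          (algebraMap O O' p' + E.ω * algebraMap O O' q') • E.j w) = 0 := by
        rw [hab, sub_self]
      rw [← h5]
      simp only [map_sub, map_add, E.j_smul, smul_sub, smul_add, smul_smul, add_smul]
      abel
    exact sub_eq_zero.mp (E.inj _ _ h3).1
  have h4 : algebraMap O O' p' • E.j w ∈ W := by
    apply real_part_mem E ϖ hϖ' W (E.j w) p' q'
    have h5 := W.sub_mem h1 (W.smul_mem (algebraMap O O' p + E.ω * algebraMap O O' q) hv)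
    rw [← hab, add_sub_cancel_left] at h5
    exact h5
  rw [hx, map_add, E.j_smul, E.j_smul]
  refine ⟨W.add_mem (W.smul_mem _ hv) h4, ?_⟩
  rw [hχ]
  exact Submodule.add_mem _ (Submodule.smul_mem _ _ (Submodule.subset_span (by simp)))
    (Submodule.smul_mem _ _ (Submodule.subset_span (by simp)))

theorem rat_bot (W : Submodule O' L') (h : W = ⊥) : E.Rat W := by
  subst h
  intro x y hxy
  rw [(E.inj x y ((Submodule.mem_bot O').mp hxy)).1, map_zero]
  exact Submodule.zero_mem _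

/-- components of the wrong degree -/
theorem rat_wrong (W : Submodule O' L') (i : ℕ) (hW : W ≤ S'.V i) (χ : Fin 6 → ZMod 5)
    (hd : dg χ ≠ i + 1) : E.Rat (W ⊓ S'.Lx χ) := by
  apply rat_bot
  rw [eq_bot_iff]
  rintro u ⟨h1, h2⟩
  have h3 := S'.P_V i u (hW h1) χ hd
  rw [S'.P_same χ u h2] at h3
  rw [h3]
  exact Submodule.zero_mem _

/-- either the component vanishes or the content is that of a word -/
theorem word_of_Lx (i : ℕ) (χ : Fin 6 → ZMod 5) (hd : dg χ = i + 1) :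
    S'.Lx χ = ⊥ ∨ ∃ (w : List (Fin 6)) (j : Fin 6), w.length = i ∧ ct (j :: w) = χ := by
  by_cases h : ∃ (w : List (Fin 6)) (j : Fin 6), w.length ≤ 3 ∧ ct (j :: w) = χ
  · right
    obtain ⟨w, j, hw, hc⟩ := h
    refine ⟨w, j, ?_, hc⟩
    have h1 := dg_ct (j :: w) (by simp only [List.length_cons]; omega)
    rw [hc, hd, List.length_cons] at h1
    omega
  · left
    rw [S'.Lx_eq_span, Submodule.span_eq_bot]
    rintro y ⟨w, j, hw, hc, -⟩
    exact absurd ⟨w, j, hw, hc⟩ h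

theorem rat_of_le (ϖ : O) (_hϖ : Irreducible ϖ) (hϖ' : Irreducible (algebraMap O O' ϖ))
    (W : Submodule O' L') (hW : S'.Stab W) (h : W ≤ S'.V 0 ∨ W ≤ S'.V 1) : E.Rat W := by
  apply rat_of_comp E W hW.1
  intro χ
  have hbot : S'.Lx χ = ⊥ → E.Rat (W ⊓ S'.Lx χ) := by
    intro h1
    apply rat_bot
    rw [h1, inf_bot_eq]
  rcases h with h | h
  · by_cases hd : dg χ = 0 + 1
    · rcases word_of_Lx (S' := S') 0 χ hd with h1 | ⟨w, j, hw, rfl⟩
      · exact hbot h1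
      · have hw' := List.length_eq_zero_iff.mp hw
        subst hw'
        exact rat_cyclic E ϖ hϖ' W _ (S.e j) (by rw [S'.Lx_one, E.j_e])
    · exact rat_wrong E W 0 h χ hd
  · by_cases hd : dg χ = 1 + 1
    · rcases word_of_Lx (S' := S') 1 χ hd with h1 | ⟨w, j, hw, rfl⟩
      · exact hbot h1
      · obtain ⟨a, rfl⟩ := List.length_eq_one_iff.mp hw
        exact rat_cyclic E ϖ hϖ' W _ ⁅S.e j, S.e a⁆ (by rw [S'.Lx_two, E.j_br, E.j_e, E.j_e])
    · exact rat_wrong E W 1 h χ hd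

/-- one bracket in the submodule makes the component rational -/
theorem rat_of_bracket (ϖ : O) (hϖ' : Irreducible (algebraMap O O' ϖ)) (W : Submodule O' L')
    (x y z : Fin 6) (h : ⁅S'.e z, ⁅S'.e x, S'.e y⁆⁆ ∈ W) :
    E.Rat (W ⊓ S'.Lx (ct [x, y, z])) := by
  refine rat_pair E ϖ hϖ' W _ ⁅S.e z, ⁅S.e x, S.e y⁆⁆ ⁅S.e x, ⁅S.e y, S.e z⁆⁆ ?_ ?_
  · rw [S'.Lx_three]
    simp only [E.j_br, E.j_e]
  · simp only [E.j_br, E.j_e]
    exact h

/-- contents with a repeated letter give rational components -/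
theorem rat_repeat (ϖ : O) (hϖ' : Irreducible (algebraMap O O' ϖ)) (W : Submodule O' L')
    (x y : Fin 6) : E.Rat (W ⊓ S'.Lx (ct [x, x, y])) := by
  refine rat_cyclic E ϖ hϖ' W _ ⁅S.e x, ⁅S.e x, S.e y⁆⁆ ?_
  rw [S'.Lx_three_two]
  simp only [E.j_br, E.j_e]

/-- a nonrational submodule of degree 3 -/
theorem nonrat_triple (ϖ : O) (_hϖ : Irreducible ϖ) (hϖ' : Irreducible (algebraMap O O' ϖ))
    (W : Submodule O' L') (hW : S'.Stab W) (h : W ≤ S'.V 2) (hr : ¬ E.Rat W) :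
    ∃ x y z : Fin 6, x ≠ y ∧ y ≠ z ∧ x ≠ z ∧ ¬ E.Rat (W ⊓ S'.Lx (ct [x, y, z])) ∧
      ⁅S'.e z, ⁅S'.e x, S'.e y⁆⁆ ∉ W ∧ ⁅S'.e x, ⁅S'.e y, S'.e z⁆⁆ ∉ W ∧
      ⁅S'.e y, ⁅S'.e z, S'.e x⁆⁆ ∉ W := by
  have h1 : ∃ χ, ¬ E.Rat (W ⊓ S'.Lx χ) := by
    by_contra hcon
    push Not at hcon
    exact hr (rat_of_comp E W hW.1 hcon)
  obtain ⟨χ, hχ⟩ := h1
  have hd : dg χ = 2 + 1 := by
    by_contra hd
    exact hχ (rat_wrong E W 2 h χ hd)
  rcases word_of_Lx (S' := S') 2 χ hd with h2 | ⟨w, j, hw, rfl⟩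
  · exact absurd (rat_bot E _ (by rw [h2, inf_bot_eq])) hχ
  · obtain ⟨a, b, rfl⟩ := List.length_eq_two.mp hw
    have hrot : ct [a, b, j] = ct [j, a, b] :=
      Sys.ct_perm (List.perm_append_comm (l₁ := [a, b]) (l₂ := [j]))
    have hrot2 : ct [b, j, a] = ct [j, a, b] :=
      Sys.ct_perm (List.perm_append_comm (l₁ := [b]) (l₂ := [j, a]))
    refine ⟨j, a, b, ?_, ?_, ?_, hχ, ?_, ?_, ?_⟩
    · rintro rfl
      exact hχ (rat_repeat E ϖ hϖ' W j b)
    · rintro rfl
      rw [← hrot] at hχ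
      exact hχ (rat_repeat E ϖ hϖ' W a j)
    · rintro rfl
      rw [← hrot2] at hχ
      exact hχ (rat_repeat E ϖ hϖ' W j a)
    · intro hm
      exact hχ (rat_of_bracket E ϖ hϖ' W j a b hm)
    · intro hm
      rw [← hrot] at hχ
      exact hχ (rat_of_bracket E ϖ hϖ' W a b j hm)
    · intro hm
      rw [← hrot2] at hχ
      exact hχ (rat_of_bracket E ϖ hϖ' W b j a hm)

end

end Pool.Agent.Lib.MP_424f45_al
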