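import Mathlib

/-!
# MP_424f45_al: finite modules over a local ring with finite residue field
-/

set_option autoImplicit false

namespace Pool.Agent.Lib.MP_424f45_al

theorem crd_simple (O : Type) [CommRing O] [IsLocalRing O] (M : Type) [AddCommGroup M] [Module O M]
    [Finite M] [Nontrivial M] : ∃ N : Submodule O M, N ≠ ⊤ ∧
      Nonempty ((M ⧸ N) ≃ₗ[O] IsLocalRing.ResidueField O) := by
  obtain ⟨N, hN, -⟩ := (eq_top_or_exists_le_coatom (⊥ : Submodule O M)).resolve_left bot_ne_top
  refine ⟨N, hN.1, ?_⟩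
  have hs : IsSimpleModule O (M ⧸ N) := isSimpleModule_iff_isCoatom.mpr hN
  obtain ⟨I, hI, ⟨e⟩⟩ := isSimpleModule_iff_quot_maximal.mp hs
  have : I = IsLocalRing.maximalIdeal O := IsLocalRing.eq_maximalIdeal hI
  subst this
  exact ⟨e⟩

theorem card_pow (O : Type) [CommRing O] [IsLocalRing O] [Finite (IsLocalRing.ResidueField O)]
    (M : Type) [AddCommGroup M] [Module O M] [Finite M] :
    ∃ m, Nat.card M = Nat.card (IsLocalRing.ResidueField O) ^ m := by
  suffices h : ∀ n : ℕ, ∀ (M : Type) [AddCommGroup M] [Module O M] [Finite M], Nat.card M = n →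
      ∃ m, Nat.card M = Nat.card (IsLocalRing.ResidueField O) ^ m from h _ M rfl
  intro n
  induction n using Nat.strong_induction_on with
  | _ n ih =>
    intro M _ _ _ hM
    rcases subsingleton_or_nontrivial M with hM1 | hM1
    · exact ⟨0, by rw [pow_zero]; exact Nat.card_unique⟩
    · obtain ⟨N, hN, ⟨e⟩⟩ := crd_simple O M
      have h1 : Nat.card M = Nat.card (M ⧸ N) * Nat.card N := by
        rw [mul_comm]
        exact N.card_eq_card_quotient_mul_card
      have h2 : Nat.card (M ⧸ N) = Nat.card (IsLocalRing.ResidueField O) :=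
        Nat.card_congr e.toEquiv
      have hq : 1 < Nat.card (IsLocalRing.ResidueField O) := Finite.one_lt_card
      have h3 : 0 < Nat.card N := Nat.card_pos
      have h4 : Nat.card N < n := by
        rw [← hM, h1, h2]
        nlinarith
      obtain ⟨m, hm⟩ := ih _ h4 N rfl
      exact ⟨m + 1, by rw [h1, h2, hm, pow_succ, mul_comm]⟩

theorem exists_functional (O : Type) [CommRing O] [IsLocalRing O]
    (M : Type) [AddCommGroup M] [Module O M] [Finite M] [Nontrivial M] :
    ∃ φ : M →ₗ[O] IsLocalRing.ResidueField O, φ ≠ 0 := by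
  obtain ⟨N, hN, ⟨e⟩⟩ := crd_simple O M
  refine ⟨e.toLinearMap ∘ₗ N.mkQ, ?_⟩
  intro h
  apply hN
  rw [eq_top_iff]
  intro x _
  have h1 : e (N.mkQ x) = 0 := LinearMap.congr_fun h x
  rw [LinearEquiv.map_eq_zero_iff] at h1
  exact (Submodule.Quotient.mk_eq_zero N).mp h1

theorem gen_of_card_eq (O : Type) [CommRing O] [IsLocalRing O]
    [Finite (IsLocalRing.ResidueField O)]
    (M : Type) [AddCommGroup M] [Module O M]
    (hM : Nat.card M = Nat.card (IsLocalRing.ResidueField O)) (y : M) (hy : y ≠ 0) :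
    (∀ m : M, ∃ a : O, m = a • y) ∧ ∀ a ∈ IsLocalRing.maximalIdeal O, ∀ m : M, a • m = 0 := by
  have hq : 1 < Nat.card (IsLocalRing.ResidueField O) := Finite.one_lt_card
  have hfin : Finite M := Nat.finite_of_card_ne_zero (by omega)
  have key : ∀ y : M, y ≠ 0 → ∀ m : M, ∃ a : O, m = a • y := by
    intro y hy m
    have h1 : Nontrivial (Submodule.span O {y}) :=
      ⟨⟨⟨y, Submodule.mem_span_singleton_self y⟩, 0, fun h => hy (congrArg Subtype.val h)⟩⟩
    obtain ⟨k, hk⟩ := card_pow O (Submodule.span O {y})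
    have h2 : 1 < Nat.card (Submodule.span O {y}) := Finite.one_lt_card
    have hk0 : k ≠ 0 := by
      rintro rfl
      rw [hk, pow_zero] at h2
      omega
    have h3 : Nat.card (Submodule.span O {y}) = Nat.card M := by
      apply le_antisymm
      · exact Nat.card_le_card_of_injective _ Subtype.val_injective
      · rw [hM, hk]
        exact Nat.le_self_pow hk0 _
    have h4 : Submodule.span O {y} = ⊤ := by
      rw [eq_top_iff]
      intro x _
      have hb : Function.Bijective (Subtype.val : Submodule.span O {y} → M) :=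
        (Nat.bijective_iff_injective_and_card _).mpr ⟨Subtype.val_injective, h3⟩
      obtain ⟨z, rfl⟩ := hb.2 x
      exact z.2
    have h5 : m ∈ Submodule.span O {y} := by rw [h4]; trivial
    obtain ⟨a, ha⟩ := Submodule.mem_span_singleton.mp h5
    exact ⟨a, ha.symm⟩
  refine ⟨key y hy, ?_⟩
  intro a ha m
  by_contra hne
  obtain ⟨b, hb⟩ := key _ hne m
  have h1 : (1 - b * a) • m = 0 := by
    rw [sub_smul, one_smul, ← smul_smul, ← hb, sub_self]
  have h2 : IsUnit (1 - b * a) := by
    apply IsLocalRing.isUnit_one_sub_self_of_mem_nonunits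
    rw [← IsLocalRing.mem_maximalIdeal]
    exact Ideal.mul_mem_left _ _ ha
  obtain ⟨v, hv⟩ := h2
  rw [← hv] at h1
  have h3 : m = 0 := by
    have := congrArg (fun x => (↑v⁻¹ : O) • x) h1
    simpa [smul_smul] using this
  rw [h3, smul_zero] at hne
  exact hne rfl

end Pool.Agent.Lib.MP_424f45_al
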