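import Mathlib

/-!
# MP_424f45_al: counting modulo 5
-/

set_option autoImplicit false
namespace Pool.Agent.Lib.MP_424f45_al

theorem ncard_modEq_fix {α : Type*} {S : Set α} (hS : S.Finite) (f : α → α)
    (hf : ∀ x ∈ S, f x ∈ S) (h5 : ∀ x ∈ S, f^[5] x = x) :
    S.ncard ≡ {x ∈ S | f x = x}.ncard [MOD 5] := by
  classical
  have := hS.fintype
  let g : Function.End S := fun x => ⟨f x, hf x x.2⟩
  have hg : ∀ n : ℕ, ∀ x : S, ((g ^ n) x : α) = f^[n] x := by
    intro n
    induction n with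
    | zero => intro x; rfl
    | succ n ih =>
      intro x
      rw [pow_succ, Function.iterate_succ_apply]
      exact ih (g x)
  have hg5 : g ^ 5 ^ 1 = 1 := by
    funext x
    apply Subtype.ext
    rw [hg]
    exact h5 x x.2
  have : Fact (Nat.Prime 5) := ⟨by norm_num⟩
  have key := Equiv.Perm.card_fixedPoints_modEq hg5
  rw [← Nat.card_eq_fintype_card, ← Nat.card_eq_fintype_card] at key
  rw [Nat.card_coe_set_eq] at key
  refine key.trans ?_
  have : Nat.card (Function.fixedPoints g) = {x ∈ S | f x = x}.ncard := by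
    rw [← Nat.card_coe_set_eq]
    refine Nat.card_congr ⟨fun x => ⟨x.1.1, x.1.2, congrArg Subtype.val x.2⟩,
      fun x => ⟨⟨x.1, x.2.1⟩, Subtype.ext x.2.2⟩, fun x => rfl, fun x => rfl⟩
  rw [this]

theorem ncard_modEq_fix_comm {α : Type*} {r : ℕ} {S : Set α} (hS : S.Finite) (f : Fin r → α → α)
    (hf : ∀ i, ∀ x ∈ S, f i x ∈ S) (h5 : ∀ i, ∀ x ∈ S, (f i)^[5] x = x)
    (hc : ∀ i k, ∀ x ∈ S, f i (f k x) = f k (f i x)) :
    S.ncard ≡ {x ∈ S | ∀ i, f i x = x}.ncard [MOD 5] := by
  induction r with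
  | zero =>
    have : {x ∈ S | ∀ i, f i x = x} = S := by
      ext x
      constructor
      · exact fun h => h.1
      · exact fun h => ⟨h, fun i => i.elim0⟩
    rw [this]
  | succ r ih =>
    have h1 := ih (fun i => f i.castSucc) (fun i => hf _) (fun i => h5 _) (fun i k => hc _ _)
    refine h1.trans ?_
    set T := {x ∈ S | ∀ i : Fin r, f i.castSucc x = x} with hT
    have h2 := ncard_modEq_fix (S := T) (hS.subset (fun x hx => hx.1)) (f (Fin.last r)) (by
        intro x hx
        refine ⟨hf _ _ hx.1, fun i => ?_⟩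
        rw [hc _ _ _ hx.1, hx.2 i]) (fun x hx => h5 _ _ hx.1)
    refine h2.trans ?_
    have : {x ∈ T | f (Fin.last r) x = x} = {x ∈ S | ∀ i, f i x = x} := by
      ext x
      constructor
      · rintro ⟨⟨hx, h3⟩, h4⟩
        refine ⟨hx, fun i => ?_⟩
        refine Fin.lastCases h4 h3 i
      · rintro ⟨hx, h3⟩
        exact ⟨⟨hx, fun i => h3 _⟩, h3 _⟩
    rw [this]

theorem dvd_ncard_of_fibers {α β : Type*} {S : Set (α × β)} (hS : S.Finite)
    (h : ∀ a, 5 ∣ {b | (a, b) ∈ S}.ncard) : 5 ∣ S.ncard := by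
  classical
  rw [Set.ncard_eq_toFinset_card S hS]
  rw [Finset.card_eq_sum_card_fiberwise (f := Prod.fst) (t := hS.toFinset.image Prod.fst)
    (fun x hx => Finset.mem_coe.mpr (Finset.mem_image_of_mem _ hx))]
  refine Finset.dvd_sum fun a _ => ?_
  have : (hS.toFinset.filter (fun x => x.1 = a)).card = {b | (a, b) ∈ S}.ncard := by
    rw [← Set.ncard_coe_finset]
    have h1 : (↑(hS.toFinset.filter (fun x => x.1 = a)) : Set (α × β)) =
        (fun b => (a, b)) '' {b | (a, b) ∈ S} := by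
      ext ⟨x, y⟩
      simp only [Finset.coe_filter, Set.Finite.mem_toFinset, Set.mem_image]
      constructor
      · rintro ⟨h1, rfl⟩
        exact ⟨y, h1, rfl⟩
      · rintro ⟨b, hb, h2⟩
        obtain ⟨rfl, rfl⟩ := Prod.mk.inj h2
        exact ⟨hb, rfl⟩
    rw [h1, Set.ncard_image_of_injective _ (fun b b' h => (Prod.mk.inj h).2)]
  rw [this]
  exact h a

end Pool.Agent.Lib.MP_424f45_al
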