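import Pool.Agent.Lib.MP_424f45_al.Eig2
import Pool.Agent.Lib.MP_424f45_al.PG
import Pool.Agent.Lib.MP_424f45_al.Crd

/-!
# MP_424f45_al: graded ideals, stable ideals and quadruples
-/

set_option autoImplicit false
set_option linter.unusedSectionVars false

namespace Pool.Agent.Lib.MP_424f45_al

/-! ### finiteness -/

theorem teq_kill (O : Type) [CommRing O] [IsLocalRing O] [Finite (IsLocalRing.ResidueField O)]
    (a : O) (ha : a ∈ IsLocalRing.maximalIdeal O) : ∀ (n : ℕ) (M : Type) [AddCommGroup M]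
      [Module O M], Nat.card M = Nat.card (IsLocalRing.ResidueField O) ^ n →
      ∀ m : M, a ^ n • m = 0 := by
  intro n
  induction n with
  | zero =>
    intro M _ _ hM m
    have : Subsingleton M := (Nat.card_eq_one_iff_unique.mp (by rw [hM, pow_zero])).1
    exact Subsingleton.elim _ _
  | succ n ih =>
    intro M _ _ hM m
    have hq : 1 < Nat.card (IsLocalRing.ResidueField O) := Finite.one_lt_card
    have hcard : 1 < Nat.card M := by
      rw [hM]
      exact Nat.one_lt_pow (Nat.succ_ne_zero n) hq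
    have hfin : Finite M := Nat.finite_of_card_ne_zero (by omega)
    have hnt : Nontrivial M := Finite.one_lt_card_iff_nontrivial.mp hcard
    obtain ⟨N, hN, ⟨e⟩⟩ := crd_simple O M
    have h1 : Nat.card M = Nat.card (M ⧸ N) * Nat.card N := by
      rw [mul_comm]
      exact N.card_eq_card_quotient_mul_card
    have h2 : Nat.card (M ⧸ N) = Nat.card (IsLocalRing.ResidueField O) :=
      Nat.card_congr e.toEquiv
    have h3 : Nat.card N = Nat.card (IsLocalRing.ResidueField O) ^ n := by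
      rw [hM, h2, pow_succ, mul_comm] at h1
      exact (Nat.eq_of_mul_eq_mul_left (by omega) h1).symm
    have h4 : a • m ∈ N := by
      rw [← Submodule.Quotient.mk_eq_zero, Submodule.Quotient.mk_smul]
      apply e.injective
      rw [map_smul, map_zero, Algebra.smul_def]
      have : algebraMap O (IsLocalRing.ResidueField O) a = 0 :=
        (IsLocalRing.residue_eq_zero_iff a).mpr ha
      rw [this, zero_mul]
    have h5 := ih N h3 ⟨a • m, h4⟩
    have h6 := congrArg Subtype.val h5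
    rw [pow_succ, ← smul_smul]
    exact h6

section

variable {O L : Type} [CommRing O] [IsDomain O] [IsDiscreteValuationRing O]
  [Finite (IsLocalRing.ResidueField O)] [LieRing L] [LieAlgebra O L] (S : Sys O L)

include S in
theorem Sys.fg : Module.Finite O L := by
  refine ⟨?_⟩
  rw [← S.span]
  refine Submodule.fg_span ?_
  have h1 : {y : L | ∃ (w : List (Fin 6)) (j : Fin 6), w.length ≤ 3 ∧ y = br S.e w j} ⊆
      (fun p : List (Fin 6) × Fin 6 => br S.e p.1 p.2) '' ({w | w.length ≤ 3} ×ˢ Set.univ) := by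
    rintro y ⟨w, j, hw, rfl⟩
    exact ⟨(w, j), ⟨hw, trivial⟩, rfl⟩
  refine Set.Finite.subset (Set.Finite.image _ (Set.Finite.prod ?_ Set.finite_univ)) h1
  have h2 : {w : List (Fin 6) | w.length ≤ 3} = ⋃ i ∈ Finset.range 4, {w | w.length = i} := by
    ext w
    simp only [Set.mem_iUnion, Finset.mem_range, exists_prop]
    constructor
    · intro h
      exact ⟨w.length, Nat.lt_succ_of_le h, rfl⟩
    · rintro ⟨i, hi, h⟩
      show w.length ≤ 3
      have h' : w.length = i := h
      omega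
  rw [h2]
  exact Set.Finite.biUnion (Finset.finite_toSet _) (fun i _ => List.finite_length_eq _ i)

include S in
theorem Sys.finite_index (n : ℕ) :
    {I : Submodule O L | Nat.card (L ⧸ I) = Nat.card (IsLocalRing.ResidueField O) ^ n}.Finite := by
  have hfg := S.fg
  set m := IsLocalRing.maximalIdeal O with hm
  have hfq : Finite (O ⧸ m) := inferInstanceAs (Finite (IsLocalRing.ResidueField O))
  obtain ⟨ϖ, hϖ⟩ := IsDiscreteValuationRing.exists_irreducible O
  have hmϖ : m = Ideal.span {ϖ} := hϖ.maximalIdeal_eq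
  have hfp : Finite (O ⧸ m ^ n) := Ideal.finite_quotient_pow (IsNoetherian.noetherian m) n
  set J : Submodule O L := (m ^ n) • (⊤ : Submodule O L) with hJ
  have hfJ : Finite (L ⧸ J) := by
    have : Module.Finite (O ⧸ m ^ n) (L ⧸ J) := by
      have h1 : Module.Finite O (L ⧸ J) := inferInstance
      exact Module.Finite.of_restrictScalars_finite O (O ⧸ m ^ n) (L ⧸ J)
    exact Module.finite_of_finite (O ⧸ m ^ n)
  have hle : ∀ I ∈ {I : Submodule O L | Nat.card (L ⧸ I) =
      Nat.card (IsLocalRing.ResidueField O) ^ n}, J ≤ I := by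
    intro I hI
    have hI' : Nat.card (L ⧸ I) = Nat.card (IsLocalRing.ResidueField O) ^ n := hI
    rw [hJ, hmϖ, Ideal.span_singleton_pow]
    rw [Submodule.smul_le]
    intro r hr u _
    obtain ⟨b, rfl⟩ := Ideal.mem_span_singleton.mp hr
    have h1 := teq_kill O ϖ (by rw [← hm, hmϖ]; exact Ideal.mem_span_singleton_self ϖ) n (L ⧸ I) hI'
      (Submodule.Quotient.mk u)
    rw [← Submodule.Quotient.mk_smul, Submodule.Quotient.mk_eq_zero] at h1
    rw [mul_comm, mul_smul]
    exact I.smul_mem _ h1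
  have hfs : Finite (Submodule O (L ⧸ J)) := inferInstance
  refine Set.Finite.subset (Set.finite_range (fun K : Submodule O (L ⧸ J) => K.comap J.mkQ)) ?_
  intro I hI
  refine ⟨I.map J.mkQ, ?_⟩
  show (I.map J.mkQ).comap J.mkQ = I
  rw [Submodule.comap_map_eq, Submodule.ker_mkQ, sup_eq_left]
  exact hle I hI

/-! ### the bijection -/

theorem Sys.FixI_bijOn (n : ℕ) : Set.BijOn
    (fun I : Submodule O L => (((I ⊓ S.V 0, I ⊓ S.V 1), I ⊓ S.V 2), I ⊓ S.V 3))
    (S.FixI n) (S.Tup n) := by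
  refine ⟨?_, ?_, ?_⟩
  · rintro I ⟨hst, hcl, hc⟩
    have h1 : ∀ i, S.Stab (I ⊓ S.V i) := fun i =>
      ⟨fun x u hu => ⟨hst.1 x u hu.1, S.V_tau i x u hu.2⟩,
        fun u hu => ⟨hst.2 u hu.1, S.V_s i u hu.2⟩⟩
    have h2 : ∀ i, S.Clo (I ⊓ S.V i) (I ⊓ S.V (i + 1)) := fun i x u hu =>
      ⟨hcl x u hu.1, S.V_clo i x u hu.2⟩
    refine ⟨⟨inf_le_right, inf_le_right, inf_le_right, inf_le_right⟩, ⟨h1 0, h1 1, h1 2, h1 3⟩,
      ⟨h2 0, h2 1, h2 2⟩, ?_⟩
    rw [← hc]
    exact (S.card_quot_V I (fun i u hu => S.D_stab I hst.1 i u hu)).symm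
  · rintro I ⟨hst, -, -⟩ I' ⟨hst', -, -⟩ h
    simp only [Prod.mk.injEq] at h
    obtain ⟨⟨⟨h0, h1⟩, h2⟩, h3⟩ := h
    have key : ∀ I I' : Submodule O L, S.Stab I → I ⊓ S.V 0 = I' ⊓ S.V 0 →
        I ⊓ S.V 1 = I' ⊓ S.V 1 → I ⊓ S.V 2 = I' ⊓ S.V 2 → I ⊓ S.V 3 = I' ⊓ S.V 3 → I ≤ I' := by
      intro I I' hst h0 h1 h2 h3 u hu
      rw [← S.D_sum u]
      have m : ∀ i, S.D i u ∈ I ⊓ S.V i := fun i => ⟨S.D_stab I hst.1 i u hu, S.D_mem i u⟩
      have m0 := m 0
      have m1 := m 1
      have m2 := m 2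
      have m3 := m 3
      rw [h0] at m0
      rw [h1] at m1
      rw [h2] at m2
      rw [h3] at m3
      exact I'.add_mem (I'.add_mem (I'.add_mem m0.1 m1.1) m2.1) m3.1
    exact le_antisymm (key I I' hst h0 h1 h2 h3)
      (key I' I hst' h0.symm h1.symm h2.symm h3.symm)
  · rintro ⟨⟨⟨A, B⟩, C⟩, D⟩ ⟨⟨hA, hB, hC, hD⟩, ⟨sA, sB, sC, sD⟩, ⟨c1, c2, c3⟩, hc⟩
    simp only at hA hB hC hD sA sB sC sD c1 c2 c3 hc
    -- the sum
    let I : Submodule O L := A ⊔ B ⊔ C ⊔ D
    have hmem : ∀ u, u ∈ I ↔ ∃ a ∈ A, ∃ b ∈ B, ∃ c ∈ C, ∃ d ∈ D, u = a + b + c + d := by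
      intro u
      constructor
      · intro hu
        obtain ⟨x, hx, d, hd, rfl⟩ := Submodule.mem_sup.mp hu
        obtain ⟨y, hy, c, hc, rfl⟩ := Submodule.mem_sup.mp hx
        obtain ⟨a, ha, b, hb, rfl⟩ := Submodule.mem_sup.mp hy
        exact ⟨a, ha, b, hb, c, hc, d, hd, rfl⟩
      · rintro ⟨a, ha, b, hb, c, hc, d, hd, rfl⟩
        exact Submodule.add_mem_sup (Submodule.add_mem_sup (Submodule.add_mem_sup ha hb) hc) hd
    have hcomp : ∀ a ∈ A, ∀ b ∈ B, ∀ c ∈ C, ∀ d ∈ D, S.D 0 (a + b + c + d) = a ∧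
        S.D 1 (a + b + c + d) = b ∧ S.D 2 (a + b + c + d) = c ∧ S.D 3 (a + b + c + d) = d := by
      intro a ha b hb c hc d hd
      simp only [map_add]
      rw [S.D_same 0 a (hA ha), S.D_ne 0 1 (by decide) b (hB hb), S.D_ne 0 2 (by decide) c (hC hc),
        S.D_ne 0 3 (by decide) d (hD hd), S.D_ne 1 0 (by decide) a (hA ha), S.D_same 1 b (hB hb),
        S.D_ne 1 2 (by decide) c (hC hc), S.D_ne 1 3 (by decide) d (hD hd),
        S.D_ne 2 0 (by decide) a (hA ha), S.D_ne 2 1 (by decide) b (hB hb), S.D_same 2 c (hC hc),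
        S.D_ne 2 3 (by decide) d (hD hd), S.D_ne 3 0 (by decide) a (hA ha),
        S.D_ne 3 1 (by decide) b (hB hb), S.D_ne 3 2 (by decide) c (hC hc), S.D_same 3 d (hD hd)]
      simp
    have hAI : A ≤ I := le_sup_of_le_left (le_sup_of_le_left le_sup_left)
    have hBI : B ≤ I := le_sup_of_le_left (le_sup_of_le_left le_sup_right)
    have hCI : C ≤ I := le_sup_of_le_left le_sup_right
    have hDI : D ≤ I := le_sup_right
    have i0 : I ⊓ S.V 0 = A := by
      apply le_antisymm
      · rintro u ⟨hu, hv⟩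
        obtain ⟨a, ha, b, hb, c, hc, d, hd, rfl⟩ := (hmem u).mp hu
        rw [← S.D_same 0 _ hv, (hcomp a ha b hb c hc d hd).1]
        exact ha
      · exact le_inf hAI hA
    have i1 : I ⊓ S.V 1 = B := by
      apply le_antisymm
      · rintro u ⟨hu, hv⟩
        obtain ⟨a, ha, b, hb, c, hc, d, hd, rfl⟩ := (hmem u).mp hu
        rw [← S.D_same 1 _ hv, (hcomp a ha b hb c hc d hd).2.1]
        exact hb
      · exact le_inf hBI hB
    have i2 : I ⊓ S.V 2 = C := by
      apply le_antisymm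
      · rintro u ⟨hu, hv⟩
        obtain ⟨a, ha, b, hb, c, hc, d, hd, rfl⟩ := (hmem u).mp hu
        rw [← S.D_same 2 _ hv, (hcomp a ha b hb c hc d hd).2.2.1]
        exact hc
      · exact le_inf hCI hC
    have i3 : I ⊓ S.V 3 = D := by
      apply le_antisymm
      · rintro u ⟨hu, hv⟩
        obtain ⟨a, ha, b, hb, c, hc, d, hd, rfl⟩ := (hmem u).mp hu
        rw [← S.D_same 3 _ hv, (hcomp a ha b hb c hc d hd).2.2.2]
        exact hd
      · exact le_inf hDI hD
    have hst : S.Stab I := by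
      constructor
      · intro x u hu
        obtain ⟨a, ha, b, hb, c, hc, d, hd, rfl⟩ := (hmem u).mp hu
        rw [hmem]
        exact ⟨_, sA.1 x a ha, _, sB.1 x b hb, _, sC.1 x c hc, _, sD.1 x d hd, by simp only [map_add]⟩
      · intro u hu
        obtain ⟨a, ha, b, hb, c, hc, d, hd, rfl⟩ := (hmem u).mp hu
        rw [hmem]
        exact ⟨_, sA.2 a ha, _, sB.2 b hb, _, sC.2 c hc, _, sD.2 d hd, by simp only [map_add]⟩
    refine ⟨I, ⟨hst, ?_, ?_⟩, ?_⟩
    · intro x u hu
      obtain ⟨a, ha, b, hb, c, hc, d, hd, rfl⟩ := (hmem u).mp hu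
      have h4 : ⁅S.e x, d⁆ = 0 := by
        have := S.V_clo 3 x d (hD hd)
        rw [S.V_bot 4 le_rfl] at this
        exact (Submodule.mem_bot O).mp this
      simp only [lie_add]
      rw [h4, add_zero]
      exact I.add_mem (I.add_mem (hBI (c1 x a ha)) (hCI (c2 x b hb))) (hDI (c3 x c hc))
    · rw [S.card_quot_V I (fun i u hu => S.D_stab I hst.1 i u hu), i0, i1, i2, i3, hc]
    · simp only [i0, i1, i2, i3]

theorem Sys.Tup_finite (n : ℕ) : (S.Tup n).Finite := by
  have h := (S.FixI_bijOn n).image_eq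
  rw [← h]
  refine Set.Finite.image _ ((S.finite_index n).subset ?_)
  exact fun I hI => hI.2.2

/-! ### the frozen set -/

/-- the Lie ideal given by a submodule closed under brackets with the generators -/
def Sys.toIdeal (I : Submodule O L) (hI : S.Clo I I) : LieIdeal O L where
  toSubmodule := I
  lie_mem := by
    intro x m hm
    refine S.induct (p := fun x => ∀ m ∈ I, ⁅x, m⁆ ∈ I) ?_ ?_ ?_ ?_ ?_ x m hm
    · intro m _; rw [zero_lie]; exact I.zero_mem
    · intro u v hu hv m hm; rw [add_lie]; exact I.add_mem (hu m hm) (hv m hm)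
    · intro a u hu m hm; rw [smul_lie]; exact I.smul_mem a (hu m hm)
    · intro x m hm; exact hI x m hm
    · intro x u hu m hm
      rw [lie_lie]
      exact I.sub_mem (hI x _ (hu m hm)) (hu _ (hI x m hm))

omit [IsDomain O] [IsDiscreteValuationRing O] [Finite (IsLocalRing.ResidueField O)] in
/-- gradedness in terms of the projectors -/
theorem Sys.graded_iff (I : Submodule O L) :
    I = (⨆ i : ℕ, (I ⊓ S.V i)) ↔ ∀ i, ∀ u ∈ I, S.D i u ∈ I := by
  constructor
  · intro h i u hu
    rw [h] at hu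
    refine Submodule.iSup_induction _ (motive := fun u => S.D i u ∈ I) hu ?_ ?_ ?_
    · rintro k u ⟨hu, hv⟩
      by_cases hik : i = k
      · subst hik
        rw [S.D_same i u hv]
        exact hu
      · rw [S.D_ne i k hik u hv]
        exact I.zero_mem
    · rw [map_zero]; exact I.zero_mem
    · intro u v hu hv
      rw [map_add]
      exact I.add_mem hu hv
  · intro h
    apply le_antisymm
    · intro u hu
      rw [← S.D_sum u]
      have m : ∀ i, S.D i u ∈ ⨆ i : ℕ, (I ⊓ S.V i) := fun i =>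
        Submodule.mem_iSup_of_mem i ⟨h i u hu, S.D_mem i u⟩
      exact Submodule.add_mem _ (Submodule.add_mem _ (Submodule.add_mem _ (m 0) (m 1)) (m 2)) (m 3)
    · exact iSup_le fun i => inf_le_left

omit [IsDomain O] [IsDiscreteValuationRing O] [Finite (IsLocalRing.ResidueField O)] in
theorem Sys.D_comm (f : L →ₗ[O] L) (hf : ∀ i, ∀ u ∈ S.V i, f u ∈ S.V i) (i : ℕ) (u : L) :
    S.D i (f u) = f (S.D i u) := by
  have key : ∀ k, S.D i (f (S.D k u)) = if i = k then f (S.D i u) else 0 := by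
    intro k
    split_ifs with h
    · subst h
      exact S.D_same i _ (hf i _ (S.D_mem i u))
    · exact S.D_ne i k h _ (hf k _ (S.D_mem k u))
  have h2 : S.D i (f u) = S.D i (f (S.D 0 u)) + S.D i (f (S.D 1 u)) + S.D i (f (S.D 2 u)) +
      S.D i (f (S.D 3 u)) := by
    conv_lhs => rw [← S.D_sum u]
    simp only [map_add]
  rw [h2, key, key, key, key]
  by_cases hi : i < 4
  · interval_cases i <;> simp
  · have h0 : S.D i u = 0 := by
      have := S.D_mem i u
      rw [S.V_bot i (by omega)] at this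
      exact (Submodule.mem_bot O).mp this
    rw [h0]
    simp

omit [IsDomain O] [IsDiscreteValuationRing O] [Finite (IsLocalRing.ResidueField O)] in
/-- the index of the preimage under a bijective map -/
theorem card_comap (f : L →ₗ[O] L) (hf : Function.Bijective f) (I : Submodule O L) :
    Nat.card (L ⧸ I.comap f) = Nat.card (L ⧸ I) := by
  refine Nat.card_congr (Submodule.Quotient.equiv _ _ (LinearEquiv.ofBijective f hf) ?_).toEquiv
  ext u
  constructor
  · rintro ⟨v, hv, rfl⟩
    exact hv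
  · intro hu
    obtain ⟨v, rfl⟩ := hf.2 u
    exact ⟨v, hu, rfl⟩

theorem frozen_modEq (n : ℕ) :
    Set.ncard {I : LieIdeal O L | (I : Submodule O L) =
        (⨆ i : ℕ, ((I : Submodule O L) ⊓ S.V i)) ∧
      Nat.card (L ⧸ (I : Submodule O L)) = Nat.card (IsLocalRing.ResidueField O) ^ n} ≡
    (S.Tup n).ncard [MOD 5] := by
  set F : Set (LieIdeal O L) := {I : LieIdeal O L | (I : Submodule O L) =
        (⨆ i : ℕ, ((I : Submodule O L) ⊓ S.V i)) ∧
      Nat.card (L ⧸ (I : Submodule O L)) = Nat.card (IsLocalRing.ResidueField O) ^ n} with hF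
  have hFfin : F.Finite := by
    refine Set.Finite.of_finite_image (f := fun I : LieIdeal O L => (I : Submodule O L))
      ((S.finite_index n).subset ?_) ?_
    · rintro _ ⟨I, hI, rfl⟩
      exact hI.2
    · intro I _ I' _ h
      exact LieSubmodule.toSubmodule_injective h
  have hbij : ∀ f : L →ₗ⁅O⁆ L, (∀ u, f^[5] u = u) → Function.Bijective f := by
    intro f h5
    have h5' : ∀ u, f (f (f (f (f u)))) = u := h5
    constructor
    · intro a b hab
      rw [← h5' a, ← h5' b, hab]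
    · intro u
      exact ⟨f (f (f (f u))), h5' u⟩
  have hmap : ∀ f : L →ₗ⁅O⁆ L, (∀ u, f^[5] u = u) → (∀ i, ∀ u ∈ S.V i, f u ∈ S.V i) →
      ∀ I ∈ F, LieIdeal.comap f I ∈ F := by
    intro f h5 hV I hI
    refine ⟨?_, ?_⟩
    · rw [S.graded_iff]
      intro i u hu
      have hu' : f u ∈ I := hu
      have h1 := (S.graded_iff (I : Submodule O L)).mp hI.1 i (f u) hu'
      have h1' : S.D i (f u) = f (S.D i u) := S.D_comm (f : L →ₗ[O] L) hV i u
      rw [h1'] at h1
      exact h1
    · rw [← hI.2]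
      exact card_comap (f : L →ₗ[O] L) (hbij f h5) (I : Submodule O L)
  have hiter : ∀ f : L →ₗ⁅O⁆ L, (∀ u, f^[5] u = u) → ∀ I : LieIdeal O L,
      (LieIdeal.comap f)^[5] I = I := by
    intro f h5 I
    have h5' : ∀ u, f (f (f (f (f u)))) = u := h5
    ext u
    show f (f (f (f (f u)))) ∈ I ↔ u ∈ I
    rw [h5']
  -- the torus
  have h1 := ncard_modEq_fix_comm hFfin (fun x : Fin 6 => LieIdeal.comap (S.τ x))
    (fun x I hI => hmap _ (S.tau5 x) (fun i u hu => S.V_tau i x u hu) I hI)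
    (fun x I _ => hiter _ (S.tau5 x) I)
    (fun x y I _ => by
      ext u
      show S.τ y (S.τ x u) ∈ I ↔ S.τ x (S.τ y u) ∈ I
      rw [S.tau_comm])
  refine h1.trans ?_
  set F1 := {I ∈ F | ∀ x : Fin 6, LieIdeal.comap (S.τ x) I = I} with hF1
  have h2 := ncard_modEq_fix (S := F1) (hFfin.subset (fun I hI => hI.1)) (LieIdeal.comap S.s)
    (by
      rintro I ⟨hI, hx⟩
      refine ⟨hmap _ S.s5 (fun i u hu => S.V_s i u hu) I hI, ?_⟩
      intro x
      ext u
      show S.s (S.τ x u) ∈ I ↔ S.s u ∈ I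
      rw [S.s_tau]
      have := hx (sh x)
      constructor
      · intro h
        rw [← this]
        exact h
      · intro h
        rw [← this] at h
        exact h)
    (fun I _ => hiter _ S.s5 I)
  refine h2.trans ?_
  have h3 : (fun I : LieIdeal O L => (I : Submodule O L)) '' {I ∈ F1 | LieIdeal.comap S.s I = I} =
      S.FixI n := by
    ext I
    constructor
    · rintro ⟨I, ⟨⟨hI, hx⟩, hs⟩, rfl⟩
      refine ⟨⟨?_, ?_⟩, ?_, hI.2⟩
      · intro x u hu
        have hu' : u ∈ I := hu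
        rw [← hx x] at hu'
        exact hu'
      · intro u hu
        have hu' : u ∈ I := hu
        rw [← hs] at hu'
        exact hu'
      · intro x u hu
        exact I.lie_mem hu
    · rintro ⟨hst, hcl, hc⟩
      have hcom : ∀ f : L →ₗ⁅O⁆ L, (∀ u, f^[5] u = u) → (∀ u ∈ I, f u ∈ I) →
          LieIdeal.comap f (S.toIdeal I hcl) = S.toIdeal I hcl := by
        intro f h5 hf
        have h5' : ∀ u, f (f (f (f (f u)))) = u := h5
        ext u
        show f u ∈ I ↔ u ∈ I
        constructor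
        · intro h
          rw [← h5' u]
          exact hf _ (hf _ (hf _ (hf _ h)))
        · exact hf u
      refine ⟨S.toIdeal I hcl, ⟨⟨⟨?_, hc⟩, fun x => hcom _ (S.tau5 x) (hst.1 x)⟩,
        hcom _ S.s5 hst.2⟩, rfl⟩
      exact (S.graded_iff I).mpr (fun i u hu => S.D_stab I hst.1 i u hu)
  have h4 : {I ∈ F1 | LieIdeal.comap S.s I = I}.ncard = (S.FixI n).ncard := by
    rw [← h3]
    exact (Set.ncard_image_of_injective _
      (fun I I' h => LieSubmodule.toSubmodule_injective h)).symm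
  have h5 : (S.FixI n).ncard = (S.Tup n).ncard := by
    rw [← (S.FixI_bijOn n).image_eq, Set.InjOn.ncard_image (S.FixI_bijOn n).injOn]
  rw [h4, h5]

end

end Pool.Agent.Lib.MP_424f45_al
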