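import Pool.Agent.Lib.MP_424f45_al.GL
import Pool.Agent.Lib.MP_424f45_al.Eig2
import Pool.Agent.Lib.MP_424f45_al.Teq
import Pool.Agent.Lib.MP_424f45_al.Nrt

set_option autoImplicit false
set_option linter.unusedSectionVars false

namespace Pool.Agent.Lib.MP_424f45_al

/-! ### indices -/

theorem index_sq {G H : Type} [AddCommGroup G] [AddCommGroup H] (K : AddSubgroup G)
    (φ : G × G →+ H) (hs : Function.Surjective φ) (hk : ∀ x y, φ (x, y) = 0 ↔ x ∈ K ∧ y ∈ K) :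
    Nat.card H = K.index ^ 2 := by
  have h1 : φ.ker = K.prod K := by
    ext ⟨x, y⟩
    rw [AddMonoidHom.mem_ker, hk]
    rfl
  have h2 := AddSubgroup.index_ker φ
  rw [h1, AddSubgroup.index_prod] at h2
  have h3 : Nat.card φ.range = Nat.card H := by
    rw [AddMonoidHom.range_eq_top.mpr hs]
    exact Nat.card_congr (Equiv.Set.univ H)
  rw [← h3, ← h2, sq]

section Idx

variable {O L O' L' : Type} [CommRing O] [LieRing L] [LieAlgebra O L]
    [CommRing O'] [LieRing L'] [LieAlgebra O' L'] [Algebra O O'] {S : Sys O L}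
    {S' : Sys O' L'} (E : Ext S S')

theorem ix_bc (A B : Submodule O L) : ix (E.bc A) (E.bc B) = ix A B ^ 2 := by
  let φ : B × B →+ (E.bc B ⧸ (E.bc A).submoduleOf (E.bc B)) :=
    { toFun := fun m => Submodule.Quotient.mk ⟨E.j m.1 + E.ω • E.j m.2,
        E.mem_bc_iff.mpr ⟨m.1.2, m.2.2⟩⟩
      map_zero' := by
        rw [Submodule.Quotient.mk_eq_zero]
        show E.j ((0 : B × B).1 : L) + E.ω • E.j ((0 : B × B).2 : L) ∈ E.bc A
        exact E.mem_bc_iff.mpr ⟨A.zero_mem, A.zero_mem⟩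
      map_add' := by
        intro a b
        rw [← Submodule.Quotient.mk_add]
        congr 1
        apply Subtype.ext
        show E.j ((a.1 : L) + b.1) + E.ω • E.j ((a.2 : L) + b.2) = (E.j a.1 + E.ω • E.j a.2) +
          (E.j b.1 + E.ω • E.j b.2)
        rw [map_add, map_add, smul_add]
        abel }
  refine index_sq (A.submoduleOf B).toAddSubgroup φ ?_ ?_
  · intro u
    obtain ⟨⟨u, hu⟩, rfl⟩ := Submodule.Quotient.mk_surjective _ u
    obtain ⟨x, hx, y, hy, rfl⟩ := E.mem_bc.mp hu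
    exact ⟨(⟨x, hx⟩, ⟨y, hy⟩), rfl⟩
  · rintro ⟨x, hx⟩ ⟨y, hy⟩
    show Submodule.Quotient.mk _ = 0 ↔ _
    rw [Submodule.Quotient.mk_eq_zero]
    exact E.mem_bc_iff

theorem bc_V (i : ℕ) : E.bc (S.V i) = S'.V i := by
  have h0 : ∀ (w : List (Fin 6)) (k : Fin 6),
      E.j (List.foldr (fun (k : Fin 6) (a : L) => ⁅S.e k, a⁆) (S.e k) w) =
        List.foldr (fun (k : Fin 6) (a : L') => ⁅S'.e k, a⁆) (S'.e k) w := by
    intro w k
    induction w with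
    | nil => exact E.j_e k
    | cons a w ih => rw [List.foldr_cons, List.foldr_cons, E.j_br, ih, E.j_e]
  apply le_antisymm
  · have h1 : ∀ x ∈ S.V i, E.j x ∈ S'.V i := by
      intro x hx
      induction hx using Submodule.span_induction with
      | mem x hx =>
        obtain ⟨k, w, hw, rfl⟩ := hx
        rw [h0]
        exact Submodule.subset_span ⟨k, w, hw, rfl⟩
      | zero => rw [map_zero]; exact Submodule.zero_mem _
      | add a b _ _ ha hb => rw [map_add]; exact Submodule.add_mem _ ha hb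
      | smul a x _ hx => rw [E.j_smul]; exact Submodule.smul_mem _ _ hx
    intro u hu
    obtain ⟨x, hx, y, hy, rfl⟩ := E.mem_bc.mp hu
    exact Submodule.add_mem _ (h1 x hx) (Submodule.smul_mem _ _ (h1 y hy))
  · refine Submodule.span_le.mpr ?_
    rintro _ ⟨k, w, hw, rfl⟩
    rw [← h0]
    exact E.j_mem_bc.mpr (Submodule.subset_span ⟨k, w, hw, rfl⟩)

end Idx

section BC

variable {O L O' L' : Type} [CommRing O] [IsDomain O] [IsDiscreteValuationRing O]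
  [CommRing O'] [IsDomain O'] [IsDiscreteValuationRing O'] [Algebra O O']
  [LieRing L] [LieAlgebra O L] [LieRing L'] [LieAlgebra O' L']
  {S : Sys O L} {S' : Sys O' L'} (E : Ext S S')

include E in
theorem card_residue [Finite (IsLocalRing.ResidueField O)] (ϖ : O) (hϖ : Irreducible ϖ)
    (hϖ' : Irreducible (algebraMap O O' ϖ)) :
    Nat.card (IsLocalRing.ResidueField O') = Nat.card (IsLocalRing.ResidueField O) ^ 2 := by
  let φ : O × O →+ IsLocalRing.ResidueField O' :=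
    { toFun := fun m => IsLocalRing.residue O' (algebraMap O O' m.1 + E.ω * algebraMap O O' m.2)
      map_zero' := by simp
      map_add' := by
        intro a b
        rw [← map_add]
        congr 1
        rw [Prod.fst_add, Prod.snd_add, map_add, map_add]
        ring }
  refine index_sq (IsLocalRing.maximalIdeal O).toAddSubgroup φ ?_ ?_
  · intro u
    obtain ⟨u, rfl⟩ := IsLocalRing.residue_surjective u
    obtain ⟨x, y, rfl⟩ := E.basis u
    exact ⟨(x, y), rfl⟩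
  · intro x y
    show IsLocalRing.residue O' (algebraMap O O' x + E.ω * algebraMap O O' y) = 0 ↔
      x ∈ IsLocalRing.maximalIdeal O ∧ y ∈ IsLocalRing.maximalIdeal O
    rw [IsLocalRing.residue_eq_zero_iff, hϖ.maximalIdeal_eq, hϖ'.maximalIdeal_eq,
      Ideal.mem_span_singleton, Ideal.mem_span_singleton, Ideal.mem_span_singleton]
    constructor
    · rintro ⟨c, hc⟩
      obtain ⟨p, q, rfl⟩ := E.basis c
      have h1 : algebraMap O O' (x - ϖ * p) + E.ω * algebraMap O O' (y - ϖ * q) = 0 := by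
        rw [map_sub, map_sub, map_mul, map_mul]
        linear_combination hc
      have h2 := E.indep _ _ h1
      exact ⟨⟨p, sub_eq_zero.mp h2.1⟩, ⟨q, sub_eq_zero.mp h2.2⟩⟩
    · rintro ⟨⟨p, rfl⟩, ⟨q, rfl⟩⟩
      refine ⟨algebraMap O O' p + E.ω * algebraMap O O' q, ?_⟩
      rw [map_mul, map_mul]
      ring

/-! ### the submodule generated by brackets -/

/-- `∑ [e x, A]` -/
noncomputable def bA (S : Sys O L) (A : Submodule O L) : Submodule O L :=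
  ⨆ x, A.map (LieAlgebra.ad O L (S.e x) : L →ₗ[O] L)

theorem mem_bA (A : Submodule O L) (x : Fin 6) (u : L) (hu : u ∈ A) : ⁅S.e x, u⁆ ∈ bA S A :=
  Submodule.mem_iSup_of_mem x ⟨u, hu, rfl⟩

theorem bA_le {A B : Submodule O L} : bA S A ≤ B ↔ S.Clo A B := by
  constructor
  · intro h x u hu
    exact h (mem_bA A x u hu)
  · intro h
    refine iSup_le fun x => ?_
    rintro _ ⟨u, hu, rfl⟩
    exact h x u hu

theorem bA_stab {A : Submodule O L} (h : S.Stab A) : S.Stab (bA S A) := by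
  constructor
  · intro y u hu
    have h1 : bA S A ≤ (bA S A).comap (S.τ y : L →ₗ[O] L) := by
      rw [bA_le]
      intro x u hu
      show S.τ y ⁅S.e x, u⁆ ∈ bA S A
      rw [LieHom.map_lie, S.τ_e]
      split_ifs
      · rw [smul_lie]
        exact Submodule.smul_mem _ _ (mem_bA A x _ (h.1 y u hu))
      · exact mem_bA A x _ (h.1 y u hu)
    exact h1 hu
  · intro u hu
    have h1 : bA S A ≤ (bA S A).comap (S.s : L →ₗ[O] L) := by
      rw [bA_le]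
      intro x u hu
      show S.s ⁅S.e x, u⁆ ∈ bA S A
      rw [LieHom.map_lie, S.s_e]
      exact mem_bA A _ _ (h.2 u hu)
    exact h1 hu

theorem bc_bA_le {A : Submodule O L} {W : Submodule O' L'} :
    E.bc (bA S A) ≤ W ↔ S'.Clo (E.bc A) W := by
  constructor
  · intro h x u hu
    obtain ⟨m, hm, n, hn, rfl⟩ := E.mem_bc.mp hu
    rw [E.lie_coord]
    exact h (E.mem_bc_iff.mpr ⟨mem_bA A x m hm, mem_bA A x n hn⟩)
  · intro h
    have h1 : ∀ u ∈ bA S A, E.j u ∈ W := by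
      intro u hu
      have h2 : bA S A ≤ E.cm W := by
        rw [bA_le]
        intro x u hu
        rw [E.mem_cm, E.j_br, E.j_e]
        exact h x _ (E.j_mem_bc.mpr hu)
      exact h2 hu
    intro u hu
    obtain ⟨m, hm, n, hn, rfl⟩ := E.mem_bc.mp hu
    exact W.add_mem (h1 m hm) (W.smul_mem _ (h1 n hn))

theorem finite_bA {A B : Submodule O L} (h : ix A B ≠ 0) :
    Finite ((bA S B) ⧸ (bA S A).submoduleOf (bA S B)) := by
  classical
  have hf : Finite (B ⧸ A.submoduleOf B) := Nat.finite_of_card_ne_zero h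
  have hmem : ∀ m : Fin 6 → B, ∑ x, ⁅S.e x, (m x : L)⁆ ∈ bA S B := fun m =>
    Submodule.sum_mem _ fun x _ => mem_bA B x _ (m x).2
  let g : (Fin 6 → (B ⧸ A.submoduleOf B)) → ((bA S B) ⧸ (bA S A).submoduleOf (bA S B)) :=
    fun q => Submodule.Quotient.mk ⟨∑ x, ⁅S.e x, (((q x).out : B) : L)⁆, hmem _⟩
  refine Finite.of_surjective g ?_
  intro u
  obtain ⟨⟨u, hu⟩, rfl⟩ := Submodule.Quotient.mk_surjective _ u
  obtain ⟨f, hf1, hf2⟩ := (Submodule.mem_iSup_iff_exists_finsupp _ _).mp hu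
  choose m hm1 hm2 using hf1
  refine ⟨fun x => Submodule.Quotient.mk ⟨m x, hm1 x⟩, ?_⟩
  have h1 : u = ∑ x, ⁅S.e x, m x⁆ := by
    rw [← hf2]
    have h2 : ∀ x, f x = ⁅S.e x, m x⁆ := fun x => (hm2 x).symm
    rw [Finsupp.sum_fintype]
    · exact Finset.sum_congr rfl fun x _ => h2 x
    · intro _; rfl
  show Submodule.Quotient.mk _ = Submodule.Quotient.mk _
  rw [Submodule.Quotient.eq]
  show (∑ x, ⁅S.e x, (((Submodule.Quotient.mk ⟨m x, hm1 x⟩ : B ⧸ A.submoduleOf B).out : B) : L)⁆)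
    - u ∈ bA S A
  rw [h1, ← Finset.sum_sub_distrib]
  refine Submodule.sum_mem _ fun x _ => ?_
  rw [← lie_sub]
  refine mem_bA A x _ ?_
  have h3 := (Submodule.Quotient.eq (A.submoduleOf B)).mp
    (Submodule.Quotient.mk_out (Submodule.Quotient.mk ⟨m x, hm1 x⟩ : B ⧸ A.submoduleOf B))
  exact h3

theorem ncard_split {α : Type} {T : Set α} (hT : T.Finite) (P : α → Prop) :
    T.ncard = {t ∈ T | P t}.ncard + {t ∈ T | ¬ P t}.ncard :=
  (Set.ncard_inter_add_ncard_sdiff_eq_ncard T {t | P t} hT).symm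

/-- base change of quadruples -/
def bc4 (t : ((Submodule O L × Submodule O L) × Submodule O L) × Submodule O L) :
    ((Submodule O' L' × Submodule O' L') × Submodule O' L') × Submodule O' L' :=
  (((E.bc t.1.1.1, E.bc t.1.1.2), E.bc t.1.2), E.bc t.2)

theorem bc_injective : Function.Injective E.bc := fun _ _ h =>
  le_antisymm (E.bc_le_iff.mp h.le) (E.bc_le_iff.mp h.ge)

theorem rational_count [Finite (IsLocalRing.ResidueField O)] (ϖ : O) (hϖ : Irreducible ϖ)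
    (hϖ' : Irreducible (algebraMap O O' ϖ)) (n : ℕ) :
    {t ∈ S'.Tup n | E.Rat t.1.2 ∧ E.Rat t.2}.ncard = (S.Tup n).ncard := by
  have hinj : Function.Injective (bc4 E) := by
    rintro ⟨⟨⟨a, b⟩, c⟩, d⟩ ⟨⟨⟨a', b'⟩, c'⟩, d'⟩ h
    simp only [bc4, Prod.mk.injEq] at h
    obtain ⟨⟨⟨h1, h2⟩, h3⟩, h4⟩ := h
    rw [bc_injective E h1, bc_injective E h2, bc_injective E h3, bc_injective E h4]
  have himage : (bc4 E) '' (S.Tup n) = {t ∈ S'.Tup n | E.Rat t.1.2 ∧ E.Rat t.2} := by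
    ext t
    constructor
    · rintro ⟨⟨⟨⟨a, b⟩, c⟩, d⟩, ⟨⟨h1, h2, h3, h4⟩, ⟨s1, s2, s3, s4⟩, ⟨c1, c2, c3⟩, hn⟩, rfl⟩
      dsimp only at h1 h2 h3 h4 s1 s2 s3 s4 c1 c2 c3 hn
      refine ⟨⟨⟨?_, ?_, ?_, ?_⟩, ⟨E.stab_bc s1, E.stab_bc s2, E.stab_bc s3, E.stab_bc s4⟩,
        ⟨E.clo_bc.mpr c1, E.clo_bc.mpr c2, E.clo_bc.mpr c3⟩, ?_⟩, E.rat_bc _, E.rat_bc _⟩
      · rw [← bc_V E]; exact E.bc_mono h1
      · rw [← bc_V E]; exact E.bc_mono h2
      · rw [← bc_V E]; exact E.bc_mono h3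
      · rw [← bc_V E]; exact E.bc_mono h4
      · simp only [bc4]
        rw [← bc_V E, ← bc_V E, ← bc_V E, ← bc_V E, ix_bc, ix_bc, ix_bc, ix_bc,
          card_residue E ϖ hϖ hϖ', ← pow_mul, mul_comm 2 n, pow_mul, ← hn]
        ring
    · rintro ⟨⟨⟨h1, h2, h3, h4⟩, ⟨s1, s2, s3, s4⟩, ⟨c1, c2, c3⟩, hn⟩, r3, r4⟩
      obtain ⟨⟨⟨a, b⟩, c⟩, d⟩ := t
      dsimp only at h1 h2 h3 h4 s1 s2 s3 s4 c1 c2 c3 hn r3 r4
      have r1 := rat_of_le E ϖ hϖ hϖ' a s1 (Or.inl h1)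
      have r2 := rat_of_le E ϖ hϖ hϖ' b s2 (Or.inr h2)
      have e1 := (E.rat_iff a).mp r1
      have e2 := (E.rat_iff b).mp r2
      have e3 := (E.rat_iff c).mp r3
      have e4 := (E.rat_iff d).mp r4
      refine ⟨(((E.cm a, E.cm b), E.cm c), E.cm d), ⟨⟨?_, ?_, ?_, ?_⟩, ⟨E.stab_cm s1, E.stab_cm s2,
        E.stab_cm s3, E.stab_cm s4⟩, ⟨?_, ?_, ?_⟩, ?_⟩, ?_⟩
      · rw [← E.bc_le_iff, bc_V, e1]; exact h1
      · rw [← E.bc_le_iff, bc_V, e2]; exact h2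
      · rw [← E.bc_le_iff, bc_V, e3]; exact h3
      · rw [← E.bc_le_iff, bc_V, e4]; exact h4
      · rw [← E.clo_bc, e1, e2]; exact c1
      · rw [← E.clo_bc, e2, e3]; exact c2
      · rw [← E.clo_bc, e3, e4]; exact c3
      · dsimp only
        apply Nat.pow_left_injective (two_ne_zero)
        simp only
        rw [← pow_mul, mul_comm n 2, pow_mul, ← card_residue E ϖ hϖ hϖ', ← hn, ← bc_V E, ← bc_V E,
          ← bc_V E, ← bc_V E]
        conv_rhs => rw [← e1, ← e2, ← e3, ← e4, ix_bc, ix_bc, ix_bc, ix_bc]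
        ring
      · simp only [bc4, e1, e2, e3, e4]
  rw [← himage, Set.ncard_image_of_injective _ hinj]

/-- the stable nonrational submodules `W` with `Clo I W`, `W ≤ V i` and given index -/
theorem fiber_dvd [Finite (IsLocalRing.ResidueField O)] (ϖ : O) (hϖ : Irreducible ϖ)
    (hϖ' : Irreducible (algebraMap O O' ϖ)) (i : ℕ) (I : Submodule O' L') (hI : I ≤ S'.V i)
    (hr : E.Rat I) (hs : S'.Stab I) (hx : ix I (S'.V i) ≠ 0) (N : ℕ) :
    5 ∣ {W : Submodule O' L' | W ≤ S'.V (i + 1) ∧ S'.Stab W ∧ S'.Clo I W ∧ ¬ E.Rat W ∧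
      ix W (S'.V (i + 1)) = N}.ncard := by
  have e1 := (E.rat_iff I).mp hr
  have hV : S.V (i + 1) = bA S (S.V i) := S.V_succ i
  have hle : E.cm I ≤ S.V i := by
    rw [← E.bc_le_iff, bc_V, e1]; exact hI
  have hx' : ix (E.cm I) (S.V i) ≠ 0 := by
    rw [← bc_V E, ← e1, ix_bc] at hx
    exact fun h => hx (by rw [h]; rfl)
  have hclo : S.Clo (E.cm I) (S.V (i + 1)) := fun x u hu => S.V_clo i x u (hle hu)
  have hfin : Finite (S.V (i + 1) ⧸ (bA S (E.cm I)).submoduleOf (S.V (i + 1))) := by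
    rw [hV]
    exact finite_bA hx'
  have h := nonrat_dvd E ϖ hϖ hϖ' (bA S (E.cm I)) (S.V (i + 1)) (bA_le.mpr hclo) hfin
    (bA_stab (E.stab_cm hs)) ⟨fun x u hu => S.V_tau _ x u hu, fun u hu => S.V_s _ u hu⟩ N
  have hb : ∀ W : Submodule O' L', E.bc (bA S (E.cm I)) ≤ W ↔ S'.Clo I W := fun W => by
    rw [bc_bA_le, e1]
  rw [bc_V] at h
  convert h using 2
  ext W
  constructor
  · rintro ⟨a, b, c, d, e⟩
    exact ⟨(hb W).mpr c, a, d, b, e⟩
  · rintro ⟨c, a, d, b, e⟩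
    exact ⟨a, b, (hb W).mp c, d, e⟩

/-- solve `P * x = Q` -/
theorem mul_eq_iff_div {P Q : ℕ} (hP : P ≠ 0) (h : P ∣ Q) (x : ℕ) : P * x = Q ↔ x = Q / P := by
  constructor
  · rintro rfl
    exact (Nat.mul_div_cancel_left x (Nat.pos_of_ne_zero hP)).symm
  · rintro rfl
    exact Nat.mul_div_cancel' h

theorem dvd_of_forall {β : Type} {X : Set β} (h : ∀ x, x ∉ X) : 5 ∣ X.ncard := by
  rw [Set.eq_empty_of_forall_notMem h, Set.ncard_empty]
  exact dvd_zero 5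

theorem part2 [Finite (IsLocalRing.ResidueField O)] (ϖ : O) (hϖ : Irreducible ϖ)
    (hϖ' : Irreducible (algebraMap O O' ϖ)) (n : ℕ) (hT : (S'.Tup n).Finite)
    (hq : Nat.card (IsLocalRing.ResidueField O') ^ n ≠ 0) :
    5 ∣ {t ∈ S'.Tup n | E.Rat t.1.2 ∧ ¬ E.Rat t.2}.ncard := by
  refine dvd_ncard_of_fibers (hT.subset fun t ht => ht.1) ?_
  rintro ⟨⟨a, b⟩, c⟩
  set P := ix a (S'.V 0) * ix b (S'.V 1) * ix c (S'.V 2) with hP
  by_cases h : (a ≤ S'.V 0 ∧ b ≤ S'.V 1 ∧ c ≤ S'.V 2) ∧ (S'.Stab a ∧ S'.Stab b ∧ S'.Stab c) ∧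
      (S'.Clo a b ∧ S'.Clo b c) ∧ E.Rat c ∧ P ≠ 0 ∧
      P ∣ Nat.card (IsLocalRing.ResidueField O') ^ n
  · obtain ⟨⟨h1, h2, h3⟩, ⟨s1, s2, s3⟩, ⟨c1, c2⟩, hr, hP0, hPd⟩ := h
    have hx : ix c (S'.V 2) ≠ 0 := fun h => hP0 (by rw [hP, h, mul_zero])
    have := fiber_dvd E ϖ hϖ hϖ' 2 c h3 hr s3 hx
      (Nat.card (IsLocalRing.ResidueField O') ^ n / P)
    convert this using 2
    ext W
    constructor
    · rintro ⟨⟨⟨-, -, -, h4⟩, ⟨-, -, -, s4⟩, ⟨-, -, c4⟩, hn⟩, -, hr'⟩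
      exact ⟨h4, s4, c4, hr', (mul_eq_iff_div hP0 hPd _).mp hn⟩
    · rintro ⟨h4, s4, c4, hr', hn⟩
      exact ⟨⟨⟨h1, h2, h3, h4⟩, ⟨s1, s2, s3, s4⟩, ⟨c1, c2, c4⟩,
        (mul_eq_iff_div hP0 hPd _).mpr hn⟩, hr, hr'⟩
  · refine dvd_of_forall ?_
    rintro W ⟨⟨⟨h1, h2, h3, h4⟩, ⟨s1, s2, s3, s4⟩, ⟨c1, c2, c4⟩, hn⟩, hr, hr'⟩
    dsimp only at h1 h2 h3 h4 s1 s2 s3 s4 c1 c2 c4 hn hr hr'
    refine h ⟨⟨h1, h2, h3⟩, ⟨s1, s2, s3⟩, ⟨c1, c2⟩, hr, ?_, ?_⟩
    · intro h0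
      rw [hP] at h0
      rw [h0, zero_mul] at hn
      exact hq hn.symm
    · exact ⟨_, hn.symm⟩

theorem part3 [Finite (IsLocalRing.ResidueField O)] (ϖ : O) (hϖ : Irreducible ϖ)
    (hϖ' : Irreducible (algebraMap O O' ϖ)) (n : ℕ) (hT : (S'.Tup n).Finite)
    (hq : Nat.card (IsLocalRing.ResidueField O') ^ n ≠ 0) :
    5 ∣ {t ∈ S'.Tup n | ¬ E.Rat t.1.2 ∧ t.2 = S'.V 3}.ncard := by
  set T3 := {t ∈ S'.Tup n | ¬ E.Rat t.1.2 ∧ t.2 = S'.V 3} with hT3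
  have hfin : T3.Finite := hT.subset fun t ht => ht.1
  have hinj : Set.InjOn Prod.fst T3 := by
    rintro ⟨t, d⟩ ⟨-, -, h⟩ ⟨t', d'⟩ ⟨-, -, h'⟩ htt
    dsimp only at h h' htt
    rw [h, h', htt]
  rw [← hinj.ncard_image]
  refine dvd_ncard_of_fibers (hfin.image _) ?_
  rintro ⟨a, b⟩
  have hself : ix (S'.V 3) (S'.V 3) = 1 := by
    rw [show ix (S'.V 3) (S'.V 3) =
      (S'.V 3).toAddSubgroup.relIndex (S'.V 3).toAddSubgroup from rfl]
    exact AddSubgroup.relIndex_self _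
  set P := ix a (S'.V 0) * ix b (S'.V 1) with hP
  by_cases h : (a ≤ S'.V 0 ∧ b ≤ S'.V 1) ∧ (S'.Stab a ∧ S'.Stab b) ∧
      S'.Clo a b ∧ P ≠ 0 ∧ P ∣ Nat.card (IsLocalRing.ResidueField O') ^ n
  · obtain ⟨⟨h1, h2⟩, ⟨s1, s2⟩, c1, hP0, hPd⟩ := h
    have hx : ix b (S'.V 1) ≠ 0 := fun h => hP0 (by rw [hP, h, mul_zero])
    have hr := rat_of_le E ϖ hϖ hϖ' b s2 (Or.inr h2)
    have := fiber_dvd E ϖ hϖ hϖ' 1 b h2 hr s2 hx
      (Nat.card (IsLocalRing.ResidueField O') ^ n / P)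
    convert this using 2
    ext W
    constructor
    · rintro ⟨⟨t, d⟩, ⟨⟨⟨-, -, h3, h4⟩, ⟨-, -, s3, s4⟩, ⟨-, c3, c4⟩, hn⟩, hr', hd⟩, ht⟩
      dsimp only at ht hd h3 h4 s3 s4 c3 c4 hn hr'
      subst ht
      subst hd
      dsimp only at h3 h4 s3 s4 c3 c4 hn hr'
      rw [hself, mul_one] at hn
      exact ⟨h3, s3, c3, hr', (mul_eq_iff_div hP0 hPd _).mp hn⟩
    · rintro ⟨h3, s3, c3, hr', hn⟩
      refine ⟨(((a, b), W), S'.V 3), ⟨⟨⟨h1, h2, h3, le_refl _⟩, ⟨s1, s2, s3,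
        ⟨fun x u hu => S'.V_tau _ x u hu, fun u hu => S'.V_s _ u hu⟩⟩, ⟨c1, c3,
        fun x u hu => S'.V_clo 2 x u (h3 hu)⟩, ?_⟩, hr', rfl⟩, rfl⟩
      dsimp only
      rw [hself, mul_one]
      exact (mul_eq_iff_div hP0 hPd _).mpr hn
  · refine dvd_of_forall ?_
    rintro W ⟨⟨t, d⟩, ⟨⟨⟨h1, h2, h3, h4⟩, ⟨s1, s2, s3, s4⟩, ⟨c1, c3, c4⟩, hn⟩, hr', hd⟩, ht⟩
    dsimp only at ht hd h1 h2 h3 h4 s1 s2 s3 s4 c1 c3 c4 hn hr'
    subst ht
    subst hd
    dsimp only at h1 h2 h3 h4 s1 s2 s3 s4 c1 c3 c4 hn hr'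
    refine h ⟨⟨h1, h2⟩, ⟨s1, s2⟩, c1, ?_, ?_⟩
    · intro h0
      rw [hP] at h0
      rw [h0, zero_mul, zero_mul] at hn
      exact hq hn.symm
    · exact ⟨_, by rw [← hn, hP, mul_assoc]⟩

theorem tup_modEq [Finite (IsLocalRing.ResidueField O)] (ϖ : O) (hϖ : Irreducible ϖ)
    (hϖ' : Irreducible (algebraMap O O' ϖ)) (n : ℕ) :
    (S'.Tup n).ncard ≡ (S.Tup n).ncard +
      {t ∈ S'.Tup n | ¬ E.Rat t.1.2 ∧ t.2 ≠ S'.V 3}.ncard [MOD 5] := by
  have hc := card_residue E ϖ hϖ hϖ'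
  have hq0 : Nat.card (IsLocalRing.ResidueField O) ≠ 0 := Nat.card_ne_zero.mpr
    ⟨inferInstance, inferInstance⟩
  have hq1 : Nat.card (IsLocalRing.ResidueField O') ≠ 0 := by
    rw [hc]; exact pow_ne_zero _ hq0
  have hfr : Finite (IsLocalRing.ResidueField O') := Nat.finite_of_card_ne_zero hq1
  have hT := S'.Tup_finite n
  have hq : Nat.card (IsLocalRing.ResidueField O') ^ n ≠ 0 := pow_ne_zero _ hq1
  have h2 := part2 E ϖ hϖ hϖ' n hT hq
  have h3 := part3 E ϖ hϖ hϖ' n hT hq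
  have h1 := rational_count E ϖ hϖ hϖ' n
  have e1 := ncard_split hT (fun t => E.Rat t.1.2)
  have e2 := ncard_split (T := {t ∈ S'.Tup n | E.Rat t.1.2}) (hT.subset fun t ht => ht.1)
    (fun t => E.Rat t.2)
  have e3 := ncard_split (T := {t ∈ S'.Tup n | ¬ E.Rat t.1.2}) (hT.subset fun t ht => ht.1)
    (fun t => t.2 = S'.V 3)
  simp only [Set.mem_ofPred_eq, and_assoc] at e2 e3
  rw [e1, e2, e3, h1]
  obtain ⟨k2, hk2⟩ := h2
  obtain ⟨k3, hk3⟩ := h3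
  rw [hk2, hk3]
  unfold Nat.ModEq
  simp only [ne_eq]
  omega

end BC

end Pool.Agent.Lib.MP_424f45_al
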