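import Pool.Agent.Lib.MP_424f45_al.Defs

/-!
# MP_424f45_al: coefficient functionals
-/

set_option autoImplicit false

namespace Pool.Agent.Lib.MP_424f45_al

namespace Sys

variable {O L : Type} [CommRing O] [LieRing L] [LieAlgebra O L] (S : Sys O L)

theorem br_nil (j : Fin 6) : br S.e [] j = S.e j := rfl

theorem br_cons (x : Fin 6) (w : List (Fin 6)) (j : Fin 6) :
    br S.e (x :: w) j = ⁅S.e x, br S.e w j⁆ := rfl

/-- a property which is linear and passes from `u` to `[e x, u]` holds everywhere -/
theorem induct {p : L → Prop} (h0 : p 0) (hadd : ∀ u v, p u → p v → p (u + v))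
    (hsmul : ∀ (a : O) u, p u → p (a • u)) (he : ∀ x, p (S.e x))
    (had : ∀ x u, p u → p ⁅S.e x, u⁆) (u : L) : p u := by
  have hu : u ∈ Submodule.span O {y : L | ∃ (w : List (Fin 6)) (j : Fin 6), w.length ≤ 3 ∧
      y = br S.e w j} := by rw [S.span]; trivial
  refine Submodule.span_induction ?_ h0 (fun a b _ _ ha hb => hadd a b ha hb)
    (fun a b _ hb => hsmul a b hb) hu
  rintro y ⟨w, j, -, rfl⟩
  induction w with
  | nil => exact he j
  | cons x w ih => exact had x _ ih

/-- two linear maps which agree on the generators and whose agreement passes to brackets -/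
theorem br_ext {M : Type*} [AddCommGroup M] [Module O M] (F G : L →ₗ[O] M)
    (h : ∀ (w : List (Fin 6)) (j : Fin 6), w.length ≤ 3 → F (br S.e w j) = G (br S.e w j)) :
    F = G := by
  refine LinearMap.ext_on S.span ?_
  rintro y ⟨w, j, hw, rfl⟩
  exact h w j hw

theorem cw_nil (u : L) : S.cw [] u = 0 := by
  refine S.induct (p := fun u => S.cw [] u = 0) (map_zero _) ?_ ?_ ?_ ?_ u
  · intro u v hu hv; rw [map_add, hu, hv, add_zero]
  · intro a u hu; rw [map_smul, hu, smul_zero]
  · intro x; rw [S.cw_e]; simp
  · intro x u _; rw [S.cw_ad _ _ _ (by simp)]; simp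

/-- the first-letter form of `cw_ad` for a nonempty word written as `a :: w` -/
theorem cw_ad_cons (a : Fin 6) (w : List (Fin 6)) (x : Fin 6) (u : L) (hw : w.length ≤ 3) :
    S.cw (a :: w) ⁅S.e x, u⁆ = (if a = x then S.cw w u else 0) -
      (if (a :: w).getLast (by simp) = x then S.cw (a :: w).dropLast u else 0) := by
  rw [S.cw_ad _ _ _ (by simp only [List.length_cons]; omega)]
  congr 1
  · simp
  · rw [List.getLast?_eq_getLast_of_ne_nil (by simp)]
    simp

theorem cw_tau (x : Fin 6) (u : L) : ∀ w : List (Fin 6), w.length ≤ 4 →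
    S.cw w (S.τ x u) = S.ζ ^ (w.count x) * S.cw w u := by
  refine S.induct (p := fun u => ∀ w : List (Fin 6), w.length ≤ 4 →
    S.cw w (S.τ x u) = S.ζ ^ (w.count x) * S.cw w u) ?_ ?_ ?_ ?_ ?_ u
  · intro w _; simp
  · intro u v hu hv w hw; rw [map_add, map_add, hu w hw, hv w hw, map_add, mul_add]
  · intro a u hu w hw
    rw [map_smul, map_smul, hu w hw, map_smul, smul_eq_mul, smul_eq_mul]; ring
  · intro y w _
    rw [S.τ_e]
    split_ifs with h
    · subst h
      rw [map_smul, S.cw_e, smul_eq_mul]
      split_ifs with h1
      · subst h1; simp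
      · simp
    · rw [S.cw_e]
      split_ifs with h1
      · subst h1
        rw [List.count_singleton, if_neg (by simpa using h)]
        simp
      · simp
  · intro y u hu w hw
    have key : ∀ v : L, S.cw w (S.τ x ⁅S.e y, v⁆) =
        (if y = x then S.ζ else 1) * S.cw w ⁅S.e y, S.τ x v⁆ := by
      intro v
      rw [LieHom.map_lie, S.τ_e]
      split_ifs with h
      · rw [smul_lie, map_smul, smul_eq_mul]
      · rw [one_mul]
    rw [key]
    rcases w with _ | ⟨a, w⟩
    · rw [cw_nil, cw_nil]; ring
    · have hw' : w.length ≤ 3 := by simp only [List.length_cons] at hw; omega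
      rw [S.cw_ad_cons _ _ _ _ hw', S.cw_ad_cons _ _ _ _ hw', hu w (by omega),
        hu _ (by simp; omega)]
      have e1 : (a :: w).dropLast.count x + (if (a :: w).getLast (by simp) = x then 1 else 0) =
          (a :: w).count x := by
        conv_rhs => rw [← List.dropLast_append_getLast (l := a :: w) (by simp)]
        rw [List.count_append, List.count_singleton]
        simp
      have e2 : w.count x + (if a = x then 1 else 0) = (a :: w).count x := by
        rw [List.count_cons]
        simp
      generalize (a :: w).count x = n at *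
      generalize (a :: w).dropLast.count x = m at *
      generalize w.count x = k at *
      generalize S.cw (a :: w).dropLast u = A at *
      generalize S.cw w u = B at *
      generalize (a :: w).getLast (by simp) = b at *
      by_cases h1 : a = y
      · subst h1
        by_cases h2 : b = a
        · subst h2
          by_cases h3 : b = x
          · rw [if_pos h3] at e1 e2
            have e3 : k = m := by omega
            subst e3
            simp only [← e1, h3, if_true, pow_succ]
            ring
          · rw [if_neg h3] at e1 e2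
            have e3 : k = m := by omega
            subst e3
            simp only [← e1, h3, if_true, if_false]
            ring
        · by_cases h3 : a = x
          · rw [if_pos h3] at e2
            simp only [← e2, h3, if_true, h3 ▸ h2, if_false, pow_succ]
            ring
          · rw [if_neg h3] at e2
            simp only [← e2, h3, if_true, h2, if_false]
            ring
      · by_cases h2 : b = y
        · subst h2
          by_cases h3 : b = x
          · rw [if_pos h3] at e1
            simp only [← e1, h3, if_true, h3 ▸ h1, if_false, pow_succ]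
            ring
          · rw [if_neg h3] at e1
            simp only [← e1, h3, if_true, h1, if_false]
            ring
        · simp only [h1, h2, if_false]
          ring

theorem sh_injective : Function.Injective sh := by decide

theorem cw_s (u : L) : ∀ w : List (Fin 6), w.length ≤ 4 →
    S.cw (w.map sh) (S.s u) = S.cw w u := by
  refine S.induct (p := fun u => ∀ w : List (Fin 6), w.length ≤ 4 →
    S.cw (w.map sh) (S.s u) = S.cw w u) ?_ ?_ ?_ ?_ ?_ u
  · intro w _; simp
  · intro u v hu hv w hw; rw [map_add, map_add, hu w hw, hv w hw, map_add]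
  · intro a u hu w hw; rw [map_smul, map_smul, hu w hw, map_smul]
  · intro y w _
    rw [S.s_e, S.cw_e, S.cw_e]
    have : (w.map sh = [sh y]) ↔ (w = [y]) := by
      constructor
      · intro h
        have h' : w.map sh = [y].map sh := by simpa using h
        exact (List.map_injective_iff.mpr sh_injective) h'
      · intro h; subst h; rfl
    simp only [this]
  · intro y u hu w hw
    rw [LieHom.map_lie, S.s_e]
    rcases w with _ | ⟨a, w⟩
    · simp [cw_nil]
    · have hw' : w.length ≤ 3 := by simp only [List.length_cons] at hw; omega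
      rw [List.map_cons, S.cw_ad_cons _ _ _ _ (by simpa using hw'), S.cw_ad_cons _ _ _ _ hw',
        hu w (by omega)]
      have e1 : (sh a :: w.map sh).dropLast = ((a :: w).dropLast).map sh := by
        rw [← List.map_cons, List.map_dropLast]
      have e2 : (sh a :: w.map sh).getLast (by simp) = sh ((a :: w).getLast (by simp)) := by
        simp only [← List.map_cons]
        rw [List.getLast_map]
      rw [e1, hu _ (by simp; omega)]
      simp only [sh_injective.eq_iff, e2]

/-- coefficients vanish on the components of other contents -/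
theorem cw_Lx (χ : Fin 6 → ZMod 5) (u : L) (hu : u ∈ S.Lx χ) (w : List (Fin 6))
    (hw : w.length ≤ 4) (h : ct w ≠ χ) : S.cw w u = 0 := by
  obtain ⟨x, hx⟩ := Function.ne_iff.mp h
  have h1 := S.cw_tau x u w hw
  rw [hu x, map_smul, smul_eq_mul] at h1
  -- unit difference
  have h2 : (S.ζ ^ (χ x).val - S.ζ ^ (w.count x)) * S.cw w u = 0 := by
    rw [sub_mul, h1, sub_self]
  have h3 : IsUnit (S.ζ ^ (χ x).val - S.ζ ^ (w.count x)) := by
    have hz : IsUnit S.ζ := IsUnit.of_pow_eq_one S.hζ (by norm_num)
    rcases le_total (w.count x) (χ x).val with hle | hle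
    · obtain ⟨k, hk⟩ := Nat.exists_eq_add_of_le hle
      rw [hk, pow_add]
      have : S.ζ ^ (w.count x) * S.ζ ^ k - S.ζ ^ (w.count x) = S.ζ ^ (w.count x) * (S.ζ ^ k - 1) := by
        ring
      rw [this]
      refine (hz.pow _).mul (S.hu k ?_)
      intro h5
      apply hx
      have : ((χ x).val : ZMod 5) = ((w.count x : ℕ) : ZMod 5) := by
        rw [hk]; push_cast
        obtain ⟨m, rfl⟩ := h5
        push_cast
        rw [show (5 : ZMod 5) = 0 from rfl]
        ring
      rw [ZMod.natCast_zmod_val] at this
      exact this.symm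
    · obtain ⟨k, hk⟩ := Nat.exists_eq_add_of_le hle
      rw [hk, pow_add]
      have : S.ζ ^ ((χ x).val) - S.ζ ^ ((χ x).val) * S.ζ ^ k =
          - (S.ζ ^ ((χ x).val) * (S.ζ ^ k - 1)) := by
        ring
      rw [this]
      refine ((hz.pow _).mul (S.hu k ?_)).neg
      intro h5
      apply hx
      show ((w.count x : ℕ) : ZMod 5) = χ x
      rw [hk]
      obtain ⟨m, rfl⟩ := h5
      push_cast
      rw [show (5 : ZMod 5) = 0 from rfl, ZMod.natCast_zmod_val]
      ring
  exact (h3.mul_right_eq_zero).mp h2

/-! ### Lie relations between coefficients -/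

theorem cw_two_ad (a b : Fin 6) (x : Fin 6) (u : L) : S.cw [a, b] ⁅S.e x, u⁆ =
    (if a = x then S.cw [b] u else 0) - (if b = x then S.cw [a] u else 0) := by
  rw [S.cw_ad_cons _ _ _ _ (by simp)]; simp

theorem cw_one_ad (a : Fin 6) (x : Fin 6) (u : L) : S.cw [a] ⁅S.e x, u⁆ = 0 := by
  rw [S.cw_ad_cons _ _ _ _ (by simp)]; simp [cw_nil]

theorem cw_three_ad (a b c : Fin 6) (x : Fin 6) (u : L) : S.cw [a, b, c] ⁅S.e x, u⁆ =
    (if a = x then S.cw [b, c] u else 0) - (if c = x then S.cw [a, b] u else 0) := by
  rw [S.cw_ad_cons _ _ _ _ (by simp)]; simp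

theorem cw_four_ad (a b c d : Fin 6) (x : Fin 6) (u : L) : S.cw [a, b, c, d] ⁅S.e x, u⁆ =
    (if a = x then S.cw [b, c, d] u else 0) - (if d = x then S.cw [a, b, c] u else 0) := by
  rw [S.cw_ad_cons _ _ _ _ (by simp)]; simp

theorem cw_swap (a b : Fin 6) (u : L) : S.cw [a, b] u + S.cw [b, a] u = 0 := by
  refine S.induct (p := fun u => S.cw [a, b] u + S.cw [b, a] u = 0) (by simp) ?_ ?_ ?_ ?_ u
  · intro u v hu hv; simp only [map_add]; linear_combination hu + hv
  · intro c u hu; simp only [map_smul, smul_eq_mul]; linear_combination c * hu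
  · intro x; simp [S.cw_e]
  · intro x u _
    rw [cw_two_ad, cw_two_ad]
    ring

theorem cw_shuffle (a b c : Fin 6) (u : L) :
    S.cw [a, b, c] u + S.cw [b, a, c] u + S.cw [b, c, a] u = 0 := by
  refine S.induct (p := fun u => S.cw [a, b, c] u + S.cw [b, a, c] u + S.cw [b, c, a] u = 0)
    (by simp) ?_ ?_ ?_ ?_ u
  · intro u v hu hv; simp only [map_add]; linear_combination hu + hv
  · intro c u hu; simp only [map_smul, smul_eq_mul]; linear_combination c * hu
  · intro x; simp [S.cw_e]
  · intro x u _
    rw [cw_three_ad, cw_three_ad, cw_three_ad]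
    have h1 := S.cw_swap a c u
    have h2 := S.cw_swap a b u
    split_ifs <;> first | linear_combination h1 - h2 | linear_combination h1 | linear_combination -h2 | linear_combination h2 | ring

theorem cw_rev (a b c : Fin 6) (u : L) : S.cw [a, b, c] u = S.cw [c, b, a] u := by
  have h1 := S.cw_shuffle a b c u
  have h2 := S.cw_shuffle b c a u
  have h3 := S.cw_shuffle c a b u
  have h4 := S.cw_shuffle a c b u
  have h5 := S.cw_shuffle b a c u
  have h6 := S.cw_shuffle c b a u
  linear_combination h1 - h6

end Sys

end Pool.Agent.Lib.MP_424f45_al
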