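import Pool.Agent.Lib.MP_424f45_al.Eig2
import Pool.Agent.Lib.MP_424f45_al.Crd

/-!
# MP_424f45_al: classification, part A (lengths)
-/

set_option autoImplicit false

namespace Pool.Agent.Lib.MP_424f45_al



/-- a submodule contained in another one of the same finite index -/
theorem eq_of_le_of_card {O L : Type} [CommRing O] [AddCommGroup L] [Module O L]
    (I J : Submodule O L) (h : I ≤ J) (hc : Nat.card (L ⧸ I) = Nat.card (L ⧸ J))
    (h0 : Nat.card (L ⧸ I) ≠ 0) : I = J := by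
  refine le_antisymm h ?_
  have : Finite (L ⧸ I) := Nat.finite_of_card_ne_zero h0
  have : Finite (L ⧸ J) := Nat.finite_of_card_ne_zero (hc ▸ h0)
  have hs : Function.Surjective (Submodule.factor h) := by
    intro y
    obtain ⟨x, rfl⟩ := Submodule.Quotient.mk_surjective J y
    exact ⟨Submodule.Quotient.mk x, rfl⟩
  have hb := (Nat.bijective_iff_surjective_and_card (Submodule.factor h)).mpr ⟨hs, hc⟩
  intro x hx
  have h1 : Submodule.factor h (Submodule.Quotient.mk x) = Submodule.factor h 0 := by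
    rw [map_zero]
    exact (Submodule.Quotient.mk_eq_zero J).mpr hx
  exact (Submodule.Quotient.mk_eq_zero I).mp (hb.1 h1)

/-- the index is invariant under linear equivalences -/
theorem ix_map {O L : Type} [CommRing O] [AddCommGroup L] [Module O L] (e : L ≃ₗ[O] L)
    (A B : Submodule O L) : ix (A.map (e : L →ₗ[O] L)) (B.map (e : L →ₗ[O] L)) = ix A B := by
  unfold ix
  refine (Nat.card_congr (Submodule.Quotient.equiv (A.submoduleOf B)
    ((A.map (e : L →ₗ[O] L)).submoduleOf (B.map (e : L →ₗ[O] L))) (e.submoduleMap B) ?_).toEquiv).symm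
  ext ⟨y, hy⟩
  constructor
  · rintro ⟨x, hx, hxy⟩
    have hx' : (x : L) ∈ A := hx
    have hy' : e (x : L) = y := congrArg Subtype.val hxy
    show y ∈ A.map (e : L →ₗ[O] L)
    exact ⟨x, hx', hy'⟩
  · intro h
    have h' : y ∈ A.map (e : L →ₗ[O] L) := h
    obtain ⟨x, hx, hxy⟩ := h'
    obtain ⟨x', hx', hxy'⟩ := hy
    have : x = x' := e.injective (hxy.trans hxy'.symm)
    subst this
    exact ⟨⟨x, hx'⟩, hx, Subtype.ext hxy⟩

namespace Sys

variable {O L : Type} [CommRing O] [LieRing L] [LieAlgebra O L] (S : Sys O L)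

/-- the shift as a linear equivalence -/
noncomputable def sE : L ≃ₗ[O] L :=
  LinearEquiv.ofBijective (S.s : L →ₗ[O] L) (by
    have h5 : ∀ u, S.s (S.s (S.s (S.s (S.s u)))) = u := S.s5
    constructor
    · intro a b hab
      have hab' : S.s a = S.s b := hab
      rw [← h5 a, ← h5 b, hab']
    · intro u
      exact ⟨S.s (S.s (S.s (S.s u))), h5 u⟩)

theorem sE_apply (u : L) : S.sE u = S.s u := rfl

theorem s_Lx' (χ : Fin 6 → ZMod 5) (u : L) (hu : u ∈ S.Lx (shc χ)) : S.s u ∈ S.Lx χ :=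
  S.s_Lx χ u hu

theorem map_sE_Lx (χ : Fin 6 → ZMod 5) :
    (S.Lx (shc χ)).map (S.sE : L →ₗ[O] L) = S.Lx χ := by
  apply le_antisymm
  · rintro _ ⟨u, hu, rfl⟩
    exact S.s_Lx' χ u hu
  · intro u hu
    have h5 : ∀ u, S.s (S.s (S.s (S.s (S.s u)))) = u := S.s5
    refine ⟨S.s (S.s (S.s (S.s u))), ?_, h5 u⟩
    rw [← shc5 χ] at hu
    exact S.s_Lx' _ _ (S.s_Lx' _ _ (S.s_Lx' _ _ (S.s_Lx' _ _ hu)))

theorem map_sE_stab (I : Submodule O L) (hI : ∀ u ∈ I, S.s u ∈ I) :
    I.map (S.sE : L →ₗ[O] L) = I := by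
  apply le_antisymm
  · rintro _ ⟨u, hu, rfl⟩
    exact hI u hu
  · intro u hu
    have h5 : ∀ u, S.s (S.s (S.s (S.s (S.s u)))) = u := S.s5
    exact ⟨S.s (S.s (S.s (S.s u))), hI _ (hI _ (hI _ (hI _ hu))), h5 u⟩

theorem ix_shc (I : Submodule O L) (hI : ∀ u ∈ I, S.s u ∈ I) (χ : Fin 6 → ZMod 5) :
    ix (I ⊓ S.Lx (shc χ)) (S.Lx (shc χ)) = ix (I ⊓ S.Lx χ) (S.Lx χ) := by
  rw [← ix_map S.sE (I ⊓ S.Lx (shc χ)) (S.Lx (shc χ)), S.map_sE_Lx χ]
  congr 1
  rw [Submodule.map_inf _ S.sE.injective, S.map_sE_Lx χ, S.map_sE_stab I hI]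

end Sys

section

variable {O L : Type} [CommRing O] [IsDomain O] [IsDiscreteValuationRing O]
  [Finite (IsLocalRing.ResidueField O)] [LieRing L] [LieAlgebra O L] (S : Sys O L)

theorem Sys.exists_f {n : ℕ} (I : Submodule O L) (hI : I ∈ S.FixI n) :
    ∃ f : (Fin 6 → ZMod 5) → ℕ,
      (∀ χ, ix (I ⊓ S.Lx χ) (S.Lx χ) = Nat.card (IsLocalRing.ResidueField O) ^ f χ) ∧
      ∑ χ, f χ = n ∧ ∀ χ, f (shc χ) = f χ := by
  obtain ⟨hst, -, hc⟩ := hI
  have hq : 1 < Nat.card (IsLocalRing.ResidueField O) := Finite.one_lt_card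
  have hprod := S.card_quot_Lx I hst.1
  rw [hc] at hprod
  have hne : ∀ χ, ix (I ⊓ S.Lx χ) (S.Lx χ) ≠ 0 := by
    intro χ h0
    have := Finset.prod_eq_zero (f := fun χ => ix (I ⊓ S.Lx χ) (S.Lx χ)) (Finset.mem_univ χ) h0
    rw [← hprod] at this
    exact absurd this (pow_ne_zero _ (by omega))
  have hex : ∀ χ, ∃ m, ix (I ⊓ S.Lx χ) (S.Lx χ) = Nat.card (IsLocalRing.ResidueField O) ^ m := by
    intro χ
    have : Finite (S.Lx χ ⧸ (I ⊓ S.Lx χ).submoduleOf (S.Lx χ)) :=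
      Nat.finite_of_card_ne_zero (hne χ)
    exact card_pow O _
  choose f hf using hex
  refine ⟨f, hf, ?_, ?_⟩
  · rw [Finset.prod_congr rfl (fun χ _ => hf χ), Finset.prod_pow_eq_pow_sum] at hprod
    exact (Nat.pow_right_injective hq hprod).symm
  · intro χ
    apply Nat.pow_right_injective hq
    show _ ^ _ = _ ^ _
    rw [← hf, ← hf, S.ix_shc I hst.2]

end

/-- index one -/
theorem le_of_ix_one {O L : Type} [CommRing O] [AddCommGroup L] [Module O L]
    (I B : Submodule O L) (h : ix (I ⊓ B) B = 1) : B ≤ I := by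
  unfold ix at h
  have hs : Subsingleton (B ⧸ (I ⊓ B).submoduleOf B) := (Nat.card_eq_one_iff_unique.mp h).1
  intro x hx
  have : (Submodule.Quotient.mk (⟨x, hx⟩ : B) : B ⧸ (I ⊓ B).submoduleOf B) = 0 :=
    Subsingleton.elim _ _
  rw [Submodule.Quotient.mk_eq_zero] at this
  exact this.1

theorem ix_one_of_le {O L : Type} [CommRing O] [AddCommGroup L] [Module O L]
    (I B : Submodule O L) (h : B ≤ I) : ix (I ⊓ B) B = 1 := by
  unfold ix
  rw [inf_eq_right.mpr h]
  have : B.submoduleOf B = ⊤ := by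
    ext x
    simp [Submodule.submoduleOf]
  rw [this]
  exact Nat.card_unique

end Pool.Agent.Lib.MP_424f45_al
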