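import Pool.Agent.Lib.MP_424f45_al.CW
import Pool.Agent.Lib.MP_424f45_al.Orb

/-!
# MP_424f45_al: classification, part B (combinatorics of the lengths)
-/

set_option autoImplicit false

namespace Pool.Agent.Lib.MP_424f45_al

/-- third letter of a triple `(lt c, lt (c + δ), kk b δ c)` -/
def kk (b : Bool) (δ c : ZMod 5) : Fin 6 := if b then 5 else lt (c + 2 * δ)

/-- content of the triple -/
def cT (b : Bool) (δ c : ZMod 5) : Fin 6 → ZMod 5 := ct [lt c, lt (c + δ), kk b δ c]

theorem iter_of_lt {X : Type*} (g : X → X) (h5 : ∀ x, g^[5] x = x) (x y : X)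
    (h : ∀ m < 5, g^[m] x ≠ y) (m : ℕ) : g^[m] x ≠ y := by
  have hper : ∀ a b : ℕ, g^[a + 5 * b] x = g^[a] x := by
    intro a b
    induction b with
    | zero => rfl
    | succ b ih =>
      rw [show a + 5 * (b + 1) = (a + 5 * b) + 5 by ring, Function.iterate_add_apply, h5, ih]
  rw [← Nat.mod_add_div m 5, hper]
  exact h _ (Nat.mod_lt _ (by norm_num))

theorem iter_symm {X : Type*} (g : X → X) (h5 : ∀ x, g^[5] x = x) (x y : X)
    (h : ∀ m, g^[m] x ≠ y) (m : ℕ) : g^[m] y ≠ x := by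
  intro hm
  apply h (4 * m)
  rw [← hm, ← Function.iterate_add_apply]
  have hper : ∀ b : ℕ, g^[5 * b] y = y := by
    intro b
    induction b with
    | zero => rfl
    | succ b ih =>
      rw [show 5 * (b + 1) = 5 * b + 5 by ring, Function.iterate_add_apply, h5, ih]
  rw [show 4 * m + m = 5 * m by ring, hper]

theorem dg_ct1 : ∀ a : Fin 6, dg (ct [a]) = 1 := by decide

theorem dg_ct2 : ∀ a b : Fin 6, dg (ct [a, b]) = 2 := by decide

theorem dg_ct3 : ∀ a b c : Fin 6, dg (ct [a, b, c]) = 3 := by decide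

theorem dg_cT (b : Bool) (δ c : ZMod 5) : dg (cT b δ c) = 3 := dg_ct3 _ _ _

theorem shc_cT : ∀ (b : Bool) (δ c : ZMod 5), shc (cT b δ c) = cT b δ (c - 1) := by decide

theorem shc_cT_ne : ∀ (b : Bool) (δ c : ZMod 5), (δ = 1 ∨ δ = 2) → shc (cT b δ c) ≠ cT b δ c := by
  decide

theorem pair_ne : ∀ (b : Bool) (δ c : ZMod 5), (δ = 1 ∨ δ = 2) → ∀ m : Fin 5,
    shc^[(m : ℕ)] (ct [lt c, lt (c + δ)]) ≠ ct [lt c, kk b δ c] := by
  decide

theorem shc_ct1_ne : ∀ c : ZMod 5, shc (ct [lt c]) ≠ ct [lt c] := by decide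

theorem shc_ct2_ne : ∀ (δ c : ZMod 5), (δ = 1 ∨ δ = 2) →
    shc (ct [lt c, lt (c + δ)]) ≠ ct [lt c, lt (c + δ)] := by decide

theorem shc_ct2_ne' : ∀ (b : Bool) (δ c : ZMod 5), (δ = 1 ∨ δ = 2) →
    shc (ct [lt c, kk b δ c]) ≠ ct [lt c, kk b δ c] := by decide

theorem iter_shc_cT (b : Bool) (δ : ZMod 5) (m : ℕ) : ∀ c, ∃ c', shc^[m] (cT b δ c) = cT b δ c' := by
  induction m with
  | zero => intro c; exact ⟨c, rfl⟩
  | succ m ih =>
    intro c
    rw [Function.iterate_succ_apply, shc_cT]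
    exact ih _

theorem ne_of_dg {x y : Fin 6 → ZMod 5} (h : dg x ≠ dg y) (m : ℕ) : shc^[m] x ≠ y := by
  intro e
  apply h
  rw [← e, dg_iter]

/-- the five orbits -/
theorem combin (f : (Fin 6 → ZMod 5) → ℕ) (hsum : ∑ χ, f χ = 26) (hf : ∀ χ, f (shc χ) = f χ)
    (b : Bool) (δ c : ZMod 5) (hδ : δ = 1 ∨ δ = 2) (χ : Fin 6 → ZMod 5) (hχ : dg χ = 4)
    (hχ' : shc χ ≠ χ) (h1 : 1 ≤ f (ct [lt c])) (h2 : 1 ≤ f (ct [lt c, lt (c + δ)]))
    (h3 : 1 ≤ f (ct [lt c, kk b δ c])) (h4 : 1 ≤ f (cT b δ c)) (h5 : 1 ≤ f χ) :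
    f (cT b δ c) = 1 ∧ ∀ β, dg β = 3 → shc β ≠ β → (∀ c', cT b δ c' ≠ β) → f β = 0 := by
  have hp : ∀ m, shc^[m] (ct [lt c, lt (c + δ)]) ≠ ct [lt c, kk b δ c] :=
    iter_of_lt shc shc_iter5 _ _ (fun m hm => pair_ne b δ c hδ ⟨m, hm⟩)
  have hp' := iter_symm shc shc_iter5 _ _ hp
  constructor
  · have key := orb_sum shc shc_iter5 f hf
      (![ct [lt c], ct [lt c, lt (c + δ)], ct [lt c, kk b δ c], cT b δ c, χ] : Fin 5 → _)
      (by
        intro i
        fin_cases i
        · exact shc_ct1_ne c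
        · exact shc_ct2_ne δ c hδ
        · exact shc_ct2_ne' b δ c hδ
        · exact shc_cT_ne b δ c hδ
        · exact hχ')
      (by
        intro i i' hi k
        fin_cases i <;> fin_cases i' <;>
          first
          | exact absurd rfl hi
          | exact hp k
          | exact hp' k
          | exact ne_of_dg (by simp [dg_ct1, dg_ct2, dg_cT, hχ]) k)
    rw [hsum, Fin.sum_univ_five] at key
    simp only [Matrix.cons_val_zero, Matrix.cons_val_one, Matrix.cons_val] at key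
    omega
  · intro β hβ hβ' hT
    have hT1 : ∀ m, shc^[m] (cT b δ c) ≠ β := by
      intro m
      obtain ⟨c', hc'⟩ := iter_shc_cT b δ m c
      rw [hc']
      exact hT c'
    have hT2 := iter_symm shc shc_iter5 _ _ hT1
    have key := orb_sum shc shc_iter5 f hf
      (![ct [lt c], ct [lt c, lt (c + δ)], ct [lt c, kk b δ c], cT b δ c, χ, β] : Fin 6 → _)
      (by
        intro i
        fin_cases i
        · exact shc_ct1_ne c
        · exact shc_ct2_ne δ c hδ
        · exact shc_ct2_ne' b δ c hδ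
        · exact shc_cT_ne b δ c hδ
        · exact hχ'
        · exact hβ')
      (by
        intro i i' hi k
        fin_cases i <;> fin_cases i' <;>
          first
          | exact absurd rfl hi
          | exact hp k
          | exact hp' k
          | exact hT1 k
          | exact hT2 k
          | exact ne_of_dg (by simp [dg_ct1, dg_ct2, dg_cT, hχ, hβ]) k)
    rw [hsum, Fin.sum_univ_six] at key
    simp only [Matrix.cons_val_zero, Matrix.cons_val_one, Matrix.cons_val] at key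
    omega

end Pool.Agent.Lib.MP_424f45_al
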