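import Pool.Agent.Lib.MP_424f45_al.ClsA
import Pool.Agent.Lib.MP_424f45_al.ClsB

/-!
# MP_424f45_al: classification, part C (the triples, the functional)
-/

set_option autoImplicit false

namespace Pool.Agent.Lib.MP_424f45_al

theorem sh_lt : ∀ c : ZMod 5, sh (lt c) = lt (c + 1) := by decide

theorem sh_kk : ∀ (b : Bool) (δ c : ZMod 5), sh (kk b δ c) = kk b δ (c + 1) := by decide

theorem zmod_induct {p : ZMod 5 → Prop} (h : ∀ c, p c → p (c + 1)) (c₀ : ZMod 5) (h0 : p c₀)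
    (c : ZMod 5) : p c := by
  have key : ∀ n : ℕ, p (c₀ + n) := by
    intro n
    induction n with
    | zero => simpa using h0
    | succ n ih =>
      have := h _ ih
      rwa [add_assoc, ← Nat.cast_succ] at this
  have := key (c - c₀).val
  rw [ZMod.natCast_zmod_val] at this
  simpa using this

namespace Sys

variable {O L : Type} [CommRing O] [LieRing L] [LieAlgebra O L] (S : Sys O L)

/-- `[k, [i, j]]` -/
def tX (b : Bool) (δ c : ZMod 5) : L := ⁅S.e (kk b δ c), ⁅S.e (lt c), S.e (lt (c + δ))⁆⁆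

/-- `[i, [j, k]]` -/
def tY (b : Bool) (δ c : ZMod 5) : L := ⁅S.e (lt c), ⁅S.e (lt (c + δ)), S.e (kk b δ c)⁆⁆

theorem s_tX (b : Bool) (δ c : ZMod 5) : S.s (S.tX b δ c) = S.tX b δ (c + 1) := by
  unfold tX
  rw [LieHom.map_lie, LieHom.map_lie, S.s_e, S.s_e, S.s_e, sh_lt, sh_lt, sh_kk]
  rw [show c + δ + 1 = c + 1 + δ by ring]

theorem s_tY (b : Bool) (δ c : ZMod 5) : S.s (S.tY b δ c) = S.tY b δ (c + 1) := by
  unfold tY
  rw [LieHom.map_lie, LieHom.map_lie, S.s_e, S.s_e, S.s_e, sh_lt, sh_lt, sh_kk]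
  rw [show c + δ + 1 = c + 1 + δ by ring]

theorem Lx_cT (b : Bool) (δ c : ZMod 5) :
    S.Lx (cT b δ c) = Submodule.span O {S.tX b δ c, S.tY b δ c} :=
  S.Lx_three _ _ _

theorem tX_mem (b : Bool) (δ c : ZMod 5) : S.tX b δ c ∈ S.Lx (cT b δ c) := by
  rw [Lx_cT]; exact Submodule.subset_span (by simp)

theorem tY_mem (b : Bool) (δ c : ZMod 5) : S.tY b δ c ∈ S.Lx (cT b δ c) := by
  rw [Lx_cT]; exact Submodule.subset_span (by simp)

/-- the bracket of three letters lies in the component of its content -/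
theorem br3_mem (a b c : Fin 6) : ⁅S.e a, ⁅S.e b, S.e c⁆⁆ ∈ S.Lx (ct [a, b, c]) := by
  have h := S.br_mem_Lx [a, b] c
  have h2 : ct (c :: [a, b]) = ct [a, b, c] := by
    funext x
    unfold ct
    rw [List.Perm.count_eq (show (c :: [a, b]).Perm [a, b, c] from
      (List.perm_append_comm (l₁ := [c]) (l₂ := [a, b])))]
  rw [h2] at h
  exact h

theorem br4_mem (z a b c : Fin 6) : ⁅S.e z, ⁅S.e a, ⁅S.e b, S.e c⁆⁆⁆ ∈ S.Lx (ct [z, a, b, c]) := by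
  have h := S.br_mem_Lx [z, a, b] c
  have h2 : ct (c :: [z, a, b]) = ct [z, a, b, c] := by
    funext x
    unfold ct
    rw [List.Perm.count_eq (show (c :: [z, a, b]).Perm [z, a, b, c] from
      (List.perm_append_comm (l₁ := [c]) (l₂ := [z, a, b])))]
  rw [h2] at h
  exact h

theorem e_mem (a : Fin 6) : S.e a ∈ S.Lx (ct [a]) := S.br_mem_Lx [] a

theorem br2_mem (a b : Fin 6) : ⁅S.e a, S.e b⁆ ∈ S.Lx (ct [a, b]) := by
  have h := S.br_mem_Lx [a] b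
  have h2 : ct (b :: [a]) = ct [a, b] := by
    funext x
    unfold ct
    rw [List.Perm.count_eq (List.Perm.swap a b [])]
  rw [h2] at h
  exact h

section func

variable {κ : Type} [AddCommGroup κ] [Module O κ] (Φ : L →ₗ[O] κ)

/-- the values of a functional on fourfold brackets -/
def G4 (z a b c : Fin 6) : κ := Φ ⁅S.e z, ⁅S.e a, ⁅S.e b, S.e c⁆⁆⁆

theorem G4_AS (z a b c : Fin 6) : S.G4 Φ z a b c = - S.G4 Φ z a c b := by
  unfold G4
  rw [← lie_skew (S.e b) (S.e c), lie_neg, lie_neg, map_neg]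

theorem G4_J (z a b c : Fin 6) : S.G4 Φ z a b c + S.G4 Φ z b c a + S.G4 Φ z c a b = 0 := by
  unfold G4
  rw [← map_add, ← map_add, ← lie_add, ← lie_add, lie_jacobi, lie_zero, map_zero]

theorem G4_22 (z a b c : Fin 6) :
    S.G4 Φ z a b c - S.G4 Φ a z b c + S.G4 Φ b c z a - S.G4 Φ c b z a = 0 := by
  unfold G4
  rw [← map_sub, ← map_add, ← map_sub]
  have h1 : ⁅S.e z, ⁅S.e a, ⁅S.e b, S.e c⁆⁆⁆ - ⁅S.e a, ⁅S.e z, ⁅S.e b, S.e c⁆⁆⁆ =
      ⁅⁅S.e z, S.e a⁆, ⁅S.e b, S.e c⁆⁆ := by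
    rw [lie_lie]
  have h2 : ⁅S.e b, ⁅S.e c, ⁅S.e z, S.e a⁆⁆⁆ - ⁅S.e c, ⁅S.e b, ⁅S.e z, S.e a⁆⁆⁆ =
      ⁅⁅S.e b, S.e c⁆, ⁅S.e z, S.e a⁆⁆ := by
    rw [lie_lie]
  have h3 : ⁅⁅S.e b, S.e c⁆, ⁅S.e z, S.e a⁆⁆ = -⁅⁅S.e z, S.e a⁆, ⁅S.e b, S.e c⁆⁆ :=
    (lie_skew _ _).symm
  rw [h1, add_sub_assoc, h2, h3, add_neg_cancel, map_zero]

/-- a functional whose values on fourfold brackets vanish is zero on `V 3` -/
theorem zero_of_G4 (h : ∀ z a b c, S.G4 Φ z a b c = 0) (u : L) (hu : u ∈ S.V 3) : Φ u = 0 := by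
  refine Submodule.span_induction ?_ (map_zero _) (fun x y _ _ hx hy => by rw [map_add, hx, hy, add_zero])
    (fun a x _ hx => by rw [map_smul, hx, smul_zero]) hu
  rintro y ⟨j, w, hw, rfl⟩
  obtain ⟨a, b, c, rfl⟩ := List.length_eq_three.mp hw
  exact h a b c j

end func

end Sys

section

variable {O L : Type} [CommRing O] [IsDomain O] [IsDiscreteValuationRing O]
  [Finite (IsLocalRing.ResidueField O)] [LieRing L] [LieAlgebra O L] (S : Sys O L)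

theorem Sys.T_struct (I : Submodule O L) (b : Bool) (δ c : ZMod 5)
    (h1 : ix (I ⊓ S.Lx (cT b δ c)) (S.Lx (cT b δ c)) = Nat.card (IsLocalRing.ResidueField O))
    (hY : S.tY b δ c ∉ I) : ∃ t : O, S.tX b δ c + t • S.tY b δ c ∈ I ∧
      ∀ a ∈ IsLocalRing.maximalIdeal O, a • S.tY b δ c ∈ I := by
  set B := S.Lx (cT b δ c)
  set y : B ⧸ (I ⊓ B).submoduleOf B := Submodule.Quotient.mk ⟨S.tY b δ c, S.tY_mem b δ c⟩ with hy
  have hy0 : y ≠ 0 := by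
    rw [hy, Ne, Submodule.Quotient.mk_eq_zero]
    intro h
    exact hY h.1
  obtain ⟨hg, hm⟩ := gen_of_card_eq O _ h1 y hy0
  obtain ⟨a, ha⟩ := hg (Submodule.Quotient.mk ⟨S.tX b δ c, S.tX_mem b δ c⟩)
  refine ⟨-a, ?_, ?_⟩
  · rw [hy, ← Submodule.Quotient.mk_smul, Submodule.Quotient.eq] at ha
    have ha' : S.tX b δ c - a • S.tY b δ c ∈ I := ha.1
    rw [neg_smul, ← sub_eq_add_neg]
    exact ha'
  · intro r hr
    have := hm r hr y
    rw [hy, ← Submodule.Quotient.mk_smul, Submodule.Quotient.mk_eq_zero] at this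
    exact this.1

omit [IsDomain O] [IsDiscreteValuationRing O] [Finite (IsLocalRing.ResidueField O)] in
/-- all letters at once -/
theorem Sys.T_all (I : Submodule O L) (hI : ∀ u ∈ I, S.s u ∈ I) (b : Bool) (δ c₀ : ZMod 5) (t : O)
    (h : S.tX b δ c₀ + t • S.tY b δ c₀ ∈ I) (c : ZMod 5) : S.tX b δ c + t • S.tY b δ c ∈ I := by
  refine zmod_induct (p := fun c => S.tX b δ c + t • S.tY b δ c ∈ I) ?_ c₀ h c
  intro c hc
  have := hI _ hc
  rwa [map_add, map_smul, S.s_tX, S.s_tY] at this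

omit [Finite (IsLocalRing.ResidueField O)] in
/-- existence of a functional in degree 4 -/
theorem Sys.exists_phi (I : Submodule O L) (hI : S.Stab I) (h4 : ¬ S.V 3 ≤ I)
    (hfin : ∀ χ, Finite (S.Lx χ ⧸ (I ⊓ S.Lx χ).submoduleOf (S.Lx χ))) :
    ∃ (χ : Fin 6 → ZMod 5) (φ : L →ₗ[O] IsLocalRing.ResidueField O), dg χ = 4 ∧ shc χ ≠ χ ∧
      ¬ S.Lx χ ≤ I ∧ (∀ u ∈ I, φ u = 0) ∧ (∃ u ∈ S.V 3, φ u ≠ 0) ∧
      ∀ χ', χ' ≠ χ → ∀ u ∈ S.Lx χ', φ u = 0 := by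
  have h1 : ∃ χ, dg χ = 4 ∧ ¬ S.Lx χ ≤ I := by
    by_contra hcon
    push Not at hcon
    apply h4
    intro u hu
    rw [← S.P_sum u]
    refine I.sum_mem fun χ _ => ?_
    by_cases hd : dg χ = 4
    · exact hcon χ hd (S.P_mem χ u)
    · rw [S.P_V 3 u hu χ hd]
      exact I.zero_mem
  obtain ⟨χ, hχ, hle⟩ := h1
  have hsh : shc χ ≠ χ := by
    intro hf
    apply hle
    rw [S.Lx_fixed χ hf]
    · exact bot_le
    · intro h5
      rw [h5, dg_ct1] at hχ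
      omega
  have := hfin χ
  have hnt : Nontrivial (S.Lx χ ⧸ (I ⊓ S.Lx χ).submoduleOf (S.Lx χ)) := by
    rw [Submodule.Quotient.nontrivial_iff]
    intro htop
    apply hle
    intro x hx
    have : (⟨x, hx⟩ : S.Lx χ) ∈ (I ⊓ S.Lx χ).submoduleOf (S.Lx χ) := by rw [htop]; trivial
    exact this.1
  obtain ⟨φ₀, hφ₀⟩ := exists_functional O (S.Lx χ ⧸ (I ⊓ S.Lx χ).submoduleOf (S.Lx χ))
  let φ : L →ₗ[O] IsLocalRing.ResidueField O :=
    φ₀ ∘ₗ (Submodule.mkQ _) ∘ₗ ((S.P χ).codRestrict (S.Lx χ) (fun u => S.P_mem χ u))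
  have hφ : ∀ u, φ u = φ₀ (Submodule.Quotient.mk ⟨S.P χ u, S.P_mem χ u⟩) := fun u => rfl
  refine ⟨χ, φ, hχ, hsh, hle, ?_, ?_, ?_⟩
  · intro u hu
    rw [hφ]
    have : (Submodule.Quotient.mk ⟨S.P χ u, S.P_mem χ u⟩ :
        S.Lx χ ⧸ (I ⊓ S.Lx χ).submoduleOf (S.Lx χ)) = 0 := by
      rw [Submodule.Quotient.mk_eq_zero]
      exact ⟨S.P_stab I hI.1 χ u hu, S.P_mem χ u⟩
    rw [this, map_zero]
  · by_contra hcon
    push Not at hcon
    apply hφ₀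
    ext ⟨u, hu⟩
    have h0 := hcon u (S.Lx_le_V χ 3 (by rw [hχ]) hu)
    rw [hφ] at h0
    have : (⟨S.P χ u, S.P_mem χ u⟩ : S.Lx χ) = ⟨u, hu⟩ := Subtype.ext (S.P_same χ u hu)
    rw [this] at h0
    exact h0
  · intro χ' hne u hu
    rw [hφ]
    have : (⟨S.P χ u, S.P_mem χ u⟩ : S.Lx χ) = 0 :=
      Subtype.ext (S.P_ne χ χ' (fun h => hne h.symm) u hu)
    rw [this, Submodule.Quotient.mk_zero, map_zero]

end

end Pool.Agent.Lib.MP_424f45_al
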