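import Pool.Agent.Lib.MP_424f45_al.CW

/-!
# MP_424f45_al: the exotic ideals exist (module EXO)
-/

set_option autoImplicit false

namespace Pool.Agent.Lib.MP_424f45_al

theorem exo_lt_inj_iff (a b : ZMod 5) : lt a = lt b ↔ a = b := by
  revert a b; decide

theorem exo_lt_ne_five (a : ZMod 5) : lt a ≠ 5 := by
  revert a; decide

theorem exo_five_ne_lt (a : ZMod 5) : (5 : Fin 6) ≠ lt a := by
  revert a; decide

theorem exo_sh_lt (a : ZMod 5) : sh (lt a) = lt (a + 1) := by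
  revert a; decide

theorem exo_sh_five : sh 5 = 5 := by decide

theorem exo_sh_lt_sub (a : ZMod 5) : sh (lt (a - 1)) = lt a := by
  revert a; decide

theorem exo_exists_sh (x : Fin 6) : ∃ y, sh y = x := by
  revert x; decide

namespace Sys

section basic

variable {O L : Type} [CommRing O] [LieRing L] [LieAlgebra O L] (S : Sys O L)

/-- coefficients vanish on brackets of another length -/
theorem exo_cw_br_ne (v : List (Fin 6)) (j : Fin 6) : ∀ w : List (Fin 6), w.length ≤ 4 →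
    w.length ≠ v.length + 1 → S.cw w (br S.e v j) = 0 := by
  induction v with
  | nil =>
    intro w _ h
    rw [br_nil, S.cw_e, if_neg]
    rintro rfl
    exact h rfl
  | cons x v ih =>
    intro w hw h
    rw [br_cons]
    rcases w with _ | ⟨a, w⟩
    · exact S.cw_nil _
    · simp only [List.length_cons] at hw h
      rw [S.cw_ad_cons _ _ _ _ (by omega), ih w (by omega) (by omega),
        ih _ (by simp; omega) (by simp; omega)]
      simp

theorem exo_ψT_apply (δ : ZMod 5) (t : O) (c : ZMod 5) (u : L) : S.ψT δ t c u =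
    (1 - t) * S.cw [5, lt c, lt (c + δ)] u + S.cw [5, lt (c + δ), lt c] u := by
  simp [ψT]

theorem exo_ψQ_apply (δ : ZMod 5) (t : O) (c : ZMod 5) (u : L) : S.ψQ δ t c u =
    (t - 1) * S.cw [5, lt c, lt (c + δ), lt (c + 2 * δ)] u
    - S.cw [5, lt (c + δ), lt c, lt (c + 2 * δ)] u
    - S.cw [5, lt (c + δ), lt (c + 2 * δ), lt c] u
    - t * S.cw [5, lt (c + 2 * δ), lt (c + δ), lt c] u := by
  simp [ψQ]

theorem exo_ψT_br_ne (δ : ZMod 5) (t : O) (c : ZMod 5) (v : List (Fin 6)) (j : Fin 6)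
    (h : v.length ≠ 2) : S.ψT δ t c (br S.e v j) = 0 := by
  rw [exo_ψT_apply, S.exo_cw_br_ne v j _ (by simp) (by simp; omega),
    S.exo_cw_br_ne v j _ (by simp) (by simp; omega)]
  ring

theorem exo_ψQ_br_ne (δ : ZMod 5) (t : O) (c : ZMod 5) (v : List (Fin 6)) (j : Fin 6)
    (h : v.length ≠ 3) : S.ψQ δ t c (br S.e v j) = 0 := by
  rw [exo_ψQ_apply, S.exo_cw_br_ne v j _ (by simp) (by simp; omega),
    S.exo_cw_br_ne v j _ (by simp) (by simp; omega), S.exo_cw_br_ne v j _ (by simp) (by simp; omega),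
    S.exo_cw_br_ne v j _ (by simp) (by simp; omega)]
  ring

theorem exo_ψT_tau (δ : ZMod 5) (t : O) (c : ZMod 5) (x : Fin 6) (u : L) : ∃ k : ℕ,
    S.ψT δ t c (S.τ x u) = S.ζ ^ k * S.ψT δ t c u := by
  refine ⟨[5, lt c, lt (c + δ)].count x, ?_⟩
  have h : List.count x [5, lt (c + δ), lt c] = List.count x [5, lt c, lt (c + δ)] := by
    simp only [List.count_cons, List.count_nil]; ring
  rw [exo_ψT_apply, exo_ψT_apply, S.cw_tau _ _ _ (by simp), S.cw_tau _ _ _ (by simp), h]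
  ring

theorem exo_ψQ_tau (δ : ZMod 5) (t : O) (c : ZMod 5) (x : Fin 6) (u : L) : ∃ k : ℕ,
    S.ψQ δ t c (S.τ x u) = S.ζ ^ k * S.ψQ δ t c u := by
  refine ⟨[5, lt c, lt (c + δ), lt (c + 2 * δ)].count x, ?_⟩
  have h1 : List.count x [5, lt (c + δ), lt c, lt (c + 2 * δ)] =
      List.count x [5, lt c, lt (c + δ), lt (c + 2 * δ)] := by
    simp only [List.count_cons, List.count_nil]; ring
  have h2 : List.count x [5, lt (c + δ), lt (c + 2 * δ), lt c] =
      List.count x [5, lt c, lt (c + δ), lt (c + 2 * δ)] := by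
    simp only [List.count_cons, List.count_nil]; ring
  have h3 : List.count x [5, lt (c + 2 * δ), lt (c + δ), lt c] =
      List.count x [5, lt c, lt (c + δ), lt (c + 2 * δ)] := by
    simp only [List.count_cons, List.count_nil]; ring
  rw [exo_ψQ_apply, exo_ψQ_apply, S.cw_tau _ _ _ (by simp), S.cw_tau _ _ _ (by simp),
    S.cw_tau _ _ _ (by simp), S.cw_tau _ _ _ (by simp), h1, h2, h3]
  ring

theorem exo_cw_s' (w w' : List (Fin 6)) (hw : w.length ≤ 4) (h : w.map sh = w') (u : L) :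
    S.cw w' (S.s u) = S.cw w u := by
  rw [← h, S.cw_s u w hw]

theorem exo_ψT_s (δ : ZMod 5) (t : O) (c : ZMod 5) (u : L) :
    S.ψT δ t c (S.s u) = S.ψT δ t (c - 1) u := by
  rw [exo_ψT_apply, exo_ψT_apply]
  have e1 : c - 1 + δ = (c + δ) - 1 := by ring
  rw [e1, S.exo_cw_s' [5, lt (c - 1), lt (c + δ - 1)] [5, lt c, lt (c + δ)] (by simp)
      (by simp [exo_sh_lt_sub, exo_sh_five]) u,
    S.exo_cw_s' [5, lt (c + δ - 1), lt (c - 1)] [5, lt (c + δ), lt c] (by simp)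
      (by simp [exo_sh_lt_sub, exo_sh_five]) u]

theorem exo_ψQ_s (δ : ZMod 5) (t : O) (c : ZMod 5) (u : L) :
    S.ψQ δ t c (S.s u) = S.ψQ δ t (c - 1) u := by
  rw [exo_ψQ_apply, exo_ψQ_apply]
  have e1 : c - 1 + δ = (c + δ) - 1 := by ring
  have e2 : c - 1 + 2 * δ = (c + 2 * δ) - 1 := by ring
  rw [e1, e2,
    S.exo_cw_s' [5, lt (c - 1), lt (c + δ - 1), lt (c + 2 * δ - 1)]
      [5, lt c, lt (c + δ), lt (c + 2 * δ)] (by simp) (by simp [exo_sh_lt_sub, exo_sh_five]) u,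
    S.exo_cw_s' [5, lt (c + δ - 1), lt (c - 1), lt (c + 2 * δ - 1)]
      [5, lt (c + δ), lt c, lt (c + 2 * δ)] (by simp) (by simp [exo_sh_lt_sub, exo_sh_five]) u,
    S.exo_cw_s' [5, lt (c + δ - 1), lt (c + 2 * δ - 1), lt (c - 1)]
      [5, lt (c + δ), lt (c + 2 * δ), lt c] (by simp) (by simp [exo_sh_lt_sub, exo_sh_five]) u,
    S.exo_cw_s' [5, lt (c + 2 * δ - 1), lt (c + δ - 1), lt (c - 1)]
      [5, lt (c + 2 * δ), lt (c + δ), lt c] (by simp) (by simp [exo_sh_lt_sub, exo_sh_five]) u]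

theorem exo_ψT_ad (δ : ZMod 5) (t : O) (c : ZMod 5) (z : Fin 6) (u : L) : S.ψT δ t c ⁅S.e z, u⁆ =
    (if z = 5 then -t * S.cw [lt c, lt (c + δ)] u else 0) +
    (if z = lt (c + δ) then (1 - t) * S.cw [lt c, 5] u else 0) +
    (if z = lt c then S.cw [lt (c + δ), 5] u else 0) := by
  rw [exo_ψT_apply, S.cw_three_ad, S.cw_three_ad]
  have h1 := S.cw_swap (lt c) (lt (c + δ)) u
  have h2 := S.cw_swap (lt c) 5 u
  have h3 := S.cw_swap (lt (c + δ)) 5 u
  simp only [eq_comm (b := z)]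
  by_cases hz5 : z = 5
  · subst hz5
    simp only [if_true, if_neg (exo_five_ne_lt _)]
    linear_combination h1
  · simp only [if_neg hz5]
    by_cases ha : z = lt (c + δ)
    · simp only [if_pos ha]
      by_cases hb : z = lt c
      · simp only [if_pos hb]
        linear_combination (1 - t) * (-1) * h2 - h3
      · simp only [if_neg hb]
        linear_combination (1 - t) * (-1) * h2
    · simp only [if_neg ha]
      by_cases hb : z = lt c
      · simp only [if_pos hb]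
        linear_combination - h3
      · simp only [if_neg hb]
        ring

/-- brackets and the functionals -/
theorem exo_ψQ_ad' (δ : ZMod 5) (t : O) (ht : t ^ 2 - t + 1 = 0) (c : ZMod 5)
    (z : Fin 6) (u : L) : S.ψQ δ t c ⁅S.e z, u⁆ =
      (if z = lt (c + 2 * δ) then S.ψT δ t c u else 0) +
      (if z = lt c then t * S.ψT δ t (c + δ) u else 0) := by
  have e1 : c + δ + δ = c + 2 * δ := by ring
  rw [exo_ψQ_apply, exo_ψT_apply, exo_ψT_apply, e1, S.cw_four_ad, S.cw_four_ad, S.cw_four_ad, S.cw_four_ad]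
  have h1 := S.cw_shuffle (lt c) (lt (c + δ)) (lt (c + 2 * δ)) u
  have h2 := S.cw_rev (lt c) (lt (c + δ)) (lt (c + 2 * δ)) u
  simp only [eq_comm (b := z)]
  by_cases hz5 : z = 5
  · subst hz5
    simp only [if_true, if_neg (exo_five_ne_lt _)]
    linear_combination -h1 + t * h2
  · simp only [if_neg hz5]
    by_cases ha : z = lt (c + 2 * δ)
    · simp only [if_pos ha]
      by_cases hb : z = lt c
      · simp only [if_pos hb]
        linear_combination (S.cw [5, lt (c + δ), lt (c + 2 * δ)] u) * ht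
      · simp only [if_neg hb]
        ring
    · simp only [if_neg ha]
      by_cases hb : z = lt c
      · simp only [if_pos hb]
        linear_combination (S.cw [5, lt (c + δ), lt (c + 2 * δ)] u) * ht
      · simp only [if_neg hb]
        ring

end basic

end Sys

set_option linter.unusedSectionVars false
set_option linter.unusedVariables false

section Exo

variable {O L : Type} [CommRing O] [IsDomain O] [IsDiscreteValuationRing O]
  [LieRing L] [LieAlgebra O L] (S : Sys O L)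

/-- brackets and the functionals -/
theorem Sys.ψQ_ad (δ : ZMod 5) (hδ : δ = 1 ∨ δ = 2) (t : O) (ht : t ^ 2 - t + 1 = 0) (c : ZMod 5)
    (z : Fin 6) (u : L) : S.ψQ δ t c ⁅S.e z, u⁆ =
      (if z = lt (c + 2 * δ) then S.ψT δ t c u else 0) +
      (if z = lt c then t * S.ψT δ t (c + δ) u else 0) := S.exo_ψQ_ad' δ t ht c z u

theorem Sys.exo_mem_Exo (ϖ : O) (δ : ZMod 5) (t : O) (u : L) : u ∈ S.Exo ϖ δ t ↔
    (∀ x, ϖ ∣ S.cw [x] u) ∧ (∀ c, ϖ ∣ S.cw [lt c, lt (c + δ)] u ∧ ϖ ∣ S.cw [lt c, 5] u ∧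
      ϖ ∣ S.ψT δ t c u ∧ ϖ ∣ S.ψQ δ t c u) := Iff.rfl

theorem Sys.exo_Exo_stab (ϖ : O) (δ : ZMod 5) (t : O) : S.Stab (S.Exo ϖ δ t) := by
  constructor
  · intro x u hu
    rw [S.exo_mem_Exo] at hu ⊢
    refine ⟨fun y => ?_, fun c => ⟨?_, ?_, ?_, ?_⟩⟩
    · rw [S.cw_tau _ _ _ (by simp)]
      exact Dvd.dvd.mul_left (hu.1 y) _
    · rw [S.cw_tau _ _ _ (by simp)]
      exact Dvd.dvd.mul_left (hu.2 c).1 _
    · rw [S.cw_tau _ _ _ (by simp)]
      exact Dvd.dvd.mul_left (hu.2 c).2.1 _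
    · obtain ⟨k, hk⟩ := S.exo_ψT_tau δ t c x u
      rw [hk]
      exact Dvd.dvd.mul_left (hu.2 c).2.2.1 _
    · obtain ⟨k, hk⟩ := S.exo_ψQ_tau δ t c x u
      rw [hk]
      exact Dvd.dvd.mul_left (hu.2 c).2.2.2 _
  · intro u hu
    rw [S.exo_mem_Exo] at hu ⊢
    refine ⟨fun y => ?_, fun c => ⟨?_, ?_, ?_, ?_⟩⟩
    · obtain ⟨x, rfl⟩ := exo_exists_sh y
      rw [S.exo_cw_s' [x] [sh x] (by simp) (by simp) u]
      exact hu.1 x
    · have e1 : c - 1 + δ = (c + δ) - 1 := by ring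
      have h := (hu.2 (c - 1)).1
      rw [e1] at h
      rw [S.exo_cw_s' [lt (c - 1), lt (c + δ - 1)] [lt c, lt (c + δ)] (by simp)
        (by simp [exo_sh_lt_sub]) u]
      exact h
    · rw [S.exo_cw_s' [lt (c - 1), 5] [lt c, 5] (by simp) (by simp [exo_sh_lt_sub, exo_sh_five]) u]
      exact (hu.2 (c - 1)).2.1
    · rw [S.exo_ψT_s]
      exact (hu.2 (c - 1)).2.2.1
    · rw [S.exo_ψQ_s]
      exact (hu.2 (c - 1)).2.2.2

theorem Sys.exo_Exo_clo (ϖ : O) (δ : ZMod 5) (t : O) (ht : t ^ 2 - t + 1 = 0) :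
    S.Clo (S.Exo ϖ δ t) (S.Exo ϖ δ t) := by
  intro x u hu
  rw [S.exo_mem_Exo] at hu ⊢
  refine ⟨fun y => ?_, fun c => ⟨?_, ?_, ?_, ?_⟩⟩
  · rw [S.cw_one_ad]; exact dvd_zero _
  · rw [S.cw_two_ad]
    refine dvd_sub ?_ ?_
    · split_ifs
      · exact hu.1 _
      · exact dvd_zero _
    · split_ifs
      · exact hu.1 _
      · exact dvd_zero _
  · rw [S.cw_two_ad]
    refine dvd_sub ?_ ?_
    · split_ifs
      · exact hu.1 _
      · exact dvd_zero _
    · split_ifs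
      · exact hu.1 _
      · exact dvd_zero _
  · rw [S.exo_ψT_ad]
    refine dvd_add (dvd_add ?_ ?_) ?_
    · split_ifs
      · exact Dvd.dvd.mul_left (hu.2 c).1 _
      · exact dvd_zero _
    · split_ifs
      · exact Dvd.dvd.mul_left (hu.2 c).2.1 _
      · exact dvd_zero _
    · split_ifs
      · exact (hu.2 (c + δ)).2.1
      · exact dvd_zero _
  · rw [S.exo_ψQ_ad' δ t ht]
    refine dvd_add ?_ ?_
    · split_ifs
      · exact (hu.2 c).2.2.1
      · exact dvd_zero _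
    · split_ifs
      · exact Dvd.dvd.mul_left (hu.2 (c + δ)).2.2.1 _
      · exact dvd_zero _

/-! ### the dual elements -/

/-- the elements `e_x`, `[e_c, e_{c+δ}]`, `[e_c, e_∞]`, `[e_∞, [e_c, e_{c+δ}]]`,
`[e_{c+2δ}, [e_∞, [e_c, e_{c+δ}]]]` -/
noncomputable def Sys.exo_dual (δ : ZMod 5) : Fin 6 ⊕ Fin 4 × ZMod 5 → L
  | Sum.inl x => br S.e [] x
  | Sum.inr (0, c) => br S.e [lt c] (lt (c + δ))
  | Sum.inr (1, c) => br S.e [lt c] 5
  | Sum.inr (2, c) => br S.e [5, lt c] (lt (c + δ))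
  | Sum.inr (3, c) => br S.e [lt (c + 2 * δ), 5, lt c] (lt (c + δ))

/-- the functionals -/
noncomputable def Sys.exo_fn (δ : ZMod 5) (t : O) : Fin 6 ⊕ Fin 4 × ZMod 5 → (L →ₗ[O] O)
  | Sum.inl x => S.cw [x]
  | Sum.inr (0, c) => S.cw [lt c, lt (c + δ)]
  | Sum.inr (1, c) => S.cw [lt c, 5]
  | Sum.inr (2, c) => S.ψT δ t c
  | Sum.inr (3, c) => S.ψQ δ t c

/-- the values of the functionals on the dual elements -/
def Sys.exo_vl (t : O) : Fin 6 ⊕ Fin 4 × ZMod 5 → O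
  | Sum.inl _ => 1
  | Sum.inr (0, _) => 1
  | Sum.inr (1, _) => 1
  | Sum.inr (2, _) => -t
  | Sum.inr (3, _) => -t

theorem exo_two_ne (δ : ZMod 5) (hδ : δ = 1 ∨ δ = 2) (c c' : ZMod 5) :
    ¬ (c' + δ = c ∧ c' = c + δ) := by
  revert c c'; rcases hδ with rfl | rfl <;> decide

theorem exo_three_ne (δ : ZMod 5) (hδ : δ = 1 ∨ δ = 2) (c c' : ZMod 5) :
    ¬ (c' + 2 * δ = c ∧ c + δ = c') := by
  revert c c'; rcases hδ with rfl | rfl <;> decide

theorem Sys.exo_fn_dual_two (δ : ZMod 5) (hδ : δ = 1 ∨ δ = 2) (c c' : ZMod 5) :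
    S.cw [lt c, lt (c + δ)] (br S.e [lt c'] (lt (c' + δ))) = if c = c' then 1 else 0 := by
  rw [Sys.br_cons, Sys.br_nil, S.cw_two_ad, S.cw_e, S.cw_e]
  simp only [exo_lt_inj_iff, List.cons.injEq, and_true, add_left_inj]
  by_cases h : c = c'
  · subst h
    have : ¬ (c + δ = c) := by
      intro h; exact exo_two_ne δ hδ c c ⟨h, h.symm⟩
    simp [this]
  · rw [if_neg h, if_neg h]
    by_cases h1 : c + δ = c'
    · rw [if_pos h1, if_neg, sub_zero]
      intro h2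
      exact exo_two_ne δ hδ c' c ⟨h1, h2⟩
    · rw [if_neg h1, sub_zero]

theorem Sys.exo_ψT_dual (δ : ZMod 5) (hδ : δ = 1 ∨ δ = 2) (t : O) (c c' : ZMod 5) :
    S.ψT δ t c (br S.e [5, lt c'] (lt (c' + δ))) = if c = c' then -t else 0 := by
  rw [Sys.br_cons, S.exo_ψT_ad, if_pos rfl, if_neg (exo_five_ne_lt _), if_neg (exo_five_ne_lt _),
    S.exo_fn_dual_two δ hδ]
  split_ifs <;> ring

theorem Sys.exo_ψQ_dual (δ : ZMod 5) (hδ : δ = 1 ∨ δ = 2) (t : O) (ht : t ^ 2 - t + 1 = 0)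
    (c c' : ZMod 5) :
    S.ψQ δ t c (br S.e [lt (c' + 2 * δ), 5, lt c'] (lt (c' + δ))) = if c = c' then -t else 0 := by
  rw [Sys.br_cons, S.exo_ψQ_ad' δ t ht, S.exo_ψT_dual δ hδ, S.exo_ψT_dual δ hδ]
  simp only [exo_lt_inj_iff, add_left_inj]
  by_cases h : c = c'
  · subst h
    rw [if_pos rfl, if_pos rfl]
    by_cases h1 : c + 2 * δ = c
    · rw [if_pos h1, if_neg, mul_zero, add_zero]
      intro h2
      exact exo_three_ne δ hδ c c ⟨h1, h2⟩
    · rw [if_neg h1, add_zero]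
  · rw [if_neg h]
    by_cases h1 : c' + 2 * δ = c
    · have h2 : ¬ (c + δ = c') := fun h2 => exo_three_ne δ hδ c c' ⟨h1, h2⟩
      rw [if_pos h1, if_neg h2, mul_zero, ite_self, add_zero]
    · rw [if_neg h1, ite_self, add_zero]

theorem Sys.exo_cw_five_dual (c c' : ZMod 5) :
    S.cw [lt c, 5] (br S.e [lt c'] 5) = if c = c' then 1 else 0 := by
  rw [Sys.br_cons, Sys.br_nil, S.cw_two_ad, S.cw_e, if_neg (exo_five_ne_lt _), sub_zero, if_pos rfl]
  simp only [exo_lt_inj_iff]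

theorem Sys.exo_cw_five_dual' (c a b : ZMod 5) :
    S.cw [lt c, 5] (br S.e [lt a] (lt b)) = 0 := by
  have h1 : S.cw [5] (S.e (lt b)) = 0 := by
    rw [S.cw_e, if_neg]
    intro h
    exact exo_lt_ne_five b (by simpa using h.symm)
  rw [Sys.br_cons, Sys.br_nil, S.cw_two_ad, h1, if_neg (exo_five_ne_lt _)]
  simp

theorem Sys.exo_cw_dual_five (a b c : ZMod 5) :
    S.cw [lt a, lt b] (br S.e [lt c] 5) = 0 := by
  have h1 : S.cw [lt b] (S.e 5) = 0 := by
    rw [S.cw_e, if_neg]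
    intro h
    exact exo_lt_ne_five b (by simpa using h)
  have h2 : S.cw [lt a] (S.e 5) = 0 := by
    rw [S.cw_e, if_neg]
    intro h
    exact exo_lt_ne_five a (by simpa using h)
  rw [Sys.br_cons, Sys.br_nil, S.cw_two_ad, h1, h2]
  simp

theorem Sys.exo_fn_dual (δ : ZMod 5) (hδ : δ = 1 ∨ δ = 2) (t : O) (ht : t ^ 2 - t + 1 = 0) :
    ∀ i k : Fin 6 ⊕ Fin 4 × ZMod 5,
    S.exo_fn δ t i (S.exo_dual δ k) = if i = k then Sys.exo_vl t i else 0
  | Sum.inl x, Sum.inl y => by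
    show S.cw [x] (br S.e [] y) = if Sum.inl x = Sum.inl y then 1 else 0
    rw [Sys.br_nil, S.cw_e]
    simp
  | Sum.inl x, Sum.inr (0, c) => by
    rw [if_neg (by simp)]
    exact S.exo_cw_br_ne _ _ _ (by simp) (by simp)
  | Sum.inl x, Sum.inr (1, c) => by
    rw [if_neg (by simp)]
    exact S.exo_cw_br_ne _ _ _ (by simp) (by simp)
  | Sum.inl x, Sum.inr (2, c) => by
    rw [if_neg (by simp)]
    exact S.exo_cw_br_ne _ _ _ (by simp) (by simp)
  | Sum.inl x, Sum.inr (3, c) => by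
    rw [if_neg (by simp)]
    exact S.exo_cw_br_ne _ _ _ (by simp) (by simp)
  | Sum.inr (0, c), Sum.inl x => by
    rw [if_neg (by simp)]
    exact S.exo_cw_br_ne _ _ _ (by simp) (by simp)
  | Sum.inr (1, c), Sum.inl x => by
    rw [if_neg (by simp)]
    exact S.exo_cw_br_ne _ _ _ (by simp) (by simp)
  | Sum.inr (2, c), Sum.inl x => by
    rw [if_neg (by simp)]
    exact S.exo_ψT_br_ne _ _ _ _ _ (by simp)
  | Sum.inr (3, c), Sum.inl x => by
    rw [if_neg (by simp)]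
    exact S.exo_ψQ_br_ne _ _ _ _ _ (by simp)
  | Sum.inr (0, c), Sum.inr (0, c') => by
    show S.cw [lt c, lt (c + δ)] (br S.e [lt c'] (lt (c' + δ))) =
      if Sum.inr (0, c) = Sum.inr (0, c') then 1 else 0
    rw [S.exo_fn_dual_two δ hδ]
    simp
  | Sum.inr (0, c), Sum.inr (1, c') => by
    rw [if_neg (by simp)]
    exact S.exo_cw_dual_five _ _ _
  | Sum.inr (0, c), Sum.inr (2, c') => by
    rw [if_neg (by simp)]
    exact S.exo_cw_br_ne _ _ _ (by simp) (by simp)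
  | Sum.inr (0, c), Sum.inr (3, c') => by
    rw [if_neg (by simp)]
    exact S.exo_cw_br_ne _ _ _ (by simp) (by simp)
  | Sum.inr (1, c), Sum.inr (0, c') => by
    rw [if_neg (by simp)]
    exact S.exo_cw_five_dual' _ _ _
  | Sum.inr (1, c), Sum.inr (1, c') => by
    show S.cw [lt c, 5] (br S.e [lt c'] 5) =
      if Sum.inr (1, c) = Sum.inr (1, c') then 1 else 0
    rw [S.exo_cw_five_dual]
    simp
  | Sum.inr (1, c), Sum.inr (2, c') => by
    rw [if_neg (by simp)]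
    exact S.exo_cw_br_ne _ _ _ (by simp) (by simp)
  | Sum.inr (1, c), Sum.inr (3, c') => by
    rw [if_neg (by simp)]
    exact S.exo_cw_br_ne _ _ _ (by simp) (by simp)
  | Sum.inr (2, c), Sum.inr (0, c') => by
    rw [if_neg (by simp)]
    exact S.exo_ψT_br_ne _ _ _ _ _ (by simp)
  | Sum.inr (2, c), Sum.inr (1, c') => by
    rw [if_neg (by simp)]
    exact S.exo_ψT_br_ne _ _ _ _ _ (by simp)
  | Sum.inr (2, c), Sum.inr (2, c') => by
    show S.ψT δ t c (br S.e [5, lt c'] (lt (c' + δ))) =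
      if Sum.inr (2, c) = Sum.inr (2, c') then -t else 0
    rw [S.exo_ψT_dual δ hδ]
    simp
  | Sum.inr (2, c), Sum.inr (3, c') => by
    rw [if_neg (by simp)]
    exact S.exo_ψT_br_ne _ _ _ _ _ (by simp)
  | Sum.inr (3, c), Sum.inr (0, c') => by
    rw [if_neg (by simp)]
    exact S.exo_ψQ_br_ne _ _ _ _ _ (by simp)
  | Sum.inr (3, c), Sum.inr (1, c') => by
    rw [if_neg (by simp)]
    exact S.exo_ψQ_br_ne _ _ _ _ _ (by simp)
  | Sum.inr (3, c), Sum.inr (2, c') => by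
    rw [if_neg (by simp)]
    exact S.exo_ψQ_br_ne _ _ _ _ _ (by simp)
  | Sum.inr (3, c), Sum.inr (3, c') => by
    show S.ψQ δ t c (br S.e [lt (c' + 2 * δ), 5, lt c'] (lt (c' + δ))) =
      if Sum.inr (3, c) = Sum.inr (3, c') then -t else 0
    rw [S.exo_ψQ_dual δ hδ t ht]
    simp

/-! ### the index -/

theorem exo_isUnit_neg_t (t : O) (ht : t ^ 2 - t + 1 = 0) : IsUnit (-t) :=
  IsUnit.of_mul_eq_one (t - 1) (by linear_combination -ht)

theorem exo_isUnit_vl (t : O) (ht : t ^ 2 - t + 1 = 0) : ∀ i : Fin 6 ⊕ Fin 4 × ZMod 5,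
    IsUnit (Sys.exo_vl t i)
  | Sum.inl _ => isUnit_one
  | Sum.inr (0, _) => isUnit_one
  | Sum.inr (1, _) => isUnit_one
  | Sum.inr (2, _) => exo_isUnit_neg_t t ht
  | Sum.inr (3, _) => exo_isUnit_neg_t t ht

theorem exo_residue_eq_zero_iff_dvd (ϖ : O) (hϖ : Irreducible ϖ) (a : O) :
    IsLocalRing.residue O a = 0 ↔ ϖ ∣ a := by
  rw [IsLocalRing.residue_eq_zero_iff, hϖ.maximalIdeal_eq, Ideal.mem_span_singleton]

/-- the map onto the residue field -/
noncomputable def Sys.exo_Phi (δ : ZMod 5) (t : O) :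
    L →ₗ[O] (Fin 6 ⊕ Fin 4 × ZMod 5 → IsLocalRing.ResidueField O) :=
  LinearMap.pi (fun i => (Algebra.linearMap O (IsLocalRing.ResidueField O)).comp (S.exo_fn δ t i))

theorem Sys.exo_Phi_apply (δ : ZMod 5) (t : O) (u : L) (i : Fin 6 ⊕ Fin 4 × ZMod 5) :
    S.exo_Phi δ t u i = IsLocalRing.residue O (S.exo_fn δ t i u) := rfl

theorem Sys.exo_ker_Phi (ϖ : O) (hϖ : Irreducible ϖ) (δ : ZMod 5) (t : O) :
    LinearMap.ker (S.exo_Phi δ t) = S.Exo ϖ δ t := by
  ext u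
  rw [LinearMap.mem_ker, S.exo_mem_Exo]
  constructor
  · intro h
    have h' : ∀ i, ϖ ∣ S.exo_fn δ t i u := fun i => by
      rw [← exo_residue_eq_zero_iff_dvd ϖ hϖ, ← S.exo_Phi_apply, h]; rfl
    exact ⟨fun x => h' (Sum.inl x), fun c => ⟨h' (Sum.inr (0, c)), h' (Sum.inr (1, c)),
      h' (Sum.inr (2, c)), h' (Sum.inr (3, c))⟩⟩
  · rintro ⟨h1, h2⟩
    funext i
    rw [S.exo_Phi_apply]
    show _ = (0 : IsLocalRing.ResidueField O)
    rw [exo_residue_eq_zero_iff_dvd ϖ hϖ]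
    match i with
    | Sum.inl x => exact h1 x
    | Sum.inr (0, c) => exact (h2 c).1
    | Sum.inr (1, c) => exact (h2 c).2.1
    | Sum.inr (2, c) => exact (h2 c).2.2.1
    | Sum.inr (3, c) => exact (h2 c).2.2.2

theorem Sys.exo_Phi_surjective (δ : ZMod 5) (hδ : δ = 1 ∨ δ = 2) (t : O) (ht : t ^ 2 - t + 1 = 0) :
    Function.Surjective (S.exo_Phi δ t) := by
  intro g
  choose a ha using fun i => IsLocalRing.residue_surjective (R := O) (g i)
  choose b hb using fun i => (exo_isUnit_vl t ht i).exists_right_inv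
  refine ⟨∑ k, (a k * b k) • S.exo_dual δ k, ?_⟩
  funext i
  rw [S.exo_Phi_apply, map_sum]
  have : ∀ k, S.exo_fn δ t i ((a k * b k) • S.exo_dual δ k) = if i = k then a i else 0 := by
    intro k
    rw [map_smul, S.exo_fn_dual δ hδ t ht, smul_eq_mul]
    split_ifs with h
    · subst h
      linear_combination (a i) * hb i
    · ring
  simp only [this, Finset.sum_ite_eq, Finset.mem_univ, if_true, ha]

theorem Sys.exo_card_Exo (ϖ : O) (hϖ : Irreducible ϖ) (δ : ZMod 5) (hδ : δ = 1 ∨ δ = 2) (t : O)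
    (ht : t ^ 2 - t + 1 = 0) :
    Nat.card (L ⧸ S.Exo ϖ δ t) = Nat.card (IsLocalRing.ResidueField O) ^ 26 := by
  rw [← S.exo_ker_Phi ϖ hϖ δ t,
    Nat.card_congr (LinearMap.quotKerEquivOfSurjective _ (S.exo_Phi_surjective δ hδ t ht)).toEquiv,
    Nat.card_fun]
  congr 1
  simp [Nat.card_eq_fintype_card, ZMod.card]

theorem Sys.Exo_mem (ϖ : O) (hϖ : Irreducible ϖ) (δ : ZMod 5) (hδ : δ = 1 ∨ δ = 2) (t : O)
    (ht : t ^ 2 - t + 1 = 0) [Finite (IsLocalRing.ResidueField O)] :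
    S.Exo ϖ δ t ∈ S.FixI 26 :=
  ⟨S.exo_Exo_stab ϖ δ t, S.exo_Exo_clo ϖ δ t ht, S.exo_card_Exo ϖ hϖ δ hδ t ht⟩

theorem Sys.Exo_V3 (ϖ : O) (hϖ : Irreducible ϖ) (δ : ZMod 5) (hδ : δ = 1 ∨ δ = 2) (t : O)
    (ht : t ^ 2 - t + 1 = 0) : ¬ S.V 3 ≤ S.Exo ϖ δ t := by
  intro h
  have h1 : br S.e [lt (0 + 2 * δ), 5, lt 0] (lt (0 + δ)) ∈ S.V 3 :=
    Submodule.subset_span ⟨_, _, rfl, rfl⟩
  have h2 := ((h h1).2 0).2.2.2
  rw [S.exo_ψQ_dual δ hδ t ht, if_pos rfl] at h2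
  exact hϖ.not_isUnit (isUnit_of_dvd_unit h2 (exo_isUnit_neg_t t ht))

theorem Sys.exo_ψT_dual' (δ : ZMod 5) (hδ : δ = 1 ∨ δ = 2) (t : O) (c : ZMod 5) :
    S.ψT δ t c (br S.e [lt 0, lt (0 + δ)] 5) = if c = 0 then 1 else 0 := by
  rw [Sys.br_cons, S.exo_ψT_ad, if_neg (exo_lt_ne_five _), S.exo_cw_five_dual, S.exo_cw_five_dual]
  simp only [exo_lt_inj_iff]
  by_cases h : c = 0
  · subst h
    simp only [zero_add, if_true]
    have : ¬ (0 : ZMod 5) = δ := by rcases hδ with rfl | rfl <;> decide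
    simp [this]
  · have h0 : ¬ (0 = c) := fun h' => h h'.symm
    rw [if_neg h, if_neg h0]
    by_cases h1 : 0 = c + δ
    · have h2 : ¬ (c = 0 + δ) := fun h2 => exo_two_ne δ hδ c 0 ⟨h2.symm, h1⟩
      rw [if_neg h2]; simp
    · rw [if_neg h1]; simp

theorem Sys.Exo_inj (ϖ : O) (hϖ : Irreducible ϖ) (δ δ' : ZMod 5) (hδ : δ = 1 ∨ δ = 2)
    (hδ' : δ' = 1 ∨ δ' = 2) (t t' : O) (ht : t ^ 2 - t + 1 = 0) (ht' : t' ^ 2 - t' + 1 = 0)
    (h : S.Exo ϖ δ t = S.Exo ϖ δ' t') : δ = δ' ∧ ϖ ∣ t - t' := by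
  have hd : δ = δ' := by
    by_contra hne
    have h1 : br S.e [lt 0] (lt (0 + δ)) ∈ S.Exo ϖ δ' t' := by
      rw [S.exo_mem_Exo]
      refine ⟨fun x => ?_, fun c => ⟨?_, ?_, ?_, ?_⟩⟩
      · rw [S.exo_cw_br_ne _ _ _ (by simp) (by simp)]; exact dvd_zero _
      · have : S.cw [lt c, lt (c + δ')] (br S.e [lt 0] (lt (0 + δ))) = 0 := by
          rw [Sys.br_cons, Sys.br_nil, S.cw_two_ad, S.cw_e, S.cw_e]
          simp only [exo_lt_inj_iff, List.cons.injEq, and_true]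
          by_cases hc : c = 0
          · subst hc
            have h3 : ¬ ((0 : ZMod 5) + δ' = 0 + δ) := by
              intro h; exact hne (by linear_combination -h)
            have h4 : ¬ ((0 : ZMod 5) + δ' = 0) := by
              rcases hδ' with rfl | rfl <;> decide
            rw [if_neg h3, if_neg h4]; simp
          · rw [if_neg hc]
            by_cases h5 : c + δ' = 0
            · have h6 : ¬ (c = 0 + δ) := by
                rintro rfl
                revert h5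
                rcases hδ with rfl | rfl <;> rcases hδ' with rfl | rfl <;> decide
              rw [if_neg h6]; simp
            · rw [if_neg h5]; simp
        rw [this]; exact dvd_zero _
      · rw [S.exo_cw_five_dual']; exact dvd_zero _
      · rw [S.exo_ψT_br_ne _ _ _ _ _ (by simp)]; exact dvd_zero _
      · rw [S.exo_ψQ_br_ne _ _ _ _ _ (by simp)]; exact dvd_zero _
    rw [← h, S.exo_mem_Exo] at h1
    have h2 := (h1.2 0).1
    rw [S.exo_fn_dual_two δ hδ, if_pos rfl] at h2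
    exact hϖ.not_isUnit (isUnit_of_dvd_one h2)
  subst hd
  refine ⟨rfl, ?_⟩
  have h1 : br S.e [5, lt 0] (lt (0 + δ)) + t • br S.e [lt 0, lt (0 + δ)] 5 ∈
      S.Exo ϖ δ t := by
    rw [S.exo_mem_Exo]
    refine ⟨fun x => ?_, fun c => ⟨?_, ?_, ?_, ?_⟩⟩
    · rw [map_add, map_smul, S.exo_cw_br_ne _ _ _ (by simp) (by simp),
        S.exo_cw_br_ne _ _ _ (by simp) (by simp)]
      simp
    · rw [map_add, map_smul, S.exo_cw_br_ne _ _ _ (by simp) (by simp),
        S.exo_cw_br_ne _ _ _ (by simp) (by simp)]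
      simp
    · rw [map_add, map_smul, S.exo_cw_br_ne _ _ _ (by simp) (by simp),
        S.exo_cw_br_ne _ _ _ (by simp) (by simp)]
      simp
    · rw [map_add, map_smul, S.exo_ψT_dual δ hδ, S.exo_ψT_dual' δ hδ, smul_eq_mul]
      split_ifs <;> simp
    · rw [map_add, map_smul, S.exo_ψQ_br_ne _ _ _ _ _ (by simp), S.exo_ψQ_br_ne _ _ _ _ _ (by simp)]
      simp
  rw [h, S.exo_mem_Exo] at h1
  have h2 := (h1.2 0).2.2.1
  rw [map_add, map_smul, S.exo_ψT_dual δ hδ, S.exo_ψT_dual' δ hδ, smul_eq_mul, if_pos rfl, if_pos rfl] at h2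
  have e : -t' + t * 1 = t - t' := by ring
  rwa [e] at h2

end Exo

end Pool.Agent.Lib.MP_424f45_al
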