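import Pool.Agent.Lib.MP_424f45_al.Defs

/-!
# Functionals in degree 4 (module FA)
-/

set_option autoImplicit false

namespace Pool.Agent.Lib.MP_424f45_al

section

variable {κ : Type*} [Field κ]

/-- the core of FA1, for fixed `δ` -/
theorem FA1_core (G : Fin 6 → Fin 6 → Fin 6 → Fin 6 → κ)
    (hAS : ∀ z a b c, G z a b c = - G z a c b)
    (hJ : ∀ z a b c, G z a b c + G z b c a + G z c a b = 0)
    (h22 : ∀ z a b c, G z a b c - G a z b c + G b c z a - G c b z a = 0)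
    (δ : ZMod 5) (t : κ)
    (hT : ∀ z c, G z 5 (lt c) (lt (c + δ)) + t * G z (lt c) (lt (c + δ)) 5 = 0)
    (ht : t ≠ -1) (ht2 : t ≠ 2) (ht3 : 2 * t ≠ 1)
    (v1 : ∀ z c, G z (lt (c + 3 * δ)) (lt (c + δ)) 5 = 0)
    (v2 : ∀ z c, G z 5 (lt (c + 3 * δ)) (lt c) = 0)
    (v3 : ∀ z c, G z (lt (c + δ)) (lt (c + 3 * δ)) (lt c) = 0)
    (v4 : ∀ z c, G z 5 (lt c) 5 = 0)
    (v5 : ∀ z c, G z 5 5 (lt c) = 0)
    (v6 : ∀ z c, G z (lt c) (lt c) (lt (c + δ)) = 0)
    (v7 : ∀ z c, G z (lt c) (lt c) 5 = 0)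
    (v8 : ∀ z c, G z (lt (c + δ)) (lt (c + δ)) (lt c) = 0)
    (v9 : ∀ z c, G z 5 (lt (c + 2 * δ)) (lt c) = 0)
    (v10 : ∀ z c, G z (lt (c + δ)) (lt (c + 2 * δ)) (lt c) = 0)
    (v11 : ∀ z c, G z (lt (c + 2 * δ)) (lt c) (lt (c + δ)) = 0)
    (v12 : ∀ z c, G z (lt c) (lt (c + 2 * δ)) 5 = 0)
    (e1 : ∀ c : ZMod 5, c + δ + δ = c + 2 * δ)
    (e2 : ∀ c : ZMod 5, c + 4 * δ + δ = c)
    (e3 : ∀ c : ZMod 5, c + 4 * δ + 2 * δ = c + δ)
    (cov : ∀ (z : Fin 6) (c : ZMod 5), z = 5 ∨ z = lt c ∨ z = lt (c + δ) ∨ z = lt (c + 2 * δ) ∨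
      z = lt (c + 3 * δ) ∨ z = lt (c + 4 * δ)) :
    (∀ c, (t ^ 2 - t + 1) * G (lt (c + 2 * δ)) (lt c) (lt (c + δ)) 5 = 0) ∧
    ((∀ c, G (lt (c + 2 * δ)) (lt c) (lt (c + δ)) 5 = 0) →
      ∀ z c, G z (lt c) (lt (c + δ)) 5 = 0) := by
  -- the values on the active triple
  have hX : ∀ z c, G z 5 (lt c) (lt (c + δ)) = -t * G z (lt c) (lt (c + δ)) 5 := by
    intro z c; linear_combination hT z c
  have hZZ : ∀ z c, G z (lt (c + δ)) 5 (lt c) = (t - 1) * G z (lt c) (lt (c + δ)) 5 := by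
    intro z c; linear_combination hJ z (lt c) (lt (c + δ)) 5 - hX z c
  have c3 : ∀ c, G (lt (c + 3 * δ)) (lt c) (lt (c + δ)) 5 = 0 := by
    intro c
    linear_combination h22 (lt (c + 3 * δ)) (lt c) (lt (c + δ)) 5 + v1 (lt c) c
      - v2 (lt (c + δ)) c + v3 5 c
  have cm : ∀ c, G 5 (lt c) (lt (c + δ)) 5 = 0 := by
    intro c
    have h : (2 - t) * G 5 (lt c) (lt (c + δ)) 5 = 0 := by
      linear_combination h22 5 (lt c) (lt (c + δ)) 5 + v4 (lt c) (c + δ) - v5 (lt (c + δ)) c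
        + hZZ 5 c
    exact (mul_eq_zero.1 h).resolve_left (sub_ne_zero.2 ht2.symm)
  have ci : ∀ c, G (lt c) (lt c) (lt (c + δ)) 5 = 0 := by
    intro c
    have h : (1 - 2 * t) * G (lt c) (lt c) (lt (c + δ)) 5 = 0 := by
      linear_combination h22 (lt c) 5 (lt c) (lt (c + δ)) + v6 5 c + v7 (lt (c + δ)) c
        - hX (lt c) c + hZZ (lt c) c - hAS (lt c) (lt (c + δ)) (lt c) 5
    exact (mul_eq_zero.1 h).resolve_left (sub_ne_zero.2 ht3.symm)
  have cj : ∀ c, G (lt (c + δ)) (lt c) (lt (c + δ)) 5 = 0 := by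
    intro c
    have h : (t + 1) * G (lt (c + δ)) (lt c) (lt (c + δ)) 5 = 0 := by
      linear_combination h22 (lt (c + δ)) 5 (lt (c + δ)) (lt c) + v8 5 c + v7 (lt c) (c + δ)
        + hX (lt (c + δ)) c - hAS (lt (c + δ)) 5 (lt (c + δ)) (lt c)
    refine (mul_eq_zero.1 h).resolve_left ?_
    intro h0
    exact ht (by linear_combination h0)
  -- the content with four letters
  have E3 : ∀ c, G (lt c) (lt (c + δ)) (lt (c + 2 * δ)) 5 =
      t * G (lt (c + 2 * δ)) (lt c) (lt (c + δ)) 5 := by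
    intro c
    linear_combination h22 (lt (c + 2 * δ)) 5 (lt c) (lt (c + δ)) + v11 5 c
      + v12 (lt (c + δ)) c - hX (lt (c + 2 * δ)) c
  have E1 : ∀ c, G (lt (c + 2 * δ)) (lt c) (lt (c + δ)) 5 =
      (1 - t) * G (lt c) (lt (c + δ)) (lt (c + 2 * δ)) 5 := by
    intro c
    have h1 := hZZ (lt c) (c + δ)
    rw [e1] at h1
    linear_combination h22 (lt (c + 2 * δ)) (lt c) (lt (c + δ)) 5 - v9 (lt (c + δ)) c
      + v10 5 c - h1 + hAS (lt c) (lt (c + 2 * δ)) (lt (c + δ)) 5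
  refine ⟨fun c => by linear_combination E1 c + (1 - t) * E3 c, fun hf z c => ?_⟩
  rcases cov z c with rfl | rfl | rfl | rfl | rfl | rfl
  · exact cm c
  · exact ci c
  · exact cj c
  · exact hf c
  · exact c3 c
  · have h := E3 (c + 4 * δ)
    rw [hf, mul_zero, e2, e3] at h
    exact h

/-- the core of FA2, for fixed `δ` -/
theorem FA2_core (G : Fin 6 → Fin 6 → Fin 6 → Fin 6 → κ)
    (hAS : ∀ z a b c, G z a b c = - G z a c b)
    (hJ : ∀ z a b c, G z a b c + G z b c a + G z c a b = 0)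
    (h22 : ∀ z a b c, G z a b c - G a z b c + G b c z a - G c b z a = 0)
    (δ : ZMod 5) (t : κ)
    (hT : ∀ z c, G z (lt (c + 2 * δ)) (lt c) (lt (c + δ)) +
      t * G z (lt c) (lt (c + δ)) (lt (c + 2 * δ)) = 0)
    (ht : t ≠ -1) (ht1 : t ≠ 1) (ht2 : t ≠ 2) (ht3 : 2 * t ≠ 1)
    (w1 : ∀ z c, G z 5 (lt (c + δ)) (lt (c + 2 * δ)) = 0)
    (w2 : ∀ z c, G z (lt (c + 2 * δ)) 5 (lt c) = 0)
    (w3 : ∀ z c, G z (lt (c + δ)) 5 (lt c) = 0)
    (w4 : ∀ z c, G z (lt (c + 2 * δ)) (lt (c + δ)) (lt (c + 2 * δ)) = 0)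
    (w5 : ∀ z c, G z (lt (c + 2 * δ)) (lt (c + 2 * δ)) (lt c) = 0)
    (w6 : ∀ z c, G z (lt c) (lt c) (lt (c + δ)) = 0)
    (w7 : ∀ z c, G z (lt c) (lt c) (lt (c + 2 * δ)) = 0)
    (w8 : ∀ z c, G z (lt (c + δ)) (lt (c + δ)) (lt c) = 0)
    (w9 : ∀ z c, G z (lt (c + δ)) (lt (c + δ)) (lt (c + 2 * δ)) = 0)
    (w10 : ∀ z c, G z (lt (c + 2 * δ)) (lt (c + 3 * δ)) (lt c) = 0)
    (w11 : ∀ z c, G z (lt (c + δ)) (lt (c + 3 * δ)) (lt c) = 0)
    (w12 : ∀ z c, G z (lt (c + 3 * δ)) (lt (c + 2 * δ)) (lt c) = 0)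
    (w13 : ∀ z c, G z (lt c) (lt (c + 3 * δ)) (lt (c + δ)) = 0)
    (e1 : ∀ c : ZMod 5, c + δ + δ = c + 2 * δ)
    (e2 : ∀ c : ZMod 5, c + δ + 2 * δ = c + 3 * δ)
    (e3 : ∀ c : ZMod 5, c + 4 * δ + δ = c)
    (e4 : ∀ c : ZMod 5, c + 4 * δ + 2 * δ = c + δ)
    (e5 : ∀ c : ZMod 5, c + 4 * δ + 3 * δ = c + 2 * δ)
    (cov : ∀ (z : Fin 6) (c : ZMod 5), z = 5 ∨ z = lt c ∨ z = lt (c + δ) ∨ z = lt (c + 2 * δ) ∨
      z = lt (c + 3 * δ) ∨ z = lt (c + 4 * δ)) :
    ∀ z c, G z (lt c) (lt (c + δ)) (lt (c + 2 * δ)) = 0 := by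
  have hX : ∀ z c, G z (lt (c + 2 * δ)) (lt c) (lt (c + δ)) =
      -t * G z (lt c) (lt (c + δ)) (lt (c + 2 * δ)) := by
    intro z c; linear_combination hT z c
  have hZZ : ∀ z c, G z (lt (c + δ)) (lt (c + 2 * δ)) (lt c) =
      (t - 1) * G z (lt c) (lt (c + δ)) (lt (c + 2 * δ)) := by
    intro z c
    linear_combination hJ z (lt c) (lt (c + δ)) (lt (c + 2 * δ)) - hX z c
  have cm : ∀ c, G 5 (lt c) (lt (c + δ)) (lt (c + 2 * δ)) = 0 := by
    intro c
    linear_combination h22 5 (lt c) (lt (c + δ)) (lt (c + 2 * δ)) + w1 (lt c) c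
      - w2 (lt (c + δ)) c + w3 (lt (c + 2 * δ)) c
  have ck : ∀ c, G (lt (c + 2 * δ)) (lt c) (lt (c + δ)) (lt (c + 2 * δ)) = 0 := by
    intro c
    have h : (2 - t) * G (lt (c + 2 * δ)) (lt c) (lt (c + δ)) (lt (c + 2 * δ)) = 0 := by
      linear_combination h22 (lt (c + 2 * δ)) (lt c) (lt (c + δ)) (lt (c + 2 * δ))
        + w4 (lt c) c - w5 (lt (c + δ)) c + hZZ (lt (c + 2 * δ)) c
    exact (mul_eq_zero.1 h).resolve_left (sub_ne_zero.2 ht2.symm)
  have ci : ∀ c, G (lt c) (lt c) (lt (c + δ)) (lt (c + 2 * δ)) = 0 := by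
    intro c
    have h : (1 - 2 * t) * G (lt c) (lt c) (lt (c + δ)) (lt (c + 2 * δ)) = 0 := by
      linear_combination h22 (lt c) (lt (c + 2 * δ)) (lt c) (lt (c + δ)) + w6 (lt (c + 2 * δ)) c
        + w7 (lt (c + δ)) c - hX (lt c) c + hZZ (lt c) c
        - hAS (lt c) (lt (c + δ)) (lt c) (lt (c + 2 * δ))
    exact (mul_eq_zero.1 h).resolve_left (sub_ne_zero.2 ht3.symm)
  have hp1 : t + 1 ≠ 0 := fun h0 => ht (by linear_combination h0)
  have cj : ∀ c, G (lt (c + δ)) (lt c) (lt (c + δ)) (lt (c + 2 * δ)) = 0 := by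
    intro c
    have h : (t + 1) * G (lt (c + δ)) (lt c) (lt (c + δ)) (lt (c + 2 * δ)) = 0 := by
      linear_combination h22 (lt (c + δ)) (lt (c + 2 * δ)) (lt (c + δ)) (lt c)
        + w8 (lt (c + 2 * δ)) c + w9 (lt c) c + hX (lt (c + δ)) c
        - hAS (lt (c + δ)) (lt (c + 2 * δ)) (lt (c + δ)) (lt c)
    exact (mul_eq_zero.1 h).resolve_left hp1
  -- four consecutive letters: f outer `c + 3δ`, g outer `c`
  have F1 : ∀ c, G (lt (c + 3 * δ)) (lt c) (lt (c + δ)) (lt (c + 2 * δ)) +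
      t * G (lt c) (lt (c + δ)) (lt (c + 2 * δ)) (lt (c + 3 * δ)) = 0 := by
    intro c
    have h1 := hX (lt c) (c + δ)
    rw [e1, e2] at h1
    linear_combination h22 (lt (c + 3 * δ)) (lt c) (lt (c + δ)) (lt (c + 2 * δ)) + h1
      - w10 (lt (c + δ)) c + w11 (lt (c + 2 * δ)) c
  have F2 : ∀ c, (t - 1) * (G (lt (c + 3 * δ)) (lt c) (lt (c + δ)) (lt (c + 2 * δ)) -
      G (lt c) (lt (c + δ)) (lt (c + 2 * δ)) (lt (c + 3 * δ))) = 0 := by
    intro c
    have h1 := hZZ (lt c) (c + δ)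
    rw [e1, e2] at h1
    linear_combination h22 (lt (c + 3 * δ)) (lt (c + δ)) (lt (c + 2 * δ)) (lt c)
      + w12 (lt (c + δ)) c - w13 (lt (c + 2 * δ)) c + h1 - hZZ (lt (c + 3 * δ)) c
  have F3 : ∀ c, G (lt (c + 3 * δ)) (lt c) (lt (c + δ)) (lt (c + 2 * δ)) = 0 ∧
      G (lt c) (lt (c + δ)) (lt (c + 2 * δ)) (lt (c + 3 * δ)) = 0 := by
    intro c
    have h1 := (mul_eq_zero.1 (F2 c)).resolve_left (sub_ne_zero.2 ht1)
    have h2 := F1 c
    have h3 : (t + 1) * G (lt c) (lt (c + δ)) (lt (c + 2 * δ)) (lt (c + 3 * δ)) = 0 := by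
      linear_combination h2 - h1
    have h4 := (mul_eq_zero.1 h3).resolve_left hp1
    exact ⟨by linear_combination h1 + h4, h4⟩
  intro z c
  rcases cov z c with rfl | rfl | rfl | rfl | rfl | rfl
  · exact cm c
  · exact ci c
  · exact cj c
  · exact ck c
  · exact (F3 c).1
  · have h := (F3 (c + 4 * δ)).2
    rw [e3, e4, e5] at h
    exact h

/-- all orders of the active triple -/
theorem G_zero_of {G : Fin 6 → Fin 6 → Fin 6 → Fin 6 → κ}
    (hAS : ∀ z a b c, G z a b c = - G z a c b)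
    (hJ : ∀ z a b c, G z a b c + G z b c a + G z c a b = 0) {z i j m : Fin 6}
    (h1 : G z m i j = 0) (h2 : G z i j m = 0) {a b c : Fin 6}
    (h : (a = i ∧ b = j ∧ c = m) ∨ (a = i ∧ b = m ∧ c = j) ∨ (a = j ∧ b = m ∧ c = i) ∨
      (a = j ∧ b = i ∧ c = m) ∨ (a = m ∧ b = i ∧ c = j) ∨ (a = m ∧ b = j ∧ c = i)) :
    G z a b c = 0 := by
  have h3 : G z j m i = 0 := by linear_combination hJ z i j m - h1 - h2
  rcases h with ⟨rfl, rfl, rfl⟩ | ⟨rfl, rfl, rfl⟩ | ⟨rfl, rfl, rfl⟩ | ⟨rfl, rfl, rfl⟩ |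
    ⟨rfl, rfl, rfl⟩ | ⟨rfl, rfl, rfl⟩
  · exact h2
  · rw [hAS, h2, neg_zero]
  · exact h3
  · rw [hAS, h3, neg_zero]
  · exact h1
  · rw [hAS, h1, neg_zero]

theorem FA1 (G : Fin 6 → Fin 6 → Fin 6 → Fin 6 → κ)
    (hAS : ∀ z a b c, G z a b c = - G z a c b)
    (hJ : ∀ z a b c, G z a b c + G z b c a + G z c a b = 0)
    (h22 : ∀ z a b c, G z a b c - G a z b c + G b c z a - G c b z a = 0)
    (δ : ZMod 5) (hδ : δ = 1 ∨ δ = 2) (t : κ)
    (hZ : ∀ z a b c, (∀ c', ct [a, b, c] ≠ ct [lt c', lt (c' + δ), 5]) → G z a b c = 0)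
    (hT : ∀ z c, G z 5 (lt c) (lt (c + δ)) + t * G z (lt c) (lt (c + δ)) 5 = 0)
    (ht : t ≠ -1) (ht2 : t ≠ 2) (ht3 : 2 * t ≠ 1) :
    (∀ c, (t ^ 2 - t + 1) * G (lt (c + 2 * δ)) (lt c) (lt (c + δ)) 5 = 0) ∧
    ((∀ c, G (lt (c + 2 * δ)) (lt c) (lt (c + δ)) 5 = 0) → ∀ z a b c, G z a b c = 0) := by
  have key : ∀ a b c : Fin 6, (∀ c', ct [a, b, c] ≠ ct [lt c', lt (c' + δ), 5]) ∨
      ∃ c', (a = lt c' ∧ b = lt (c' + δ) ∧ c = 5) ∨ (a = lt c' ∧ b = 5 ∧ c = lt (c' + δ)) ∨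
        (a = lt (c' + δ) ∧ b = 5 ∧ c = lt c') ∨ (a = lt (c' + δ) ∧ b = lt c' ∧ c = 5) ∨
        (a = 5 ∧ b = lt c' ∧ c = lt (c' + δ)) ∨ (a = 5 ∧ b = lt (c' + δ) ∧ c = lt c') := by
    rcases hδ with rfl | rfl <;> decide +kernel
  have main : (∀ c, (t ^ 2 - t + 1) * G (lt (c + 2 * δ)) (lt c) (lt (c + δ)) 5 = 0) ∧
      ((∀ c, G (lt (c + 2 * δ)) (lt c) (lt (c + δ)) 5 = 0) →
        ∀ z c, G z (lt c) (lt (c + δ)) 5 = 0) := by
    rcases hδ with rfl | rfl
    · exact FA1_core G hAS hJ h22 1 t hT ht ht2 ht3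
        (fun z c => hZ _ _ _ _ (by revert c; decide +kernel))
        (fun z c => hZ _ _ _ _ (by revert c; decide +kernel))
        (fun z c => hZ _ _ _ _ (by revert c; decide +kernel))
        (fun z c => hZ _ _ _ _ (by revert c; decide +kernel))
        (fun z c => hZ _ _ _ _ (by revert c; decide +kernel))
        (fun z c => hZ _ _ _ _ (by revert c; decide +kernel))
        (fun z c => hZ _ _ _ _ (by revert c; decide +kernel))
        (fun z c => hZ _ _ _ _ (by revert c; decide +kernel))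
        (fun z c => hZ _ _ _ _ (by revert c; decide +kernel))
        (fun z c => hZ _ _ _ _ (by revert c; decide +kernel))
        (fun z c => hZ _ _ _ _ (by revert c; decide +kernel))
        (fun z c => hZ _ _ _ _ (by revert c; decide +kernel))
        (by decide +kernel) (by decide +kernel) (by decide +kernel) (by decide +kernel)
    · exact FA1_core G hAS hJ h22 2 t hT ht ht2 ht3
        (fun z c => hZ _ _ _ _ (by revert c; decide +kernel))
        (fun z c => hZ _ _ _ _ (by revert c; decide +kernel))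
        (fun z c => hZ _ _ _ _ (by revert c; decide +kernel))
        (fun z c => hZ _ _ _ _ (by revert c; decide +kernel))
        (fun z c => hZ _ _ _ _ (by revert c; decide +kernel))
        (fun z c => hZ _ _ _ _ (by revert c; decide +kernel))
        (fun z c => hZ _ _ _ _ (by revert c; decide +kernel))
        (fun z c => hZ _ _ _ _ (by revert c; decide +kernel))
        (fun z c => hZ _ _ _ _ (by revert c; decide +kernel))
        (fun z c => hZ _ _ _ _ (by revert c; decide +kernel))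
        (fun z c => hZ _ _ _ _ (by revert c; decide +kernel))
        (fun z c => hZ _ _ _ _ (by revert c; decide +kernel))
        (by decide +kernel) (by decide +kernel) (by decide +kernel) (by decide +kernel)
  refine ⟨main.1, fun hf z a b c => ?_⟩
  rcases key a b c with h | ⟨c', h⟩
  · exact hZ z a b c h
  · have h2 := main.2 hf z c'
    have h1 : G z 5 (lt c') (lt (c' + δ)) = 0 := by
      have := hT z c'
      rwa [h2, mul_zero, add_zero] at this
    exact G_zero_of hAS hJ h1 h2 h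

theorem FA2 (G : Fin 6 → Fin 6 → Fin 6 → Fin 6 → κ)
    (hAS : ∀ z a b c, G z a b c = - G z a c b)
    (hJ : ∀ z a b c, G z a b c + G z b c a + G z c a b = 0)
    (h22 : ∀ z a b c, G z a b c - G a z b c + G b c z a - G c b z a = 0)
    (δ : ZMod 5) (hδ : δ = 1 ∨ δ = 2) (t : κ)
    (hZ : ∀ z a b c, (∀ c', ct [a, b, c] ≠ ct [lt c', lt (c' + δ), lt (c' + 2 * δ)]) →
      G z a b c = 0)
    (hT : ∀ z c, G z (lt (c + 2 * δ)) (lt c) (lt (c + δ)) +
      t * G z (lt c) (lt (c + δ)) (lt (c + 2 * δ)) = 0)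
    (ht : t ≠ -1) (ht1 : t ≠ 1) (ht2 : t ≠ 2) (ht3 : 2 * t ≠ 1) :
    ∀ z a b c, G z a b c = 0 := by
  have key : ∀ a b c : Fin 6,
      (∀ c', ct [a, b, c] ≠ ct [lt c', lt (c' + δ), lt (c' + 2 * δ)]) ∨
      ∃ c', (a = lt c' ∧ b = lt (c' + δ) ∧ c = lt (c' + 2 * δ)) ∨
        (a = lt c' ∧ b = lt (c' + 2 * δ) ∧ c = lt (c' + δ)) ∨
        (a = lt (c' + δ) ∧ b = lt (c' + 2 * δ) ∧ c = lt c') ∨
        (a = lt (c' + δ) ∧ b = lt c' ∧ c = lt (c' + 2 * δ)) ∨
        (a = lt (c' + 2 * δ) ∧ b = lt c' ∧ c = lt (c' + δ)) ∨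
        (a = lt (c' + 2 * δ) ∧ b = lt (c' + δ) ∧ c = lt c') := by
    rcases hδ with rfl | rfl <;> decide +kernel
  have main : ∀ z c, G z (lt c) (lt (c + δ)) (lt (c + 2 * δ)) = 0 := by
    rcases hδ with rfl | rfl
    · exact FA2_core G hAS hJ h22 1 t hT ht ht1 ht2 ht3
        (fun z c => hZ _ _ _ _ (by revert c; decide +kernel))
        (fun z c => hZ _ _ _ _ (by revert c; decide +kernel))
        (fun z c => hZ _ _ _ _ (by revert c; decide +kernel))
        (fun z c => hZ _ _ _ _ (by revert c; decide +kernel))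
        (fun z c => hZ _ _ _ _ (by revert c; decide +kernel))
        (fun z c => hZ _ _ _ _ (by revert c; decide +kernel))
        (fun z c => hZ _ _ _ _ (by revert c; decide +kernel))
        (fun z c => hZ _ _ _ _ (by revert c; decide +kernel))
        (fun z c => hZ _ _ _ _ (by revert c; decide +kernel))
        (fun z c => hZ _ _ _ _ (by revert c; decide +kernel))
        (fun z c => hZ _ _ _ _ (by revert c; decide +kernel))
        (fun z c => hZ _ _ _ _ (by revert c; decide +kernel))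
        (fun z c => hZ _ _ _ _ (by revert c; decide +kernel))
        (by decide +kernel) (by decide +kernel) (by decide +kernel) (by decide +kernel)
        (by decide +kernel) (by decide +kernel)
    · exact FA2_core G hAS hJ h22 2 t hT ht ht1 ht2 ht3
        (fun z c => hZ _ _ _ _ (by revert c; decide +kernel))
        (fun z c => hZ _ _ _ _ (by revert c; decide +kernel))
        (fun z c => hZ _ _ _ _ (by revert c; decide +kernel))
        (fun z c => hZ _ _ _ _ (by revert c; decide +kernel))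
        (fun z c => hZ _ _ _ _ (by revert c; decide +kernel))
        (fun z c => hZ _ _ _ _ (by revert c; decide +kernel))
        (fun z c => hZ _ _ _ _ (by revert c; decide +kernel))
        (fun z c => hZ _ _ _ _ (by revert c; decide +kernel))
        (fun z c => hZ _ _ _ _ (by revert c; decide +kernel))
        (fun z c => hZ _ _ _ _ (by revert c; decide +kernel))
        (fun z c => hZ _ _ _ _ (by revert c; decide +kernel))
        (fun z c => hZ _ _ _ _ (by revert c; decide +kernel))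
        (fun z c => hZ _ _ _ _ (by revert c; decide +kernel))
        (by decide +kernel) (by decide +kernel) (by decide +kernel) (by decide +kernel)
        (by decide +kernel) (by decide +kernel)
  intro z a b c
  rcases key a b c with h | ⟨c', h⟩
  · exact hZ z a b c h
  · have h2 := main z c'
    have h1 : G z (lt (c' + 2 * δ)) (lt c') (lt (c' + δ)) = 0 := by
      have := hT z c'
      rwa [h2, mul_zero, add_zero] at this
    exact G_zero_of hAS hJ h1 h2 h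

end

end Pool.Agent.Lib.MP_424f45_al
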