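import Pool.Agent.Lib.MP_424f45_al.ClsC
import Pool.Agent.Lib.MP_424f45_al.FA
import Pool.Agent.Lib.MP_424f45_al.Exo

/-!
# MP_424f45_al: classification, part D (containment in the exotic ideal)
-/

set_option autoImplicit false

namespace Pool.Agent.Lib.MP_424f45_al

theorem lt_ne_five : ∀ c : ZMod 5, lt c ≠ 5 := by decide

theorem lt_eq_lt : ∀ c c' : ZMod 5, lt c = lt c' ↔ c = c' := by decide

/-- content of the quadruple -/
def cQ (δ c : ZMod 5) : Fin 6 → ZMod 5 := ct [5, lt c, lt (c + δ), lt (c + 2 * δ)]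

theorem cQ_inj : ∀ (δ c c' : ZMod 5), (δ = 1 ∨ δ = 2) → cQ δ c = cQ δ c' → c = c' := by decide

theorem cT_inj : ∀ (b : Bool) (δ c c' : ZMod 5), (δ = 1 ∨ δ = 2) → cT b δ c = cT b δ c' →
    c = c' := by decide

theorem cT_perm : ∀ (δ c : ZMod 5), ct [5, lt c, lt (c + δ)] = cT true δ c ∧
    ct [5, lt (c + δ), lt c] = cT true δ c := by decide

theorem cQ_perm : ∀ (δ c : ZMod 5), ct [5, lt (c + δ), lt c, lt (c + 2 * δ)] = cQ δ c ∧
    ct [5, lt (c + δ), lt (c + 2 * δ), lt c] = cQ δ c ∧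
    ct [5, lt (c + 2 * δ), lt (c + δ), lt c] = cQ δ c ∧
    ct [lt (c + 2 * δ), lt c, lt (c + δ), 5] = cQ δ c := by decide

namespace Sys

variable {O L : Type} [CommRing O] [LieRing L] [LieAlgebra O L] (S : Sys O L)

theorem ψT_Lx (δ : ZMod 5) (t : O) (c : ZMod 5) (χ : Fin 6 → ZMod 5) (u : L) (hu : u ∈ S.Lx χ)
    (h : cT true δ c ≠ χ) : S.ψT δ t c u = 0 := by
  unfold ψT
  rw [LinearMap.add_apply, LinearMap.smul_apply, S.cw_Lx χ u hu _ (by simp) (by rwa [(cT_perm δ c).1]),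
    S.cw_Lx χ u hu _ (by simp) (by rwa [(cT_perm δ c).2])]
  simp

theorem ψQ_Lx (δ : ZMod 5) (t : O) (c : ZMod 5) (χ : Fin 6 → ZMod 5) (u : L) (hu : u ∈ S.Lx χ)
    (h : cQ δ c ≠ χ) : S.ψQ δ t c u = 0 := by
  unfold ψQ
  simp only [LinearMap.sub_apply, LinearMap.smul_apply]
  rw [S.cw_Lx χ u hu [5, lt c, lt (c + δ), lt (c + 2 * δ)] (by simp) h,
    S.cw_Lx χ u hu [5, lt (c + δ), lt c, lt (c + 2 * δ)] (by simp) (by rwa [(cQ_perm δ c).1]),
    S.cw_Lx χ u hu [5, lt (c + δ), lt (c + 2 * δ), lt c] (by simp) (by rwa [(cQ_perm δ c).2.1]),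
    S.cw_Lx χ u hu [5, lt (c + 2 * δ), lt (c + δ), lt c] (by simp) (by rwa [(cQ_perm δ c).2.2.1])]
  simp

theorem ψQ_s (δ : ZMod 5) (t : O) (c : ZMod 5) (u : L) :
    S.ψQ δ t (c + 1) (S.s u) = S.ψQ δ t c u := by
  unfold ψQ
  simp only [LinearMap.sub_apply, LinearMap.smul_apply]
  have h5 : sh 5 = 5 := rfl
  have e1 := S.cw_s u [5, lt c, lt (c + δ), lt (c + 2 * δ)] (by simp)
  have e2 := S.cw_s u [5, lt (c + δ), lt c, lt (c + 2 * δ)] (by simp)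
  have e3 := S.cw_s u [5, lt (c + δ), lt (c + 2 * δ), lt c] (by simp)
  have e4 := S.cw_s u [5, lt (c + 2 * δ), lt (c + δ), lt c] (by simp)
  simp only [List.map_cons, List.map_nil, h5, sh_lt] at e1 e2 e3 e4
  rw [← e1, ← e2, ← e3, ← e4, show c + 1 + δ = c + δ + 1 by ring,
    show c + 1 + 2 * δ = c + 2 * δ + 1 by ring]

theorem ψT_tX (δ : ZMod 5) (hδ : δ ≠ 0) (t : O) (c : ZMod 5) :
    S.ψT δ t c (S.tX true δ c) = -t := by
  have h1 : (c + δ = c) ↔ False := by simpa using hδ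
  have h2 : (c = c + δ) ↔ False := by simpa using hδ
  unfold ψT tX
  simp only [LinearMap.add_apply, LinearMap.smul_apply, kk, if_true, cw_three_ad, cw_two_ad,
    S.cw_e, lt_ne_five, (lt_ne_five _).symm, if_false, lt_eq_lt, h1, h2, sub_zero, zero_sub,
    List.cons.injEq, and_true, smul_eq_mul]
  ring

theorem ψT_tY (δ : ZMod 5) (hδ : δ ≠ 0) (t : O) (c : ZMod 5) :
    S.ψT δ t c (S.tY true δ c) = 1 := by
  have h1 : (c + δ = c) ↔ False := by simpa using hδ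
  have h2 : (c = c + δ) ↔ False := by simpa using hδ
  unfold ψT tY
  simp only [LinearMap.add_apply, LinearMap.smul_apply, kk, if_true, cw_three_ad, cw_two_ad,
    S.cw_e, lt_ne_five, (lt_ne_five _).symm, if_false, lt_eq_lt, h1, h2, sub_zero, zero_sub,
    List.cons.injEq, and_true, smul_eq_mul]
  ring

/-- all the functionals `ψT` kill `X_c + t Y_c` -/
theorem ψT_line (δ : ZMod 5) (hδ : δ = 1 ∨ δ = 2) (t : O) (c c' : ZMod 5) :
    S.ψT δ t c' (S.tX true δ c + t • S.tY true δ c) = 0 := by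
  have hδ0 : δ ≠ 0 := by rcases hδ with h | h <;> rw [h] <;> decide
  by_cases h : c' = c
  · subst h
    rw [map_add, map_smul, S.ψT_tX δ hδ0, S.ψT_tY δ hδ0, smul_eq_mul]
    ring
  · refine S.ψT_Lx δ t c' (cT true δ c) _ ?_ (fun e => h (cT_inj true δ c' c hδ e))
    exact Submodule.add_mem _ (S.tX_mem _ _ _) (Submodule.smul_mem _ _ (S.tY_mem _ _ _))

/-- a coefficient only sees the component of its content -/
theorem cw_P (w : List (Fin 6)) (hw : w.length ≤ 4) (u : L) :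
    S.cw w u = S.cw w (S.P (ct w) u) := by
  conv_lhs => rw [← S.P_sum u]
  rw [map_sum, Finset.sum_eq_single (ct w)]
  · intro χ _ hne
    exact S.cw_Lx χ _ (S.P_mem χ u) w hw (fun h => hne h.symm)
  · intro h
    exact absurd (Finset.mem_univ _) h

theorem ψT_P (δ : ZMod 5) (t : O) (c : ZMod 5) (u : L) :
    S.ψT δ t c u = S.ψT δ t c (S.P (cT true δ c) u) := by
  conv_lhs => rw [← S.P_sum u]
  rw [map_sum, Finset.sum_eq_single (cT true δ c)]
  · intro χ _ hne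
    exact S.ψT_Lx δ t c χ _ (S.P_mem χ u) (fun h => hne h.symm)
  · intro h
    exact absurd (Finset.mem_univ _) h

theorem ψQ_P (δ : ZMod 5) (t : O) (c : ZMod 5) (u : L) :
    S.ψQ δ t c u = S.ψQ δ t c (S.P (cQ δ c) u) := by
  conv_lhs => rw [← S.P_sum u]
  rw [map_sum, Finset.sum_eq_single (cQ δ c)]
  · intro χ _ hne
    exact S.ψQ_Lx δ t c χ _ (S.P_mem χ u) (fun h => hne h.symm)
  · intro h
    exact absurd (Finset.mem_univ _) h

end Sys

section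

variable {O L : Type} [CommRing O] [IsDomain O] [IsDiscreteValuationRing O]
  [LieRing L] [LieAlgebra O L] (S : Sys O L)

theorem dvd_or_unit (ϖ : O) (hϖ : Irreducible ϖ) (a : O) : ϖ ∣ a ∨ IsUnit a := by
  by_cases h : IsUnit a
  · exact Or.inr h
  · left
    rw [← Ideal.mem_span_singleton, ← hϖ.maximalIdeal_eq]
    exact (IsLocalRing.mem_maximalIdeal a).mpr h

theorem mem_max_iff (ϖ : O) (hϖ : Irreducible ϖ) (a : O) :
    a ∈ IsLocalRing.maximalIdeal O ↔ ϖ ∣ a := by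
  rw [hϖ.maximalIdeal_eq, Ideal.mem_span_singleton]

theorem residue_eq_zero (ϖ : O) (hϖ : Irreducible ϖ) (a : O) :
    IsLocalRing.residue O a = 0 ↔ ϖ ∣ a := by
  rw [IsLocalRing.residue_eq_zero_iff, mem_max_iff ϖ hϖ]

/-- a coefficient on a stable submodule not containing a generator of the component -/
theorem Sys.dvd_cw (ϖ : O) (hϖ : Irreducible ϖ) (I : Submodule O L) (hI : S.Stab I)
    (w : List (Fin 6)) (hw : w.length ≤ 4) (v : L) (hv : S.Lx (ct w) = Submodule.span O {v})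
    (hvI : v ∉ I) (u : L) (hu : u ∈ I) : ϖ ∣ S.cw w u := by
  rw [S.cw_P w hw u]
  have h1 : S.P (ct w) u ∈ Submodule.span O {v} := hv ▸ S.P_mem (ct w) u
  obtain ⟨a, ha⟩ := Submodule.mem_span_singleton.mp h1
  have h2 : a • v ∈ I := by
    rw [ha]
    exact S.P_stab I hI.1 _ u hu
  rw [← ha, map_smul, smul_eq_mul]
  rcases dvd_or_unit ϖ hϖ a with h | h
  · exact Dvd.dvd.mul_right h _
  · exfalso
    apply hvI
    obtain ⟨a, rfl⟩ := h
    have := I.smul_mem (↑a⁻¹ : O) h2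
    rwa [smul_smul, Units.inv_mul, one_smul] at this

/-- the functional argument -/
theorem Sys.dvd_ψQ (ϖ : O) (hϖ : Irreducible ϖ) (δ : ZMod 5) (hδ : δ = 1 ∨ δ = 2) (t : O)
    (ht : t ^ 2 - t + 1 = 0) (ht1 : IsLocalRing.residue O t ≠ -1)
    (ht2 : IsLocalRing.residue O t ≠ 2) (ht3 : 2 * IsLocalRing.residue O t ≠ 1)
    (I : Submodule O L) (hI : S.Stab I)
    (hcl : S.Clo I I) (hT : ∀ c, S.tX true δ c + t • S.tY true δ c ∈ I)
    (hZ : ∀ a b c, (∀ c', ct [a, b, c] ≠ cT true δ c') → ⁅S.e a, ⁅S.e b, S.e c⁆⁆ ∈ I)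
    (χ : Fin 6 → ZMod 5) (φ : L →ₗ[O] IsLocalRing.ResidueField O)
    (hφI : ∀ u ∈ I, φ u = 0) (hφ0 : ∃ u ∈ S.V 3, φ u ≠ 0)
    (hφχ : ∀ χ', χ' ≠ χ → ∀ u ∈ S.Lx χ', φ u = 0) (c : ZMod 5) (u : L) (hu : u ∈ I) :
    ϖ ∣ S.ψQ δ t c u := by
  have hres : ∀ (a : O) (x : IsLocalRing.ResidueField O), a • x = IsLocalRing.residue O a * x :=
    fun a x => by rw [Algebra.smul_def]; rfl
  -- conditions for functionals
  have cond : ∀ Φ : L →ₗ[O] IsLocalRing.ResidueField O,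
      (∀ z a b c, (∀ c', ct [a, b, c] ≠ cT true δ c') → S.G4 Φ z a b c = 0) →
      (∀ z c, Φ ⁅S.e z, S.tX true δ c + t • S.tY true δ c⁆ = 0) →
      (∀ c, S.G4 Φ (lt (c + 2 * δ)) (lt c) (lt (c + δ)) 5 = 0) → ∀ z a b c, S.G4 Φ z a b c = 0 := by
    intro Φ h1 h2 h3
    refine (FA1 (S.G4 Φ) (S.G4_AS Φ) (S.G4_J Φ) (S.G4_22 Φ) δ hδ (IsLocalRing.residue O t) h1 ?_
      ht1 ht2 ht3).2 h3
    intro z c
    have := h2 z c
    rw [lie_add, map_add, lie_smul, map_smul, hres] at this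
    exact this
  have hφZ : ∀ z a b c, (∀ c', ct [a, b, c] ≠ cT true δ c') → S.G4 φ z a b c = 0 :=
    fun z a b c h => hφI _ (hcl z _ (hZ a b c h))
  have hφT : ∀ z c, φ ⁅S.e z, S.tX true δ c + t • S.tY true δ c⁆ = 0 :=
    fun z c => hφI _ (hcl z _ (hT c))
  -- a nonzero special value
  have hne : ∃ c₁, S.G4 φ (lt (c₁ + 2 * δ)) (lt c₁) (lt (c₁ + δ)) 5 ≠ 0 := by
    by_contra hcon
    push Not at hcon
    have h0 := cond φ hφZ hφT hcon
    obtain ⟨u, hu, hne⟩ := hφ0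
    exact hne (S.zero_of_G4 φ h0 u hu)
  obtain ⟨c₁, hc₁⟩ := hne
  have hmemQ : ∀ c, ⁅S.e (lt (c + 2 * δ)), ⁅S.e (lt c), ⁅S.e (lt (c + δ)), S.e 5⁆⁆⁆ ∈
      S.Lx (cQ δ c) := by
    intro c
    have := S.br4_mem (lt (c + 2 * δ)) (lt c) (lt (c + δ)) 5
    rwa [(cQ_perm δ c).2.2.2] at this
  have hχ : χ = cQ δ c₁ := by
    by_contra hcon
    exact hc₁ (hφχ (cQ δ c₁) (fun h => hcon h.symm) _ (hmemQ c₁))
  set g := S.G4 φ (lt (c₁ + 2 * δ)) (lt c₁) (lt (c₁ + δ)) 5 with hg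
  -- the explicit functional modulo ϖ
  let ρ : O →ₗ[O] IsLocalRing.ResidueField O := Algebra.linearMap O _
  have hρ : ∀ a, ρ a = IsLocalRing.residue O a := fun a => rfl
  let Ψ : L →ₗ[O] IsLocalRing.ResidueField O := ρ ∘ₗ (S.ψQ δ t c₁)
  have hΨ : ∀ u, Ψ u = IsLocalRing.residue O (S.ψQ δ t c₁ u) := fun u => rfl
  -- multiply by `g`
  let mg : IsLocalRing.ResidueField O →ₗ[O] IsLocalRing.ResidueField O :=
    LinearMap.restrictScalars O
      (LinearMap.mulLeft (IsLocalRing.ResidueField O) g)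
  have hmg : ∀ x, mg x = g * x := fun x => rfl
  let Φ : L →ₗ[O] IsLocalRing.ResidueField O := φ - mg ∘ₗ Ψ
  have hΦ : ∀ u, Φ u = φ u - g * IsLocalRing.residue O (S.ψQ δ t c₁ u) := fun u => rfl
  have hΨad : ∀ z u, (∀ c', S.ψT δ t c' u = 0) → S.ψQ δ t c₁ ⁅S.e z, u⁆ = 0 := by
    intro z u h
    rw [S.ψQ_ad δ hδ t ht c₁ z u, h, h]
    simp
  have hΦ0 : ∀ z a b c, S.G4 Φ z a b c = 0 := by
    apply cond Φ
    · intro z a b c h
      show Φ _ = 0
      rw [hΦ]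
      have h1 : φ ⁅S.e z, ⁅S.e a, ⁅S.e b, S.e c⁆⁆⁆ = 0 := hφZ z a b c h
      rw [h1, hΨad z _ ?_]
      · simp
      · intro c'
        exact S.ψT_Lx δ t c' _ _ (S.br3_mem a b c) (fun e => h c' e.symm)
    · intro z c
      rw [hΦ, hφT, hΨad z _ ?_]
      · simp
      · intro c'
        exact S.ψT_line δ hδ t c c'
    · intro c
      show Φ _ = 0
      rw [hΦ]
      by_cases hcc : c = c₁
      · subst hcc
        have h1 : φ ⁅S.e (lt (c + 2 * δ)), ⁅S.e (lt c), ⁅S.e (lt (c + δ)), S.e 5⁆⁆⁆ = g := hg.symm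
        rw [h1, S.ψQ_ad δ hδ t ht c]
        have hδ0 : δ ≠ 0 := by rcases hδ with h | h <;> rw [h] <;> decide
        have h2 : S.ψT δ t c ⁅S.e (lt c), ⁅S.e (lt (c + δ)), S.e 5⁆⁆ = 1 := S.ψT_tY δ hδ0 t c
        have h3 : ¬ (lt (c + 2 * δ) = lt c) := by
          rw [lt_eq_lt]
          rcases hδ with h | h <;> rw [h] <;> intro hh <;>
            exact absurd (add_eq_left.mp hh) (by decide)
        rw [if_pos rfl, if_neg h3, h2]
        simp
      · have h1 : φ ⁅S.e (lt (c + 2 * δ)), ⁅S.e (lt c), ⁅S.e (lt (c + δ)), S.e 5⁆⁆⁆ = 0 := by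
          refine hφχ (cQ δ c) ?_ _ (hmemQ c)
          rw [hχ]
          exact fun h => hcc (cQ_inj δ c c₁ hδ h)
        rw [h1, S.ψQ_Lx δ t c₁ (cQ δ c) _ (hmemQ c)
          (fun h => hcc (cQ_inj δ c₁ c hδ h).symm)]
        simp
  have hV : ∀ u ∈ S.V 3, Φ u = 0 := S.zero_of_G4 Φ hΦ0
  -- the statement for c₁
  have key : ∀ u ∈ I, ϖ ∣ S.ψQ δ t c₁ u := by
    intro u hu
    rw [S.ψQ_P]
    have h1 : S.P (cQ δ c₁) u ∈ I := S.P_stab I hI.1 _ u hu
    have h2 : S.P (cQ δ c₁) u ∈ S.V 3 := S.Lx_le_V _ 3 (by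
      have : ∀ δ c : ZMod 5, (δ = 1 ∨ δ = 2) → dg (cQ δ c) = 3 + 1 := by decide
      exact this δ c₁ hδ) (S.P_mem _ u)
    have h3 := hV _ h2
    rw [hΦ, hφI _ h1, zero_sub, neg_eq_zero, mul_eq_zero] at h3
    rcases h3 with h3 | h3
    · exact absurd h3 hc₁
    · exact (residue_eq_zero ϖ hϖ _).mp h3
  have : ∀ c, ∀ u ∈ I, ϖ ∣ S.ψQ δ t (-c) u := by
    refine zmod_induct (p := fun c => ∀ u ∈ I, ϖ ∣ S.ψQ δ t (-c) u) ?_ (-c₁) (by simpa using key)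
    intro c hc u hu
    have h1 := hc _ (hI.2 u hu)
    have h2 := S.ψQ_s δ t (-(c + 1)) u
    rw [show -(c + 1) + 1 = -c by ring] at h2
    rwa [h2] at h1
  have h := this (-c) u hu
  rwa [neg_neg] at h

end

end Pool.Agent.Lib.MP_424f45_al
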