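import Pool.Agent.Lib.MP_424f45_al.ClsD
import Pool.Agent.Lib.MP_424f45_al.Nrt

/-!
# MP_424f45_al: classification, part E
-/

set_option autoImplicit false
set_option linter.unusedSectionVars false

namespace Pool.Agent.Lib.MP_424f45_al

theorem normal_form : ∀ x y z : Fin 6, x ≠ y → y ≠ z → x ≠ z →
    ∃ (b : Bool) (δ c : ZMod 5), (δ = 1 ∨ δ = 2) ∧
      ([x, y, z] = [lt c, lt (c + δ), kk b δ c] ∨ [y, x, z] = [lt c, lt (c + δ), kk b δ c] ∨
       [y, z, x] = [lt c, lt (c + δ), kk b δ c] ∨ [z, y, x] = [lt c, lt (c + δ), kk b δ c] ∨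
       [z, x, y] = [lt c, lt (c + δ), kk b δ c] ∨ [x, z, y] = [lt c, lt (c + δ), kk b δ c]) := by
  decide +kernel

theorem ct3_swap (x y z : Fin 6) : ct [y, x, z] = ct [x, y, z] := by
  funext w
  unfold ct
  rw [List.Perm.count_eq (List.Perm.swap x y [z])]

theorem ct3_rot (x y z : Fin 6) : ct [y, z, x] = ct [x, y, z] := by
  funext w
  unfold ct
  rw [List.Perm.count_eq (show ([y, z, x] : List (Fin 6)).Perm [x, y, z] from
    List.perm_append_comm (l₁ := [y, z]) (l₂ := [x]))]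

/-- a symmetric predicate on triples of distinct letters -/
theorem normal_of {p : Fin 6 → Fin 6 → Fin 6 → Prop} (hswap : ∀ x y z, p x y z → p y x z)
    (hrot : ∀ x y z, p x y z → p y z x) (x y z : Fin 6) (hxy : x ≠ y) (hyz : y ≠ z) (hxz : x ≠ z)
    (h : p x y z) : ∃ (b : Bool) (δ c : ZMod 5), (δ = 1 ∨ δ = 2) ∧
      p (lt c) (lt (c + δ)) (kk b δ c) := by
  obtain ⟨b, δ, c, hδ, hc⟩ := normal_form x y z hxy hyz hxz
  refine ⟨b, δ, c, hδ, ?_⟩
  simp only [List.cons.injEq, and_true] at hc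
  rcases hc with ⟨h1, h2, h3⟩ | ⟨h1, h2, h3⟩ | ⟨h1, h2, h3⟩ | ⟨h1, h2, h3⟩ | ⟨h1, h2, h3⟩ |
      ⟨h1, h2, h3⟩ <;> rw [← h1, ← h2, ← h3]
  · exact h
  · exact hswap _ _ _ h
  · exact hrot _ _ _ h
  · exact hswap _ _ _ (hrot _ _ _ h)
  · exact hrot _ _ _ (hrot _ _ _ h)
  · exact hrot _ _ _ (hswap _ _ _ h)

section

variable {O L O' L' : Type} [CommRing O] [IsDomain O] [IsDiscreteValuationRing O]
  [CommRing O'] [IsDomain O'] [IsDiscreteValuationRing O'] [Algebra O O']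
  [LieRing L] [LieAlgebra O L] [LieRing L'] [LieAlgebra O' L']
  {S : Sys O L} {S' : Sys O' L'} (E : Ext S S')

include E in
theorem Ext.dvd_coord (ϖ x y : O)
    (h : algebraMap O O' ϖ ∣ algebraMap O O' x + E.ω * algebraMap O O' y) : ϖ ∣ x ∧ ϖ ∣ y := by
  obtain ⟨a, ha⟩ := h
  obtain ⟨p, q, rfl⟩ := E.basis a
  have h0 : algebraMap O O' (x - ϖ * p) + E.ω * algebraMap O O' (y - ϖ * q) = 0 := by
    simp only [map_sub, map_mul]
    linear_combination ha
  obtain ⟨h1, h2⟩ := E.indep _ _ h0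
  exact ⟨⟨p, by linear_combination h1⟩, ⟨q, by linear_combination h2⟩⟩

theorem Ext.j_tX (b : Bool) (δ c : ZMod 5) : E.j (S.tX b δ c) = S'.tX b δ c := by
  unfold Sys.tX
  rw [E.j_br, E.j_br, E.j_e, E.j_e, E.j_e]

theorem Ext.j_tY (b : Bool) (δ c : ZMod 5) : E.j (S.tY b δ c) = S'.tY b δ c := by
  unfold Sys.tY
  rw [E.j_br, E.j_br, E.j_e, E.j_e, E.j_e]

/-- a multiple of an element outside a submodule -/
theorem dvd_of_smul_mem (ϖ : O') (hϖ : Irreducible ϖ) (I : Submodule O' L') (v : L') (hv : v ∉ I)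
    (a : O') (h : a • v ∈ I) : ϖ ∣ a := by
  rcases dvd_or_unit ϖ hϖ a with h1 | h1
  · exact h1
  · exfalso
    apply hv
    obtain ⟨a, rfl⟩ := h1
    have := I.smul_mem (↑a⁻¹ : O') h
    rwa [smul_smul, Units.inv_mul, one_smul] at this

/-- the parameter of a nonrational component is not rational -/
theorem not_rational (ϖ : O) (hϖ' : Irreducible (algebraMap O O' ϖ)) (I : Submodule O' L')
    (b : Bool) (δ c : ZMod 5) (t : O') (hT : S'.tX b δ c + t • S'.tY b δ c ∈ I)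
    (hY : S'.tY b δ c ∉ I) (hϖY : algebraMap O O' ϖ • S'.tY b δ c ∈ I)
    (hr : ¬ E.Rat (I ⊓ S'.V 2 ⊓ S'.Lx (cT b δ c))) (r : O) :
    ¬ algebraMap O O' ϖ ∣ t - algebraMap O O' r := by
  rintro ⟨a, ha⟩
  apply hr
  have hTr : S'.tX b δ c + algebraMap O O' r • S'.tY b δ c ∈ I := by
    have h1 := I.sub_mem hT (I.smul_mem a hϖY)
    have h2 : algebraMap O O' r = t - a * algebraMap O O' ϖ := by linear_combination -ha
    rw [h2, sub_smul, ← smul_smul, ← add_sub_assoc]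
    exact h1
  have hXV : S'.tX b δ c ∈ S'.V 2 := Submodule.subset_span ⟨_, [_, _], rfl, rfl⟩
  have hYV : S'.tY b δ c ∈ S'.V 2 := Submodule.subset_span ⟨_, [_, _], rfl, rfl⟩
  intro x y hxy
  obtain ⟨⟨hI1, -⟩, hL1⟩ := hxy
  have hL2 : E.j x + E.ω • E.j y ∈ Submodule.span O' {S'.tX b δ c, S'.tY b δ c} := by
    rw [← S'.Lx_cT]; exact hL1
  obtain ⟨α, β, hαβ⟩ := Submodule.mem_span_pair.mp hL2
  obtain ⟨a1, a2, hα⟩ := E.basis α
  obtain ⟨b1, b2, hβ⟩ := E.basis β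
  have h1 : (β - α * algebraMap O O' r) • S'.tY b δ c ∈ I := by
    have h2 := I.sub_mem hI1 (I.smul_mem α hTr)
    rw [← hαβ] at h2
    have h3 : α • S'.tX b δ c + β • S'.tY b δ c -
        α • (S'.tX b δ c + algebraMap O O' r • S'.tY b δ c) =
        (β - α * algebraMap O O' r) • S'.tY b δ c := by
      rw [smul_add, smul_smul, sub_smul]; abel
    rwa [h3] at h2
  have h2 := dvd_of_smul_mem _ hϖ' I _ hY _ h1
  have h3 : β - α * algebraMap O O' r =
      algebraMap O O' (b1 - a1 * r) + E.ω * algebraMap O O' (b2 - a2 * r) := by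
    rw [hα, hβ]
    simp only [map_sub, map_mul]
    ring
  rw [h3] at h2
  obtain ⟨⟨m, hm⟩, -⟩ := E.dvd_coord ϖ _ _ h2
  have hx : x = a1 • S.tX b δ c + b1 • S.tY b δ c := by
    have h4 : E.j (x - (a1 • S.tX b δ c + b1 • S.tY b δ c)) +
        E.ω • E.j (y - (a2 • S.tX b δ c + b2 • S.tY b δ c)) = 0 := by
      simp only [map_sub, map_add, E.j_smul, E.j_tX, E.j_tY]
      have h5 : E.j x + E.ω • E.j y - (α • S'.tX b δ c + β • S'.tY b δ c) = 0 := by
        rw [hαβ, sub_self]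
      rw [← h5, hα, hβ]
      simp only [smul_sub, smul_add, smul_smul, add_smul]
      abel
    exact sub_eq_zero.mp (E.inj _ _ h4).1
  have hjx : E.j x = algebraMap O O' a1 • S'.tX b δ c + algebraMap O O' b1 • S'.tY b δ c := by
    rw [hx, map_add, E.j_smul, E.j_smul, E.j_tX, E.j_tY]
  rw [hjx]
  refine ⟨⟨?_, ?_⟩, ?_⟩
  · have h6 : algebraMap O O' a1 • S'.tX b δ c + algebraMap O O' b1 • S'.tY b δ c =
        algebraMap O O' a1 • (S'.tX b δ c + algebraMap O O' r • S'.tY b δ c) +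
        algebraMap O O' m • (algebraMap O O' ϖ • S'.tY b δ c) := by
      have h7 : algebraMap O O' b1 = algebraMap O O' a1 * algebraMap O O' r +
          algebraMap O O' m * algebraMap O O' ϖ := by
        have := congrArg (algebraMap O O') hm
        simp only [map_sub, map_mul] at this
        linear_combination this
      rw [h7, smul_add, smul_smul, smul_smul, add_smul]
      abel
    rw [h6]
    exact I.add_mem (I.smul_mem _ hTr) (I.smul_mem _ hϖY)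
  · exact Submodule.add_mem _ (Submodule.smul_mem _ _ hXV) (Submodule.smul_mem _ _ hYV)
  · exact Submodule.add_mem _ (Submodule.smul_mem _ _ (S'.tX_mem _ _ _))
      (Submodule.smul_mem _ _ (S'.tY_mem _ _ _))

end

section

variable {O L : Type} [CommRing O] [IsDomain O] [IsDiscreteValuationRing O]
  [LieRing L] [LieAlgebra O L] (S : Sys O L)

theorem Sys.notin_all (I : Submodule O L) (hI : ∀ u ∈ I, S.s u ∈ I) (v : ZMod 5 → L)
    (hv : ∀ c, S.s (v c) = v (c + 1)) (c₀ : ZMod 5) (h : v c₀ ∉ I) (c : ZMod 5) : v c ∉ I := by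
  intro hc
  apply h
  refine zmod_induct (p := fun c => v c ∈ I) ?_ c hc c₀
  intro c hc
  have := hI _ hc
  rwa [hv] at this

theorem Sys.dvd_ψT (ϖ : O) (hϖ : Irreducible ϖ) (δ : ZMod 5) (hδ : δ = 1 ∨ δ = 2) (t : O)
    (I : Submodule O L) (hI : S.Stab I) (c : ZMod 5) (hT : S.tX true δ c + t • S.tY true δ c ∈ I)
    (hY : S.tY true δ c ∉ I) (u : L) (hu : u ∈ I) : ϖ ∣ S.ψT δ t c u := by
  have hδ0 : δ ≠ 0 := by rcases hδ with h | h <;> rw [h] <;> decide
  rw [S.ψT_P]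
  have h1 : S.P (cT true δ c) u ∈ I := S.P_stab I hI.1 _ u hu
  have h2 : S.P (cT true δ c) u ∈ Submodule.span O {S.tX true δ c, S.tY true δ c} := by
    rw [← S.Lx_cT]; exact S.P_mem _ u
  obtain ⟨α, β, hαβ⟩ := Submodule.mem_span_pair.mp h2
  rw [← hαβ] at h1 ⊢
  have h3 : (β - α * t) • S.tY true δ c ∈ I := by
    have h4 := I.sub_mem h1 (I.smul_mem α hT)
    have h5 : α • S.tX true δ c + β • S.tY true δ c -
        α • (S.tX true δ c + t • S.tY true δ c) = (β - α * t) • S.tY true δ c := by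
      rw [smul_add, smul_smul, sub_smul]; abel
    rwa [h5] at h4
  have h4 := dvd_of_smul_mem ϖ hϖ I _ hY _ h3
  rw [map_add, map_smul, map_smul, S.ψT_tX δ hδ0, S.ψT_tY δ hδ0, smul_eq_mul, smul_eq_mul]
  have h5 : α * -t + β * 1 = β - α * t := by ring
  rw [h5]
  exact h4

end

section

variable {O L O' L' : Type} [CommRing O] [IsDomain O] [IsDiscreteValuationRing O]
  [CommRing O'] [IsDomain O'] [IsDiscreteValuationRing O'] [Algebra O O']
  [LieRing L] [LieAlgebra O L] [LieRing L'] [LieAlgebra O' L']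
  {S : Sys O L} {S' : Sys O' L'} (E : Ext S S')

theorem classify [Finite (IsLocalRing.ResidueField O')] (ϖ : O) (hϖ : Irreducible ϖ)
    (hϖ' : Irreducible (algebraMap O O' ϖ)) (h2 : IsUnit (2 : O))
    (I : Submodule O' L') (hI : I ∈ S'.FixI 26) (hr : ¬ E.Rat (I ⊓ S'.V 2)) (h4 : ¬ S'.V 3 ≤ I) :
    ∃ δ t, (δ = 1 ∨ δ = 2) ∧ (t = -E.ω ∨ t = 1 + E.ω) ∧ I = S'.Exo (algebraMap O O' ϖ) δ t := by
  obtain ⟨f, hf, hsum, hfs⟩ := S'.exists_f I hI
  obtain ⟨hst, hcl, hcard⟩ := id hI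
  have hq : 1 < Nat.card (IsLocalRing.ResidueField O') := Finite.one_lt_card
  have hfin : ∀ χ, Finite (S'.Lx χ ⧸ (I ⊓ S'.Lx χ).submoduleOf (S'.Lx χ)) := by
    intro χ
    apply Nat.finite_of_card_ne_zero
    have := hf χ
    unfold ix at this
    rw [this]
    exact pow_ne_zero _ (by omega)
  have hle_of_f : ∀ χ, f χ = 0 → S'.Lx χ ≤ I := by
    intro χ h
    apply le_of_ix_one
    rw [hf, h, pow_zero]
  have hpos : ∀ χ u, u ∈ S'.Lx χ → u ∉ I → 1 ≤ f χ := by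
    intro χ u hu huI
    by_contra hcon
    exact huI (hle_of_f χ (by omega) hu)
  -- the nonrational triple
  have hst2 : S'.Stab (I ⊓ S'.V 2) :=
    ⟨fun x u hu => ⟨hst.1 x u hu.1, S'.V_tau 2 x u hu.2⟩,
      fun u hu => ⟨hst.2 u hu.1, S'.V_s 2 u hu.2⟩⟩
  obtain ⟨x, y, z, hxy, hyz, hxz, hnr, hb1, hb2, hb3⟩ :=
    nonrat_triple E ϖ hϖ hϖ' (I ⊓ S'.V 2) hst2 inf_le_right hr
  have hV : ∀ a b c, ⁅S'.e a, ⁅S'.e b, S'.e c⁆⁆ ∈ S'.V 2 :=
    fun a b c => Submodule.subset_span ⟨c, [a, b], rfl, rfl⟩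
  have hskew : ∀ a b c, ⁅S'.e a, ⁅S'.e b, S'.e c⁆⁆ ∈ I → ⁅S'.e a, ⁅S'.e c, S'.e b⁆⁆ ∈ I := by
    intro a b c h
    rw [← lie_skew (S'.e c), lie_neg]
    exact I.neg_mem h
  obtain ⟨b, δ, c₀, hδ, hnr', hX, hY, hW⟩ := normal_of
    (p := fun x y z => ¬ E.Rat (I ⊓ S'.V 2 ⊓ S'.Lx (ct [x, y, z])) ∧
      ⁅S'.e z, ⁅S'.e x, S'.e y⁆⁆ ∉ I ∧ ⁅S'.e x, ⁅S'.e y, S'.e z⁆⁆ ∉ I ∧
      ⁅S'.e y, ⁅S'.e z, S'.e x⁆⁆ ∉ I)
    (by
      rintro x y z ⟨h1, h2, h3, h4⟩
      refine ⟨by rwa [ct3_swap], fun h => h2 (hskew _ _ _ h), fun h => h4 (hskew _ _ _ h),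
        fun h => h3 (hskew _ _ _ h)⟩)
    (by
      rintro x y z ⟨h1, h2, h3, h4⟩
      exact ⟨by rwa [ct3_rot], h3, h4, h2⟩)
    x y z hxy hyz hxz
    ⟨hnr, fun h => hb1 ⟨h, hV _ _ _⟩, fun h => hb2 ⟨h, hV _ _ _⟩, fun h => hb3 ⟨h, hV _ _ _⟩⟩
  have hδ0 : δ ≠ 0 := by rcases hδ with h | h <;> rw [h] <;> decide
  -- generators and brackets not in `I`
  have hij : ⁅S'.e (lt c₀), S'.e (lt (c₀ + δ))⁆ ∉ I := fun h => hX (hcl _ _ h)
  have hik : ⁅S'.e (lt c₀), S'.e (kk b δ c₀)⁆ ∉ I := by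
    intro h
    apply hW
    rw [← lie_skew (S'.e (kk b δ c₀)), lie_neg]
    exact I.neg_mem (hcl _ _ h)
  have hi : S'.e (lt c₀) ∉ I := by
    intro h
    apply hij
    rw [← lie_skew]
    exact I.neg_mem (hcl _ _ h)
  have hk : S'.e (kk b δ c₀) ∉ I := fun h => hik (hcl _ _ h)
  -- the functional
  obtain ⟨χ, φ, hχ4, hχs, hχI, hφI, hφ0, hφχ⟩ := S'.exists_phi I hst h4 hfin
  have hfχ : 1 ≤ f χ := by
    by_contra hcon
    exact hχI (hle_of_f χ (by omega))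
  obtain ⟨hfT, hfz⟩ := combin f hsum hfs b δ c₀ hδ χ hχ4 hχs
    (hpos _ _ (S'.e_mem _) hi) (hpos _ _ (S'.br2_mem _ _) hij) (hpos _ _ (S'.br2_mem _ _) hik)
    (hpos _ _ (S'.tX_mem b δ c₀) hX) hfχ
  have hZ : ∀ a b' c, (∀ c', ct [a, b', c] ≠ cT b δ c') → ⁅S'.e a, ⁅S'.e b', S'.e c⁆⁆ ∈ I := by
    intro a b' c h
    have hmem := S'.br3_mem a b' c
    by_cases hs : shc (ct [a, b', c]) = ct [a, b', c]
    · have := S'.Lx_fixed (ct [a, b', c]) hs (by
        intro h5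
        have h6 := dg_ct3 a b' c
        rw [h5, dg_ct1] at h6
        omega)
      rw [this] at hmem
      rw [(Submodule.mem_bot O').mp hmem]
      exact I.zero_mem
    · exact hle_of_f _ (hfz _ (dg_ct3 a b' c) hs (fun c' e => h c' e.symm)) hmem
  -- the parameter
  obtain ⟨t, ht, hm⟩ := S'.T_struct I b δ c₀ (by rw [hf, hfT, pow_one]) hY
  have hϖm : algebraMap O O' ϖ ∈ IsLocalRing.maximalIdeal O' :=
    (mem_max_iff _ hϖ' _).mpr dvd_rfl
  have hϖY := hm _ hϖm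
  have hnt : ∀ r : O, ¬ algebraMap O O' ϖ ∣ t - algebraMap O O' r :=
    not_rational E ϖ hϖ' I b δ c₀ t ht hY hϖY hnr'
  have hTall := S'.T_all I hst.2 b δ c₀ t ht
  have hYall : ∀ c, S'.tY b δ c ∉ I := S'.notin_all I hst.2 _ (S'.s_tY b δ) c₀ hY
  have hϖYall : ∀ c, algebraMap O O' ϖ • S'.tY b δ c ∈ I := by
    refine zmod_induct (p := fun c => algebraMap O O' ϖ • S'.tY b δ c ∈ I) ?_ c₀ hϖY
    intro c hc
    have := hst.2 _ hc
    rwa [map_smul, S'.s_tY] at this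
  have hres : ∀ a : O', IsLocalRing.residue O' a = 0 ↔ algebraMap O O' ϖ ∣ a :=
    residue_eq_zero _ hϖ'
  have ht1 : IsLocalRing.residue O' t ≠ -1 := by
    intro h
    apply hnt (-1)
    rw [← hres, map_sub, h]
    simp
  have ht1' : IsLocalRing.residue O' t ≠ 1 := by
    intro h
    apply hnt 1
    rw [← hres, map_sub, h]
    simp
  have ht2 : IsLocalRing.residue O' t ≠ 2 := by
    intro h
    apply hnt 2
    rw [← hres, map_sub, h, map_ofNat, map_ofNat, sub_self]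
  have ht3 : 2 * IsLocalRing.residue O' t ≠ 1 := by
    intro h
    obtain ⟨v, hv⟩ := h2
    apply hnt (↑v⁻¹ : O)
    rw [← hres, map_sub]
    have h5 : (2 : O) * (↑v⁻¹ : O) = 1 := by rw [← hv, Units.mul_inv]
    have h6 : (2 : IsLocalRing.ResidueField O') *
        IsLocalRing.residue O' (algebraMap O O' (↑v⁻¹ : O)) = 1 := by
      have h10 := congrArg (fun a => IsLocalRing.residue O' (algebraMap O O' a)) h5
      simp only [map_mul, map_one] at h10
      rwa [show algebraMap O O' 2 = 2 from map_ofNat _ 2,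
        show IsLocalRing.residue O' 2 = 2 from map_ofNat _ 2] at h10
    have h7 : IsUnit (2 : IsLocalRing.ResidueField O') := IsUnit.of_mul_eq_one _ h
    have h8 : (2 : IsLocalRing.ResidueField O') * (IsLocalRing.residue O' t -
        IsLocalRing.residue O' (algebraMap O O' (↑v⁻¹ : O))) = 0 := by
      rw [mul_sub, h, h6, sub_self]
    exact (h7.mul_right_eq_zero).mp h8
  have hsm : ∀ (a : O') (x : IsLocalRing.ResidueField O'), a • x = IsLocalRing.residue O' a * x :=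
    fun a x => by rw [Algebra.smul_def]; rfl
  have hφT : ∀ z c, S'.G4 φ z (kk b δ c) (lt c) (lt (c + δ)) +
      IsLocalRing.residue O' t * S'.G4 φ z (lt c) (lt (c + δ)) (kk b δ c) = 0 := by
    intro z c
    have := hφI _ (hcl z _ (hTall c))
    rw [lie_add, map_add, lie_smul, map_smul, hsm] at this
    exact this
  have hφZ : ∀ z a b' c, (∀ c', ct [a, b', c] ≠ cT b δ c') → S'.G4 φ z a b' c = 0 :=
    fun z a b' c h => hφI _ (hcl z _ (hZ a b' c h))
  cases b with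
  | false =>
    exfalso
    have h0 := FA2 (S'.G4 φ) (S'.G4_AS φ) (S'.G4_J φ) (S'.G4_22 φ) δ hδ
      (IsLocalRing.residue O' t) hφZ hφT ht1 ht1' ht2 ht3
    obtain ⟨u, hu, hne⟩ := hφ0
    exact hne (S'.zero_of_G4 φ h0 u hu)
  | true =>
    have hFA := FA1 (S'.G4 φ) (S'.G4_AS φ) (S'.G4_J φ) (S'.G4_22 φ) δ hδ
      (IsLocalRing.residue O' t) hφZ hφT ht1 ht2 ht3
    have hne : ∃ c₁, S'.G4 φ (lt (c₁ + 2 * δ)) (lt c₁) (lt (c₁ + δ)) 5 ≠ 0 := by
      by_contra hcon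
      push Not at hcon
      obtain ⟨u, hu, hne⟩ := hφ0
      exact hne (S'.zero_of_G4 φ (hFA.2 hcon) u hu)
    obtain ⟨c₁, hc₁⟩ := hne
    have hpoly : (IsLocalRing.residue O' t) ^ 2 - IsLocalRing.residue O' t + 1 = 0 := by
      rcases mul_eq_zero.mp (hFA.1 c₁) with h | h
      · exact h
      · exact absurd h hc₁
    have hdvd : algebraMap O O' ϖ ∣ (t - -E.ω) * (t - (1 + E.ω)) := by
      have h9 : (t - -E.ω) * (t - (1 + E.ω)) = t ^ 2 - t + 1 := by
        linear_combination -E.hω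
      rw [h9, ← hres, map_add, map_sub, map_pow, map_one]
      exact hpoly
    obtain ⟨t₀, ht₀, htt⟩ : ∃ t₀, (t₀ = -E.ω ∨ t₀ = 1 + E.ω) ∧ algebraMap O O' ϖ ∣ t - t₀ := by
      rcases hϖ'.prime.dvd_or_dvd hdvd with h | h
      · exact ⟨_, Or.inl rfl, h⟩
      · exact ⟨_, Or.inr rfl, h⟩
    have hrest : IsLocalRing.residue O' t₀ = IsLocalRing.residue O' t := by
      have := (hres _).mpr htt
      rw [map_sub, sub_eq_zero] at this
      exact this.symm
    have ht₀p : t₀ ^ 2 - t₀ + 1 = 0 := by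
      rcases ht₀ with h | h <;> rw [h] <;> linear_combination E.hω
    have hT₀ : ∀ c, S'.tX true δ c + t₀ • S'.tY true δ c ∈ I := by
      intro c
      obtain ⟨a, ha⟩ := htt
      have h1 := I.sub_mem (hTall c) (I.smul_mem a (hϖYall c))
      have h2 : t₀ = t - a * algebraMap O O' ϖ := by linear_combination -ha
      rw [h2, sub_smul, ← smul_smul, ← add_sub_assoc]
      exact h1
    have hE := S'.Exo_mem (algebraMap O O' ϖ) hϖ' δ hδ t₀ ht₀p
    refine ⟨δ, t₀, hδ, ht₀, ?_⟩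
    apply eq_of_le_of_card
    · intro u hu
      refine ⟨?_, ?_⟩
      · intro x
        refine S'.dvd_cw _ hϖ' I hst [x] (by simp) (S'.e x) (S'.Lx_one x) ?_ u hu
        by_cases hx : x = 5
        · rw [hx]; exact hk
        · obtain ⟨c, rfl⟩ : ∃ c : ZMod 5, x = lt c := by
            revert x; decide
          exact S'.notin_all I hst.2 (fun c => S'.e (lt c))
            (fun c => by rw [S'.s_e, sh_lt]) c₀ hi c
      · intro c
        refine ⟨?_, ?_, ?_, ?_⟩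
        · refine S'.dvd_cw _ hϖ' I hst _ (by simp) _ (S'.Lx_two _ _) ?_ u hu
          exact S'.notin_all I hst.2 (fun c => ⁅S'.e (lt c), S'.e (lt (c + δ))⁆)
            (fun c => by rw [LieHom.map_lie, S'.s_e, S'.s_e, sh_lt, sh_lt,
              show c + δ + 1 = c + 1 + δ by ring]) c₀ hij c
        · refine S'.dvd_cw _ hϖ' I hst _ (by simp) _ (S'.Lx_two _ _) ?_ u hu
          exact S'.notin_all I hst.2 (fun c => ⁅S'.e (lt c), S'.e 5⁆)
            (fun c => by rw [LieHom.map_lie, S'.s_e, S'.s_e, sh_lt]; rfl) c₀ hik c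
        · exact S'.dvd_ψT _ hϖ' δ hδ t₀ I hst c (hT₀ c) (hYall c) u hu
        · exact S'.dvd_ψQ _ hϖ' δ hδ t₀ ht₀p (by rw [hrest]; exact ht1) (by rw [hrest]; exact ht2)
            (by rw [hrest]; exact ht3) I hst hcl hT₀ hZ χ φ hφI hφ0 hφχ c u hu
    · rw [hcard, hE.2.2]
    · rw [hcard]
      exact pow_ne_zero _ (by omega)

end

end Pool.Agent.Lib.MP_424f45_al
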