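import Mathlib

/-!
# Graded ideals of the free nilpotent Lie algebra of class 4 on 6 generators: definitions

Letters are `Fin 6`; `0, ..., 4` are the finite letters (`lt c`, `c : ZMod 5`), `5` is `∞`.
-/

set_option autoImplicit false

namespace Pool.Agent.Lib.MP_424f45_al

/-- Right normed bracket `[e w₁, [e w₂, … [e w_n, e j] … ]]`. -/
def br {L : Type} [LieRing L] (e : Fin 6 → L) (w : List (Fin 6)) (j : Fin 6) : L :=
  w.foldr (fun k a => ⁅e k, a⁆) (e j)

/-- Cyclic shift of the letters `0..4`, fixing the letter `5`. -/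
def sh : Fin 6 → Fin 6 := ![1, 2, 3, 4, 0, 5]

/-- The finite letters. -/
def lt (c : ZMod 5) : Fin 6 := Fin.castSucc (show Fin 5 from c)

/-- Content of a word, modulo `5`. -/
def ct (w : List (Fin 6)) : Fin 6 → ZMod 5 := fun x => (w.count x : ZMod 5)

/-- What we use of the free nilpotent Lie algebra of class 4 on 6 generators, over a ring with a
primitive 5-th root of unity: generators `e`, the torus `τ`, the shift `s`, the coefficients `cw`. -/
structure Sys (O L : Type) [CommRing O] [LieRing L] [LieAlgebra O L] where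
  e : Fin 6 → L
  ζ : O
  hζ : ζ ^ 5 = 1
  hu : ∀ k : ℕ, ¬ 5 ∣ k → IsUnit (ζ ^ k - 1)
  span : Submodule.span O {y : L | ∃ (w : List (Fin 6)) (j : Fin 6), w.length ≤ 3 ∧ y = br e w j} = ⊤
  nil : ∀ (w : List (Fin 6)) (j : Fin 6), 4 ≤ w.length → br e w j = 0
  τ : Fin 6 → (L →ₗ⁅O⁆ L)
  τ_e : ∀ x y, τ x (e y) = if y = x then ζ • e y else e y
  s : L →ₗ⁅O⁆ L
  s_e : ∀ x, s (e x) = e (sh x)
  cw : List (Fin 6) → (L →ₗ[O] O)
  cw_e : ∀ w x, cw w (e x) = if w = [x] then 1 else 0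
  cw_ad : ∀ (w : List (Fin 6)) (x : Fin 6) (u : L), w.length ≤ 4 →
    cw w ⁅e x, u⁆ = (if w.head? = some x then cw w.tail u else 0) -
      (if w.getLast? = some x then cw w.dropLast u else 0)

namespace Sys

variable {O L : Type} [CommRing O] [LieRing L] [LieAlgebra O L] (S : Sys O L)

/-- The homogeneous component of degree `i + 1` (exactly the span in the frozen statement). -/
def V (i : ℕ) : Submodule O L :=
  Submodule.span O {y : L | ∃ (j : Fin 6) (w : List (Fin 6)), w.length = i ∧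
    y = List.foldr (fun (k : Fin 6) (a : L) => ⁅S.e k, a⁆) (S.e j) w}

/-- Stable under the torus and the shift. -/
def Stab (W : Submodule O L) : Prop :=
  (∀ x, ∀ u ∈ W, S.τ x u ∈ W) ∧ ∀ u ∈ W, S.s u ∈ W

/-- `[e x, A] ⊆ B` for all generators. -/
def Clo (A B : Submodule O L) : Prop := ∀ x, ∀ u ∈ A, ⁅S.e x, u⁆ ∈ B

/-- The component of content `χ` (simultaneous eigenspace of the torus). -/
def Lx (χ : Fin 6 → ZMod 5) : Submodule O L where
  carrier := {u | ∀ x, S.τ x u = S.ζ ^ (χ x).val • u}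
  zero_mem' := by simp
  add_mem' := by
    intro a b ha hb x
    rw [map_add, ha x, hb x, smul_add]
  smul_mem' := by
    intro c u hu x
    rw [map_smul, hu x, smul_comm]

end Sys

/-- Degree of a content. -/
def dg (χ : Fin 6 → ZMod 5) : ℕ := ∑ x, (χ x).val

/-- The index of `A` in `B` (for `A ≤ B`), `0` if infinite. -/
noncomputable def ix {O L : Type} [CommRing O] [AddCommGroup L] [Module O L]
    (A B : Submodule O L) : ℕ := Nat.card (B ⧸ A.submoduleOf B)

namespace Sys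

variable {O L : Type} [CommRing O] [IsLocalRing O] [LieRing L] [LieAlgebra O L] (S : Sys O L)

/-- The stable ideals of index `q ^ n` (a submodule closed under brackets with the generators is an
ideal). -/
def FixI (n : ℕ) : Set (Submodule O L) :=
  {I | S.Stab I ∧ S.Clo I I ∧ Nat.card (L ⧸ I) = Nat.card (IsLocalRing.ResidueField O) ^ n}

/-- The same as quadruples `(((I₁, I₂), I₃), I₄)` of stable submodules of the homogeneous
components. -/
def Tup (n : ℕ) :
    Set (((Submodule O L × Submodule O L) × Submodule O L) × Submodule O L) :=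
  {t | (t.1.1.1 ≤ S.V 0 ∧ t.1.1.2 ≤ S.V 1 ∧ t.1.2 ≤ S.V 2 ∧ t.2 ≤ S.V 3) ∧
    (S.Stab t.1.1.1 ∧ S.Stab t.1.1.2 ∧ S.Stab t.1.2 ∧ S.Stab t.2) ∧
    (S.Clo t.1.1.1 t.1.1.2 ∧ S.Clo t.1.1.2 t.1.2 ∧ S.Clo t.1.2 t.2) ∧
    ix t.1.1.1 (S.V 0) * ix t.1.1.2 (S.V 1) * ix t.1.2 (S.V 2) * ix t.2 (S.V 3) =
      Nat.card (IsLocalRing.ResidueField O) ^ n}

end Sys

/-- `L'` is the base change of `L` along the quadratic extension `O' = O ⊕ ω O`, `ω² + ω + 1 = 0`. -/
structure Ext {O L O' L' : Type} [CommRing O] [LieRing L] [LieAlgebra O L]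
    [CommRing O'] [LieRing L'] [LieAlgebra O' L'] [Algebra O O'] (S : Sys O L)
    (S' : Sys O' L') where
  ω : O'
  hω : ω ^ 2 + ω + 1 = 0
  basis : ∀ a : O', ∃ x y : O, a = algebraMap O O' x + ω * algebraMap O O' y
  indep : ∀ x y : O, algebraMap O O' x + ω * algebraMap O O' y = 0 → x = 0 ∧ y = 0
  j : L →+ L'
  j_smul : ∀ (a : O) (u : L), j (a • u) = algebraMap O O' a • j u
  j_br : ∀ u v : L, j ⁅u, v⁆ = ⁅j u, j v⁆
  j_e : ∀ x, j (S.e x) = S'.e x
  gen : ∀ u : L', ∃ x y : L, u = j x + ω • j y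
  inj : ∀ x y : L, j x + ω • j y = 0 → x = 0 ∧ y = 0
  hζ : S'.ζ = algebraMap O O' S.ζ

namespace Ext

variable {O L O' L' : Type} [CommRing O] [LieRing L] [LieAlgebra O L]
    [CommRing O'] [LieRing L'] [LieAlgebra O' L'] [Algebra O O'] {S : Sys O L}
    {S' : Sys O' L'} (E : Ext S S')

/-- A submodule of `L'` is rational if it is defined over `O`. -/
def Rat (W : Submodule O' L') : Prop := ∀ x y : L, E.j x + E.ω • E.j y ∈ W → E.j x ∈ W

/-- Base change of a submodule. -/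
def bc (W : Submodule O L) : Submodule O' L' := Submodule.span O' (E.j '' W)

/-- The rational points of a submodule. -/
def cm (W : Submodule O' L') : Submodule O L where
  carrier := {x | E.j x ∈ W}
  zero_mem' := by simp
  add_mem' := by
    intro a b ha hb
    simp only [Set.mem_ofPred_eq, map_add] at *
    exact W.add_mem ha hb
  smul_mem' := by
    intro c x hx
    simp only [Set.mem_ofPred_eq, E.j_smul] at *
    exact W.smul_mem _ hx

end Ext

/-! ### The exotic ideals -/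

namespace Sys

variable {O L : Type} [CommRing O] [LieRing L] [LieAlgebra O L] (S : Sys O L)

/-- the functional on the component of content `{c, c+δ, ∞}` -/
noncomputable def ψT (δ : ZMod 5) (t : O) (c : ZMod 5) : L →ₗ[O] O :=
  (1 - t) • S.cw [5, lt c, lt (c + δ)] + S.cw [5, lt (c + δ), lt c]

/-- the functional on the component of content `{c, c+δ, c+2δ, ∞}` -/
noncomputable def ψQ (δ : ZMod 5) (t : O) (c : ZMod 5) : L →ₗ[O] O :=
  (t - 1) • S.cw [5, lt c, lt (c + δ), lt (c + 2 * δ)]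
    - S.cw [5, lt (c + δ), lt c, lt (c + 2 * δ)]
    - S.cw [5, lt (c + δ), lt (c + 2 * δ), lt c]
    - t • S.cw [5, lt (c + 2 * δ), lt (c + δ), lt c]

/-- the exotic ideal with parameters `δ`, `t` (`t² - t + 1 = 0`) -/
def Exo (ϖ : O) (δ : ZMod 5) (t : O) : Submodule O L where
  carrier := {u | (∀ x, ϖ ∣ S.cw [x] u) ∧
    (∀ c, ϖ ∣ S.cw [lt c, lt (c + δ)] u ∧ ϖ ∣ S.cw [lt c, 5] u ∧
      ϖ ∣ S.ψT δ t c u ∧ ϖ ∣ S.ψQ δ t c u)}
  zero_mem' := by simp
  add_mem' := by
    intro a b ha hb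
    refine ⟨fun x => ?_, fun c => ⟨?_, ?_, ?_, ?_⟩⟩
    · rw [map_add]; exact dvd_add (ha.1 x) (hb.1 x)
    · rw [map_add]; exact dvd_add (ha.2 c).1 (hb.2 c).1
    · rw [map_add]; exact dvd_add (ha.2 c).2.1 (hb.2 c).2.1
    · rw [map_add]; exact dvd_add (ha.2 c).2.2.1 (hb.2 c).2.2.1
    · rw [map_add]; exact dvd_add (ha.2 c).2.2.2 (hb.2 c).2.2.2
  smul_mem' := by
    intro a u hu
    refine ⟨fun x => ?_, fun c => ⟨?_, ?_, ?_, ?_⟩⟩
    · rw [map_smul]; exact Dvd.dvd.mul_left (hu.1 x) a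
    · rw [map_smul]; exact Dvd.dvd.mul_left (hu.2 c).1 a
    · rw [map_smul]; exact Dvd.dvd.mul_left (hu.2 c).2.1 a
    · rw [map_smul]; exact Dvd.dvd.mul_left (hu.2 c).2.2.1 a
    · rw [map_smul]; exact Dvd.dvd.mul_left (hu.2 c).2.2.2 a

end Sys

end Pool.Agent.Lib.MP_424f45_al
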