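import Pool.Agent.Lib.MP_424f45_al.ClsE
import Pool.Agent.Lib.MP_424f45_al.Teq
import Pool.Agent.Lib.MP_424f45_al.BC

/-!
# MP_424f45_al: exactly four exceptional quadruples
-/

set_option autoImplicit false
set_option linter.unusedSectionVars false

namespace Pool.Agent.Lib.MP_424f45_al

section

variable {O L O' L' : Type} [CommRing O] [IsDomain O] [IsDiscreteValuationRing O]
  [CommRing O'] [IsDomain O'] [IsDiscreteValuationRing O'] [Algebra O O']
  [LieRing L] [LieAlgebra O L] [LieRing L'] [LieAlgebra O' L']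
  {S : Sys O L} {S' : Sys O' L'} (E : Ext S S')

theorem line_mem_Exo (ϖ : O') (δ : ZMod 5) (hδ : δ = 1 ∨ δ = 2) (t : O') (c : ZMod 5) :
    S'.tX true δ c + t • S'.tY true δ c ∈ S'.Exo ϖ δ t := by
  have hmem : S'.tX true δ c + t • S'.tY true δ c ∈ S'.Lx (cT true δ c) :=
    Submodule.add_mem _ (S'.tX_mem _ _ _) (Submodule.smul_mem _ _ (S'.tY_mem _ _ _))
  refine ⟨?_, ?_⟩
  · intro x
    rw [S'.cw_Lx _ _ hmem [x] (by simp)]
    · exact dvd_zero _
    · intro h
      have h1 := dg_cT true δ c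
      rw [← h, dg_ct1] at h1
      omega
  · intro c'
    refine ⟨?_, ?_, ?_, ?_⟩
    · rw [S'.cw_Lx _ _ hmem [lt c', lt (c' + δ)] (by simp)]
      · exact dvd_zero _
      · intro h
        have h1 := dg_cT true δ c
        rw [← h, dg_ct2] at h1
        omega
    · rw [S'.cw_Lx _ _ hmem [lt c', 5] (by simp)]
      · exact dvd_zero _
      · intro h
        have h1 := dg_cT true δ c
        rw [← h, dg_ct2] at h1
        omega
    · rw [S'.ψT_line δ hδ t c c']
      exact dvd_zero _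
    · rw [S'.ψQ_Lx δ t c' _ _ hmem]
      · exact dvd_zero _
      · intro h
        have h1 := dg_cT true δ c
        have h2 : dg (cQ δ c') = 4 := by
          have : ∀ δ c : ZMod 5, (δ = 1 ∨ δ = 2) → dg (cQ δ c) = 4 := by decide
          exact this δ c' hδ
        rw [← h, h2] at h1
        omega

theorem tX_mem_V (b : Bool) (δ c : ZMod 5) : S'.tX b δ c ∈ S'.V 2 :=
  Submodule.subset_span ⟨_, [_, _], rfl, rfl⟩

theorem tY_mem_V (b : Bool) (δ c : ZMod 5) : S'.tY b δ c ∈ S'.V 2 :=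
  Submodule.subset_span ⟨_, [_, _], rfl, rfl⟩

include E in
theorem Ext.isUnit_ω : IsUnit E.ω :=
  IsUnit.of_mul_eq_one (-(E.ω + 1)) (by linear_combination -E.hω)

theorem Exo_nonrat (ϖ : O) (hϖ : Irreducible ϖ) (hϖ' : Irreducible (algebraMap O O' ϖ))
    (δ : ZMod 5) (hδ : δ = 1 ∨ δ = 2) (t : O') (ht : t = -E.ω ∨ t = 1 + E.ω) :
    ¬ E.Rat (S'.Exo (algebraMap O O' ϖ) δ t ⊓ S'.V 2) := by
  have hδ0 : δ ≠ 0 := by rcases hδ with h | h <;> rw [h] <;> decide
  intro hR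
  have hline := line_mem_Exo (S' := S') (algebraMap O O' ϖ) δ hδ t 0
  have hlineV : S'.tX true δ 0 + t • S'.tY true δ 0 ∈ S'.V 2 :=
    Submodule.add_mem _ (tX_mem_V _ _ _) (Submodule.smul_mem _ _ (tY_mem_V _ _ _))
  rcases ht with ht | ht
  · have h1 := hR (S.tX true δ 0) (-(S.tY true δ 0)) (by
      rw [map_neg, E.j_tX, E.j_tY, smul_neg, ← neg_smul, ← ht]
      exact ⟨hline, hlineV⟩)
    rw [E.j_tX] at h1
    have h2 := (h1.1.2 0).2.2.1
    rw [S'.ψT_tX δ hδ0, ht, neg_neg] at h2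
    exact hϖ'.not_isUnit (isUnit_of_dvd_unit h2 E.isUnit_ω)
  · have h1 := hR (S.tX true δ 0 + S.tY true δ 0) (S.tY true δ 0) (by
      rw [map_add, E.j_tX, E.j_tY, add_assoc]
      have h3 : S'.tY true δ 0 + E.ω • S'.tY true δ 0 = t • S'.tY true δ 0 := by
        rw [ht, add_smul, one_smul]
      rw [h3]
      exact ⟨hline, hlineV⟩)
    rw [map_add, E.j_tX, E.j_tY] at h1
    have h2 := (h1.1.2 0).2.2.1
    rw [map_add, S'.ψT_tX δ hδ0, S'.ψT_tY δ hδ0, ht] at h2
    have h4 : -(1 + E.ω) + 1 = -E.ω := by ring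
    rw [h4] at h2
    exact hϖ'.not_isUnit (isUnit_of_dvd_unit h2 E.isUnit_ω.neg)

theorem gamma_card [Finite (IsLocalRing.ResidueField O)] (ϖ : O) (hϖ : Irreducible ϖ)
    (hϖ' : Irreducible (algebraMap O O' ϖ)) (h2 : IsUnit (2 : O)) (h3 : IsUnit (3 : O)) :
    {t ∈ S'.Tup 26 | ¬ E.Rat t.1.2 ∧ t.2 ≠ S'.V 3}.ncard = 4 := by
  have hcr := card_residue E ϖ hϖ hϖ'
  have : Finite (IsLocalRing.ResidueField O') := by
    apply Nat.finite_of_card_ne_zero
    rw [hcr]
    exact pow_ne_zero _ (Nat.card_pos.ne')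
  have hbij := S'.FixI_bijOn 26
  set g : Submodule O' L' → ((Submodule O' L' × Submodule O' L') × Submodule O' L') ×
      Submodule O' L' := fun I => (((I ⊓ S'.V 0, I ⊓ S'.V 1), I ⊓ S'.V 2), I ⊓ S'.V 3) with hg
  -- the four ideals
  let p : Fin 2 × Fin 2 → Submodule O' L' := fun i =>
    S'.Exo (algebraMap O O' ϖ) (if i.1 = 0 then 1 else 2) (if i.2 = 0 then -E.ω else 1 + E.ω)
  have hδ : ∀ i : Fin 2, (if i = 0 then (1 : ZMod 5) else 2) = 1 ∨
      (if i = 0 then (1 : ZMod 5) else 2) = 2 := by decide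
  have ht : ∀ i : Fin 2, (if i = 0 then -E.ω else 1 + E.ω) ^ 2 -
      (if i = 0 then -E.ω else 1 + E.ω) + 1 = 0 := by
    intro i
    split_ifs <;> linear_combination E.hω
  have ht' : ∀ i : Fin 2, (if i = 0 then -E.ω else 1 + E.ω) = -E.ω ∨
      (if i = 0 then -E.ω else 1 + E.ω) = 1 + E.ω := by
    intro i
    split_ifs
    · exact Or.inl rfl
    · exact Or.inr rfl
  have h12 : IsUnit (1 + 2 * E.ω) := by
    have h3' : IsUnit (-3 : O') := by
      have := (h3.map (algebraMap O O')).neg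
      rwa [map_ofNat] at this
    have h5 : (1 + 2 * E.ω) * (1 + 2 * E.ω) = -3 := by linear_combination 4 * E.hω
    rw [← h5] at h3'
    exact isUnit_of_mul_isUnit_left h3'
  have hpinj : Function.Injective p := by
    rintro ⟨i, k⟩ ⟨i', k'⟩ h
    obtain ⟨h5, h6⟩ := S'.Exo_inj (algebraMap O O' ϖ) hϖ' _ _ (hδ i) (hδ i') _ _ (ht k) (ht k') h
    have hdec : ∀ i i' : Fin 2, ((if i = 0 then (1 : ZMod 5) else 2) =
        if i' = 0 then 1 else 2) → i = i' := by decide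
    have hi : i = i' := hdec i i' h5
    have hk : k = k' := by
      by_contra hne
      apply hϖ'.not_isUnit
      refine isUnit_of_dvd_unit h6 ?_
      fin_cases k <;> fin_cases k'
      · exact absurd rfl hne
      · have h7 : (-E.ω - (1 + E.ω)) = -(1 + 2 * E.ω) := by ring
        simp only [Fin.zero_eta, if_true, Fin.mk_one, one_ne_zero, if_false]
        rw [h7]
        exact h12.neg
      · have h7 : (1 + E.ω - -E.ω) = (1 + 2 * E.ω) := by ring
        simp only [Fin.zero_eta, if_true, Fin.mk_one, one_ne_zero, if_false]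
        rw [h7]
        exact h12
      · exact absurd rfl hne
    rw [hi, hk]
  have hset : {t ∈ S'.Tup 26 | ¬ E.Rat t.1.2 ∧ t.2 ≠ S'.V 3} = g '' (Set.range p) := by
    ext q
    constructor
    · rintro ⟨hq, hq1, hq2⟩
      obtain ⟨I, hI, rfl⟩ := hbij.surjOn hq
      have h4 : ¬ S'.V 3 ≤ I := fun h => hq2 (inf_eq_right.mpr h)
      obtain ⟨δ, t, hδ', ht'', rfl⟩ := classify E ϖ hϖ hϖ' h2 I hI hq1 h4
      refine ⟨_, ?_, rfl⟩
      rcases hδ' with h | h <;> rcases ht'' with h' | h' <;> rw [h, h']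
      · exact ⟨(0, 0), by simp [p]⟩
      · exact ⟨(0, 1), by simp [p]⟩
      · exact ⟨(1, 0), by simp [p]⟩
      · exact ⟨(1, 1), by simp [p]⟩
    · rintro ⟨_, ⟨i, rfl⟩, rfl⟩
      refine ⟨hbij.mapsTo (S'.Exo_mem _ hϖ' _ (hδ i.1) _ (ht i.2)),
        Exo_nonrat E ϖ hϖ hϖ' _ (hδ i.1) _ (ht' i.2), ?_⟩
      intro h
      exact S'.Exo_V3 _ hϖ' _ (hδ i.1) _ (ht i.2) (inf_eq_right.mp h)
  rw [hset, Set.InjOn.ncard_image, ← Set.image_univ, Set.ncard_image_of_injective _ hpinj]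
  · simp
  · refine hbij.injOn.mono ?_
    rintro _ ⟨i, rfl⟩
    exact S'.Exo_mem _ hϖ' _ (hδ i.1) _ (ht i.2)

end

end Pool.Agent.Lib.MP_424f45_al
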