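import Pool.Agent.Lib.MP_424f45_al.Defs

/-!
# The unramified quadratic extension `ℤ_[p][ω]`, `p ≡ 2 mod 3`, and fifth roots of unity
-/

set_option autoImplicit false

namespace Pool.Agent.Lib.MP_424f45_al

namespace Qua

variable (p : ℕ) [Fact p.Prime]

/-- `ℤ_[p][ω]`, `ω² + ω + 1 = 0`. -/
abbrev OO : Type := QuadraticAlgebra ℤ_[p] (-1) (-1)

theorem three_ne (hp : p % 3 = 2) : (3 : ZMod p) ≠ 0 := by
  intro h
  have h3 : ((3 : ℕ) : ZMod p) = 0 := by exact_mod_cast h
  rw [ZMod.natCast_eq_zero_iff] at h3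
  have := (Nat.prime_dvd_prime_iff_eq (Fact.out : p.Prime) Nat.prime_three).mp h3
  omega

theorem aniso_one (hp : p % 3 = 2) (u : ZMod p) : u ^ 2 + u + 1 ≠ 0 := by
  intro h
  have hu3 : u ^ 3 = 1 := by linear_combination (u - 1) * h
  have hu1 : u ≠ 1 := by
    rintro rfl
    apply three_ne p hp
    linear_combination h
  have hord : orderOf u = 3 := by
    have : Fact (Nat.Prime 3) := ⟨Nat.prime_three⟩
    exact orderOf_eq_prime hu3 hu1
  have hu0 : u ≠ 0 := by
    rintro rfl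
    norm_num at hu3
  have hd : orderOf u ∣ p - 1 := by
    apply orderOf_dvd_of_pow_eq_one
    exact ZMod.pow_card_sub_one_eq_one hu0
  rw [hord] at hd
  have h2 := (Fact.out : p.Prime).two_le
  omega

theorem aniso (hp : p % 3 = 2) (x y : ZMod p) (h : x ^ 2 - x * y + y ^ 2 = 0) : x = 0 ∧ y = 0 := by
  have hy : y = 0 := by
    by_contra hy
    apply aniso_one p hp (-(x / y))
    field_simp
    linear_combination h
  subst hy
  simpa using h

theorem isUnit_iff (x : ℤ_[p]) : IsUnit x ↔ PadicInt.toZMod x ≠ 0 := by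
  rw [Ne, ← RingHom.mem_ker, PadicInt.ker_toZMod, IsLocalRing.mem_maximalIdeal, mem_nonunits_iff,
    not_not]

theorem dvd_iff (x : ℤ_[p]) : (p : ℤ_[p]) ∣ x ↔ PadicInt.toZMod x = 0 := by
  rw [← RingHom.mem_ker, PadicInt.ker_toZMod, PadicInt.maximalIdeal_eq_span_p,
    Ideal.mem_span_singleton]

theorem norm_eq (z : OO p) : z.norm = z.re ^ 2 - z.re * z.im + z.im ^ 2 := by
  rw [QuadraticAlgebra.norm_def]
  ring

/-- The uniformizer. -/
noncomputable abbrev pp : OO p := algebraMap ℤ_[p] (OO p) (p : ℤ_[p])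

theorem pp_dvd (z : OO p) : pp p ∣ z ↔ (p : ℤ_[p]) ∣ z.re ∧ (p : ℤ_[p]) ∣ z.im :=
  QuadraticAlgebra.algebraMap_dvd_iff

theorem isUnit_of_not_dvd (hp : p % 3 = 2) (z : OO p) (h : ¬ pp p ∣ z) : IsUnit z := by
  rw [QuadraticAlgebra.isUnit_iff_norm_isUnit, isUnit_iff, norm_eq]
  intro h0
  apply h
  rw [pp_dvd, dvd_iff, dvd_iff]
  apply aniso p hp
  simpa using h0

theorem not_isUnit_pp : ¬ IsUnit (pp p) := by
  rw [QuadraticAlgebra.isUnit_iff_norm_isUnit, QuadraticAlgebra.norm_algebraMap]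
  intro h
  have h1 : IsUnit (p : ℤ_[p]) := isUnit_of_dvd_unit (Dvd.intro_left _ (by ring)) h
  exact (PadicInt.prime_p (p := p)).not_isUnit h1

theorem pp_ne_zero : pp p ≠ 0 := by
  intro h
  have := (QuadraticAlgebra.algebraMap_injective (a := (-1 : ℤ_[p])) (b := -1))
    (h.trans (map_zero _).symm)
  exact (PadicInt.prime_p (p := p)).ne_zero this

theorem prime_pp (hp : p % 3 = 2) : Prime (pp p) := by
  refine ⟨pp_ne_zero p, not_isUnit_pp p, ?_⟩
  intro a b hab
  by_contra hc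
  rw [not_or] at hc
  exact not_isUnit_pp p (isUnit_of_dvd_unit hab
    ((isUnit_of_not_dvd p hp a hc.1).mul (isUnit_of_not_dvd p hp b hc.2)))

theorem fin_mult (z : OO p) (hz : z ≠ 0) : FiniteMultiplicity (pp p) z := by
  by_contra hf
  have hall : ∀ n : ℕ, pp p ^ n ∣ z := by
    intro n
    rw [FiniteMultiplicity.not_iff_forall] at hf
    exact hf n
  have key : ∀ n : ℕ, (p : ℤ_[p]) ^ n ∣ z.re ∧ (p : ℤ_[p]) ^ n ∣ z.im := by
    intro n
    have := hall n
    rw [← map_pow] at this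
    exact QuadraticAlgebra.algebraMap_dvd_iff.mp this
  have hprime := PadicInt.prime_p (p := p)
  have hzero : ∀ x : ℤ_[p], (∀ n : ℕ, (p : ℤ_[p]) ^ n ∣ x) → x = 0 := by
    intro x hx
    by_contra hx0
    have hfm : FiniteMultiplicity (p : ℤ_[p]) x :=
      FiniteMultiplicity.of_not_isUnit hprime.not_isUnit hx0
    exact (FiniteMultiplicity.not_iff_forall.mpr hx) hfm
  apply hz
  ext
  · exact hzero _ fun n => (key n).1
  · exact hzero _ fun n => (key n).2

theorem factor (hp : p % 3 = 2) (z : OO p) (hz : z ≠ 0) :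
    ∃ (n : ℕ) (u : OO p), IsUnit u ∧ z = pp p ^ n * u := by
  obtain ⟨c, hc, hnd⟩ := (fin_mult p z hz).exists_eq_pow_mul_and_not_dvd
  exact ⟨_, c, isUnit_of_not_dvd p hp c hnd, hc⟩

theorem norm_ne_zero (hp : p % 3 = 2) (z : OO p) (hz : z ≠ 0) : z.norm ≠ 0 := by
  obtain ⟨n, u, hu, rfl⟩ := factor p hp z hz
  rw [map_mul, map_pow, QuadraticAlgebra.norm_algebraMap]
  have hu' := QuadraticAlgebra.isUnit_iff_norm_isUnit.mp hu
  exact mul_ne_zero (pow_ne_zero _ (pow_ne_zero _ (PadicInt.prime_p (p := p)).ne_zero)) hu'.ne_zero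

theorem isDomain (hp : p % 3 = 2) : IsDomain (OO p) := by
  have : NoZeroDivisors (OO p) := by
    constructor
    intro a b hab
    by_contra hc
    rw [not_or] at hc
    have h := congrArg QuadraticAlgebra.norm hab
    rw [map_mul, QuadraticAlgebra.norm_zero] at h
    exact (mul_ne_zero (norm_ne_zero p hp a hc.1) (norm_ne_zero p hp b hc.2)) h
  exact NoZeroDivisors.to_isDomain _

theorem isDVR (hp : p % 3 = 2) [IsDomain (OO p)] : IsDiscreteValuationRing (OO p) := by
  apply IsDiscreteValuationRing.ofHasUnitMulPowIrreducibleFactorization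
  refine ⟨pp p, (prime_pp p hp).irreducible, ?_⟩
  intro x hx
  obtain ⟨n, u, hu, rfl⟩ := factor p hp x hx
  exact ⟨n, (associated_mul_isUnit_right_iff hu).mpr (Associated.refl _)⟩

/-- Reduction mod `p`. -/
noncomputable def red : OO p →+* QuadraticAlgebra (ZMod p) (-1) (-1) where
  toFun z := ⟨PadicInt.toZMod z.re, PadicInt.toZMod z.im⟩
  map_one' := by ext <;> simp [QuadraticAlgebra.re_one, QuadraticAlgebra.im_one]
  map_zero' := by ext <;> simp
  map_mul' := by intro a b; ext <;> simp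
  map_add' := by intro a b; ext <;> simp

theorem red_surj : Function.Surjective (red p) := by
  intro w
  obtain ⟨x, hx⟩ := ZMod.ringHom_surjective (PadicInt.toZMod (p := p)) w.re
  obtain ⟨y, hy⟩ := ZMod.ringHom_surjective (PadicInt.toZMod (p := p)) w.im
  refine ⟨⟨x, y⟩, ?_⟩
  ext
  · exact hx
  · exact hy

theorem card_res (hp : p % 3 = 2) [IsDomain (OO p)] [IsDiscreteValuationRing (OO p)] :
    Nat.card (IsLocalRing.ResidueField (OO p)) = p ^ 2 := by
  have hm : IsLocalRing.maximalIdeal (OO p) = RingHom.ker (red p) := by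
    rw [(prime_pp p hp).irreducible.maximalIdeal_eq]
    ext z
    rw [Ideal.mem_span_singleton, pp_dvd, dvd_iff, dvd_iff, RingHom.mem_ker, QuadraticAlgebra.ext_iff]
    rfl
  have e1 : IsLocalRing.ResidueField (OO p) ≃ QuadraticAlgebra (ZMod p) (-1) (-1) :=
    ((Ideal.quotEquivOfEq hm).trans (RingHom.quotientKerEquivOfSurjective (red_surj p))).toEquiv
  rw [Nat.card_congr e1, Nat.card_congr (QuadraticAlgebra.equivProd _ _), Nat.card_prod,
    Nat.card_zmod, sq]

end Qua

theorem exists_quadratic (p : ℕ) [Fact p.Prime] (hp : p % 3 = 2) :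
    ∃ (O' : Type) (_ : CommRing O') (_ : IsDomain O') (_ : IsDiscreteValuationRing O')
      (_ : Algebra ℤ_[p] O') (_ : Module.Finite ℤ_[p] O') (ω : O'),
      ω ^ 2 + ω + 1 = 0 ∧
      (∀ a : O', ∃ x y : ℤ_[p], a = algebraMap ℤ_[p] O' x + ω * algebraMap ℤ_[p] O' y) ∧
      (∀ x y : ℤ_[p], algebraMap ℤ_[p] O' x + ω * algebraMap ℤ_[p] O' y = 0 → x = 0 ∧ y = 0) ∧
      Irreducible (algebraMap ℤ_[p] O' (p : ℤ_[p])) ∧
      Nat.card (IsLocalRing.ResidueField O') = p ^ 2 := by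
  have := Qua.isDomain p hp
  have := Qua.isDVR p hp
  refine ⟨Qua.OO p, inferInstance, inferInstance, inferInstance, inferInstance, inferInstance,
    QuadraticAlgebra.omega, ?_, ?_, ?_, (Qua.prime_pp p hp).irreducible, Qua.card_res p hp⟩
  · ext <;> simp [sq, QuadraticAlgebra.re_one, QuadraticAlgebra.im_one]
  · intro a
    refine ⟨a.re, a.im, ?_⟩
    ext <;> simp
  · intro x y h
    have h1 := congrArg QuadraticAlgebra.re h
    have h2 := congrArg QuadraticAlgebra.im h
    simp at h1 h2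
    exact ⟨h1, h2⟩

theorem exists_zeta (p : ℕ) [Fact p.Prime] (hp : p % 5 = 1) :
    ∃ ζ : ℤ_[p], ζ ^ 5 = 1 ∧ ∀ k : ℕ, ¬ 5 ∣ k → IsUnit (ζ ^ k - 1) := by
  have h5 : Fact (Nat.Prime 5) := ⟨by norm_num⟩
  have hdvd : 5 ∣ Fintype.card (ZMod p)ˣ := by
    rw [ZMod.card_units]
    have := (Fact.out : p.Prime).two_le
    omega
  obtain ⟨g, hg⟩ := exists_prime_orderOf_dvd_card 5 hdvd
  obtain ⟨a, ha⟩ := ZMod.ringHom_surjective (PadicInt.toZMod (p := p)) (g : ZMod p)
  let F : Polynomial ℤ_[p] := Polynomial.X ^ 5 - 1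
  have hg5 : (g : ZMod p) ^ 5 = 1 := by
    rw [← Units.val_pow_eq_pow_val, ← hg, pow_orderOf_eq_one, Units.val_one]
  have h5z : (5 : ZMod p) ≠ 0 := by
    intro h
    have h3 : ((5 : ℕ) : ZMod p) = 0 := by exact_mod_cast h
    rw [ZMod.natCast_eq_zero_iff] at h3
    have := (Nat.prime_dvd_prime_iff_eq (Fact.out : p.Prime) (by norm_num : Nat.Prime 5)).mp h3
    omega
  have heF : F.eval a = a ^ 5 - 1 := by simp [F]
  have hdF : F.derivative.eval a = 5 * a ^ 4 := by
    simp [F]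
    left
    norm_num
  have hu : ‖F.derivative.eval a‖ = 1 := by
    rw [← PadicInt.isUnit_iff, Qua.isUnit_iff, hdF, map_mul, map_pow, ha]
    simp only [map_ofNat]
    exact mul_ne_zero h5z (pow_ne_zero _ g.ne_zero)
  have hn : ‖F.eval a‖ < ‖F.derivative.eval a‖ ^ 2 := by
    rw [hu, one_pow]
    have hle := PadicInt.norm_le_one (F.eval a)
    refine lt_of_le_of_ne hle ?_
    intro h1
    rw [← PadicInt.isUnit_iff, Qua.isUnit_iff, heF] at h1
    apply h1
    rw [map_sub, map_pow, ha, hg5, map_one, sub_self]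
  obtain ⟨z, hz0', hza', -⟩ := hensels_lemma (F := F) (a := a) hn
  have hz0 : F.eval z = 0 := by simpa only [Polynomial.coe_aeval_eq_eval] using hz0'
  have hza : ‖z - a‖ < ‖F.derivative.eval a‖ := by
    simpa only [Polynomial.coe_aeval_eq_eval] using hza'
  have hz5 : z ^ 5 = 1 := by
    have : F.eval z = z ^ 5 - 1 := by simp [F]
    rw [this] at hz0
    exact sub_eq_zero.mp hz0
  have hred : PadicInt.toZMod z = (g : ZMod p) := by
    rw [← ha, ← sub_eq_zero, ← map_sub]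
    by_contra hc
    rw [← Ne, ← Qua.isUnit_iff, PadicInt.isUnit_iff] at hc
    rw [hu] at hza
    rw [hc] at hza
    exact lt_irrefl _ hza
  refine ⟨z, hz5, ?_⟩
  intro k hk
  rw [Qua.isUnit_iff, map_sub, map_pow, hred, map_one]
  intro h0
  apply hk
  rw [← hg]
  apply orderOf_dvd_of_pow_eq_one
  ext
  rw [Units.val_pow_eq_pow_val, Units.val_one]
  exact sub_eq_zero.mp h0

end Pool.Agent.Lib.MP_424f45_al
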