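import Pool.Agent.Lib.MP_424f45_al.Defs

set_option autoImplicit false

open scoped TensorProduct

namespace Pool.Agent.Lib.MP_424f45_al

namespace Ten

section quot

variable {O O' L Q : Type} [CommRing O] [CommRing O'] [Algebra O O'] [LieRing L]
    [LieAlgebra O L] [LieRing Q] [LieAlgebra O' Q] [Module O Q] [IsScalarTower O O' Q]

/-- A Lie algebra over `O'` is one over `O`. -/
@[reducible] def lieAlgebraO (O O' Q : Type) [CommRing O] [CommRing O'] [Algebra O O']
    [LieRing Q] [LieAlgebra O' Q] [Module O Q] [IsScalarTower O O' Q] : LieAlgebra O Q where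
  lie_smul t x y := by
    rw [← algebraMap_smul O' t y, lie_smul, algebraMap_smul]

/-- An `O`-linear bracket preserving map into an `O'`-Lie algebra extends to the base change. -/
noncomputable def extend (g : L →ₗ[O] Q) (hg : ∀ u v, g ⁅u, v⁆ = ⁅g u, g v⁆) :
    (O' ⊗[O] L) →ₗ⁅O'⁆ Q where
  toLinearMap := g.liftBaseChange O'
  map_lie' := by
    intro x y
    show g.liftBaseChange O' ⁅x, y⁆ = ⁅g.liftBaseChange O' x, g.liftBaseChange O' y⁆
    induction x using TensorProduct.induction_on with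
    | zero => simp
    | tmul a u =>
      induction y using TensorProduct.induction_on with
      | zero => simp
      | tmul b v =>
        rw [LieAlgebra.ExtendScalars.bracket_tmul, LinearMap.liftBaseChange_tmul,
          LinearMap.liftBaseChange_tmul, LinearMap.liftBaseChange_tmul, hg, smul_lie, lie_smul,
          mul_smul]
      | add y₁ y₂ h₁ h₂ => rw [lie_add, map_add, h₁, h₂, map_add, lie_add]
    | add x₁ x₂ h₁ h₂ => rw [add_lie, map_add, h₁, h₂, map_add, add_lie]

lemma extend_one_tmul (g : L →ₗ[O] Q) (hg : ∀ u v, g ⁅u, v⁆ = ⁅g u, g v⁆) (u : L) :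
    extend (O' := O') g hg (1 ⊗ₜ u) = g u := by
  show g.liftBaseChange O' (1 ⊗ₜ u) = g u
  rw [LinearMap.liftBaseChange_one_tmul]

end quot

variable {O O' L : Type} [CommRing O] [CommRing O'] [Algebra O O'] [LieRing L]
    [LieAlgebra O L]

/-- the presentation of the base change -/
noncomputable def pi' (π : FreeLieAlgebra O (Fin 6) →ₗ⁅O⁆ L) :
    FreeLieAlgebra O' (Fin 6) →ₗ⁅O'⁆ (O' ⊗[O] L) :=
  FreeLieAlgebra.lift O' (fun x => (1 : O') ⊗ₜ[O] π (FreeLieAlgebra.of O x))

lemma pi'_of (π : FreeLieAlgebra O (Fin 6) →ₗ⁅O⁆ L) (x : Fin 6) :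
    pi' (O' := O') π (FreeLieAlgebra.of O' x) = (1 : O') ⊗ₜ[O] π (FreeLieAlgebra.of O x) := by
  unfold pi'
  rw [FreeLieAlgebra.lift_of_apply]

lemma br_map {R A B : Type} [CommRing R] [LieRing A] [LieRing B] [LieAlgebra R A]
    [LieAlgebra R B] (f : A →ₗ⁅R⁆ B) (e : Fin 6 → A) (w : List (Fin 6)) (j : Fin 6) :
    f (br e w j) = br (fun x => f (e x)) w j := by
  induction w with
  | nil => rfl
  | cons k w ih =>
    show f ⁅e k, br e w j⁆ = ⁅f (e k), br (fun x => f (e x)) w j⁆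
    rw [LieHom.map_lie, ih]

lemma br_one_tmul (e : Fin 6 → L) (w : List (Fin 6)) (j : Fin 6) :
    (1 : O') ⊗ₜ[O] br e w j = br (fun x => (1 : O') ⊗ₜ[O] e x) w j := by
  induction w with
  | nil => rfl
  | cons k w ih =>
    show (1 : O') ⊗ₜ[O] ⁅e k, br e w j⁆ = ⁅(1 : O') ⊗ₜ[O] e k, br (fun x => (1 : O') ⊗ₜ[O] e x) w j⁆
    rw [← ih, LieAlgebra.ExtendScalars.bracket_tmul, one_mul]

lemma one_tmul_mem_range (π : FreeLieAlgebra O (Fin 6) →ₗ⁅O⁆ L) (S : Sys O L)
    (hS : ∀ x, S.e x = π (FreeLieAlgebra.of O x)) (u : L) :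
    (1 : O') ⊗ₜ[O] u ∈ (pi' (O' := O') π).range := by
  have hu : u ∈ Submodule.span O {y : L | ∃ (w : List (Fin 6)) (j : Fin 6), w.length ≤ 3 ∧
      y = br S.e w j} := by rw [S.span]; trivial
  induction hu using Submodule.span_induction with
  | mem x hx =>
    obtain ⟨w, j, -, rfl⟩ := hx
    refine ⟨br (fun x => FreeLieAlgebra.of O' x) w j, ?_⟩
    show pi' π _ = _
    rw [br_map, br_one_tmul]
    congr 1
    funext x
    rw [pi'_of, hS]
  | zero => rw [TensorProduct.tmul_zero]; exact (pi' (O' := O') π).range.zero_mem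
  | add x y _ _ hx hy => rw [TensorProduct.tmul_add]; exact (pi' (O' := O') π).range.add_mem hx hy
  | smul a x _ hx =>
    have : (1 : O') ⊗ₜ[O] (a • x) = (algebraMap O O' a) • ((1 : O') ⊗ₜ[O] x) := by
      rw [TensorProduct.tmul_smul, algebraMap_smul]
    rw [this]
    exact (pi' (O' := O') π).range.smul_mem _ hx

lemma pi'_surjective (π : FreeLieAlgebra O (Fin 6) →ₗ⁅O⁆ L) (S : Sys O L)
    (hS : ∀ x, S.e x = π (FreeLieAlgebra.of O x)) :
    Function.Surjective (pi' (O' := O') π) := by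
  intro y
  have : y ∈ (pi' (O' := O') π).range := by
    induction y using TensorProduct.induction_on with
    | zero => exact (pi' (O' := O') π).range.zero_mem
    | tmul a u =>
      have h : a ⊗ₜ[O] u = a • ((1 : O') ⊗ₜ[O] u) := by
        rw [TensorProduct.smul_tmul', smul_eq_mul, mul_one]
      rw [h]
      exact (pi' (O' := O') π).range.smul_mem _ (one_tmul_mem_range π S hS u)
    | add y₁ y₂ h₁ h₂ => exact (pi' (O' := O') π).range.add_mem h₁ h₂
  exact this

lemma lcs_eq_bot (π : FreeLieAlgebra O (Fin 6) →ₗ⁅O⁆ L) (hs : Function.Surjective π)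
    (hk : π.ker = LieModule.lowerCentralSeries O (FreeLieAlgebra O (Fin 6))
      (FreeLieAlgebra O (Fin 6)) 4) :
    LieModule.lowerCentralSeries O L L 4 = ⊥ := by
  rw [← LieIdeal.lowerCentralSeries_map_eq 4 hs, LieIdeal.map_eq_bot_iff, hk]

lemma lcs_tensor_eq_bot (h : LieModule.lowerCentralSeries O L L 4 = ⊥) :
    LieModule.lowerCentralSeries O' (O' ⊗[O] L) (O' ⊗[O] L) 4 = ⊥ := by
  have := LieSubmodule.lowerCentralSeries_tensor_eq_baseChange O O' L L 4
  rw [h, LieSubmodule.baseChange_bot] at this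
  exact this

lemma lcs_le_ker (π : FreeLieAlgebra O (Fin 6) →ₗ⁅O⁆ L)
    (h : LieModule.lowerCentralSeries O L L 4 = ⊥) :
    LieModule.lowerCentralSeries O' (FreeLieAlgebra O' (Fin 6)) (FreeLieAlgebra O' (Fin 6)) 4 ≤
      (pi' (O' := O') π).ker := by
  have h1 := LieIdeal.map_lowerCentralSeries_le (R := O') 4 (f := pi' (O' := O') π)
  rw [lcs_tensor_eq_bot h, le_bot_iff, LieIdeal.map_eq_bot_iff] at h1
  exact h1

lemma ker_le_aux (π : FreeLieAlgebra O (Fin 6) →ₗ⁅O⁆ L) (hs : Function.Surjective π)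
    (hk : π.ker = LieModule.lowerCentralSeries O (FreeLieAlgebra O (Fin 6))
      (FreeLieAlgebra O (Fin 6)) 4) {Q : Type} [LieRing Q] [LieAlgebra O' Q] [Module O Q]
    [IsScalarTower O O' Q] (m : FreeLieAlgebra O' (Fin 6) →ₗ⁅O'⁆ Q) (hm : Function.Surjective m)
    (hmk : m.ker = LieModule.lowerCentralSeries O' (FreeLieAlgebra O' (Fin 6))
      (FreeLieAlgebra O' (Fin 6)) 4) :
    (pi' (O' := O') π).ker ≤ m.ker := by
  let _ : LieAlgebra O Q := lieAlgebraO O O' Q
  have hQ' : LieModule.lowerCentralSeries O' Q Q 4 = ⊥ := lcs_eq_bot m hm hmk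
  have hQ : LieModule.lowerCentralSeries O Q Q 4 = ⊥ := by
    apply SetLike.coe_injective
    rw [LieModule.coe_lowerCentralSeries_eq_int, ← LieModule.coe_lowerCentralSeries_eq_int O', hQ']
    rfl
  let ψ : FreeLieAlgebra O (Fin 6) →ₗ⁅O⁆ Q :=
    FreeLieAlgebra.lift O (fun x => m (FreeLieAlgebra.of O' x))
  have hψ : π.ker ≤ ψ.ker := by
    rw [hk]
    have h1 := LieIdeal.map_lowerCentralSeries_le (R := O) 4 (f := ψ)
    rw [hQ, le_bot_iff, LieIdeal.map_eq_bot_iff] at h1
    exact h1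
  have hψ' : LinearMap.ker (π : FreeLieAlgebra O (Fin 6) →ₗ[O] L) ≤
      LinearMap.ker (ψ : FreeLieAlgebra O (Fin 6) →ₗ[O] Q) := by
    intro x hx
    have : x ∈ π.ker := by
      rw [LieHom.mem_ker]
      exact hx
    have := hψ this
    rw [LieHom.mem_ker] at this
    exact this
  let g : L →ₗ[O] Q :=
    (Submodule.liftQ _ (ψ : FreeLieAlgebra O (Fin 6) →ₗ[O] Q) hψ').comp
      ((π : FreeLieAlgebra O (Fin 6) →ₗ[O] L).quotKerEquivOfSurjective hs).symm.toLinearMap
  have hg : ∀ x, g (π x) = ψ x := by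
    intro x
    have h1 : ((π : FreeLieAlgebra O (Fin 6) →ₗ[O] L).quotKerEquivOfSurjective hs).symm (π x) =
        Submodule.Quotient.mk x := by
      rw [LinearEquiv.symm_apply_eq]
      rfl
    show (Submodule.liftQ _ (ψ : FreeLieAlgebra O (Fin 6) →ₗ[O] Q) hψ')
      (((π : FreeLieAlgebra O (Fin 6) →ₗ[O] L).quotKerEquivOfSurjective hs).symm (π x)) = _
    rw [h1]
    rfl
  have hgb : ∀ u v, g ⁅u, v⁆ = ⁅g u, g v⁆ := by
    intro u v
    obtain ⟨a, rfl⟩ := hs u
    obtain ⟨b, rfl⟩ := hs v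
    rw [← LieHom.map_lie, hg, hg, hg, LieHom.map_lie]
  have hΘ : (extend (O' := O') g hgb).comp (pi' (O' := O') π) = m := by
    apply FreeLieAlgebra.hom_ext
    intro x
    show extend (O' := O') g hgb (pi' (O' := O') π (FreeLieAlgebra.of O' x)) = m _
    rw [pi'_of, extend_one_tmul, hg]
    exact FreeLieAlgebra.lift_of_apply _ _
  intro x hx
  rw [LieHom.mem_ker] at hx ⊢
  rw [← hΘ]
  show extend (O' := O') g hgb (pi' (O' := O') π x) = 0
  rw [hx]
  exact map_zero _

/-- The quotient map as a Lie homomorphism. -/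
noncomputable def mkHom {R F : Type} [CommRing R] [LieRing F] [LieAlgebra R F] (I : LieIdeal R F) :
    F →ₗ⁅R⁆ (F ⧸ I) where
  toLinearMap := I.toSubmodule.mkQ
  map_lie' := by
    intro x y
    exact LieSubmodule.Quotient.mk_bracket I x y

lemma mkHom_surjective {R F : Type} [CommRing R] [LieRing F] [LieAlgebra R F]
    (I : LieIdeal R F) : Function.Surjective (mkHom I) := I.toSubmodule.mkQ_surjective

lemma mkHom_ker {R F : Type} [CommRing R] [LieRing F] [LieAlgebra R F] (I : LieIdeal R F) :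
    (mkHom I).ker = I := by
  ext x
  rw [LieHom.mem_ker]
  exact Submodule.Quotient.mk_eq_zero I.toSubmodule

lemma ker_le_lcs (π : FreeLieAlgebra O (Fin 6) →ₗ⁅O⁆ L) (hs : Function.Surjective π)
    (hk : π.ker = LieModule.lowerCentralSeries O (FreeLieAlgebra O (Fin 6))
      (FreeLieAlgebra O (Fin 6)) 4) :
    (pi' (O' := O') π).ker ≤
      LieModule.lowerCentralSeries O' (FreeLieAlgebra O' (Fin 6)) (FreeLieAlgebra O' (Fin 6)) 4 := by
  set I : LieIdeal O' (FreeLieAlgebra O' (Fin 6)) :=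
    LieModule.lowerCentralSeries O' (FreeLieAlgebra O' (Fin 6)) (FreeLieAlgebra O' (Fin 6)) 4 with hI
  let _ : Module O (FreeLieAlgebra O' (Fin 6) ⧸ I) :=
    Module.compHom (FreeLieAlgebra O' (Fin 6) ⧸ I) (algebraMap O O')
  have : IsScalarTower O O' (FreeLieAlgebra O' (Fin 6) ⧸ I) :=
    IsScalarTower.of_algebraMap_smul fun _ _ => rfl
  have := ker_le_aux π hs hk (mkHom I) (mkHom_surjective I) (mkHom_ker I)
  rw [mkHom_ker] at this
  exact this

end Ten

theorem exists_tensor {O O' L : Type} [CommRing O] [CommRing O'] [Algebra O O'] [LieRing L]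
    [LieAlgebra O L] (π : FreeLieAlgebra O (Fin 6) →ₗ⁅O⁆ L) (hs : Function.Surjective π)
    (hk : π.ker = LieModule.lowerCentralSeries O (FreeLieAlgebra O (Fin 6))
      (FreeLieAlgebra O (Fin 6)) 4)
    (ω : O') (hω : ω ^ 2 + ω + 1 = 0)
    (hb : ∀ a : O', ∃ x y : O, a = algebraMap O O' x + ω * algebraMap O O' y)
    (hi : ∀ x y : O, algebraMap O O' x + ω * algebraMap O O' y = 0 → x = 0 ∧ y = 0)
    (S : Sys O L) (hS : ∀ x, S.e x = π (FreeLieAlgebra.of O x)) :
    ∃ (L' : Type) (_ : LieRing L') (_ : LieAlgebra O' L')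
      (π' : FreeLieAlgebra O' (Fin 6) →ₗ⁅O'⁆ L'),
      Function.Surjective π' ∧
      π'.ker = LieModule.lowerCentralSeries O' (FreeLieAlgebra O' (Fin 6))
        (FreeLieAlgebra O' (Fin 6)) 4 ∧
      ∀ S' : Sys O' L', (∀ x, S'.e x = π' (FreeLieAlgebra.of O' x)) →
        S'.ζ = algebraMap O O' S.ζ → ∃ E : Ext S S', E.ω = ω := by
  refine ⟨O' ⊗[O] L, inferInstance, inferInstance, Ten.pi' π, Ten.pi'_surjective π S hS,
    le_antisymm (Ten.ker_le_lcs π hs hk) (Ten.lcs_le_ker π (Ten.lcs_eq_bot π hs hk)), ?_⟩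
  intro S' hS' hζ'
  have hgen : ∀ u : O' ⊗[O] L, ∃ x y : L, u = (1 : O') ⊗ₜ[O] x + ω • ((1 : O') ⊗ₜ[O] y) := by
    intro u
    induction u using TensorProduct.induction_on with
    | zero => exact ⟨0, 0, by simp⟩
    | tmul a u =>
      obtain ⟨x, y, rfl⟩ := hb a
      refine ⟨x • u, y • u, ?_⟩
      rw [TensorProduct.add_tmul, TensorProduct.tmul_smul, TensorProduct.tmul_smul,
        TensorProduct.smul_tmul', TensorProduct.smul_tmul', TensorProduct.smul_tmul',
        smul_eq_mul, Algebra.smul_def, mul_one, Algebra.smul_def, mul_one]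
    | add u v hu hv =>
      obtain ⟨x, y, rfl⟩ := hu
      obtain ⟨x', y', rfl⟩ := hv
      refine ⟨x + x', y + y', ?_⟩
      rw [TensorProduct.tmul_add, TensorProduct.tmul_add, smul_add]
      abel
  have hli : LinearIndependent O ![(1 : O'), ω] := by
    rw [LinearIndependent.pair_iff]
    intro s t hst
    apply hi s t
    rw [← hst, Algebra.smul_def, Algebra.smul_def, mul_one, mul_comm ω]
  have hsp : ⊤ ≤ Submodule.span O (Set.range ![(1 : O'), ω]) := by
    intro a _
    obtain ⟨x, y, rfl⟩ := hb a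
    have h1 : (1 : O') ∈ Submodule.span O (Set.range ![(1 : O'), ω]) :=
      Submodule.subset_span ⟨0, rfl⟩
    have h2 : ω ∈ Submodule.span O (Set.range ![(1 : O'), ω]) :=
      Submodule.subset_span ⟨1, rfl⟩
    have h3 := Submodule.add_mem _ (Submodule.smul_mem _ x h1) (Submodule.smul_mem _ y h2)
    rw [Algebra.smul_def, Algebra.smul_def, mul_one, mul_comm _ ω] at h3
    exact h3
  let B : Module.Basis (Fin 2) O O' := Module.Basis.mk hli hsp
  have hB0 : B 0 = 1 := by
    rw [Module.Basis.mk_apply]; rfl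
  have hB1 : B 1 = ω := by
    rw [Module.Basis.mk_apply]; rfl
  have hinj : ∀ x y : L, (1 : O') ⊗ₜ[O] x + ω • ((1 : O') ⊗ₜ[O] y) = 0 → x = 0 ∧ y = 0 := by
    intro x y hxy
    have h1 := congrArg (TensorProduct.equivFinsuppOfBasisLeft B (N := L)) hxy
    rw [map_add, TensorProduct.smul_tmul', smul_eq_mul, mul_one, map_zero] at h1
    have h20 := DFunLike.congr_fun h1 0
    have h21 := DFunLike.congr_fun h1 1
    rw [Finsupp.add_apply, TensorProduct.equivFinsuppOfBasisLeft_apply_tmul_apply,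
      TensorProduct.equivFinsuppOfBasisLeft_apply_tmul_apply, ← hB0, ← hB1,
      Module.Basis.repr_self, Module.Basis.repr_self] at h20 h21
    simp at h20 h21
    exact ⟨h20, h21⟩
  exact ⟨{
    ω := ω
    hω := hω
    basis := hb
    indep := hi
    j := (TensorProduct.mk O O' L 1).toAddMonoidHom
    j_smul := by
      intro a u
      show (1 : O') ⊗ₜ[O] (a • u) = (algebraMap O O' a) • ((1 : O') ⊗ₜ[O] u)
      rw [TensorProduct.tmul_smul, algebraMap_smul]
    j_br := by
      intro u v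
      show (1 : O') ⊗ₜ[O] ⁅u, v⁆ = ⁅(1 : O') ⊗ₜ[O] u, (1 : O') ⊗ₜ[O] v⁆
      rw [LieAlgebra.ExtendScalars.bracket_tmul, one_mul]
    j_e := by
      intro x
      show (1 : O') ⊗ₜ[O] S.e x = S'.e x
      rw [hS', hS]
      exact (Ten.pi'_of π x).symm
    gen := hgen
    inj := hinj
    hζ := hζ' }, rfl⟩

end Pool.Agent.Lib.MP_424f45_al
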