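import Pool.Agent.Lib.MP_424f45_al.Fre
import Pool.Agent.Lib.MP_424f45_al.Ten
import Pool.Agent.Lib.MP_424f45_al.Qua
import Pool.Agent.Lib.MP_424f45_al.Ari
import Pool.Agent.Lib.MP_424f45_al.Teq
import Pool.Agent.Lib.MP_424f45_al.BC
import Pool.Agent.Lib.MP_424f45_al.Gam

/-!
# MP_424f45_al: final assembly
-/

set_option autoImplicit false

open Pool.Agent.Lib.MP_424f45_al

namespace Pool.Agent.Lib.MP_424f45_al

theorem final :
    ¬ (∀ c d : ℕ, 2 ≤ d →
    ∃ P Q : Polynomial (Polynomial ℚ), ∃ S : Finset ℕ,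
    ∀ (p : ℕ) [Fact (Nat.Prime p)], p ∉ S →
    ∀ (O : Type) [CommRing O] [IsDomain O] [IsDiscreteValuationRing O]
      [Algebra (PadicInt p) O] [Module.Finite (PadicInt p) O],
    ∀ (L : Type) [LieRing L] [LieAlgebra O L]
      (π : FreeLieAlgebra O (Fin d) →ₗ⁅O⁆ L),
      Function.Surjective π →
      π.ker = LieModule.lowerCentralSeries O (FreeLieAlgebra O (Fin d))
        (FreeLieAlgebra O (Fin d)) c →
      Q.map (Polynomial.evalRingHom ((Nat.card (IsLocalRing.ResidueField O) : ℕ) : ℚ)) ≠ 0 ∧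
      (↑(Q.map (Polynomial.evalRingHom ((Nat.card (IsLocalRing.ResidueField O) : ℕ) : ℚ)))
          : PowerSeries ℚ) *
        PowerSeries.mk (fun k : ℕ =>
          ((Set.ncard {I : LieIdeal O L |
              (I : Submodule O L) =
                (⨆ i : ℕ, ((I : Submodule O L) ⊓
                  Submodule.span O {y : L | ∃ (j : Fin d) (w : List (Fin d)),
                    w.length = i ∧
                    y = List.foldr (fun (k : Fin d) (a : L) => ⁅π (FreeLieAlgebra.of O k), a⁆)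
                      (π (FreeLieAlgebra.of O j)) w})) ∧
              Nat.card (L ⧸ (I : Submodule O L)) =
                (Nat.card (IsLocalRing.ResidueField O)) ^ k} : ℕ) : ℚ))
        = (↑(P.map (Polynomial.evalRingHom ((Nat.card (IsLocalRing.ResidueField O) : ℕ) : ℚ)))
            : PowerSeries ℚ)) := by
  intro H
  obtain ⟨P, Q, S₀, H⟩ := H 4 6 (by norm_num)
  refine arith P Q S₀ 26 ?_
  intro p hp hpS hp3 hp5
  have : Fact p.Prime := ⟨hp⟩
  -- the ring `ℤ_p`
  have hcard : Nat.card (IsLocalRing.ResidueField ℤ_[p]) = p := by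
    rw [Nat.card_congr (PadicInt.residueField (p := p)).toEquiv, Nat.card_zmod]
  have : Finite (IsLocalRing.ResidueField ℤ_[p]) :=
    Nat.finite_of_card_ne_zero (by rw [hcard]; exact hp.ne_zero)
  obtain ⟨ζ, hζ, hu⟩ := exists_zeta p hp5
  let N := LieModule.lowerCentralSeries ℤ_[p] (FreeLieAlgebra ℤ_[p] (Fin 6))
    (FreeLieAlgebra ℤ_[p] (Fin 6)) 4
  let L := FreeLieAlgebra ℤ_[p] (Fin 6) ⧸ N
  let π : FreeLieAlgebra ℤ_[p] (Fin 6) →ₗ⁅ℤ_[p]⁆ L :=
    { toLinearMap := (LieSubmodule.Quotient.mk' N : _ →ₗ[ℤ_[p]] _)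
      map_lie' := rfl }
  have hπs : Function.Surjective π := LieSubmodule.Quotient.surjective_mk' N
  have hπk : π.ker = N := by
    ext x
    rw [LieHom.mem_ker]
    exact Submodule.Quotient.mk_eq_zero (N : Submodule ℤ_[p] (FreeLieAlgebra ℤ_[p] (Fin 6)))
  obtain ⟨S, hSζ, hSe⟩ := exists_sys π hπs hπk ζ hζ hu
  obtain ⟨O', i1, i2, i3, i4, i5, ω, hω, hb, hi, hirr, hcard'⟩ := exists_quadratic p hp3
  obtain ⟨L', j1, j2, π', hs', hk', hE⟩ := exists_tensor (O' := O') π hπs hπk ω hω hb hi S hSe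
  have hζ' : (algebraMap ℤ_[p] O' ζ) ^ 5 = 1 := by rw [← map_pow, hζ, map_one]
  have hu' : ∀ k : ℕ, ¬ 5 ∣ k → IsUnit ((algebraMap ℤ_[p] O' ζ) ^ k - 1) := by
    intro k hk
    have := (hu k hk).map (algebraMap ℤ_[p] O')
    rwa [map_sub, map_pow, map_one] at this
  obtain ⟨S', hSζ', hSe'⟩ := exists_sys π' hs' hk' _ hζ' hu'
  obtain ⟨E, hEω⟩ := hE S' hSe' (by rw [hSζ', hSζ])
  have : Finite (IsLocalRing.ResidueField O') :=
    Nat.finite_of_card_ne_zero (by rw [hcard']; exact pow_ne_zero _ hp.ne_zero)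
  have h1 := H p hpS ℤ_[p] L π hπs hπk
  have h2 := H p hpS O' L' π' hs' hk'
  rw [hcard] at h1
  rw [hcard'] at h2
  refine ⟨_, _, h1, h2, ?_⟩
  intro hab
  have f1 := frozen_modEq S 26
  have f2 := frozen_modEq S' 26
  rw [hcard] at f1
  rw [hcard'] at f2
  simp only [Sys.V, hSe] at f1
  simp only [Sys.V, hSe'] at f2
  have hϖ : Irreducible (p : ℤ_[p]) := PadicInt.irreducible_p
  have t1 := tup_modEq E (p : ℤ_[p]) hϖ hirr 26
  have hp4 : 4 < p := by omega
  have unit_of : ∀ m : ℕ, 0 < m → m < 4 → IsUnit ((m : ℕ) : ℤ_[p]) := by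
    intro m h0 h4
    rw [PadicInt.isUnit_iff]
    by_contra hne
    have h1 : ‖((m : ℤ) : ℤ_[p])‖ < 1 := lt_of_le_of_ne (PadicInt.norm_le_one _) (by simpa using hne)
    rw [PadicInt.norm_int_lt_one_iff_dvd] at h1
    have := Int.le_of_dvd (by exact_mod_cast h0) h1
    omega
  have g1 := gamma_card E (p : ℤ_[p]) hϖ hirr (by simpa using unit_of 2 (by norm_num) (by norm_num))
    (by simpa using unit_of 3 (by norm_num) (by norm_num))
  rw [g1] at t1
  have := f1.symm.trans (hab.trans f2)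
  have h5 := this.trans t1
  have h6 : (S.Tup 26).ncard + 0 ≡ (S.Tup 26).ncard + 4 [MOD 5] := h5
  have h7 := Nat.ModEq.add_left_cancel' _ h6
  exact absurd h7 (by decide)

end Pool.Agent.Lib.MP_424f45_al
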