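import Pool.Agent.Lib.MP_424f45_al.Ten

/-!
# MP_424f45_al: operators and coefficients on the free nilpotent Lie algebra
-/

set_option autoImplicit false

namespace Pool.Agent.Lib.MP_424f45_al

namespace Fre

/-! ### words and the monoid algebra -/

section words

variable (O : Type) [CommRing O]

/-- the algebra of noncommutative polynomials -/
abbrev A := MonoidAlgebra O (FreeMonoid (Fin 6))

/-- elements all of whose words have length at least `k` -/
def N (k : ℕ) : Submodule O (A O) where
  carrier := {f | ∀ w : FreeMonoid (Fin 6), w.length < k → f.coeff w = 0}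
  zero_mem' := by
    intro w _
    simp
  add_mem' := by
    intro f g hf hg w hw
    have h1 := hf w hw
    have h2 := hg w hw
    simp [h1, h2]
  smul_mem' := by
    intro a f hf w hw
    have h1 := hf w hw
    simp [h1]

theorem N_mul {a b : ℕ} {f g : A O} (hf : f ∈ N O a) (hg : g ∈ N O b) : f * g ∈ N O (a + b) := by
  classical
  intro w hw
  rw [MonoidAlgebra.coeff_mul]
  refine Finset.sum_eq_zero fun m1 _ => Finset.sum_eq_zero fun m2 _ => ?_
  show (if m1 * m2 = w then f.coeff m1 * g.coeff m2 else 0) = 0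
  by_cases h : m1 * m2 = w
  · rw [if_pos h]
    have hl : m1.length + m2.length = w.length := by rw [← h, FreeMonoid.length_mul]
    by_cases h1 : m1.length < a
    · rw [hf m1 h1, zero_mul]
    · rw [hg m2 (by omega), mul_zero]
  · rw [if_neg h]

theorem N_anti {a b : ℕ} (h : a ≤ b) : N O b ≤ N O a :=
  fun _ hf w hw => hf w (lt_of_lt_of_le hw h)

/-- the letter `x` -/
noncomputable def X (x : Fin 6) : A O := MonoidAlgebra.single (FreeMonoid.of x) 1

theorem X_mem (x : Fin 6) : X O x ∈ N O 1 := by
  classical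
  intro w hw
  unfold X
  rw [MonoidAlgebra.coeff_single, Finsupp.single_apply, if_neg]
  rintro rfl
  simp at hw

theorem coeff_X (x : Fin 6) (w : List (Fin 6)) :
    (X O x).coeff (FreeMonoid.ofList w) = if w = [x] then 1 else 0 := by
  classical
  unfold X
  rw [MonoidAlgebra.coeff_single, Finsupp.single_apply]
  have : (FreeMonoid.of x = FreeMonoid.ofList w) ↔ w = [x] := by
    constructor
    · intro h
      have := congrArg FreeMonoid.toList h
      simpa using this.symm
    · rintro rfl
      rfl
  simp only [this]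

theorem coeff_X_mul (x : Fin 6) (f : A O) (w : List (Fin 6)) :
    (X O x * f).coeff (FreeMonoid.ofList w) =
      if w.head? = some x then f.coeff (FreeMonoid.ofList w.tail) else 0 := by
  unfold X
  rcases w with _ | ⟨a, w⟩
  · rw [MonoidAlgebra.coeff_single_mul_of_forall_mul_ne]
    · simp
    · intro d h
      have := congrArg FreeMonoid.length h
      rw [FreeMonoid.length_mul, FreeMonoid.length_of] at this
      simp at this
  · by_cases h : a = x
    · subst h
      rw [MonoidAlgebra.coeff_single_mul_eq_mul_coeff (FreeMonoid.ofList w)]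
      · simp
      · intro m' _
        constructor
        · intro h
          have h1 : FreeMonoid.of a * m' = FreeMonoid.of a * FreeMonoid.ofList w := h
          exact mul_left_cancel h1
        · rintro rfl
          rfl
    · rw [MonoidAlgebra.coeff_single_mul_of_forall_mul_ne]
      · simp [h]
      · intro d hd
        have h1 := congrArg FreeMonoid.toList hd
        simp only [FreeMonoid.toList_mul, FreeMonoid.toList_of, FreeMonoid.toList_ofList,
          List.singleton_append, List.cons.injEq] at h1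
        exact h h1.1.symm

theorem coeff_mul_X (x : Fin 6) (f : A O) (w : List (Fin 6)) :
    (f * X O x).coeff (FreeMonoid.ofList w) =
      if w.getLast? = some x then f.coeff (FreeMonoid.ofList w.dropLast) else 0 := by
  unfold X
  rcases List.eq_nil_or_concat w with rfl | ⟨w, a, rfl⟩
  · rw [MonoidAlgebra.coeff_mul_single_of_forall_mul_ne]
    · simp
    · intro d h
      have := congrArg FreeMonoid.length h
      rw [FreeMonoid.length_mul, FreeMonoid.length_of] at this
      simp at this
  · have hc : FreeMonoid.ofList (w.concat a) = FreeMonoid.ofList w * FreeMonoid.of a := by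
      rw [List.concat_eq_append, FreeMonoid.ofList_append]
      rfl
    by_cases h : a = x
    · subst h
      rw [hc, MonoidAlgebra.coeff_mul_single_eq_coeff_mul (FreeMonoid.ofList w)]
      · simp
      · intro m' _
        constructor
        · intro h
          exact mul_right_cancel h
        · intro h
          rw [h]
    · rw [MonoidAlgebra.coeff_mul_single_of_forall_mul_ne]
      · simp [h]
      · intro d hd
        have h1 := congrArg FreeMonoid.toList hd
        rw [FreeMonoid.toList_mul, FreeMonoid.toList_of, FreeMonoid.toList_ofList,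
          List.concat_eq_append] at h1
        have h2 := List.append_inj_right' h1 rfl
        simp only [List.cons.injEq, and_true] at h2
        exact h h2.symm

end words

section main

attribute [local instance 100] LieRing.ofAssociativeRing

variable {O L : Type} [CommRing O] [LieRing L] [LieAlgebra O L]

/-- the Lie homomorphism to noncommutative polynomials -/
noncomputable def ι (O : Type) [CommRing O] : FreeLieAlgebra O (Fin 6) →ₗ⁅O⁆ A O :=
  FreeLieAlgebra.lift O (X O)

theorem ι_of (x : Fin 6) : ι O (FreeLieAlgebra.of O x) = X O x := by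
  unfold ι
  rw [FreeLieAlgebra.lift_of_apply]

/-- induction for the free Lie algebra -/
theorem free_induct {p : FreeLieAlgebra O (Fin 6) → Prop} (h0 : p 0)
    (hadd : ∀ u v, p u → p v → p (u + v)) (hsmul : ∀ (a : O) u, p u → p (a • u))
    (he : ∀ x, p (FreeLieAlgebra.of O x)) (hbr : ∀ u v, p u → p v → p ⁅u, v⁆)
    (u : FreeLieAlgebra O (Fin 6)) : p u := by
  let K : LieSubalgebra O (FreeLieAlgebra O (Fin 6)) :=
    { carrier := {u | p u}
      zero_mem' := h0
      add_mem' := fun {a b} ha hb => hadd a b ha hb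
      smul_mem' := fun c {x} hx => hsmul c x hx
      lie_mem' := fun {a b} ha hb => hbr a b ha hb }
  let g : FreeLieAlgebra O (Fin 6) →ₗ⁅O⁆ K :=
    FreeLieAlgebra.lift O (fun x => ⟨FreeLieAlgebra.of O x, he x⟩)
  have hg : K.incl.comp g = LieHom.id := by
    apply FreeLieAlgebra.hom_ext
    intro x
    show ((g (FreeLieAlgebra.of O x) : K) : FreeLieAlgebra O (Fin 6)) = FreeLieAlgebra.of O x
    rw [FreeLieAlgebra.lift_of_apply]
  have h1 : ((g u : K) : FreeLieAlgebra O (Fin 6)) = u := by
    have := congrArg (fun f : FreeLieAlgebra O (Fin 6) →ₗ⁅O⁆ FreeLieAlgebra O (Fin 6) => f u) hg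
    exact this
  rw [← h1]
  exact (g u).2

theorem ι_mem (u : FreeLieAlgebra O (Fin 6)) : ι O u ∈ N O 1 := by
  refine free_induct (p := fun u => ι O u ∈ N O 1) ?_ ?_ ?_ ?_ ?_ u
  · rw [map_zero]; exact Submodule.zero_mem _
  · intro u v hu hv; rw [map_add]; exact Submodule.add_mem _ hu hv
  · intro a u hu; rw [map_smul]; exact Submodule.smul_mem _ _ hu
  · intro x; rw [ι_of]; exact X_mem O x
  · intro u v hu hv
    rw [LieHom.map_lie, Ring.lie_def]
    exact Submodule.sub_mem _ (N_anti O (by norm_num) (N_mul O hu hv))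
      (N_anti O (by norm_num) (N_mul O hv hu))

theorem ι_lcs (k : ℕ) : ∀ u ∈ LieModule.lowerCentralSeries O (FreeLieAlgebra O (Fin 6))
    (FreeLieAlgebra O (Fin 6)) k, ι O u ∈ N O (k + 1) := by
  induction k with
  | zero => intro u _; exact ι_mem u
  | succ k ih =>
    intro u hu
    rw [LieModule.lowerCentralSeries_succ, ← LieSubmodule.mem_toSubmodule,
      LieSubmodule.lieIdeal_oper_eq_linear_span'] at hu
    refine Submodule.span_induction ?_ ?_ ?_ ?_ hu
    · rintro _ ⟨x, -, n, hn, rfl⟩
      have h1 := ih n hn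
      rw [LieHom.map_lie, Ring.lie_def]
      exact Submodule.sub_mem _ (by have := N_mul O (ι_mem x) h1; rwa [add_comm] at this)
        (N_mul O h1 (ι_mem x))
    · rw [map_zero]; exact Submodule.zero_mem _
    · intro a b _ _ ha hb; rw [map_add]; exact Submodule.add_mem _ ha hb
    · intro a b _ hb; rw [map_smul]; exact Submodule.smul_mem _ _ hb

/-- descend a linear map -/
theorem descend (π : FreeLieAlgebra O (Fin 6) →ₗ⁅O⁆ L) (hs : Function.Surjective π)
    {M : Type} [AddCommGroup M] [Module O M] (φ : FreeLieAlgebra O (Fin 6) →ₗ[O] M)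
    (h : ∀ u, π u = 0 → φ u = 0) : ∃ ψ : L →ₗ[O] M, ∀ u, ψ (π u) = φ u := by
  let p : FreeLieAlgebra O (Fin 6) →ₗ[O] L := π
  have hp : Function.Surjective p := hs
  have hker : LinearMap.ker p ≤ LinearMap.ker φ := by
    intro u hu
    exact h u hu
  refine ⟨(LinearMap.ker p).liftQ φ hker ∘ₗ (p.quotKerEquivOfSurjective hp).symm.toLinearMap, ?_⟩
  intro u
  have h1 : (p.quotKerEquivOfSurjective hp).symm (π u) = Submodule.Quotient.mk u := by
    rw [LinearEquiv.symm_apply_eq]
    rfl
  show (LinearMap.ker p).liftQ φ hker ((p.quotKerEquivOfSurjective hp).symm (π u)) = φ u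
  rw [h1]
  rfl

theorem br_mem_lcs (w : List (Fin 6)) (j : Fin 6) : br (fun x => FreeLieAlgebra.of O x) w j ∈
    LieModule.lowerCentralSeries O (FreeLieAlgebra O (Fin 6)) (FreeLieAlgebra O (Fin 6))
      w.length := by
  induction w with
  | nil => exact LieSubmodule.mem_top _
  | cons x w ih =>
    rw [List.length_cons, LieModule.lowerCentralSeries_succ]
    exact LieSubmodule.lie_mem_lie (LieSubmodule.mem_top _) ih

theorem span_br : Submodule.span O {y : FreeLieAlgebra O (Fin 6) | ∃ (w : List (Fin 6))
    (j : Fin 6), y = br (fun x => FreeLieAlgebra.of O x) w j} = ⊤ := by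
  set M := Submodule.span O {y : FreeLieAlgebra O (Fin 6) | ∃ (w : List (Fin 6))
    (j : Fin 6), y = br (fun x => FreeLieAlgebra.of O x) w j} with hM
  have hgen : ∀ x : Fin 6, ∀ m ∈ M, ⁅FreeLieAlgebra.of O x, m⁆ ∈ M := by
    intro x m hm
    refine Submodule.span_induction ?_ ?_ ?_ ?_ hm
    · rintro _ ⟨w, j, rfl⟩
      exact Submodule.subset_span ⟨x :: w, j, rfl⟩
    · rw [lie_zero]; exact M.zero_mem
    · intro a b _ _ ha hb; rw [lie_add]; exact M.add_mem ha hb
    · intro a b _ hb; rw [lie_smul]; exact M.smul_mem _ hb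
  have hbr : ∀ u : FreeLieAlgebra O (Fin 6), ∀ m ∈ M, ⁅u, m⁆ ∈ M := by
    intro u
    refine free_induct (p := fun u => ∀ m ∈ M, ⁅u, m⁆ ∈ M) ?_ ?_ ?_ hgen ?_ u
    · intro m _; rw [zero_lie]; exact M.zero_mem
    · intro u v hu hv m hm; rw [add_lie]; exact M.add_mem (hu m hm) (hv m hm)
    · intro a u hu m hm; rw [smul_lie]; exact M.smul_mem a (hu m hm)
    · intro u v hu hv m hm
      rw [lie_lie]
      exact M.sub_mem (hu _ (hv m hm)) (hv _ (hu m hm))
  rw [eq_top_iff]
  intro u _
  refine free_induct (O := O) (p := fun u => u ∈ M) M.zero_mem (fun u v => M.add_mem)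
    (fun a u hu => M.smul_mem a hu) ?_ ?_ u
  · intro x
    exact Submodule.subset_span ⟨[], x, rfl⟩
  · intro u v _ hv
    exact hbr u v hv

theorem ι_coeff_lie (x : Fin 6) (u : FreeLieAlgebra O (Fin 6)) (w : List (Fin 6)) :
    (ι O ⁅FreeLieAlgebra.of O x, u⁆).coeff (FreeMonoid.ofList w) =
      (if w.head? = some x then (ι O u).coeff (FreeMonoid.ofList w.tail) else 0) -
      (if w.getLast? = some x then (ι O u).coeff (FreeMonoid.ofList w.dropLast) else 0) := by
  rw [LieHom.map_lie, ι_of, Ring.lie_def]
  have h1 : (X O x * ι O u - ι O u * X O x).coeff (FreeMonoid.ofList w) =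
      (X O x * ι O u).coeff (FreeMonoid.ofList w) -
      (ι O u * X O x).coeff (FreeMonoid.ofList w) := by simp
  rw [h1, coeff_X_mul, coeff_mul_X]

/-- the coefficient of a word, as a linear map -/
noncomputable def cL (O : Type) [CommRing O] (w : List (Fin 6)) :
    FreeLieAlgebra O (Fin 6) →ₗ[O] O where
  toFun := fun f => (ι O f).coeff (FreeMonoid.ofList w)
  map_add' := fun f g => by simp
  map_smul' := fun a f => by simp

theorem cL_apply (w : List (Fin 6)) (u : FreeLieAlgebra O (Fin 6)) :
    cL O w u = (ι O u).coeff (FreeMonoid.ofList w) := rfl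

theorem cL_lie (x : Fin 6) (u : FreeLieAlgebra O (Fin 6)) (w : List (Fin 6)) :
    cL O w ⁅FreeLieAlgebra.of O x, u⁆ =
      (if w.head? = some x then cL O w.tail u else 0) -
      (if w.getLast? = some x then cL O w.dropLast u else 0) :=
  ι_coeff_lie x u w

theorem cL_of (x : Fin 6) (w : List (Fin 6)) :
    cL O w (FreeLieAlgebra.of O x) = if w = [x] then 1 else 0 := by
  rw [cL_apply, ι_of, coeff_X]

theorem cL_lcs {w : List (Fin 6)} (hw : w.length ≤ 4) {u : FreeLieAlgebra O (Fin 6)}
    (hu : u ∈ LieModule.lowerCentralSeries O (FreeLieAlgebra O (Fin 6))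
      (FreeLieAlgebra O (Fin 6)) 4) : cL O w u = 0 :=
  ι_lcs 4 u hu (FreeMonoid.ofList w) (by
    have : (FreeMonoid.ofList w).length = w.length := rfl
    omega)

end main

end Fre

open Fre in
theorem exists_sys {O L : Type} [CommRing O] [LieRing L] [LieAlgebra O L]
    (π : FreeLieAlgebra O (Fin 6) →ₗ⁅O⁆ L) (hs : Function.Surjective π)
    (hk : π.ker = LieModule.lowerCentralSeries O (FreeLieAlgebra O (Fin 6))
      (FreeLieAlgebra O (Fin 6)) 4)
    (ζ : O) (hζ : ζ ^ 5 = 1) (hu : ∀ k : ℕ, ¬ 5 ∣ k → IsUnit (ζ ^ k - 1)) :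
    ∃ S : Sys O L, S.ζ = ζ ∧ ∀ x, S.e x = π (FreeLieAlgebra.of O x) := by
  classical
  have hlcs : LieModule.lowerCentralSeries O L L 4 = ⊥ := Ten.lcs_eq_bot π hs hk
  have hker : ∀ u, π u = 0 → u ∈ LieModule.lowerCentralSeries O (FreeLieAlgebra O (Fin 6))
      (FreeLieAlgebra O (Fin 6)) 4 := by
    intro u hu
    rw [← hk]
    exact hu
  have hbrπ : ∀ w j, br (fun x => π (FreeLieAlgebra.of O x)) w j =
      π (br (fun x => FreeLieAlgebra.of O x) w j) := by
    intro w j
    rw [Ten.br_map]
  -- extension of maps on generators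
  have hlift : ∀ g : Fin 6 → L, ∃ f : L →ₗ⁅O⁆ L, ∀ x, f (π (FreeLieAlgebra.of O x)) = g x := by
    intro g
    let F : FreeLieAlgebra O (Fin 6) →ₗ⁅O⁆ L := FreeLieAlgebra.lift O g
    have hF : ∀ u, π u = 0 → F u = 0 := by
      intro u hu
      have h1 := LieIdeal.map_lowerCentralSeries_le (R := O) 4 (f := F)
      rw [hlcs, le_bot_iff, LieIdeal.map_eq_bot_iff] at h1
      exact h1 (hker u hu)
    obtain ⟨ψ, hψ⟩ := descend π hs (F : FreeLieAlgebra O (Fin 6) →ₗ[O] L) hF
    refine ⟨{ toLinearMap := ψ, map_lie' := ?_ }, ?_⟩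
    · intro a b
      obtain ⟨a, rfl⟩ := hs a
      obtain ⟨b, rfl⟩ := hs b
      show ψ ⁅π a, π b⁆ = ⁅ψ (π a), ψ (π b)⁆
      rw [← LieHom.map_lie, hψ, hψ, hψ]
      exact F.map_lie a b
    · intro x
      show ψ (π (FreeLieAlgebra.of O x)) = g x
      rw [hψ]
      show F (FreeLieAlgebra.of O x) = g x
      rw [FreeLieAlgebra.lift_of_apply]
  -- coefficients
  have hcw : ∀ w : List (Fin 6), ∃ ψ : L →ₗ[O] O, (w.length ≤ 4 → ∀ u, ψ (π u) =
      cL O w u) ∧ (¬ w.length ≤ 4 → ψ = 0) := by
    intro w
    by_cases hw : w.length ≤ 4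
    · obtain ⟨ψ, hψ⟩ := descend π hs (cL O w) (fun u hu => cL_lcs hw (hker u hu))
      exact ⟨ψ, fun _ u => hψ u, fun h => absurd hw h⟩
    · exact ⟨0, fun h => absurd h hw, fun _ => rfl⟩
  choose cw hcw1 hcw2 using hcw
  choose f hf using hlift
  refine ⟨{ e := fun x => π (FreeLieAlgebra.of O x)
            ζ := ζ
            hζ := hζ
            hu := hu
            span := ?_
            nil := ?_
            τ := fun x => f (fun y => if y = x then ζ • π (FreeLieAlgebra.of O y) else
              π (FreeLieAlgebra.of O y))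
            τ_e := fun x y => hf _ y
            s := f (fun y => π (FreeLieAlgebra.of O (sh y)))
            s_e := fun x => hf _ x
            cw := cw
            cw_e := ?_
            cw_ad := ?_ }, rfl, fun x => rfl⟩
  · rw [eq_top_iff]
    intro u _
    obtain ⟨v, rfl⟩ := hs u
    have hv : v ∈ Submodule.span O {y : FreeLieAlgebra O (Fin 6) | ∃ (w : List (Fin 6))
      (j : Fin 6), y = br (fun x => FreeLieAlgebra.of O x) w j} := by rw [span_br]; trivial
    refine Submodule.span_induction ?_ ?_ ?_ ?_ hv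
    · rintro _ ⟨w, j, rfl⟩
      by_cases hw : w.length ≤ 3
      · exact Submodule.subset_span ⟨w, j, hw, (hbrπ w j).symm⟩
      · have h1 : br (fun x => FreeLieAlgebra.of O x) w j ∈ π.ker := by
          rw [hk]
          exact LieModule.antitone_lowerCentralSeries O _ _ (by omega : 4 ≤ w.length)
            (br_mem_lcs w j)
        have h2 : π (br (fun x => FreeLieAlgebra.of O x) w j) = 0 := h1
        rw [h2]
        exact Submodule.zero_mem _
    · rw [map_zero]; exact Submodule.zero_mem _
    · intro a b _ _ ha hb; rw [map_add]; exact Submodule.add_mem _ ha hb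
    · intro a b _ hb; rw [map_smul]; exact Submodule.smul_mem _ _ hb
  · intro w j hw
    rw [hbrπ]
    have h1 : br (fun x => FreeLieAlgebra.of O x) w j ∈ π.ker := by
      rw [hk]
      exact LieModule.antitone_lowerCentralSeries O _ _ hw (br_mem_lcs w j)
    exact h1
  · intro w x
    by_cases hw : w.length ≤ 4
    · rw [hcw1 w hw, cL_of]
    · rw [hcw2 w hw, if_neg]
      · rfl
      · rintro rfl
        simp at hw
  · intro w x u hw
    obtain ⟨u, rfl⟩ := hs u
    rw [← LieHom.map_lie, hcw1 w hw, hcw1 w.tail (by simp; omega), hcw1 w.dropLast (by simp; omega),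
      cL_lie]

end Pool.Agent.Lib.MP_424f45_al
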