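import Pool.Agent.Lib.MP_424f45_al.PG
import Pool.Agent.Lib.MP_424f45_al.Eig1
import Pool.Agent.Lib.MP_424f45_al.GLB

set_option autoImplicit false
set_option linter.unusedSectionVars false

namespace Pool.Agent.Lib.MP_424f45_al


/-! ### finite modules over a discrete valuation ring -/

theorem infinite_of_dvr (O : Type) [CommRing O] [IsDomain O] [IsDiscreteValuationRing O] :
    Infinite O := by
  by_contra h
  rw [not_infinite_iff_finite] at h
  exact IsDiscreteValuationRing.not_isField O (Finite.isField_of_domain O)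

theorem exists_decomp {O : Type} [CommRing O] [IsDomain O] [IsDiscreteValuationRing O]
    {M : Type} [AddCommGroup M] [Module O M] [Finite M] :
    ∃ (r : ℕ) (b : Fin r → M), (∀ m : M, ∃ x : Fin r → O, m = ∑ i, x i • b i) ∧
      ∀ x : Fin r → O, ∑ i, x i • b i = 0 → ∀ i, x i • b i = 0 := by
  classical
  have := infinite_of_dvr O
  have hT : Module.IsTorsion O M := by
    intro m
    obtain ⟨a, a', hne, h⟩ := Finite.exists_ne_map_eq_of_infinite (fun a : O => a • m)
    refine ⟨⟨a - a', mem_nonZeroDivisors_of_ne_zero (sub_ne_zero.mpr hne)⟩, ?_⟩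
    show (a - a') • m = 0
    rw [sub_smul]
    exact sub_eq_zero.mpr h
  obtain ⟨ι, hι, p, hp, e, ⟨φ⟩⟩ := Module.equiv_directSum_of_isTorsion hT
  let b' : ι → M := fun i => φ.symm (DirectSum.of (fun i => O ⧸ Ideal.span {p i ^ e i}) i
    (Ideal.Quotient.mk _ 1))
  have hb : ∀ x : ι → O, ∑ i, x i • b' i = φ.symm (∑ i,
      DirectSum.of (fun i => O ⧸ Ideal.span {p i ^ e i}) i (Ideal.Quotient.mk _ (x i))) := by
    intro x
    rw [map_sum]
    refine Finset.sum_congr rfl fun i _ => ?_
    show x i • φ.symm _ = _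
    rw [← map_smul]
    congr 1
    rw [← DirectSum.lof_eq_of O, ← DirectSum.lof_eq_of O, ← map_smul]
    congr 1
    show Ideal.Quotient.mk _ (x i * 1) = _
    rw [mul_one]
  have key : ∀ x : ι → O, ∀ i, (∑ k, DirectSum.of (fun i => O ⧸ Ideal.span {p i ^ e i}) k
      (Ideal.Quotient.mk _ (x k))) i = Ideal.Quotient.mk _ (x i) := by
    intro x i
    rw [DFinsupp.finsetSum_apply, Finset.sum_eq_single i]
    · exact DirectSum.of_eq_same _ _
    · intro k _ hk
      exact DirectSum.of_eq_of_ne _ _ _ hk.symm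
    · intro h
      exact absurd (Finset.mem_univ _) h
  let f := Fintype.equivFin ι
  refine ⟨Fintype.card ι, fun k => b' (f.symm k), ?_, ?_⟩
  · intro m
    have h1 : ∀ i, ∃ x : O, Ideal.Quotient.mk (Ideal.span {p i ^ e i}) x = (φ m) i :=
      fun i => Ideal.Quotient.mk_surjective _
    choose x hx using h1
    refine ⟨fun k => x (f.symm k), ?_⟩
    rw [Equiv.sum_comp f.symm (fun i => x i • b' i), hb, LinearEquiv.eq_symm_apply]
    refine DFinsupp.ext fun i => ?_
    rw [← hx i]
    exact (key x i).symm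
  · intro x hx k
    have h0 : ∑ i, x (f i) • b' i = 0 := by
      rw [← hx, ← Equiv.sum_comp f.symm (fun i => x (f i) • b' i)]
      simp
    rw [hb] at h0
    have h1 : (∑ i, DirectSum.of (fun i => O ⧸ Ideal.span {p i ^ e i}) i
        (Ideal.Quotient.mk _ (x (f i)))) = 0 := by
      have := congrArg φ h0
      rwa [LinearEquiv.apply_symm_apply, map_zero] at this
    have h2 := key (fun i => x (f i)) (f.symm k)
    rw [h1] at h2
    simp only [Equiv.apply_symm_apply] at h2
    show x k • φ.symm _ = 0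
    rw [← map_smul, LinearEquiv.symm_apply_eq, map_zero, ← DirectSum.lof_eq_of O, ← map_smul]
    have h3 : x k • (Ideal.Quotient.mk (Ideal.span {p (f.symm k) ^ e (f.symm k)}) 1) = 0 := by
      show Ideal.Quotient.mk _ (x k * 1) = 0
      rw [mul_one]
      exact h2.symm
    rw [h3, map_zero]



theorem ix_eq_relIndex {O L : Type} [CommRing O] [AddCommGroup L] [Module O L]
    (A B : Submodule O L) : ix A B = A.toAddSubgroup.relIndex B.toAddSubgroup := rfl

/-! ### operators of order five on submodules -/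

section Five

variable {R M : Type} [CommRing R] [AddCommGroup M] [Module R M]

theorem comap5 {T : M →ₗ[R] M} (h5 : ∀ u, T^[5] u = u) (W : Submodule R M) :
    (fun W : Submodule R M => W.comap T)^[5] W = W := by
  ext u
  have := h5 u
  simp only [Function.iterate_succ, Function.iterate_zero, Function.comp, id] at this ⊢
  simp only [Submodule.mem_comap]
  rw [this]

theorem le_comap_iff {T : M →ₗ[R] M} (h5 : ∀ u, T^[5] u = u) (W : Submodule R M) :
    (∀ u ∈ W, T u ∈ W) ↔ W.comap T = W := by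
  constructor
  · intro h
    refine le_antisymm ?_ h
    intro u hu
    have h1 : T u ∈ W := hu
    have h2 := h5 u
    simp only [Function.iterate_succ, Function.iterate_zero, Function.comp, id] at h2
    rw [← h2]
    exact h _ (h _ (h _ (h _ h1)))
  · intro h u hu
    rw [← h] at hu
    exact hu

theorem map_eq_of_stable {T : M →ₗ[R] M} (h5 : ∀ u, T^[5] u = u) (W : Submodule R M)
    (h : ∀ u ∈ W, T u ∈ W) : W.map T = W := by
  refine le_antisymm ?_ ?_
  · rintro _ ⟨u, hu, rfl⟩
    exact h u hu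
  · intro u hu
    have h2 := h5 u
    simp only [Function.iterate_succ, Function.iterate_zero, Function.comp, id] at h2
    exact ⟨T (T (T (T u))), h _ (h _ (h _ (h _ hu))), h2⟩

theorem prop5 {α : Type*} {f : α → α} {P : α → Prop} (hf : ∀ x, P x → P (f x)) {x : α}
    (h5 : f^[5] x = x) (h : P (f x)) : P x := by
  simp only [Function.iterate_succ, Function.iterate_zero, Function.comp, id] at h5
  rw [← h5]
  exact hf _ (hf _ (hf _ (hf _ h)))

theorem ix_comap {T : M →ₗ[R] M} (h5 : ∀ u, T^[5] u = u) (W B : Submodule R M)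
    (h : ∀ u ∈ B, T u ∈ B) : ix (W.comap T) B = ix W B := by
  have h1 := map_eq_of_stable h5 B h
  conv_rhs => rw [← h1]
  rw [ix_eq_relIndex, ix_eq_relIndex]
  exact AddSubgroup.relIndex_comap (H := W.toAddSubgroup) (f := T.toAddMonoidHom)
    (K := B.toAddSubgroup)

end Five

section Main

variable {O L O' L' : Type} [CommRing O] [IsDomain O] [IsDiscreteValuationRing O]
  [CommRing O'] [IsDomain O'] [IsDiscreteValuationRing O'] [Algebra O O']
  [LieRing L] [LieAlgebra O L] [LieRing L'] [LieAlgebra O' L']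
  {S : Sys O L} {S' : Sys O' L'} (E : Ext S S')

/-- all nonrational submodules of index `N` between `bc A` and `bc B` -/
def XA (A B : Submodule O L) (N : ℕ) : Set (Submodule O' L') :=
  {W | E.bc A ≤ W ∧ W ≤ E.bc B ∧ ¬ E.Rat W ∧ ix W (E.bc B) = N}

omit [IsDomain O] [IsDiscreteValuationRing O] [IsDomain O'] [IsDiscreteValuationRing O'] in
theorem XA_comap {A B : Submodule O L} {N : ℕ} {T : L' →ₗ[O'] L'} (h5 : ∀ u, T^[5] u = u)
    (t : L → L) (hT : ∀ u v, T (E.j u + E.ω • E.j v) = E.j (t u) + E.ω • E.j (t v))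
    (hA : ∀ u ∈ A, t u ∈ A) (hB : ∀ u ∈ B, t u ∈ B) {W : Submodule O' L'}
    (hW : W ∈ XA E A B N) : W.comap T ∈ XA E A B N := by
  obtain ⟨h1, h2, h3, h4⟩ := hW
  have hA' : ∀ u ∈ E.bc A, T u ∈ E.bc A := by
    intro u hu
    obtain ⟨a, ha, b, hb, rfl⟩ := E.mem_bc.mp hu
    rw [hT]
    exact E.mem_bc_iff.mpr ⟨hA _ ha, hA _ hb⟩
  have hB' : ∀ u ∈ E.bc B, T u ∈ E.bc B := by
    intro u hu
    obtain ⟨a, ha, b, hb, rfl⟩ := E.mem_bc.mp hu
    rw [hT]
    exact E.mem_bc_iff.mpr ⟨hB _ ha, hB _ hb⟩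
  have hj : ∀ u, T (E.j u) = E.j (t u) := by
    intro u
    have h := hT u 0
    have h0 := hT 0 0
    rw [map_zero, smul_zero, add_zero, map_zero] at h0
    have h0' := E.inj _ _ h0.symm
    rw [map_zero, smul_zero, add_zero, h0'.1, map_zero, smul_zero, add_zero] at h
    exact h
  refine ⟨?_, ?_, ?_, ?_⟩
  · intro u hu
    exact h1 (hA' u hu)
  · rw [← (le_comap_iff h5 (E.bc B)).mp hB']
    exact Submodule.comap_mono h2
  · intro hr
    refine h3 (prop5 (f := fun W : Submodule O' L' => W.comap T) (P := E.Rat) ?_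
      (comap5 h5 W) hr)
    intro V hV x y hxy
    rw [Submodule.mem_comap, hT] at hxy
    rw [Submodule.mem_comap, hj]
    exact hV _ _ hxy
  · rw [ix_comap h5 W _ hB', h4]

theorem stab_modEq {A B : Submodule O L} {N : ℕ} (hfin : (XA E A B N).Finite)
    (hA : S.Stab A) (hB : S.Stab B) :
    (XA E A B N).ncard ≡ {W : Submodule O' L' | E.bc A ≤ W ∧ W ≤ E.bc B ∧ ¬ E.Rat W ∧ S'.Stab W ∧
      ix W (E.bc B) = N}.ncard [MOD 5] := by
  have ht5 : ∀ x u, ((S'.τ x : L' →ₗ[O'] L'))^[5] u = u := fun x u => S'.tau5 x u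
  have hs5 : ∀ u, ((S'.s : L' →ₗ[O'] L'))^[5] u = u := fun u => S'.s5 u
  have h1 := ncard_modEq_fix_comm hfin
    (fun x : Fin 6 => fun W : Submodule O' L' => W.comap (S'.τ x : L' →ₗ[O'] L'))
    (fun x W hW => XA_comap E (ht5 x) (S.τ x) (E.tau_coord x) (hA.1 x) (hB.1 x) hW)
    (fun x W hW => comap5 (ht5 x) W)
    (by
      intro x y W hW
      ext u
      simp only [Submodule.mem_comap]
      show S'.τ y (S'.τ x u) ∈ W ↔ S'.τ x (S'.τ y u) ∈ W
      rw [S'.tau_comm])
  have h2 := ncard_modEq_fix (hfin.subset (fun W hW => hW.1) : {W ∈ XA E A B N | ∀ x,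
    W.comap (S'.τ x : L' →ₗ[O'] L') = W}.Finite)
    (fun W : Submodule O' L' => W.comap (S'.s : L' →ₗ[O'] L'))
    (by
      intro W hW
      refine ⟨XA_comap E hs5 S.s E.s_coord hA.2 hB.2 hW.1, ?_⟩
      intro x
      have h := hW.2 (sh x)
      ext u
      simp only [Submodule.mem_comap]
      show S'.s (S'.τ x u) ∈ W ↔ S'.s u ∈ W
      rw [S'.s_tau]
      conv_rhs => rw [← h]
      rfl)
    (fun W hW => comap5 hs5 W)
  have h3 := h1.trans h2
  convert h3 using 2
  ext W
  constructor
  swap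
  · rintro ⟨⟨⟨a, b, c, d⟩, e⟩, f⟩
    exact ⟨a, b, c, ⟨fun x => (le_comap_iff (ht5 x) W).mpr (e x), (le_comap_iff hs5 W).mpr f⟩, d⟩
  · rintro ⟨a, b, c, ⟨e, f⟩, d⟩
    exact ⟨⟨⟨a, b, c, d⟩, fun x => (le_comap_iff (ht5 x) W).mp (e x)⟩,
      (le_comap_iff hs5 W).mp f⟩

/-! ### the free cover -/

section Cover

variable {r : ℕ} (β : Fin r → L)

/-- the free cover of `bc B` -/
noncomputable def FF : (Fin r → O') →ₗ[O'] L' := Fintype.linearCombination O' (fun i => E.j (β i))

/-- coordinates -/
def cc (x y : Fin r → O) : Fin r → O' :=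
  fun i => algebraMap O O' (x i) + E.ω * algebraMap O O' (y i)

theorem FF_cc (x y : Fin r → O) : FF E β (cc E x y) =
    E.j (∑ i, x i • β i) + E.ω • E.j (∑ i, y i • β i) := by
  rw [FF, Fintype.linearCombination_apply, map_sum, map_sum, Finset.smul_sum,
    ← Finset.sum_add_distrib]
  refine Finset.sum_congr rfl fun i _ => ?_
  rw [cc, E.j_smul, E.j_smul, add_smul, mul_smul]

theorem exists_cc (c : Fin r → O') : ∃ x y : Fin r → O, c = cc E x y := by
  choose x y h using E.basis
  exact ⟨fun i => x (c i), fun i => y (c i), funext fun i => h (c i)⟩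

theorem FF_single (i : Fin r) (a : O') : FF E β (Pi.single i a) = a • E.j (β i) := by
  rw [FF, Fintype.linearCombination_apply_single]

/-- rationality for submodules of the free cover -/
def RatU (U : Submodule O' (Fin r → O')) : Prop :=
  ∀ x y : Fin r → O, cc E x y ∈ U → cc E x 0 ∈ U

/-- multiply the `i`-th coordinate by `ζ` -/
def theta (S' : Sys O' L') {r : ℕ} (i : Fin r) : (Fin r → O') →ₗ[O'] (Fin r → O') :=
  LinearMap.pi fun k => (if k = i then S'.ζ else 1) • LinearMap.proj k

theorem theta_apply (i k : Fin r) (c : Fin r → O') :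
    theta S' i c k = (if k = i then S'.ζ else 1) * c k := rfl

theorem theta5 (i : Fin r) (c : Fin r → O') : (theta S' i)^[5] c = c := by
  ext k
  simp only [Function.iterate_succ, Function.iterate_zero, Function.comp, id, theta_apply]
  split_ifs
  · linear_combination (c k) * S'.hζ
  · ring

theorem theta_cc (i : Fin r) (x y : Fin r → O) : theta S' i (cc E x y) =
    cc E (fun k => (if k = i then S.ζ else 1) * x k) (fun k => (if k = i then S.ζ else 1) * y k) := by
  ext k
  rw [theta_apply, cc, cc, map_mul, map_mul]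
  split_ifs
  · rw [E.hζ]; ring
  · rw [map_one]; ring

theorem theta_sub (i : Fin r) (c : Fin r → O') :
    theta S' i c - c = Pi.single i ((S'.ζ - 1) * c i) := by
  ext k
  rw [Pi.sub_apply, theta_apply, Pi.single_apply]
  split_ifs with h
  · rw [h]; ring
  · ring

theorem RatU_comap (i : Fin r) {U : Submodule O' (Fin r → O')} (h : RatU E U) :
    RatU E (U.comap (theta S' i)) := by
  intro x y hxy
  rw [Submodule.mem_comap, theta_cc] at hxy ⊢
  have h1 := h _ _ hxy
  convert h1 using 2
  ext k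
  simp

omit [IsDomain O] [IsDiscreteValuationRing O] in
theorem dvd_coord (ϖ : O) (hϖ' : Irreducible (algebraMap O O' ϖ)) (x y : O) :
    ∃ a : O', algebraMap O O' x = a * (algebraMap O O' x + E.ω * algebraMap O O' y) := by
  by_cases h : algebraMap O O' x + E.ω * algebraMap O O' y = 0
  · obtain ⟨rfl, -⟩ := E.indep _ _ h
    exact ⟨0, by simp⟩
  · obtain ⟨n, hn⟩ := IsDiscreteValuationRing.associated_pow_irreducible h hϖ'
    obtain ⟨c, hc⟩ := hn.symm.dvd
    obtain ⟨d, hd⟩ := hn.dvd
    obtain ⟨p, q, rfl⟩ := E.basis c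
    have h1 : algebraMap O O' (x - ϖ ^ n * p) + E.ω * algebraMap O O' (y - ϖ ^ n * q) = 0 := by
      rw [map_sub, map_sub, map_mul, map_mul, map_pow]
      linear_combination hc
    have h2 := (E.indep _ _ h1).1
    have h3 : x = ϖ ^ n * p := sub_eq_zero.mp h2
    refine ⟨d * algebraMap O O' p, ?_⟩
    conv_lhs => rw [h3, map_mul, map_pow, hd]
    ring

theorem RatU_of_theta (ϖ : O) (hϖ' : Irreducible (algebraMap O O' ϖ))
    {U : Submodule O' (Fin r → O')} (h : ∀ i, U.comap (theta S' i) = U) : RatU E U := by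
  intro x y hxy
  have hu : IsUnit (S'.ζ - 1) := by
    have := S'.hu 1 (by norm_num)
    rwa [pow_one] at this
  obtain ⟨v, hv⟩ := hu
  have h1 : ∀ i, Pi.single i (cc E x 0 i) ∈ U := by
    intro i
    have h2 : theta S' i (cc E x y) ∈ U := by
      have := h i ▸ hxy
      exact this
    have h3 := U.sub_mem h2 hxy
    rw [theta_sub] at h3
    obtain ⟨a, ha⟩ := dvd_coord E ϖ hϖ' (x i) (y i)
    have h4 := U.smul_mem (a * ↑v⁻¹) h3
    rw [← Pi.single_smul] at h4
    have h7 : cc E x 0 i = (a * ↑v⁻¹) • ((S'.ζ - 1) * cc E x y i) := by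
      rw [smul_eq_mul, ← hv]
      have h5 : cc E x 0 i = algebraMap O O' (x i) := by simp [cc]
      rw [h5, ha]
      have h6 : ((v⁻¹ : O'ˣ) : O') * v = 1 := by simp
      show _ = a * ↑v⁻¹ * (↑v * (algebraMap O O' (x i) + E.ω * algebraMap O O' (y i)))
      linear_combination (-(a * (algebraMap O O' (x i) + E.ω * algebraMap O O' (y i)))) * h6
    rw [h7]
    exact h4
  have h2 := U.sum_mem (t := Finset.univ) (f := fun i => Pi.single i (cc E x 0 i))
    (fun i _ => h1 i)
  rwa [Finset.univ_sum_single] at h2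

end Cover

theorem dvd_XA (ϖ : O) (hϖ' : Irreducible (algebraMap O O' ϖ)) (A B : Submodule O L)
    (hAB : A ≤ B) (hfin : Finite (B ⧸ A.submoduleOf B)) (N : ℕ) :
    (XA E A B N).Finite ∧ 5 ∣ (XA E A B N).ncard := by
  classical
  -- generators
  obtain ⟨r, b, hb1, hb2⟩ := exists_decomp (O := O) (M := B ⧸ A.submoduleOf B)
  have hex : ∀ i, ∃ m : B, Submodule.Quotient.mk m = b i := fun i =>
    Submodule.Quotient.mk_surjective _ _
  choose β' hβ' using hex
  set β : Fin r → L := fun i => (β' i : L) with hβ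
  have hmk : ∀ (m : B), (Submodule.Quotient.mk m : B ⧸ A.submoduleOf B) = 0 ↔ (m : L) ∈ A := by
    intro m
    rw [Submodule.Quotient.mk_eq_zero]
    rfl
  have hsum : ∀ x : Fin r → O, (Submodule.Quotient.mk (∑ i, x i • β' i) :
      B ⧸ A.submoduleOf B) = ∑ i, x i • b i := by
    intro x
    rw [← Submodule.mkQ_apply, map_sum]
    refine Finset.sum_congr rfl fun i _ => ?_
    rw [map_smul, Submodule.mkQ_apply, hβ']
  have hcoe : ∀ x : Fin r → O, ((∑ i, x i • β' i : B) : L) = ∑ i, x i • β i := by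
    intro x
    simp [hβ]
  have P1 : ∀ m ∈ B, ∃ x : Fin r → O, m - ∑ i, x i • β i ∈ A := by
    intro m hm
    obtain ⟨x, hx⟩ := hb1 (Submodule.Quotient.mk ⟨m, hm⟩)
    refine ⟨x, ?_⟩
    have h := (hmk (⟨m, hm⟩ - ∑ i, x i • β' i)).mp (by
      rw [Submodule.Quotient.mk_sub, hsum, hx, sub_self])
    rwa [Submodule.coe_sub, hcoe] at h
  have P2 : ∀ x : Fin r → O, ∑ i, x i • β i ∈ A → ∀ i, x i • β i ∈ A := by
    intro x hx i
    rw [← hcoe, ← hmk, hsum] at hx
    have h := hb2 x hx i
    rw [← hβ', ← Submodule.Quotient.mk_smul, hmk] at h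
    exact h
  have hβB : ∀ x : Fin r → O, ∑ i, x i • β i ∈ B := fun x => by
    rw [← hcoe]; exact Subtype.coe_prop _
  -- the kernel
  set F := FF E β with hF
  set K : Submodule O' (Fin r → O') := (E.bc A).comap F with hK
  have hKdiag : ∀ c ∈ K, ∀ i, Pi.single i (c i) ∈ K := by
    intro c hc i
    obtain ⟨x, y, rfl⟩ := exists_cc E c
    rw [hK, Submodule.mem_comap, hF, FF_cc, E.mem_bc_iff] at hc
    rw [hK, Submodule.mem_comap, hF, FF_single, cc, add_smul, mul_smul, ← E.j_smul,
      ← E.j_smul, E.mem_bc_iff]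
    exact ⟨P2 x hc.1 i, P2 y hc.2 i⟩
  have hKtheta : ∀ i, ∀ c ∈ K, theta S' i c ∈ K := by
    intro i c hc
    have h1 : theta S' i c = c + (S'.ζ - 1) • Pi.single i (c i) := by
      have h2 := theta_sub (S' := S') i c
      rw [← Pi.single_smul, smul_eq_mul, ← h2]
      abel
    rw [h1]
    exact K.add_mem hc (K.smul_mem _ (hKdiag c hc i))
  have hFB : ∀ c, F c ∈ E.bc B := by
    intro c
    obtain ⟨x, y, rfl⟩ := exists_cc E c
    rw [hF, FF_cc, E.mem_bc_iff]
    exact ⟨hβB x, hβB y⟩
  have hBF : ∀ u ∈ E.bc B, ∃ c, u - F c ∈ E.bc A := by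
    intro u hu
    obtain ⟨m, hm, n, hn, rfl⟩ := E.mem_bc.mp hu
    obtain ⟨x, hx⟩ := P1 m hm
    obtain ⟨y, hy⟩ := P1 n hn
    refine ⟨cc E x y, ?_⟩
    rw [hF, FF_cc]
    have : E.j m + E.ω • E.j n - (E.j (∑ i, x i • β i) + E.ω • E.j (∑ i, y i • β i)) =
        E.j (m - ∑ i, x i • β i) + E.ω • E.j (n - ∑ i, y i • β i) := by
      rw [map_sub, map_sub, smul_sub]
      abel
    rw [this, E.mem_bc_iff]
    exact ⟨hx, hy⟩
  have hABc := E.bc_mono hAB
  -- the set of submodules of the cover
  let UU : Set (Submodule O' (Fin r → O')) :=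
    {U | K ≤ U ∧ ¬ RatU E U ∧ ix U ⊤ = N}
  have hrat : ∀ W : Submodule O' L', E.bc A ≤ W → W ≤ E.bc B →
      (E.Rat W ↔ RatU E (W.comap F)) := by
    intro W h1 h2
    constructor
    · intro hr x y hxy
      rw [Submodule.mem_comap, hF, FF_cc] at hxy
      rw [Submodule.mem_comap, hF, FF_cc]
      have := hr _ _ hxy
      simpa using this
    · intro hr m n hmn
      obtain ⟨m', hm, n', hn, h⟩ := E.mem_bc.mp (h2 hmn)
      obtain ⟨rfl, rfl⟩ := E.ext_inj h
      obtain ⟨x, hx⟩ := P1 m hm
      obtain ⟨y, hy⟩ := P1 n hn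
      have h3 : cc E x y ∈ W.comap F := by
        rw [Submodule.mem_comap, hF, FF_cc]
        have h4 : E.j (∑ i, x i • β i) + E.ω • E.j (∑ i, y i • β i) =
            (E.j m + E.ω • E.j n) -
              (E.j (m - ∑ i, x i • β i) + E.ω • E.j (n - ∑ i, y i • β i)) := by
          rw [map_sub, map_sub, smul_sub]
          abel
        rw [h4]
        exact W.sub_mem hmn (h1 (E.mem_bc_iff.mpr ⟨hx, hy⟩))
      have h5 := hr _ _ h3
      rw [Submodule.mem_comap, hF, FF_cc] at h5
      simp only [Pi.zero_apply, zero_smul, Finset.sum_const_zero, map_zero, smul_zero,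
        add_zero] at h5
      have h6 : E.j m = E.j (∑ i, x i • β i) + E.j (m - ∑ i, x i • β i) := by
        rw [map_sub]; abel
      rw [h6]
      exact W.add_mem h5 (h1 (E.j_mem_bc.mpr hx))
  have hix : ∀ W : Submodule O' L', E.bc A ≤ W → W ≤ E.bc B →
      ix (W.comap F) ⊤ = ix W (E.bc B) := by
    intro W h1 h2
    have h3 : F.range ⊔ W = E.bc B := by
      refine le_antisymm (sup_le ?_ h2) ?_
      · rintro _ ⟨c, rfl⟩
        exact hFB c
      · intro u hu
        obtain ⟨c, hc⟩ := hBF u hu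
        exact Submodule.mem_sup.mpr ⟨F c, ⟨c, rfl⟩, u - F c, h1 hc, by abel⟩
    have h4 : ix (W.comap F) ⊤ = ix W F.range := by
      rw [← Submodule.map_top, ix_eq_relIndex, ix_eq_relIndex]
      exact AddSubgroup.relIndex_comap (H := W.toAddSubgroup) (f := F.toAddMonoidHom)
        (K := (⊤ : Submodule O' (Fin r → O')).toAddSubgroup)
    rw [h4, ← h3, ix_eq_relIndex, ix_eq_relIndex, Submodule.sup_toAddSubgroup,
      AddSubgroup.relIndex_sup_right]
  have hinj : Set.InjOn (fun W : Submodule O' L' => W.comap F) (XA E A B N) := by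
    intro W hW W' hW' h
    have key : ∀ W W' : Submodule O' L', W ∈ XA E A B N → W' ∈ XA E A B N →
        W.comap F = W'.comap F → W ≤ W' := by
      intro W W' hW hW' h u hu
      obtain ⟨c, hc⟩ := hBF u (hW.2.1 hu)
      have h1 : c ∈ W.comap F := by
        rw [Submodule.mem_comap]
        have : F c = u - (u - F c) := by abel
        rw [this]
        exact W.sub_mem hu (hW.1 hc)
      rw [h, Submodule.mem_comap] at h1
      have : u = F c + (u - F c) := by abel
      rw [this]
      exact W'.add_mem h1 (hW'.1 hc)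
    exact le_antisymm (key W W' hW hW' h) (key W' W hW' hW h.symm)
  have himage : (fun W : Submodule O' L' => W.comap F) '' (XA E A B N) = UU := by
    ext U
    constructor
    · rintro ⟨W, ⟨h1, h2, h3, h4⟩, rfl⟩
      exact ⟨Submodule.comap_mono h1, fun h => h3 ((hrat W h1 h2).mpr h),
        (hix W h1 h2).trans h4⟩
    · rintro ⟨h1, h2, h3⟩
      have hW1 : E.bc A ≤ E.bc A ⊔ U.map F := le_sup_left
      have hW2 : E.bc A ⊔ U.map F ≤ E.bc B := by
        refine sup_le hABc ?_
        rintro _ ⟨c, -, rfl⟩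
        exact hFB c
      have hW3 : (E.bc A ⊔ U.map F).comap F = U := by
        refine le_antisymm ?_ (le_trans (Submodule.le_comap_map F U)
          (Submodule.comap_mono le_sup_right))
        intro c hc
        obtain ⟨a, ha, v, hv, h⟩ := Submodule.mem_sup.mp hc
        obtain ⟨d, hd, rfl⟩ := hv
        have h4 : c - d ∈ K := by
          rw [hK, Submodule.mem_comap, map_sub, ← h]
          simpa using ha
        have : c = (c - d) + d := by abel
        rw [this]
        exact U.add_mem (h1 h4) hd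
      refine ⟨E.bc A ⊔ U.map F, ⟨hW1, hW2, ?_, ?_⟩, hW3⟩
      · intro hr
        rw [hrat _ hW1 hW2, hW3] at hr
        exact h2 hr
      · rw [← hix _ hW1 hW2, hW3, h3]
  -- finiteness
  have hfinK : Finite ((Fin r → O') ⧸ K) := by
    have hf2 : Finite ((B ⧸ A.submoduleOf B) × (B ⧸ A.submoduleOf B)) := inferInstance
    let g : (Fin r → O') → (B ⧸ A.submoduleOf B) × (B ⧸ A.submoduleOf B) := fun c =>
      (Submodule.Quotient.mk (∑ i, (exists_cc E c).choose i • β' i),
        Submodule.Quotient.mk (∑ i, (exists_cc E c).choose_spec.choose i • β' i))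
    refine Finite.of_injective (fun q : (Fin r → O') ⧸ K => g q.out) ?_
    intro q q' h
    obtain ⟨h1, h2⟩ := Prod.ext_iff.mp h
    have hc := (exists_cc E q.out).choose_spec.choose_spec
    have hc' := (exists_cc E q'.out).choose_spec.choose_spec
    set x := (exists_cc E q.out).choose with hx
    set y := (exists_cc E q.out).choose_spec.choose with hy
    set x' := (exists_cc E q'.out).choose with hx'
    set y' := (exists_cc E q'.out).choose_spec.choose with hy'
    have h3 : (∑ i, x i • β i) - (∑ i, x' i • β i) ∈ A := by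
      rw [← hcoe, ← hcoe, ← Submodule.coe_sub, ← hmk, Submodule.Quotient.mk_sub]
      exact sub_eq_zero.mpr h1
    have h4 : (∑ i, y i • β i) - (∑ i, y' i • β i) ∈ A := by
      rw [← hcoe, ← hcoe, ← Submodule.coe_sub, ← hmk, Submodule.Quotient.mk_sub]
      exact sub_eq_zero.mpr h2
    have h5 : q.out - q'.out ∈ K := by
      show F (q.out - q'.out) ∈ E.bc A
      rw [map_sub, hc, hc', hF, FF_cc, FF_cc]
      have : E.j (∑ i, x i • β i) + E.ω • E.j (∑ i, y i • β i) -
          (E.j (∑ i, x' i • β i) + E.ω • E.j (∑ i, y' i • β i)) =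
          E.j ((∑ i, x i • β i) - (∑ i, x' i • β i)) +
            E.ω • E.j ((∑ i, y i • β i) - (∑ i, y' i • β i)) := by
        rw [map_sub, map_sub, smul_sub]
        abel
      rw [this, E.mem_bc_iff]
      exact ⟨h3, h4⟩
    have h6 := (Submodule.Quotient.eq K).mpr h5
    rw [← Submodule.Quotient.mk_out q, ← Submodule.Quotient.mk_out q']
    exact h6
  have hUfin : UU.Finite := by
    have h1 : Finite (Submodule O' ((Fin r → O') ⧸ K)) :=
      Finite.of_injective (fun V : Submodule O' ((Fin r → O') ⧸ K) => (V : Set ((Fin r → O') ⧸ K)))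
        SetLike.coe_injective
    have h2 : (Set.Ici K).Finite := by
      have := Finite.of_equiv _ (Submodule.comapMkQRelIso K).toEquiv
      exact Set.toFinite _
    exact h2.subset fun U hU => hU.1
  have hXfin : (XA E A B N).Finite := by
    have := himage ▸ hUfin
    exact Set.Finite.of_finite_image (himage ▸ hUfin) hinj
  refine ⟨hXfin, ?_⟩
  have hcard : (XA E A B N).ncard = UU.ncard := by
    rw [← himage, hinj.ncard_image]
  rw [hcard]
  have h1 := ncard_modEq_fix_comm hUfin
    (fun i : Fin r => fun U : Submodule O' (Fin r → O') => U.comap (theta S' i))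
    (by
      rintro i U ⟨h1, h2, h3⟩
      refine ⟨?_, ?_, ?_⟩
      · intro c hc
        exact h1 (hKtheta i c hc)
      · intro hr
        exact h2 (prop5 (f := fun U : Submodule O' (Fin r → O') => U.comap (theta S' i))
          (P := RatU E) (fun V hV => RatU_comap E i hV) (comap5 (theta5 i) U) hr)
      · rw [← h3]
        exact ix_comap (theta5 i) U ⊤ (fun _ _ => trivial))
    (fun i U _ => comap5 (theta5 i) U)
    (by
      intro i k U _
      ext c
      simp only [Submodule.mem_comap]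
      have : theta S' k (theta S' i c) = theta S' i (theta S' k c) := by
        ext l
        simp only [theta_apply]
        ring
      rw [this])
  have h2 : {U ∈ UU | ∀ i, (fun i : Fin r => fun U : Submodule O' (Fin r → O') =>
      U.comap (theta S' i)) i U = U} = ∅ := by
    ext U
    simp only [Set.mem_empty_iff_false, iff_false]
    rintro ⟨⟨-, h3, -⟩, h4⟩
    exact h3 (RatU_of_theta E ϖ hϖ' h4)
  rw [h2, Set.ncard_empty] at h1
  exact (Nat.modEq_zero_iff_dvd).mp h1

end Main

section Fin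

variable {O L O' L' : Type} [CommRing O] [IsDomain O] [IsDiscreteValuationRing O]
  [CommRing O'] [IsDomain O'] [IsDiscreteValuationRing O'] [Algebra O O']
  [LieRing L] [LieAlgebra O L] [LieRing L'] [LieAlgebra O' L']
  {S : Sys O L} {S' : Sys O' L'} (E : Ext S S')

theorem nonrat_dvd [Finite (IsLocalRing.ResidueField O)] (ϖ : O) (hϖ : Irreducible ϖ)
    (hϖ' : Irreducible (algebraMap O O' ϖ)) (A B : Submodule O L) (hAB : A ≤ B)
    (hfin : Finite (B ⧸ A.submoduleOf B)) (hA : S.Stab A) (hB : S.Stab B) (N : ℕ) :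
    5 ∣ {W : Submodule O' L' | E.bc A ≤ W ∧ W ≤ E.bc B ∧ ¬ E.Rat W ∧ S'.Stab W ∧
      ix W (E.bc B) = N}.ncard := by
  obtain ⟨h1, h2⟩ := dvd_XA E ϖ hϖ' A B hAB hfin N
  have h3 := stab_modEq E h1 hA hB
  exact (Nat.modEq_zero_iff_dvd).mp (h3.symm.trans ((Nat.modEq_zero_iff_dvd).mpr h2))

end Fin

end Pool.Agent.Lib.MP_424f45_al
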