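import Pool.Agent.Lib.MP_424f45_al.Ari

/-!
# MP_424f45_al: congruence of coefficients for all large primes in a class
-/

set_option autoImplicit false

namespace Pool.Agent.Lib.MP_424f45_al

open Polynomial

/-- For a fixed rational function, all large primes in a residue class modulo a power of `5` see
congruent `n`-th coefficients at `q = p` and `q = p ^ 2`. -/
theorem arith_all (P Q : Polynomial (Polynomial ℚ)) (hQ : Q ≠ 0) (n : ℕ) :
    ∃ e N : ℕ, ∀ p : ℕ, N < p → p ≡ 1 [MOD 5 ^ (e + 1)] →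
      Q.map (evalRingHom ((p : ℕ) : ℚ)) ≠ 0 ∧ Q.map (evalRingHom ((p ^ 2 : ℕ) : ℚ)) ≠ 0 ∧
      ∀ a b : ℕ → ℕ,
        (↑(Q.map (evalRingHom ((p : ℕ) : ℚ))) : PowerSeries ℚ) *
          PowerSeries.mk (fun k => ((a k : ℕ) : ℚ)) =
          (↑(P.map (evalRingHom ((p : ℕ) : ℚ))) : PowerSeries ℚ) →
        (↑(Q.map (evalRingHom ((p ^ 2 : ℕ) : ℚ))) : PowerSeries ℚ) *
          PowerSeries.mk (fun k => ((b k : ℕ) : ℚ)) =
          (↑(P.map (evalRingHom ((p ^ 2 : ℕ) : ℚ))) : PowerSeries ℚ) →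
        a n ≡ b n [MOD 5] := by
  set k0 := Q.natTrailingDegree with hk0
  have hc : Q.coeff k0 ≠ 0 := by
    rw [hk0]
    exact Polynomial.trailingCoeff_nonzero_iff_nonzero.mpr hQ
  obtain ⟨U, hU⟩ := ari_rec P Q k0 (fun k hk => Polynomial.coeff_eq_zero_of_lt_natTrailingDegree hk) n
  set D := (Q.coeff k0) ^ (n + 1) with hD
  have hD0 : D ≠ 0 := pow_ne_zero _ hc
  set w := U / D with hw
  set R := U % D with hR
  have hUD : U = D * w + R := (EuclideanDomain.div_add_mod U D).symm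
  have hdeg : R.degree < D.degree := EuclideanDomain.mod_lt U hD0
  obtain ⟨M, W, hM, hW⟩ := ari_int w
  have hWe : ∀ x : ℕ, ((W.eval (x : ℤ) : ℤ) : ℚ) = M * w.eval (x : ℚ) := by
    intro x
    have h1 := congrArg (Polynomial.eval (x : ℚ)) hW
    rw [eval_mul, eval_C] at h1
    rw [← h1, Polynomial.eval_map]
    have h2 := Polynomial.eval₂_at_intCast (p := W) (Int.castRingHom ℚ) (x : ℤ)
    simp only [Int.cast_natCast, eq_intCast] at h2
    exact h2.symm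
  have hlim := Polynomial.div_tendsto_atTop_zero_of_degree_lt R D hdeg
  have hev : ∀ᶠ x : ℚ in Filter.atTop, |(M : ℚ) * (eval x R / eval x D)| < 1 := by
    have h1 := hlim.const_mul (M : ℚ)
    rw [mul_zero] at h1
    have h2 := h1.abs
    rw [abs_zero] at h2
    exact h2.eventually (gt_mem_nhds one_pos)
  have hevr : ∀ F : ℚ[X], F ≠ 0 → ∀ᶠ x : ℚ in Filter.atTop, eval x F ≠ 0 := by
    intro F hF
    have h1 : {x | IsRoot F x}.Finite := by
      by_contra hinf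
      exact hF (Polynomial.eq_zero_of_infinite_isRoot F hinf)
    obtain ⟨B, hB⟩ := h1.bddAbove
    filter_upwards [Filter.eventually_gt_atTop B] with x hx h0
    exact absurd (hB (show x ∈ {x | IsRoot F x} from h0)) (not_le.mpr hx)
  have hevR : ∀ᶠ x : ℚ in Filter.atTop, R ≠ 0 → eval x R ≠ 0 := by
    by_cases h : R = 0
    · exact Filter.Eventually.of_forall (fun x h' => absurd h h')
    · filter_upwards [hevr R h] with x hx _ using hx
  obtain ⟨X0, hX0⟩ := Filter.eventually_atTop.mp ((hev.and (hevr D hD0)).and hevR)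
  obtain ⟨N0, hN0⟩ := exists_nat_ge X0
  obtain ⟨M', hM', hMe⟩ : ∃ M' : ℕ, ¬ 5 ∣ M' ∧ M = 5 ^ (M.factorization 5) * M' :=
    ⟨M / 5 ^ (M.factorization 5), Nat.not_dvd_ordCompl (by norm_num) hM,
      (Nat.ordProj_mul_ordCompl_eq_self M 5).symm⟩
  set e := M.factorization 5 with he
  refine ⟨e, N0, ?_⟩
  intro p hp hp5
  have hpX : X0 ≤ (p : ℚ) := le_trans hN0 (by exact_mod_cast hp.le)
  have hp2X : X0 ≤ ((p ^ 2 : ℕ) : ℚ) := le_trans hpX (by
    exact_mod_cast Nat.le_self_pow two_ne_zero p)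
  have hmap : ∀ q : ℕ, X0 ≤ (q : ℚ) → Q.map (evalRingHom ((q : ℕ) : ℚ)) ≠ 0 := by
    intro q hq h0
    apply (hX0 (q : ℚ) hq).1.2
    have h1 := congrArg (fun F => Polynomial.coeff F k0) h0
    simp only [Polynomial.coeff_map, coe_evalRingHom, Polynomial.coeff_zero] at h1
    rw [hD, eval_pow, h1, zero_pow (Nat.succ_ne_zero n)]
  refine ⟨hmap p hpX, hmap (p ^ 2) hp2X, ?_⟩
  intro a b h1 h2
  have hroot : R = 0 := by
    by_contra hR0
    have h2 := hU (p : ℚ) a h1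
    obtain ⟨⟨h3, h4⟩, h4'⟩ := hX0 (p : ℚ) hpX
    rw [hUD, eval_add, eval_mul] at h2
    have h5 : (M : ℚ) * (eval (p : ℚ) R / eval (p : ℚ) D) =
        (((M : ℤ) * (a n : ℤ) - W.eval (p : ℤ) : ℤ) : ℚ) := by
      have h6 : eval (p : ℚ) R / eval (p : ℚ) D = (a n : ℚ) - eval (p : ℚ) w := by
        rw [div_eq_iff h4]
        linear_combination (-1 : ℚ) * h2
      rw [Int.cast_sub, hWe p, h6]
      push_cast
      ring
    rw [h5, ← Int.cast_abs] at h3
    have h6 : |(M : ℤ) * (a n : ℤ) - W.eval (p : ℤ)| < 1 := by exact_mod_cast h3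
    have h7 : (M : ℤ) * (a n : ℤ) - W.eval (p : ℤ) = 0 := Int.abs_lt_one_iff.mp h6
    rw [h7, Int.cast_zero, mul_eq_zero, div_eq_zero_iff] at h5
    rcases h5 with h5 | h5 | h5
    · exact absurd (by exact_mod_cast h5) hM
    · exact h4' hR0 h5
    · exact absurd h5 h4
  have key : ∀ (q : ℕ) (c : ℕ → ℕ), X0 ≤ (q : ℚ) →
      (↑(Q.map (evalRingHom ((q : ℕ) : ℚ))) : PowerSeries ℚ) *
          PowerSeries.mk (fun k => ((c k : ℕ) : ℚ)) =
          (↑(P.map (evalRingHom ((q : ℕ) : ℚ))) : PowerSeries ℚ) →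
      (M : ℤ) * (c n : ℤ) = W.eval (q : ℤ) := by
    intro q c hq hc
    have h4 := hU (q : ℚ) c hc
    rw [hUD, hroot, add_zero, eval_mul] at h4
    have h5 := mul_left_cancel₀ (hX0 (q : ℚ) hq).1.2 h4
    have h6 : (((M : ℤ) * (c n : ℤ) : ℤ) : ℚ) = ((W.eval (q : ℤ) : ℤ) : ℚ) := by
      rw [hWe q, ← h5]
      push_cast
      ring
    exact_mod_cast h6
  have ha := key p a hpX h1
  have hb := key (p ^ 2) b hp2X h2
  have h7 : ((p ^ 2 : ℕ) : ℤ) ≡ (p : ℤ) [ZMOD (5 ^ (e + 1) : ℕ)] := by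
    rw [Int.natCast_modEq_iff]
    have := hp5.pow 2
    rw [one_pow] at this
    exact this.trans hp5.symm
  have h8 : W.eval ((p ^ 2 : ℕ) : ℤ) ≡ W.eval (p : ℤ) [ZMOD (5 ^ (e + 1) : ℕ)] := by
    rw [Int.modEq_iff_dvd] at h7 ⊢
    exact h7.trans (Polynomial.sub_dvd_eval_sub _ _ W)
  rw [← ha, ← hb] at h8
  rw [Int.modEq_iff_dvd, ← mul_sub, hMe] at h8
  push_cast at h8
  rw [pow_succ, mul_assoc] at h8
  have h9 : (5 : ℤ) ∣ (M' : ℤ) * ((a n : ℤ) - (b n : ℤ)) :=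
    Int.dvd_of_mul_dvd_mul_left (by positivity) h8
  have h10 : IsCoprime (5 : ℤ) (M' : ℤ) := by
    rw [Int.isCoprime_iff_gcd_eq_one]
    have h11 : Nat.Coprime 5 M' := (Nat.Prime.coprime_iff_not_dvd (by norm_num)).mpr hM'
    exact_mod_cast h11
  have h12 : (5 : ℤ) ∣ (a n : ℤ) - (b n : ℤ) := h10.dvd_of_dvd_mul_left h9
  have h13 : (b n : ℤ) ≡ (a n : ℤ) [ZMOD (5 : ℕ)] := by
    rw [Int.modEq_iff_dvd]
    exact_mod_cast h12
  exact (Int.natCast_modEq_iff.mp h13).symm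

end Pool.Agent.Lib.MP_424f45_al
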