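import Pool.Agent.Lib.MP_424f45_al.Qua

/-!
# MP_424f45_al: the field of fractions of the quadratic extension
-/

set_option autoImplicit false

namespace Pool.Agent.Lib.MP_424f45_al

/-- The fraction field of the quadratic extension. -/
theorem exists_quadratic_field (p : ℕ) [Fact p.Prime] (hp : p % 3 = 2) :
    ∃ (O' : Type) (_ : CommRing O') (_ : IsDomain O') (_ : IsDiscreteValuationRing O')
      (_ : Algebra ℤ_[p] O') (_ : Module.Finite ℤ_[p] O') (ω : O')
      (K : Type) (_ : Field K) (_ : Algebra ℚ_[p] K) (_ : Algebra ℤ_[p] K) (_ : Algebra O' K),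
      IsScalarTower ℤ_[p] ℚ_[p] K ∧ FiniteDimensional ℚ_[p] K ∧ Module.finrank ℚ_[p] K = 2 ∧
      IsIntegralClosure O' ℤ_[p] K ∧
      ω ^ 2 + ω + 1 = 0 ∧
      (∀ a : O', ∃ x y : ℤ_[p], a = algebraMap ℤ_[p] O' x + ω * algebraMap ℤ_[p] O' y) ∧
      (∀ x y : ℤ_[p], algebraMap ℤ_[p] O' x + ω * algebraMap ℤ_[p] O' y = 0 → x = 0 ∧ y = 0) ∧
      Irreducible (algebraMap ℤ_[p] O' (p : ℤ_[p])) ∧
      Nat.card (IsLocalRing.ResidueField O') = p ^ 2 := by
  obtain ⟨O', i1, i2, i3, i4, i5, ω, hω, hb, hi, hirr, hcard'⟩ := exists_quadratic p hp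
  have hinjO : Function.Injective (algebraMap ℤ_[p] O') := by
    rw [injective_iff_map_eq_zero]
    intro a ha
    exact (hi a 0 (by rw [ha, map_zero, mul_zero, add_zero])).1
  let K := FractionRing O'
  have hinjK : Function.Injective (algebraMap ℤ_[p] K) := by
    rw [IsScalarTower.algebraMap_eq ℤ_[p] O' K]
    exact (IsFractionRing.injective O' K).comp hinjO
  let i6 : Algebra ℚ_[p] K := (IsFractionRing.lift hinjK : ℚ_[p] →+* K).toAlgebra
  have htow : IsScalarTower ℤ_[p] ℚ_[p] K := by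
    apply IsScalarTower.of_algebraMap_eq
    intro x
    exact (IsFractionRing.lift_algebraMap hinjK x).symm
  have hmapO : ∀ x : ℤ_[p], algebraMap O' K (algebraMap ℤ_[p] O' x) =
      algebraMap ℚ_[p] K (algebraMap ℤ_[p] ℚ_[p] x) := by
    intro x
    rw [← IsScalarTower.algebraMap_apply, ← IsScalarTower.algebraMap_apply]
  set w : K := algebraMap O' K ω with hw
  -- the span
  have hspan : ∀ z : K, ∃ a b : ℚ_[p], z = algebraMap ℚ_[p] K a + w * algebraMap ℚ_[p] K b := by
    intro z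
    obtain ⟨r, s, hs, rfl⟩ := IsFractionRing.div_surjective (A := O') z
    have hs0 : s ≠ 0 := nonZeroDivisors.ne_zero hs
    obtain ⟨a, b, rfl⟩ := hb s
    set sb : O' := algebraMap ℤ_[p] O' (a - b) + ω * algebraMap ℤ_[p] O' (-b) with hsb
    have hn : (algebraMap ℤ_[p] O' a + ω * algebraMap ℤ_[p] O' b) * sb =
        algebraMap ℤ_[p] O' (a ^ 2 - a * b + b ^ 2) := by
      rw [hsb]
      simp only [map_sub, map_neg, map_add, map_mul, map_pow]
      linear_combination (-(algebraMap ℤ_[p] O' b) ^ 2) * hω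
    have hsb0 : sb ≠ 0 := by
      intro h
      obtain ⟨h1, h2⟩ := hi _ _ h
      have h3 : b = 0 := by simpa using h2
      have h4 : a = 0 := by simpa [h3] using h1
      apply hs0
      rw [h3, h4]
      simp
    obtain ⟨c, d, hcd⟩ := hb (r * sb)
    have hN : a ^ 2 - a * b + b ^ 2 ≠ 0 := by
      intro h
      rw [h, map_zero] at hn
      rcases mul_eq_zero.mp hn with h | h
      · exact hs0 h
      · exact hsb0 h
    have hNK : algebraMap ℚ_[p] K (algebraMap ℤ_[p] ℚ_[p] (a ^ 2 - a * b + b ^ 2)) ≠ 0 := by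
      rw [← IsScalarTower.algebraMap_apply]
      intro h
      exact hN (hinjK (by rw [h, map_zero]))
    refine ⟨algebraMap ℤ_[p] ℚ_[p] c / algebraMap ℤ_[p] ℚ_[p] (a ^ 2 - a * b + b ^ 2),
      algebraMap ℤ_[p] ℚ_[p] d / algebraMap ℤ_[p] ℚ_[p] (a ^ 2 - a * b + b ^ 2), ?_⟩
    have hs0K : algebraMap O' K (algebraMap ℤ_[p] O' a + ω * algebraMap ℤ_[p] O' b) ≠ 0 := by
      intro h
      exact hs0 (IsFractionRing.injective O' K (by rw [h, map_zero]))
    rw [map_div₀, map_div₀, div_eq_iff hs0K]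
    have e1 : algebraMap O' K r * algebraMap O' K sb =
        algebraMap ℚ_[p] K (algebraMap ℤ_[p] ℚ_[p] c) +
          w * algebraMap ℚ_[p] K (algebraMap ℤ_[p] ℚ_[p] d) := by
      rw [← map_mul, hcd, map_add, map_mul, hmapO, hmapO]
    have e2 : algebraMap O' K (algebraMap ℤ_[p] O' a + ω * algebraMap ℤ_[p] O' b) *
        algebraMap O' K sb =
        algebraMap ℚ_[p] K (algebraMap ℤ_[p] ℚ_[p] (a ^ 2 - a * b + b ^ 2)) := by
      rw [← map_mul, hn, hmapO]
    have hsbK : algebraMap O' K sb ≠ 0 := by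
      intro h
      exact hsb0 (IsFractionRing.injective O' K (by rw [h, map_zero]))
    apply mul_right_cancel₀ hsbK
    rw [e1, mul_assoc, e2, add_mul, div_mul_cancel₀ _ hNK, mul_assoc, div_mul_cancel₀ _ hNK]
  have hind : ∀ a b : ℚ_[p], algebraMap ℚ_[p] K a + w * algebraMap ℚ_[p] K b = 0 →
      a = 0 ∧ b = 0 := by
    intro a b hab
    obtain ⟨x, n, hn, rfl⟩ := IsFractionRing.div_surjective (A := ℤ_[p]) a
    obtain ⟨y, m, hm, rfl⟩ := IsFractionRing.div_surjective (A := ℤ_[p]) b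
    have hn0 : n ≠ 0 := nonZeroDivisors.ne_zero hn
    have hm0 : m ≠ 0 := nonZeroDivisors.ne_zero hm
    have hnK : algebraMap ℚ_[p] K (algebraMap ℤ_[p] ℚ_[p] n) ≠ 0 := by
      rw [← IsScalarTower.algebraMap_apply]
      intro h
      exact hn0 (hinjK (by rw [h, map_zero]))
    have hmK : algebraMap ℚ_[p] K (algebraMap ℤ_[p] ℚ_[p] m) ≠ 0 := by
      rw [← IsScalarTower.algebraMap_apply]
      intro h
      exact hm0 (hinjK (by rw [h, map_zero]))
    rw [map_div₀, map_div₀] at hab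
    have h1 : algebraMap ℚ_[p] K (algebraMap ℤ_[p] ℚ_[p] (x * m)) +
        w * algebraMap ℚ_[p] K (algebraMap ℤ_[p] ℚ_[p] (y * n)) = 0 := by
      rw [map_mul, map_mul, map_mul, map_mul]
      have h0 := congrArg (fun t : K => t * (algebraMap ℚ_[p] K (algebraMap ℤ_[p] ℚ_[p] n) *
        algebraMap ℚ_[p] K (algebraMap ℤ_[p] ℚ_[p] m))) hab
      simp only [zero_mul] at h0
      rw [← h0]
      have c1 := div_mul_cancel₀ (algebraMap ℚ_[p] K (algebraMap ℤ_[p] ℚ_[p] x)) hnK
      have c2 := div_mul_cancel₀ (algebraMap ℚ_[p] K (algebraMap ℤ_[p] ℚ_[p] y)) hmK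
      linear_combination (-(algebraMap ℚ_[p] K (algebraMap ℤ_[p] ℚ_[p] m))) * c1 -
        (w * algebraMap ℚ_[p] K (algebraMap ℤ_[p] ℚ_[p] n)) * c2
    rw [← hmapO, ← hmapO, hw, ← map_mul, ← map_add] at h1
    have h2 := hi _ _ (IsFractionRing.injective O' K (by rw [h1, map_zero]))
    have h3 : x = 0 := (mul_eq_zero.mp h2.1).resolve_right hm0
    have h4 : y = 0 := (mul_eq_zero.mp h2.2).resolve_right hn0
    rw [h3, h4]
    simp
  have hli : LinearIndependent ℚ_[p] ![(1 : K), w] := by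
    rw [LinearIndependent.pair_iff]
    intro s t hst
    apply hind s t
    rw [← hst, Algebra.smul_def, Algebra.smul_def, mul_one, mul_comm w]
  have hsp : ⊤ ≤ Submodule.span ℚ_[p] (Set.range ![(1 : K), w]) := by
    intro z _
    obtain ⟨a, b, rfl⟩ := hspan z
    have h1 : (1 : K) ∈ Submodule.span ℚ_[p] (Set.range ![(1 : K), w]) :=
      Submodule.subset_span ⟨0, rfl⟩
    have h2 : w ∈ Submodule.span ℚ_[p] (Set.range ![(1 : K), w]) :=
      Submodule.subset_span ⟨1, rfl⟩
    have h3 := Submodule.add_mem _ (Submodule.smul_mem _ a h1) (Submodule.smul_mem _ b h2)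
    rw [Algebra.smul_def, Algebra.smul_def, mul_one, mul_comm _ w] at h3
    exact h3
  let B : Module.Basis (Fin 2) ℚ_[p] K := Module.Basis.mk hli hsp
  have hfin : FiniteDimensional ℚ_[p] K := Module.Finite.of_basis B
  have hrank : Module.finrank ℚ_[p] K = 2 := by
    rw [Module.finrank_eq_card_basis B, Fintype.card_fin]
  exact ⟨O', i1, i2, i3, i4, i5, ω, K, inferInstance, i6, inferInstance, inferInstance,
    htow, hfin, hrank, inferInstance, hω, hb, hi, hirr, hcard'⟩

end Pool.Agent.Lib.MP_424f45_al
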