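import Pool.Agent.Lib.MP_424f45_al.Ten

/-!
# MP_424f45_al: base change of a presentation over any ring
-/

set_option autoImplicit false

open scoped TensorProduct

namespace Pool.Agent.Lib.MP_424f45_al

/-- The base change to `O` of a class 4 nilpotent quotient of the free Lie algebra on 6
generators over `R` is the corresponding quotient over `O`. -/
theorem exists_pres (R O L : Type) [CommRing R] [CommRing O] [Algebra R O] [LieRing L]
    [LieAlgebra R L] (g : FreeLieAlgebra R (Fin 6) → L)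
    (hadd : ∀ x y, g (x + y) = g x + g y) (hsmul : ∀ (r : R) x, g (r • x) = r • g x)
    (hlie : ∀ x y, g ⁅x, y⁆ = ⁅g x, g y⁆) (hsurj : Function.Surjective g)
    (hker : ∀ x, g x = 0 ↔ x ∈ LieModule.lowerCentralSeries R (FreeLieAlgebra R (Fin 6))
      (FreeLieAlgebra R (Fin 6)) 4) :
    ∃ π : FreeLieAlgebra O (Fin 6) →ₗ⁅O⁆ (O ⊗[R] L),
      Function.Surjective π ∧
      π.ker = LieModule.lowerCentralSeries O (FreeLieAlgebra O (Fin 6))
        (FreeLieAlgebra O (Fin 6)) 4 ∧
      ∀ j, π (FreeLieAlgebra.of O j) = (1 : O) ⊗ₜ[R] g (FreeLieAlgebra.of R j) := by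
  let π₀ : FreeLieAlgebra R (Fin 6) →ₗ⁅R⁆ L :=
    { toFun := g
      map_add' := hadd
      map_smul' := hsmul
      map_lie' := fun {x y} => hlie x y }
  have hs : Function.Surjective π₀ := hsurj
  have hk : π₀.ker = LieModule.lowerCentralSeries R (FreeLieAlgebra R (Fin 6))
      (FreeLieAlgebra R (Fin 6)) 4 := by
    ext x
    rw [LieHom.mem_ker]
    exact hker x
  refine ⟨Ten.pi' π₀, ?_, le_antisymm (Ten.ker_le_lcs π₀ hs hk)
    (Ten.lcs_le_ker π₀ (Ten.lcs_eq_bot π₀ hs hk)), fun j => Ten.pi'_of π₀ j⟩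
  -- surjectivity
  have h1 : ∀ x : FreeLieAlgebra R (Fin 6),
      (1 : O) ⊗ₜ[R] π₀ x ∈ (Ten.pi' (O' := O) π₀).range := by
    let A : LieSubalgebra R (FreeLieAlgebra R (Fin 6)) :=
      { carrier := {x | (1 : O) ⊗ₜ[R] π₀ x ∈ (Ten.pi' (O' := O) π₀).range}
        zero_mem' := by
          simp only [Set.mem_ofPred_eq, map_zero, TensorProduct.tmul_zero]
          exact (Ten.pi' (O' := O) π₀).range.zero_mem
        add_mem' := by
          intro a b ha hb
          simp only [Set.mem_ofPred_eq, map_add, TensorProduct.tmul_add] at *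
          exact (Ten.pi' (O' := O) π₀).range.add_mem ha hb
        smul_mem' := by
          intro c x hx
          simp only [Set.mem_ofPred_eq] at *
          have : (1 : O) ⊗ₜ[R] π₀ (c • x) = (algebraMap R O c) • ((1 : O) ⊗ₜ[R] π₀ x) := by
            rw [map_smul, TensorProduct.tmul_smul, algebraMap_smul]
          rw [this]
          exact (Ten.pi' (O' := O) π₀).range.smul_mem _ hx
        lie_mem' := by
          intro x y hx hy
          simp only [Set.mem_ofPred_eq] at *
          have : (1 : O) ⊗ₜ[R] π₀ ⁅x, y⁆ = ⁅(1 : O) ⊗ₜ[R] π₀ x, (1 : O) ⊗ₜ[R] π₀ y⁆ := by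
            rw [LieAlgebra.ExtendScalars.bracket_tmul, one_mul, LieHom.map_lie]
          rw [this]
          exact (Ten.pi' (O' := O) π₀).range.lie_mem hx hy }
    let φ : FreeLieAlgebra R (Fin 6) →ₗ⁅R⁆ A :=
      FreeLieAlgebra.lift R (fun j => (⟨FreeLieAlgebra.of R j, by
        show (1 : O) ⊗ₜ[R] π₀ (FreeLieAlgebra.of R j) ∈ (Ten.pi' (O' := O) π₀).range
        exact ⟨FreeLieAlgebra.of O j, Ten.pi'_of π₀ j⟩⟩ : A))
    have hφ : A.incl.comp φ = LieHom.id := by
      apply FreeLieAlgebra.hom_ext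
      intro j
      show A.incl (φ (FreeLieAlgebra.of R j)) = FreeLieAlgebra.of R j
      show A.incl (FreeLieAlgebra.lift R _ (FreeLieAlgebra.of R j)) = FreeLieAlgebra.of R j
      rw [FreeLieAlgebra.lift_of_apply]
      rfl
    intro x
    have h2 := LieHom.congr_fun hφ x
    have h3 : x = (φ x : FreeLieAlgebra R (Fin 6)) := h2.symm
    rw [h3]
    exact (φ x).2
  intro y
  have : y ∈ (Ten.pi' (O' := O) π₀).range := by
    induction y using TensorProduct.induction_on with
    | zero => exact (Ten.pi' (O' := O) π₀).range.zero_mem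
    | tmul a u =>
      obtain ⟨x, rfl⟩ := hs u
      have h : a ⊗ₜ[R] π₀ x = a • ((1 : O) ⊗ₜ[R] π₀ x) := by
        rw [TensorProduct.smul_tmul', smul_eq_mul, mul_one]
      rw [h]
      exact (Ten.pi' (O' := O) π₀).range.smul_mem _ (h1 x)
    | add y₁ y₂ h₁ h₂ => exact (Ten.pi' (O' := O) π₀).range.add_mem h₁ h₂
  exact this

end Pool.Agent.Lib.MP_424f45_al
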