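import Mathlib

/-!
# MP_424f45_al: invariance of the counts
-/

set_option autoImplicit false

namespace Pool.Agent.Lib.MP_424f45_al

/-- The number of graded ideals of index `q ^ n` as in the frozen statement. -/
noncomputable def cnt {O L : Type} [CommRing O] [IsLocalRing O] [LieRing L] [LieAlgebra O L]
    (e : Fin 6 → L) (n : ℕ) : ℕ :=
  Set.ncard {I : LieIdeal O L |
    (I : Submodule O L) =
      (⨆ i : ℕ, ((I : Submodule O L) ⊓
        Submodule.span O {y : L | ∃ (j : Fin 6) (w : List (Fin 6)), w.length = i ∧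
          y = List.foldr (fun (k : Fin 6) (a : L) => ⁅e k, a⁆) (e j) w})) ∧
    Nat.card (L ⧸ (I : Submodule O L)) = (Nat.card (IsLocalRing.ResidueField O)) ^ n}

/-- invariance under isomorphisms -/
theorem cnt_equiv {O L₁ L₂ : Type} [CommRing O] [IsLocalRing O] [LieRing L₁] [LieAlgebra O L₁]
    [LieRing L₂] [LieAlgebra O L₂] (Φ : L₁ ≃ₗ⁅O⁆ L₂) (e : Fin 6 → L₁) (n : ℕ) :
    cnt (O := O) (fun j => Φ (e j)) n = cnt (O := O) e n := by
  let E : L₁ ≃ₗ[O] L₂ := Φ.toLinearEquiv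
  have hE : ∀ x, E x = Φ x := fun x => rfl
  let o := Submodule.orderIsoMapComap E
  have hbr : ∀ (w : List (Fin 6)) (j : Fin 6),
      Φ (List.foldr (fun (k : Fin 6) (a : L₁) => ⁅e k, a⁆) (e j) w) =
      List.foldr (fun (k : Fin 6) (a : L₂) => ⁅Φ (e k), a⁆) (Φ (e j)) w := by
    intro w j
    induction w with
    | nil => rfl
    | cons k w ih =>
      simp only [List.foldr_cons]
      rw [← ih]
      exact LieHom.map_lie (Φ : L₁ →ₗ⁅O⁆ L₂) _ _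
  have hV : ∀ i : ℕ, o (Submodule.span O {y : L₁ | ∃ (j : Fin 6) (w : List (Fin 6)),
      w.length = i ∧ y = List.foldr (fun (k : Fin 6) (a : L₁) => ⁅e k, a⁆) (e j) w}) =
      Submodule.span O {y : L₂ | ∃ (j : Fin 6) (w : List (Fin 6)), w.length = i ∧
        y = List.foldr (fun (k : Fin 6) (a : L₂) => ⁅Φ (e k), a⁆) (Φ (e j)) w} := by
    intro i
    show Submodule.map (E : L₁ →ₗ[O] L₂) _ = _
    rw [Submodule.map_span]
    congr 1
    ext y
    constructor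
    · rintro ⟨_, ⟨j, w, hw, rfl⟩, rfl⟩
      exact ⟨j, w, hw, hbr w j⟩
    · rintro ⟨j, w, hw, rfl⟩
      exact ⟨_, ⟨j, w, hw, rfl⟩, hbr w j⟩
  have hco : ∀ I : LieIdeal O L₂, ((LieIdeal.comap (Φ : L₁ →ₗ⁅O⁆ L₂) I : LieIdeal O L₁) :
      Submodule O L₁) = o.symm (I : Submodule O L₂) := by
    intro I
    ext x
    rfl
  unfold cnt
  symm
  rw [← Set.ncard_image_of_injective (f := fun I : LieIdeal O L₂ =>
    (LieIdeal.comap (Φ : L₁ →ₗ⁅O⁆ L₂) I : LieIdeal O L₁))]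
  · congr 1
    ext J
    have hJ : J = LieIdeal.comap (Φ : L₁ →ₗ⁅O⁆ L₂)
        (LieIdeal.comap (Φ.symm : L₂ →ₗ⁅O⁆ L₁) J) := by
      ext x
      rw [LieIdeal.mem_comap, LieIdeal.mem_comap]
      show x ∈ J ↔ Φ.symm (Φ x) ∈ J
      rw [LieEquiv.symm_apply_apply]
    have key : ∀ I : LieIdeal O L₂,
        ((I : Submodule O L₂) =
          (⨆ i : ℕ, ((I : Submodule O L₂) ⊓
            Submodule.span O {y : L₂ | ∃ (j : Fin 6) (w : List (Fin 6)), w.length = i ∧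
              y = List.foldr (fun (k : Fin 6) (a : L₂) => ⁅Φ (e k), a⁆) (Φ (e j)) w})) ∧
        Nat.card (L₂ ⧸ (I : Submodule O L₂)) = (Nat.card (IsLocalRing.ResidueField O)) ^ n) ↔
        (((LieIdeal.comap (Φ : L₁ →ₗ⁅O⁆ L₂) I : LieIdeal O L₁) : Submodule O L₁) =
          (⨆ i : ℕ, (((LieIdeal.comap (Φ : L₁ →ₗ⁅O⁆ L₂) I : LieIdeal O L₁) : Submodule O L₁) ⊓
            Submodule.span O {y : L₁ | ∃ (j : Fin 6) (w : List (Fin 6)), w.length = i ∧
              y = List.foldr (fun (k : Fin 6) (a : L₁) => ⁅e k, a⁆) (e j) w})) ∧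
        Nat.card (L₁ ⧸ ((LieIdeal.comap (Φ : L₁ →ₗ⁅O⁆ L₂) I : LieIdeal O L₁) :
          Submodule O L₁)) = (Nat.card (IsLocalRing.ResidueField O)) ^ n) := by
      intro I
      rw [hco]
      refine and_congr ?_ ?_
      · rw [← o.injective.eq_iff, o.apply_symm_apply, o.map_iSup]
        simp only [o.map_inf, o.apply_symm_apply, hV]
      · have : Nat.card (L₁ ⧸ (o.symm (I : Submodule O L₂))) =
            Nat.card (L₂ ⧸ (I : Submodule O L₂)) :=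
          Nat.card_congr (Submodule.Quotient.equiv _ _ E
            (o.apply_symm_apply (I : Submodule O L₂))).toEquiv
        rw [this]
    constructor
    · intro h
      refine ⟨LieIdeal.comap (Φ.symm : L₂ →ₗ⁅O⁆ L₁) J, ?_, hJ.symm⟩
      rw [hJ] at h
      exact (key _).mpr h
    · rintro ⟨I, hI, rfl⟩
      exact (key I).mp hI
  · intro I I' h
    ext x
    have h1 : Φ.symm x ∈ LieIdeal.comap (Φ : L₁ →ₗ⁅O⁆ L₂) I ↔
        Φ.symm x ∈ LieIdeal.comap (Φ : L₁ →ₗ⁅O⁆ L₂) I' := by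
      have h' : LieIdeal.comap (Φ : L₁ →ₗ⁅O⁆ L₂) I = LieIdeal.comap (Φ : L₁ →ₗ⁅O⁆ L₂) I' := h
      rw [h']
    rw [LieIdeal.mem_comap, LieIdeal.mem_comap] at h1
    have h2 : (Φ : L₁ →ₗ⁅O⁆ L₂) (Φ.symm x) = x := Φ.apply_symm_apply x
    rw [h2] at h1
    exact h1

/-- two presentations with the same kernel -/
theorem exists_equiv {O F L₁ L₂ : Type} [CommRing O] [LieRing F] [LieAlgebra O F] [LieRing L₁]
    [LieAlgebra O L₁] [LieRing L₂] [LieAlgebra O L₂] (π₁ : F →ₗ⁅O⁆ L₁) (π₂ : F →ₗ⁅O⁆ L₂)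
    (h₁ : Function.Surjective π₁) (h₂ : Function.Surjective π₂) (hk : π₁.ker = π₂.ker) :
    ∃ Φ : L₁ ≃ₗ⁅O⁆ L₂, ∀ x, Φ (π₁ x) = π₂ x := by
  have hk' : LinearMap.ker (π₁ : F →ₗ[O] L₁) = LinearMap.ker (π₂ : F →ₗ[O] L₂) := by
    ext x
    have : x ∈ π₁.ker ↔ x ∈ π₂.ker := by rw [hk]
    rw [LieHom.mem_ker, LieHom.mem_ker] at this
    exact this
  let f : L₁ ≃ₗ[O] L₂ :=
    ((π₁ : F →ₗ[O] L₁).quotKerEquivOfSurjective h₁).symm.trans
      ((Submodule.quotEquivOfEq _ _ hk').trans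
        ((π₂ : F →ₗ[O] L₂).quotKerEquivOfSurjective h₂))
  have hf : ∀ x, f (π₁ x) = π₂ x := by
    intro x
    have h1 : ((π₁ : F →ₗ[O] L₁).quotKerEquivOfSurjective h₁).symm (π₁ x) =
        Submodule.Quotient.mk x := by
      rw [LinearEquiv.symm_apply_eq]
      rfl
    show ((π₂ : F →ₗ[O] L₂).quotKerEquivOfSurjective h₂) ((Submodule.quotEquivOfEq _ _ hk')
      (((π₁ : F →ₗ[O] L₁).quotKerEquivOfSurjective h₁).symm (π₁ x))) = _
    rw [h1]
    rfl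
  refine ⟨{ f with
    map_lie' := ?_ }, hf⟩
  intro x y
  obtain ⟨a, rfl⟩ := h₁ x
  obtain ⟨b, rfl⟩ := h₁ y
  show f ⁅π₁ a, π₁ b⁆ = ⁅f (π₁ a), f (π₁ b)⁆
  rw [← LieHom.map_lie, hf, hf, hf, LieHom.map_lie]

end Pool.Agent.Lib.MP_424f45_al
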