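import Pool.Agent.Lib.MP_424f45_al.Fre
import Pool.Agent.Lib.MP_424f45_al.Ten
import Pool.Agent.Lib.MP_424f45_al.Teq
import Pool.Agent.Lib.MP_424f45_al.BC
import Pool.Agent.Lib.MP_424f45_al.Gam
import Pool.Agent.Lib.MP_424f45_al.OwnB
import Pool.Agent.Lib.MP_424f45_al.OwnD

/-!
# MP_424f45_al: the counts over `ℤ_p` and over its unramified quadratic extension differ mod 5
-/

set_option autoImplicit false

namespace Pool.Agent.Lib.MP_424f45_al

/-- the counts do not depend on the presentation -/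
theorem cnt_pres {O L₁ L₂ : Type} [CommRing O] [IsLocalRing O] [LieRing L₁] [LieAlgebra O L₁]
    [LieRing L₂] [LieAlgebra O L₂] (π₁ : FreeLieAlgebra O (Fin 6) →ₗ⁅O⁆ L₁)
    (π₂ : FreeLieAlgebra O (Fin 6) →ₗ⁅O⁆ L₂)
    (h₁ : Function.Surjective π₁) (h₂ : Function.Surjective π₂) (hk : π₁.ker = π₂.ker) (n : ℕ) :
    cnt (O := O) (fun j => π₁ (FreeLieAlgebra.of O j)) n =
      cnt (O := O) (fun j => π₂ (FreeLieAlgebra.of O j)) n := by
  obtain ⟨Φ, hΦ⟩ := exists_equiv π₁ π₂ h₁ h₂ hk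
  rw [← cnt_equiv Φ]
  congr 1
  funext j
  exact hΦ _

theorem differ (p : ℕ) [Fact p.Prime] (hp3 : p % 3 = 2) (hp5 : p % 5 = 1) (O' : Type)
    [CommRing O'] [IsDomain O'] [IsDiscreteValuationRing O'] [Algebra ℤ_[p] O']
    (ω : O') (hω : ω ^ 2 + ω + 1 = 0)
    (hb : ∀ a : O', ∃ x y : ℤ_[p], a = algebraMap ℤ_[p] O' x + ω * algebraMap ℤ_[p] O' y)
    (hi : ∀ x y : ℤ_[p], algebraMap ℤ_[p] O' x + ω * algebraMap ℤ_[p] O' y = 0 →
      x = 0 ∧ y = 0)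
    (hirr : Irreducible (algebraMap ℤ_[p] O' (p : ℤ_[p])))
    (hcard' : Nat.card (IsLocalRing.ResidueField O') = p ^ 2)
    {L L₂ : Type} [LieRing L] [LieAlgebra ℤ_[p] L] [LieRing L₂] [LieAlgebra O' L₂]
    (π : FreeLieAlgebra ℤ_[p] (Fin 6) →ₗ⁅ℤ_[p]⁆ L) (hπs : Function.Surjective π)
    (hπk : π.ker = LieModule.lowerCentralSeries ℤ_[p] (FreeLieAlgebra ℤ_[p] (Fin 6))
        (FreeLieAlgebra ℤ_[p] (Fin 6)) 4)
    (π₂ : FreeLieAlgebra O' (Fin 6) →ₗ⁅O'⁆ L₂) (hπs₂ : Function.Surjective π₂)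
    (hπk₂ : π₂.ker = LieModule.lowerCentralSeries O' (FreeLieAlgebra O' (Fin 6))
        (FreeLieAlgebra O' (Fin 6)) 4) :
    ¬ cnt (O := ℤ_[p]) (fun j => π (FreeLieAlgebra.of ℤ_[p] j)) 26 ≡
      cnt (O := O') (fun j => π₂ (FreeLieAlgebra.of O' j)) 26 [MOD 5] := by
  have hp : p.Prime := Fact.out
  have hcard : Nat.card (IsLocalRing.ResidueField ℤ_[p]) = p := by
    rw [Nat.card_congr (PadicInt.residueField (p := p)).toEquiv, Nat.card_zmod]
  have : Finite (IsLocalRing.ResidueField ℤ_[p]) :=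
    Nat.finite_of_card_ne_zero (by rw [hcard]; exact hp.ne_zero)
  obtain ⟨ζ, hζ, hu⟩ := exists_zeta p hp5
  obtain ⟨S, hSζ, hSe⟩ := exists_sys π hπs hπk ζ hζ hu
  obtain ⟨L', j1, j2, π', hs', hk', hE⟩ := exists_tensor (O' := O') π hπs hπk ω hω hb hi S hSe
  have hζ' : (algebraMap ℤ_[p] O' ζ) ^ 5 = 1 := by rw [← map_pow, hζ, map_one]
  have hu' : ∀ k : ℕ, ¬ 5 ∣ k → IsUnit ((algebraMap ℤ_[p] O' ζ) ^ k - 1) := by
    intro k hk
    have := (hu k hk).map (algebraMap ℤ_[p] O')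
    rwa [map_sub, map_pow, map_one] at this
  obtain ⟨S', hSζ', hSe'⟩ := exists_sys π' hs' hk' _ hζ' hu'
  obtain ⟨E, hEω⟩ := hE S' hSe' (by rw [hSζ', hSζ])
  have : Finite (IsLocalRing.ResidueField O') :=
    Nat.finite_of_card_ne_zero (by rw [hcard']; exact pow_ne_zero _ hp.ne_zero)
  rw [cnt_pres π₂ π' hπs₂ hs' (by rw [hπk₂, hk'])]
  intro hab
  unfold cnt at hab
  have f1 := frozen_modEq S 26
  have f2 := frozen_modEq S' 26
  rw [hcard] at f1 hab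
  rw [hcard'] at f2 hab
  simp only [Sys.V, hSe] at f1
  simp only [Sys.V, hSe'] at f2
  have hϖ : Irreducible (p : ℤ_[p]) := PadicInt.irreducible_p
  have t1 := tup_modEq E (p : ℤ_[p]) hϖ hirr 26
  have hp4 : 4 < p := by
    have := hp.two_le
    omega
  have unit_of : ∀ m : ℕ, 0 < m → m < 4 → IsUnit ((m : ℕ) : ℤ_[p]) := by
    intro m h0 h4
    rw [PadicInt.isUnit_iff]
    by_contra hne
    have h1 : ‖((m : ℤ) : ℤ_[p])‖ < 1 := lt_of_le_of_ne (PadicInt.norm_le_one _) (by simpa using hne)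
    rw [PadicInt.norm_int_lt_one_iff_dvd] at h1
    have := Int.le_of_dvd (by exact_mod_cast h0) h1
    omega
  have g1 := gamma_card E (p : ℤ_[p]) hϖ hirr (by simpa using unit_of 2 (by norm_num) (by norm_num))
    (by simpa using unit_of 3 (by norm_num) (by norm_num))
  rw [g1] at t1
  have := f1.symm.trans (hab.trans f2)
  have h5 := this.trans t1
  have h6 : (S.Tup 26).ncard + 0 ≡ (S.Tup 26).ncard + 4 [MOD 5] := h5
  have h7 := Nat.ModEq.add_left_cancel' _ h6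
  exact absurd h7 (by decide)

end Pool.Agent.Lib.MP_424f45_al
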