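import Mathlib

/-!
# MP_424f45_al: from the identity of functions to the identity of power series
-/

set_option autoImplicit false

open Polynomial Filter Topology

namespace Pool.Agent.Lib.MP_424f45_al

/-- A power series that converges to `0` at all small positive points vanishes. -/
theorem ps_zero (c : ℕ → ℂ) (ε : ℝ) (hε : 0 < ε)
    (h : ∀ y : ℝ, 0 < y → y < ε → HasSum (fun n => c n * (y : ℂ) ^ n) 0) (m : ℕ) : c m = 0 := by
  induction m using Nat.strong_induction_on with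
  | _ m ih =>
    -- the shifted series
    have hs : ∀ y : ℝ, 0 < y → y < ε → HasSum (fun n => c (n + m) * (y : ℂ) ^ n) 0 := by
      intro y hy hy'
      have h1 := (hasSum_nat_add_iff' m).mpr (h y hy hy')
      have h2 : ∑ i ∈ Finset.range m, c i * (y : ℂ) ^ i = 0 := by
        refine Finset.sum_eq_zero fun i hi => ?_
        rw [ih i (Finset.mem_range.mp hi), zero_mul]
      rw [h2, sub_zero] at h1
      have hym : (y : ℂ) ^ m ≠ 0 := pow_ne_zero _ (by exact_mod_cast hy.ne')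
      have h3 := h1.mul_left (((y : ℂ) ^ m)⁻¹)
      rw [mul_zero] at h3
      have h4 : (fun n => c (n + m) * (y : ℂ) ^ n) =
          fun i => ((y : ℂ) ^ m)⁻¹ * (c (i + m) * (y : ℂ) ^ (i + m)) := by
        funext n
        rw [pow_add]
        field_simp
      rw [h4]
      exact h3
    have hr := (hs (ε / 2) (by positivity) (by linarith)).summable.norm
    have htan : Tendsto (fun y : ℝ => ∑' n, c (n + m) * (y : ℂ) ^ n) (𝓝[>] 0)
        (𝓝 (∑' n, c (n + m) * (0 : ℂ) ^ n)) := by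
      refine tendsto_tsum_of_dominated_convergence hr ?_ ?_
      · intro n
        have hc : Continuous fun y : ℝ => c (n + m) * (y : ℂ) ^ n := by fun_prop
        have := hc.tendsto 0
        simp only [Complex.ofReal_zero] at this
        exact this.mono_left nhdsWithin_le_nhds
      · have h1 : ∀ᶠ y : ℝ in 𝓝[>] 0, y ∈ Set.Ioo (0 : ℝ) (ε / 2) :=
          Ioo_mem_nhdsGT (by positivity)
        filter_upwards [h1] with y hy n
        rw [norm_mul, norm_mul, norm_pow, norm_pow]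
        refine mul_le_mul_of_nonneg_left ?_ (norm_nonneg _)
        refine pow_le_pow_left₀ (norm_nonneg _) ?_ n
        rw [Complex.norm_real, Complex.norm_real, Real.norm_of_nonneg hy.1.le,
          Real.norm_of_nonneg (by positivity)]
        exact hy.2.le
    have h0 : (fun y : ℝ => ∑' n, c (n + m) * (y : ℂ) ^ n) =ᶠ[𝓝[>] 0] fun _ => 0 := by
      have h1 : ∀ᶠ y : ℝ in 𝓝[>] 0, y ∈ Set.Ioo (0 : ℝ) ε := Ioo_mem_nhdsGT hε
      filter_upwards [h1] with y hy
      exact (hs y hy.1 hy.2).tsum_eq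
    have h1 : (∑' n, c (n + m) * (0 : ℂ) ^ n) = 0 :=
      tendsto_nhds_unique htan (tendsto_const_nhds.congr' h0.symm)
    rw [tsum_eq_single 0] at h1
    · simpa using h1
    · intro n hn
      rw [zero_pow hn, mul_zero]

/-- Product of a polynomial and a convergent power series. -/
theorem hasSum_mul (F : ℚ[X]) (a : ℕ → ℚ) (y A : ℂ) (h : HasSum (fun n => (a n : ℂ) * y ^ n) A) :
    HasSum (fun n => ((PowerSeries.coeff n ((F : PowerSeries ℚ) * PowerSeries.mk a) : ℚ) : ℂ) *
      y ^ n) (aeval y F * A) := by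
  induction F using Polynomial.induction_on' with
  | add F G hF hG =>
    rw [Polynomial.coe_add, add_mul, map_add, add_mul]
    have h1 := hF.add hG
    have h2 : (fun n => ((PowerSeries.coeff n ((F : PowerSeries ℚ) * PowerSeries.mk a +
        (G : PowerSeries ℚ) * PowerSeries.mk a) : ℚ) : ℂ) * y ^ n) =
        fun n => ((PowerSeries.coeff n ((F : PowerSeries ℚ) * PowerSeries.mk a) : ℚ) : ℂ) *
          y ^ n + ((PowerSeries.coeff n ((G : PowerSeries ℚ) * PowerSeries.mk a) : ℚ) : ℂ) *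
          y ^ n := by
      funext n
      rw [map_add]
      push_cast
      ring
    rw [h2]
    exact h1
  | monomial i b =>
    have hc : ∀ n, PowerSeries.coeff n (((monomial i b : ℚ[X]) : PowerSeries ℚ) *
        PowerSeries.mk a) = if i ≤ n then b * a (n - i) else 0 := by
      intro n
      have h1 : ((monomial i b : ℚ[X]) : PowerSeries ℚ) =
          PowerSeries.C b * (PowerSeries.X : PowerSeries ℚ) ^ i := by
        rw [← C_mul_X_pow_eq_monomial, Polynomial.coe_mul, Polynomial.coe_C, Polynomial.coe_pow,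
          Polynomial.coe_X]
      rw [h1, mul_assoc, PowerSeries.coeff_C_mul, PowerSeries.coeff_X_pow_mul']
      split_ifs with h
      · rw [PowerSeries.coeff_mk]
      · rw [mul_zero]
    have h1 := h.mul_left ((b : ℂ) * y ^ i)
    have hinj : Function.Injective fun n : ℕ => n + i := fun m n hmn => Nat.add_right_cancel hmn
    have h2 : ∀ x ∉ Set.range (fun n : ℕ => n + i),
        ((PowerSeries.coeff x (((monomial i b : ℚ[X]) : PowerSeries ℚ) *
          PowerSeries.mk a) : ℚ) : ℂ) * y ^ x = 0 := by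
      intro x hx
      rw [hc, if_neg, Rat.cast_zero, zero_mul]
      intro hix
      exact hx ⟨x - i, by simp [Nat.sub_add_cancel hix]⟩
    rw [← hinj.hasSum_iff h2]
    have h3 : (aeval y (monomial i b : ℚ[X])) = (b : ℂ) * y ^ i := by
      rw [aeval_monomial]
      rfl
    rw [h3]
    have h4 : (fun n => ((PowerSeries.coeff n (((monomial i b : ℚ[X]) : PowerSeries ℚ) *
          PowerSeries.mk a) : ℚ) : ℂ) * y ^ n) ∘ (fun n : ℕ => n + i) =
        fun n => (b : ℂ) * y ^ i * ((a n : ℂ) * y ^ n) := by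
      funext n
      simp only [Function.comp_apply]
      rw [hc, if_pos (Nat.le_add_left i n), Nat.add_sub_cancel, pow_add]
      push_cast
      ring
    rw [h4]
    exact h1

/-- An identity of functions for small positive `y` gives the identity of power series. -/
theorem formal_of_small (F G : ℚ[X]) (a : ℕ → ℕ) (ε : ℝ) (hε : 0 < ε)
    (h : ∀ y : ℝ, 0 < y → y < ε → ∃ A : ℂ, HasSum (fun n => (a n : ℂ) * (y : ℂ) ^ n) A ∧
      aeval (y : ℂ) F * A = aeval (y : ℂ) G) :
    (F : PowerSeries ℚ) * PowerSeries.mk (fun n => ((a n : ℕ) : ℚ)) = (G : PowerSeries ℚ) := by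
  ext m
  have key := ps_zero (fun n => ((PowerSeries.coeff n ((F : PowerSeries ℚ) *
      PowerSeries.mk (fun n => ((a n : ℕ) : ℚ))) : ℚ) : ℂ) -
      ((PowerSeries.coeff n (G : PowerSeries ℚ) : ℚ) : ℂ)) ε hε ?_ m
  · have h1 := sub_eq_zero.mp key
    exact_mod_cast h1
  intro y hy hy'
  obtain ⟨A, hA, hFA⟩ := h y hy hy'
  have h1 := hasSum_mul F (fun n => ((a n : ℕ) : ℚ)) (y : ℂ) A (by
    simpa using hA)
  have h2 := hasSum_mul G (fun n => if n = 0 then 1 else 0) (y : ℂ) 1 (by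
    have := hasSum_single (f := fun n : ℕ => (((if n = 0 then 1 else 0 : ℚ)) : ℂ) * (y : ℂ) ^ n)
      0 (by
        intro n hn
        simp [hn])
    simpa using this)
  have h3 : PowerSeries.mk (fun n => if n = 0 then (1 : ℚ) else 0) = 1 := by
    ext n
    rw [PowerSeries.coeff_mk, PowerSeries.coeff_one]
  rw [h3, mul_one, mul_one] at h2
  have h4 := h1.sub h2
  rw [hFA, sub_self] at h4
  have h5 : (fun n => (((PowerSeries.coeff n ((F : PowerSeries ℚ) *
      PowerSeries.mk (fun n => ((a n : ℕ) : ℚ))) : ℚ) : ℂ) -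
      ((PowerSeries.coeff n (G : PowerSeries ℚ) : ℚ) : ℂ)) * (y : ℂ) ^ n) =
      fun n => ((PowerSeries.coeff n ((F : PowerSeries ℚ) *
      PowerSeries.mk (fun n => ((a n : ℕ) : ℚ))) : ℚ) : ℂ) * (y : ℂ) ^ n -
      ((PowerSeries.coeff n (G : PowerSeries ℚ) : ℚ) : ℂ) * (y : ℂ) ^ n := by
    funext n
    ring
  rw [h5]
  exact h4

theorem aevalAeval_nat (F : Polynomial (Polynomial ℚ)) (q : ℕ) (y : ℂ) :
    Polynomial.aevalAeval ((q : ℕ) : ℂ) y F =
      aeval y (F.map (evalRingHom ((q : ℕ) : ℚ))) := by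
  induction F using Polynomial.induction_on' with
  | add F G hF hG => rw [map_add, hF, hG, Polynomial.map_add, map_add]
  | monomial i b =>
    rw [map_monomial, aeval_monomial, ← C_mul_X_pow_eq_monomial, map_mul, map_pow,
      aevalAeval_C, aevalAeval_Y]
    congr 1
    rw [coe_evalRingHom]
    have h1 := Polynomial.aeval_algebraMap_apply_eq_algebraMap_eval (A := ℂ) ((q : ℕ) : ℚ) b
    simpa using h1

/-- An identity of functions for large `re s` gives the identity of power series. -/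
theorem formal_of_identity (P Q : Polynomial (Polynomial ℚ)) (q : ℕ) (hq : 2 ≤ q) (a : ℕ → ℕ)
    (C : ℕ) (ha : ∀ k, a k ≤ C ^ k) (hQ : Q.map (evalRingHom ((q : ℕ) : ℚ)) ≠ 0) (σ : ℝ)
    (h : ∀ s : ℂ, σ < s.re → Polynomial.aevalAeval ((q : ℕ) : ℂ) (((q : ℕ) : ℂ) ^ (-s)) Q ≠ 0 →
      (∑' k : ℕ, (a k : ℂ) * ((((q : ℕ) : ℂ) ^ (-s)) ^ k)) =
        Polynomial.aevalAeval ((q : ℕ) : ℂ) (((q : ℕ) : ℂ) ^ (-s)) P /
          Polynomial.aevalAeval ((q : ℕ) : ℂ) (((q : ℕ) : ℂ) ^ (-s)) Q) :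
    ((Q.map (evalRingHom ((q : ℕ) : ℚ)) : ℚ[X]) : PowerSeries ℚ) *
      PowerSeries.mk (fun n => ((a n : ℕ) : ℚ)) =
      ((P.map (evalRingHom ((q : ℕ) : ℚ)) : ℚ[X]) : PowerSeries ℚ) := by
  set F := Q.map (evalRingHom ((q : ℕ) : ℚ)) with hF
  -- no roots near zero
  obtain ⟨ε₁, hε₁, hr⟩ : ∃ ε₁ : ℝ, 0 < ε₁ ∧ ∀ y : ℝ, 0 < y → y < ε₁ → aeval (y : ℂ) F ≠ 0 := by
    have h1 : (F.map (algebraMap ℚ ℝ)) ≠ 0 :=
      (Polynomial.map_ne_zero_iff (algebraMap ℚ ℝ).injective).mpr hQ
    have h2 : ∀ᶠ y : ℝ in 𝓝[>] 0, ¬ (F.map (algebraMap ℚ ℝ)).IsRoot y := by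
      have h3 : {x | (F.map (algebraMap ℚ ℝ)).IsRoot x}.Finite := by
        by_contra hinf
        exact h1 (Polynomial.eq_zero_of_infinite_isRoot _ hinf)
      have h4 : ({x | (F.map (algebraMap ℚ ℝ)).IsRoot x} \ {0}).Finite := h3.subset
        Set.sdiff_subset
      have h5 : ({x | (F.map (algebraMap ℚ ℝ)).IsRoot x} \ {0})ᶜ ∈ 𝓝 (0 : ℝ) :=
        h4.isClosed.isOpen_compl.mem_nhds (by simp)
      filter_upwards [mem_nhdsWithin_of_mem_nhds h5, self_mem_nhdsWithin] with y hy hy0 hroot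
      exact hy ⟨hroot, (ne_of_gt hy0)⟩
    rw [eventually_nhdsWithin_iff, Metric.eventually_nhds_iff] at h2
    obtain ⟨ε, hε, h3⟩ := h2
    refine ⟨ε, hε, ?_⟩
    intro y hy hy' h0
    apply h3 (y := y) (by rw [Real.dist_eq, sub_zero, abs_of_pos hy]; exact hy') hy
    have h4 : aeval (y : ℂ) F = ((eval y (F.map (algebraMap ℚ ℝ)) : ℝ) : ℂ) := by
      rw [eval_map_algebraMap]
      have := Polynomial.aeval_algebraMap_apply ℂ y F
      simpa using this
    rw [h4] at h0
    exact_mod_cast h0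
  have hq1 : (1 : ℝ) < ((q : ℕ) : ℝ) := by exact_mod_cast hq
  have hq0 : (0 : ℝ) < ((q : ℕ) : ℝ) := by linarith
  set ε := min ε₁ (min (((q : ℕ) : ℝ) ^ (-σ)) (1 / (2 * (C : ℝ) + 1))) with hεd
  have hε : 0 < ε := by
    refine lt_min hε₁ (lt_min (Real.rpow_pos_of_pos hq0 _) (by positivity))
  refine formal_of_small F _ a ε hε ?_
  intro y hy hy'
  have hy1 : y < ε₁ := lt_of_lt_of_le hy' (min_le_left _ _)
  have hy2 : y < ((q : ℕ) : ℝ) ^ (-σ) :=
    lt_of_lt_of_le hy' ((min_le_right _ _).trans (min_le_left _ _))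
  have hy3 : y < 1 / (2 * (C : ℝ) + 1) :=
    lt_of_lt_of_le hy' ((min_le_right _ _).trans (min_le_right _ _))
  set s : ℂ := ((-Real.logb q y : ℝ) : ℂ) with hs
  have hqs : ((q : ℕ) : ℂ) ^ (-s) = (y : ℂ) := by
    rw [hs, ← Complex.ofReal_neg, neg_neg]
    have h1 : (((q : ℕ) : ℝ) : ℂ) ^ ((Real.logb q y : ℝ) : ℂ) =
        ((((q : ℕ) : ℝ) ^ (Real.logb q y) : ℝ) : ℂ) := by
      rw [Complex.ofReal_cpow hq0.le]
    rw [Real.rpow_logb hq0 hq1.ne' hy] at h1
    exact_mod_cast h1
  have hsre : σ < s.re := by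
    rw [hs, Complex.ofReal_re]
    have := (Real.logb_lt_iff_lt_rpow hq1 hy).mpr hy2
    linarith
  have h1 := h s hsre
  rw [hqs, aevalAeval_nat, aevalAeval_nat, ← hF] at h1
  have h2 := h1 (hr y hy hy1)
  -- summability
  have hsum : Summable fun n => (a n : ℂ) * (y : ℂ) ^ n := by
    have hCy : (C : ℝ) * y < 1 := by
      have h3 : (C : ℝ) * y ≤ (C : ℝ) * (1 / (2 * (C : ℝ) + 1)) :=
        mul_le_mul_of_nonneg_left hy3.le (Nat.cast_nonneg C)
      have h4 : (C : ℝ) * (1 / (2 * (C : ℝ) + 1)) < 1 := by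
        rw [mul_one_div, div_lt_one (by positivity)]
        have : (0 : ℝ) ≤ (C : ℝ) := Nat.cast_nonneg C
        linarith
      linarith
    have hg := summable_geometric_of_lt_one (r := (C : ℝ) * y) (by positivity) hCy
    refine Summable.of_norm_bounded hg ?_
    intro n
    rw [norm_mul, norm_pow, Complex.norm_real, Real.norm_of_nonneg hy.le, Complex.norm_natCast,
      mul_pow]
    refine mul_le_mul_of_nonneg_right ?_ (by positivity)
    exact_mod_cast ha n
  refine ⟨_, hsum.hasSum, ?_⟩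
  rw [h2]
  exact mul_div_cancel₀ _ (hr y hy hy1)

end Pool.Agent.Lib.MP_424f45_al
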