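import Pool.Agent.Lib.MP_424f45_al.Teq

/-!
# MP_424f45_al: exponential bound for the number of submodules of index `q ^ k`
-/

set_option autoImplicit false

open IsLocalRing

namespace Pool.Agent.Lib.MP_424f45_al

theorem sub_bound (O : Type) [CommRing O] [IsDomain O] [IsDiscreteValuationRing O]
    [Finite (ResidueField O)] (M : Type) [AddCommGroup M] [Module O M] [Module.Finite O M] :
    ∃ C : ℕ, ∀ k : ℕ, {N : Submodule O M | Nat.card (M ⧸ N) =
        Nat.card (ResidueField O) ^ k}.Finite ∧
      {N : Submodule O M | Nat.card (M ⧸ N) = Nat.card (ResidueField O) ^ k}.ncard ≤ C ^ k := by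
  obtain ⟨n, f, hf⟩ := Module.Finite.exists_fin' O M
  refine ⟨Nat.card (ResidueField O) ^ (n * n), fun k => ?_⟩
  obtain ⟨ϖ, hϖ⟩ := IsDiscreteValuationRing.exists_irreducible O
  have hmax : maximalIdeal O = Ideal.span {ϖ} := hϖ.maximalIdeal_eq
  set J : Ideal O := maximalIdeal O ^ k with hJ
  have hcard : Nat.card (O ⧸ J) = Nat.card (ResidueField O) ^ k := by
    have h1 := cardQuot_pow_of_prime (S := O) (P := maximalIdeal O)
      (IsDiscreteValuationRing.not_a_field O) (i := k)
    exact h1
  have hJfin : Finite (O ⧸ J) :=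
    Nat.finite_of_card_ne_zero (by rw [hcard]; exact pow_ne_zero _ Nat.card_pos.ne')
  let red : (Fin n → O) →ₗ[O] (Fin n → O ⧸ J) :=
    LinearMap.pi fun i => (Submodule.mkQ J).comp (LinearMap.proj i)
  let Ψ : (Fin n → Fin n → O ⧸ J) → Submodule O M := fun W =>
    Submodule.map f (Submodule.comap red (Submodule.span O (Set.range W)))
  have hsub : {N : Submodule O M | Nat.card (M ⧸ N) = Nat.card (ResidueField O) ^ k} ⊆
      Set.range Ψ := by
    intro N hN
    have hN' : Nat.card (M ⧸ N) = Nat.card (ResidueField O) ^ k := hN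
    set N' := Submodule.comap f N with hN'd
    -- the quotients agree
    have hq : Nat.card ((Fin n → O) ⧸ N') = Nat.card (ResidueField O) ^ k := by
      rw [← hN']
      have hker : LinearMap.ker (N.mkQ.comp f) = N' := by
        rw [LinearMap.ker_comp, Submodule.ker_mkQ]
      have e1 := (N.mkQ.comp f).quotKerEquivOfSurjective
        ((Submodule.mkQ_surjective N).comp hf)
      exact Nat.card_congr ((Submodule.quotEquivOfEq _ _ hker.symm).trans e1).toEquiv
    -- generators
    obtain ⟨v, hv⟩ : ∃ v : Fin n → (Fin n → O), Submodule.span O (Set.range v) = N' := by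
      obtain ⟨m, b⟩ := Submodule.basisOfPid (Pi.basisFun O (Fin n)) N'
      have hm : m ≤ n := by
        have h1 := Submodule.finrank_le N'
        rw [Module.finrank_eq_card_basis b, Module.finrank_fin_fun, Fintype.card_fin] at h1
        exact h1
      refine ⟨fun i => if h : (i : ℕ) < m then (b ⟨i, h⟩ : Fin n → O) else 0, ?_⟩
      apply le_antisymm
      · rw [Submodule.span_le]
        rintro _ ⟨i, rfl⟩
        dsimp only
        split_ifs with h
        · exact (b ⟨i, h⟩).2
        · exact N'.zero_mem
      · intro x hx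
        have h1 := b.sum_repr ⟨x, hx⟩
        have h2 := congrArg (Submodule.subtype N') h1
        rw [map_sum] at h2
        have h3 : ∑ i : Fin m, (b.repr ⟨x, hx⟩) i • (b i : Fin n → O) = x := h2
        rw [← h3]
        refine Submodule.sum_mem _ fun i _ => Submodule.smul_mem _ _ (Submodule.subset_span ?_)
        refine ⟨⟨i, lt_of_lt_of_le i.2 hm⟩, ?_⟩
        simp
    have hkerred : LinearMap.ker red ≤ N' := by
      intro x hx
      have h1 : ∀ i, x i ∈ J := by
        intro i
        have h2 := congrFun (LinearMap.mem_ker.mp hx) i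
        exact (Submodule.Quotient.mk_eq_zero J).mp h2
      have h2 : ∀ i, ∃ c, x i = ϖ ^ k * c := by
        intro i
        have h3 := h1 i
        rw [hJ, hmax, Ideal.span_singleton_pow, Ideal.mem_span_singleton] at h3
        exact h3
      choose c hc using h2
      have h3 : x = ϖ ^ k • c := by
        funext i
        rw [Pi.smul_apply, smul_eq_mul, ← hc i]
      have h4 := teq_kill O ϖ (by rw [hmax]; exact Ideal.mem_span_singleton_self ϖ) k
        ((Fin n → O) ⧸ N') hq (Submodule.Quotient.mk c)
      rw [← Submodule.Quotient.mk_smul, Submodule.Quotient.mk_eq_zero] at h4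
      rw [h3]
      exact h4
    refine ⟨fun i => red (v i), ?_⟩
    show Submodule.map f (Submodule.comap red (Submodule.span O (Set.range fun i => red (v i)))) = N
    have h1 : (Set.range fun i => red (v i)) = red '' (Set.range v) := by
      rw [← Set.range_comp]
      rfl
    rw [h1, ← Submodule.map_span, hv, Submodule.comap_map_eq, sup_eq_left.mpr hkerred, hN'd,
      Submodule.map_comap_eq_of_surjective hf]
  have hfinr : (Set.range Ψ).Finite := Set.finite_range Ψ
  refine ⟨hfinr.subset hsub, ?_⟩
  calc _ ≤ (Set.range Ψ).ncard := Set.ncard_le_ncard hsub hfinr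
    _ ≤ Nat.card (Fin n → Fin n → O ⧸ J) := by
        rw [← Set.image_univ, ← Set.ncard_univ]
        exact Set.ncard_image_le Set.finite_univ
    _ = (Nat.card (ResidueField O) ^ (n * n)) ^ k := by
        rw [Nat.card_fun, Nat.card_fun, hcard, Nat.card_fin, ← pow_mul, ← pow_mul, ← pow_mul]
        ring_nf

end Pool.Agent.Lib.MP_424f45_al
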