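import Mathlib

/-!
# MP_424f45_al: sums over a set with finite fibres
-/

set_option autoImplicit false

namespace Pool.Agent.Lib.MP_424f45_al

theorem fiber_sum {G : Type} (deg : G → ℕ) (hfin : ∀ k, Finite {x // deg x = k}) (a : ℕ → ℕ)
    (ha : ∀ k, Nat.card {x // deg x = k} = a k) (C : ℕ) (hC : ∀ k, a k ≤ C ^ k) (z : ℂ)
    (hz : C * ‖z‖ < 1) :
    Summable (fun x : G => z ^ deg x) ∧
      (∑' x : G, z ^ deg x) = ∑' k : ℕ, (a k : ℂ) * z ^ k := by
  have hinner : ∀ (w : ℝ) (k : ℕ), (∑' x : {x // deg x = k}, w ^ deg x.1) = (a k : ℝ) * w ^ k := by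
    intro w k
    have h1 : (fun x : {x // deg x = k} => w ^ deg x.1) = fun _ => w ^ k := by
      funext x
      rw [x.2]
    have := hfin k
    have := Fintype.ofFinite {x // deg x = k}
    rw [h1, tsum_fintype, Finset.sum_const, nsmul_eq_mul, Finset.card_univ, ← Nat.card_eq_fintype_card,
      ha]
  have hinnerC : ∀ (w : ℂ) (k : ℕ), (∑' x : {x // deg x = k}, w ^ deg x.1) = (a k : ℂ) * w ^ k := by
    intro w k
    have h1 : (fun x : {x // deg x = k} => w ^ deg x.1) = fun _ => w ^ k := by
      funext x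
      rw [x.2]
    have := hfin k
    have := Fintype.ofFinite {x // deg x = k}
    rw [h1, tsum_fintype, Finset.sum_const, nsmul_eq_mul, Finset.card_univ, ← Nat.card_eq_fintype_card,
      ha]
  have hnorm : Summable (fun x : G => ‖z ^ deg x‖) := by
    rw [← (Equiv.sigmaFiberEquiv deg).summable_iff]
    refine (summable_sigma_of_nonneg
      (f := (fun x : G => ‖z ^ deg x‖) ∘ (Equiv.sigmaFiberEquiv deg))
      (fun x => norm_nonneg _)).mpr ?_
    constructor
    · intro k
      have := hfin k
      exact Summable.of_finite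
    · have hg := summable_geometric_of_lt_one (r := (C : ℝ) * ‖z‖) (by positivity) hz
      refine Summable.of_nonneg_of_le (fun k => tsum_nonneg fun x => norm_nonneg _) ?_ hg
      intro k
      have h1 : (∑' y : {x // deg x = k},
          ((fun x : G => ‖z ^ deg x‖) ∘ (Equiv.sigmaFiberEquiv deg)) ⟨k, y⟩) =
          (a k : ℝ) * ‖z‖ ^ k := by
        rw [← hinner]
        refine tsum_congr fun y => ?_
        show ‖z ^ deg y.1‖ = _
        rw [norm_pow]
      rw [h1, mul_pow]
      refine mul_le_mul_of_nonneg_right ?_ (by positivity)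
      exact_mod_cast hC k
  have hs : Summable (fun x : G => z ^ deg x) := hnorm.of_norm
  refine ⟨hs, ?_⟩
  have hs' : Summable ((fun x : G => z ^ deg x) ∘ (Equiv.sigmaFiberEquiv deg)) :=
    (Equiv.sigmaFiberEquiv deg).summable_iff.mpr hs
  rw [← (Equiv.sigmaFiberEquiv deg).tsum_eq]
  have h2 := hs'.tsum_sigma
  refine h2.trans ?_
  refine tsum_congr fun k => ?_
  rw [← hinnerC]
  rfl

end Pool.Agent.Lib.MP_424f45_al
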